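import Pool.Agent.Helper9K9.ZY.GeoBasic

/-!
[LOC], [GEN], [DIM], [DLT], [COMP], [GDIM]: subvarieties of the affine space (after the torus case
by helper69).
-/

set_option autoImplicit false

open MvPolynomial

namespace Pool.Agent.Helper9K9.ZY

open Pool.Agent.Helper9K9.ZU (Indep td le_td exists_td)

namespace AffL

variable {ι : Type}

/-- closed sets are recovered from their ideals -/
theorem zeros_idealOf (S : Set (MvPolynomial ι ℂ)) :
    zeros (idealOf (zeros S) : Set (MvPolynomial ι ℂ)) = zeros S := by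
  apply Set.Subset.antisymm
  · rintro x h
    exact fun f hf => h f (mem_idealOf.2 fun y hy => hy f hf)
  · rintro x hx
    exact fun f hf => mem_idealOf.1 hf x hx

theorem zeros_idealOf' {A : Set (ι → ℂ)} (hA : ∃ S, A = zeros S) :
    zeros (idealOf A : Set (MvPolynomial ι ℂ)) = A := by
  obtain ⟨S, rfl⟩ := hA
  exact zeros_idealOf S

theorem zeros_anti {S T : Set (MvPolynomial ι ℂ)} (h : S ⊆ T) : zeros T ⊆ zeros S :=
  fun _ hx f hf => hx f (h hf)

/-- Nullstellensatz -/
theorem idealOf_zeros [Fintype ι] (P : Ideal (MvPolynomial ι ℂ)) [hP : P.IsPrime] :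
    idealOf (zeros (P : Set (MvPolynomial ι ℂ))) = P := by
  apply le_antisymm
  · intro f hf
    rw [← MvPolynomial.IsPrime.vanishingIdeal_zeroLocus (K := ℂ) P]
    rw [mem_vanishingIdeal_iff]
    intro x hx
    rw [mem_zeroLocus_iff] at hx
    have h2 : eval x f = 0 := mem_idealOf.1 hf x fun g hg => by
      have := hx g hg
      rwa [← coe_aeval_eq_eval]
    rw [← coe_aeval_eq_eval] at h2
    exact h2
  · intro f hf
    exact mem_idealOf.2 fun x hx => hx f hf

theorem isIrr_zeros [Fintype ι] (P : Ideal (MvPolynomial ι ℂ)) [hP : P.IsPrime] :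
    IsIrr (zeros (P : Set (MvPolynomial ι ℂ))) :=
  ⟨⟨_, rfl⟩, by rw [idealOf_zeros P]; exact hP⟩

end AffL

open AffL

theorem loc : S_LOC := by
  intro ι _ K _ i x
  set P : Ideal (MvPolynomial ι ℂ) := RingHom.ker (eval₂Hom i x) with hP
  have hS : {f | eval₂ i x f = 0} = (P : Set (MvPolynomial ι ℂ)) := by
    ext f
    rw [Set.mem_ofPred_eq, SetLike.mem_coe, hP, RingHom.mem_ker, coe_eval₂Hom]
  have hPp : P.IsPrime := RingHom.ker_isPrime _
  rw [hS]
  refine ⟨isIrr_zeros P, fun f => ?_⟩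
  rw [idealOf_zeros P, hP, RingHom.mem_ker, coe_eval₂Hom]

theorem gen : S_GEN := by
  intro ι _ A hA
  haveI : (idealOf A).IsPrime := hA.2
  refine ⟨FractionRing (MvPolynomial ι ℂ ⧸ idealOf A), inferInstance,
    ((algebraMap (MvPolynomial ι ℂ ⧸ idealOf A)
      (FractionRing (MvPolynomial ι ℂ ⧸ idealOf A))).comp
      (Ideal.Quotient.mk (idealOf A))).comp C,
    fun j => algebraMap (MvPolynomial ι ℂ ⧸ idealOf A)
      (FractionRing (MvPolynomial ι ℂ ⧸ idealOf A)) (Ideal.Quotient.mk (idealOf A) (X j)),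
    fun f => ?_⟩
  set φ : MvPolynomial ι ℂ →+* FractionRing (MvPolynomial ι ℂ ⧸ idealOf A) :=
    (algebraMap (MvPolynomial ι ℂ ⧸ idealOf A)
    (FractionRing (MvPolynomial ι ℂ ⧸ idealOf A))).comp
    (Ideal.Quotient.mk (idealOf A)) with hφ
  have h1 : ∀ f, eval₂ (φ.comp C) (fun j => φ (X j)) f = φ f := by
    intro f
    have : eval₂Hom (φ.comp C) (fun j => φ (X j)) = φ := by
      apply MvPolynomial.ringHom_ext
      · intro r
        rw [eval₂Hom_C]
        rfl
      · intro j
        rw [eval₂Hom_X']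
    rw [← coe_eval₂Hom, this]
  have h2 : eval₂ (φ.comp C) (fun j => φ (X j)) f = 0 ↔ f ∈ idealOf A := by
    rw [h1, hφ, RingHom.comp_apply, map_eq_zero_iff _ (IsFractionRing.injective _ _),
      Ideal.Quotient.eq_zero_iff_mem]
  rw [← h2]
  rfl

namespace DimL

variable {ι : Type}

/-- the coordinate ring -/
abbrev CR (A : Set (ι → ℂ)) : Type := MvPolynomial ι ℂ ⧸ idealOf A

/-- the coordinate functions -/
noncomputable def cf (A : Set (ι → ℂ)) (j : ι) : CR A := Ideal.Quotient.mk (idealOf A) (X j)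

theorem aeval_cf (A : Set (ι → ℂ)) {J : Type} (s : J → ι) (f : MvPolynomial J ℂ) :
    aeval (fun j => cf A (s j)) f = Ideal.Quotient.mk (idealOf A) (rename s f) := by
  have : (aeval (fun j => cf A (s j)) : MvPolynomial J ℂ →ₐ[ℂ] CR A) =
      (Ideal.Quotient.mkₐ ℂ (idealOf A)).comp (rename s) := by
    apply MvPolynomial.algHom_ext
    intro j
    rw [aeval_X, AlgHom.comp_apply, rename_X]
    rfl
  rw [this]
  rfl

theorem adjoin_cf (A : Set (ι → ℂ)) : Algebra.adjoin ℂ (Set.range (cf A)) = ⊤ := by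
  rw [eq_top_iff]
  rintro f -
  obtain ⟨g, rfl⟩ := Ideal.Quotient.mk_surjective f
  have h := aeval_cf A id g
  rw [rename_id_apply] at h
  rw [← h, Algebra.adjoin_range_eq_range_aeval]
  exact ⟨g, rfl⟩

/-- transcendence bases among the coordinate functions -/
theorem exists_basis [Fintype ι] {A : Set (ι → ℂ)} (hp : (idealOf A).IsPrime) :
    ∃ s : Fin (dimI A) → ι, IsTranscendenceBasis ℂ (fun j => cf A (s j)) := by
  haveI := hp
  haveI : Algebra.IsAlgebraic (Algebra.adjoin ℂ (Set.range (cf A))) (CR A) := by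
    refine ⟨fun a => ?_⟩
    have ha : a ∈ Algebra.adjoin ℂ (Set.range (cf A)) := by
      rw [adjoin_cf]
      trivial
    exact isAlgebraic_algebraMap (⟨a, ha⟩ : Algebra.adjoin ℂ (Set.range (cf A)))
  obtain ⟨u, hu, hb⟩ := exists_isTranscendenceBasis_subset (R := ℂ) (Set.range (cf A))
  have hfin : Finite u := (Set.finite_range (cf A)).subset hu
  have h1 := hb.cardinalMk_eq_trdeg
  have h2 : dimI A = Nat.card u := by
    unfold dimI
    rw [← h1]
    rfl
  rw [h2]
  have e : Fin (Nat.card u) ≃ u := (Finite.equivFin u).symm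
  choose r hr using fun v : u => hu v.2
  refine ⟨fun j => r (e j), ?_⟩
  have h3 : (fun j => cf A (r (e j))) = (fun v : u => (v : CR A)) ∘ e := by
    funext j
    rw [Function.comp_apply, hr]
  rw [h3]
  exact (isTranscendenceBasis_equiv e).2 hb

theorem trdeg_lt {A : Set (ι → ℂ)} [Fintype ι] (hp : (idealOf A).IsPrime) :
    Algebra.trdeg ℂ (CR A) < Cardinal.aleph0 := by
  haveI := hp
  haveI : Algebra.FiniteType ℂ (CR A) := inferInstance
  exact trdeg_lt_aleph0_of_finiteType

theorem card_le [Fintype ι] {A : Set (ι → ℂ)} (hp : (idealOf A).IsPrime) {d : ℕ}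
    (s : Fin d → ι) (h : AlgebraicIndependent ℂ (fun j => cf A (s j))) : d ≤ dimI A := by
  haveI := hp
  have h1 := h.cardinalMk_le_trdeg
  rw [Cardinal.mk_fin] at h1
  unfold dimI
  rw [← Cardinal.toNat_natCast d]
  exact Cardinal.toNat_le_toNat h1 (trdeg_lt hp)

theorem indep_iff {A : Set (ι → ℂ)} {K : Type} [Field K] {i : ℂ →+* K} {x : ι → K}
    (h : IsGen A i x) {d : ℕ} (s : Fin d → ι) :
    Indep i (fun j => x (s j)) ↔ AlgebraicIndependent ℂ (fun j => cf A (s j)) := by
  rw [algebraicIndependent_iff]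
  have h1 : ∀ f : MvPolynomial (Fin d) ℂ,
      eval₂ i (fun j => x (s j)) f = 0 ↔ aeval (fun j => cf A (s j)) f = 0 := by
    intro f
    rw [aeval_cf, Ideal.Quotient.eq_zero_iff_mem, h, eval₂_rename]
    rfl
  unfold Indep
  simp only [h1]

theorem isPrime_of_isGen {A : Set (ι → ℂ)} {K : Type} [Field K] {i : ℂ →+* K} {x : ι → K}
    (h : IsGen A i x) : (idealOf A).IsPrime := by
  have : idealOf A = RingHom.ker (eval₂Hom i x) := by
    ext f
    rw [RingHom.mem_ker, coe_eval₂Hom]
    exact h f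
  rw [this]
  exact RingHom.ker_isPrime _

end DimL

open DimL

theorem dim : S_DIM := by
  intro ι _ A K _ i x h
  have hp := isPrime_of_isGen h
  unfold td
  apply le_antisymm
  · apply le_csSup
    · refine ⟨dimI A, ?_⟩
      rintro d ⟨s, hs⟩
      exact card_le hp s ((indep_iff h s).1 hs)
    · obtain ⟨s, hs⟩ := exists_basis hp
      exact ⟨s, (indep_iff h s).2 hs.1⟩
  · apply csSup_le'
    rintro d ⟨s, hs⟩
    exact card_le hp s ((indep_iff h s).1 hs)

theorem dlt : S_DLT := by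
  intro ι _ A B hA hB hAB hne
  have hQ := hA.2
  have hP := hB.2
  have hPQ : idealOf B ≤ idealOf A := idealOf_anti hAB
  obtain ⟨s, hs⟩ := exists_basis hQ
  have hsB : AlgebraicIndependent ℂ (fun j => cf B (s j)) := by
    rw [algebraicIndependent_iff]
    intro f hf
    rw [aeval_cf, Ideal.Quotient.eq_zero_iff_mem] at hf
    apply (algebraicIndependent_iff.1 hs.1) f
    rw [aeval_cf, Ideal.Quotient.eq_zero_iff_mem]
    exact hPQ hf
  have hle : dimI A ≤ dimI B := card_le hP s hsB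
  refine lt_of_le_of_ne hle fun heq => ?_
  have hdB : Algebra.trdeg ℂ (CR B) ≤ Cardinal.mk (Fin (dimI A)) := by
    rw [Cardinal.mk_fin, heq]
    unfold dimI
    rw [Cardinal.cast_toNat_of_lt_aleph0 (trdeg_lt hP)]
  have hbas : IsTranscendenceBasis ℂ (fun j => cf B (s j)) :=
    hsB.isTranscendenceBasis_of_trdeg_le_of_finite hdB
  have hlt : ∃ g ∈ idealOf A, g ∉ idealOf B := by
    by_contra hcon
    push Not at hcon
    have h1 : idealOf A = idealOf B := le_antisymm hcon hPQ
    apply hne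
    rw [← zeros_idealOf' hA.1, h1, zeros_idealOf' hB.1]
  obtain ⟨g, hgA, hgB⟩ := hlt
  haveI := hP
  haveI := hbas.isAlgebraic
  have halg : IsAlgebraic (Algebra.adjoin ℂ (Set.range fun j => cf B (s j)))
      (Ideal.Quotient.mk (idealOf B) g) := Algebra.IsAlgebraic.isAlgebraic _
  have hg0 : Ideal.Quotient.mk (idealOf B) g ≠ 0 := by
    rwa [Ne, Ideal.Quotient.eq_zero_iff_mem]
  obtain ⟨r, hr0, t, hr⟩ := halg.exists_nonzero_dvd (mem_nonZeroDivisors_of_ne_zero hg0)
  obtain ⟨r, hrm⟩ := r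
  have hrm' := hrm
  rw [Algebra.adjoin_range_eq_range_aeval] at hrm'
  obtain ⟨h, hh⟩ := hrm'
  have hh' : aeval (fun j => cf B (s j)) h = r := hh
  have h0 : h = 0 := by
    apply (algebraicIndependent_iff.1 hs.1) h
    rw [aeval_cf, Ideal.Quotient.eq_zero_iff_mem]
    have h2 : (r : CR B) = Ideal.Quotient.mk (idealOf B) g * t := hr
    obtain ⟨t', rfl⟩ := Ideal.Quotient.mk_surjective t
    rw [← hh', aeval_cf, ← map_mul, Ideal.Quotient.eq] at h2
    have h3 := hPQ h2
    have h4 : g * t' ∈ idealOf A := Ideal.mul_mem_right _ _ hgA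
    have h5 := Ideal.add_mem _ h3 h4
    rwa [sub_add_cancel] at h5
  apply hr0
  apply Subtype.ext
  show r = 0
  rw [← hh', h0, map_zero]

namespace CompL

variable {ι : Type}

theorem zeros_span (S : Set (MvPolynomial ι ℂ)) :
    zeros (Ideal.span S : Set (MvPolynomial ι ℂ)) = zeros S := by
  apply Set.Subset.antisymm
  · exact zeros_anti Ideal.subset_span
  · rintro x h f hf
    have : Ideal.span S ≤ RingHom.ker (eval x : MvPolynomial ι ℂ →+* ℂ) :=
      Ideal.span_le.2 fun g hg => h g hg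
    exact this hf

theorem span_le_idealOf {S : Set (MvPolynomial ι ℂ)} {A : Set (ι → ℂ)} (h : A ⊆ zeros S) :
    Ideal.span S ≤ idealOf A :=
  Ideal.span_le.2 fun _ hg => mem_idealOf.2 fun _ hx => (h hx) _ hg

/-- an irreducible subset is contained in the zeros of a minimal prime, which are a component -/
theorem exists_comp [Fintype ι] (S : Set (MvPolynomial ι ℂ)) (A : Set (ι → ℂ)) (hA : IsIrr A)
    (hAS : A ⊆ zeros S) : ∃ P ∈ (Ideal.span S).minimalPrimes,
      A ⊆ zeros (P : Set (MvPolynomial ι ℂ)) ∧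
      IsComponent (zeros (P : Set (MvPolynomial ι ℂ))) (zeros S) := by
  haveI : (idealOf A).IsPrime := hA.2
  obtain ⟨P, hP, hPA⟩ := Ideal.exists_minimalPrimes_le (span_le_idealOf hAS)
  have hPp : P.IsPrime := hP.1.1
  refine ⟨P, hP, ?_, isIrr_zeros P, ?_, ?_⟩
  · rw [← zeros_idealOf' hA.1]
    exact zeros_anti hPA
  · rw [← zeros_span S]
    exact zeros_anti hP.1.2
  · intro B hB h1 h2
    have h3 : idealOf B ≤ P := by
      have := idealOf_anti h1
      rwa [idealOf_zeros P] at this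
    have h4 : Ideal.span S ≤ idealOf B := span_le_idealOf h2
    have h5 : P ≤ idealOf B := hP.2 ⟨hB.2, h4⟩ h3
    rw [← zeros_idealOf' hB.1, le_antisymm h3 h5]

end CompL

open CompL

theorem comp : S_COMP := by
  intro ι _ S
  refine ⟨?_, fun A hA hAS => ?_⟩
  · apply Set.Finite.subset
      ((Ideal.finite_minimalPrimes_of_isNoetherianRing (MvPolynomial ι ℂ) (Ideal.span S)).image
        fun P : Ideal (MvPolynomial ι ℂ) => zeros (P : Set (MvPolynomial ι ℂ)))
    rintro B ⟨hB, hBS, hmax⟩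
    obtain ⟨P, hP, h1, h2⟩ := CompL.exists_comp S B hB hBS
    exact ⟨P, hP, hmax _ h2.1 h1 h2.2.1⟩
  · obtain ⟨P, hP, h1, h2⟩ := CompL.exists_comp S A hA hAS
    exact ⟨_, h2, h1⟩

end Pool.Agent.Helper9K9.ZY
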