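import Pool.Agent.Helper9K9.ZY.Tr

/-!
[SPT], [COEF], [TT], [SPEC] (helper12)
-/

set_option autoImplicit false

open MvPolynomial

namespace Pool.Agent.Helper9K9.ZY

open Pool.Agent.Helper9K9.ZU (Indep td)

namespace SptL

/-- values of polynomials in `(z, t)` by the coefficients of `t ^ n` -/
theorem eval_ext {F K K₁ I : Type} [CommRing F] [Field K] [Field K₁] (i : F →+* K) (j : K →+* K₁)
    (t : K₁) (z : I → K) (f : MvPolynomial (Option I) F) :
    eval₂ (j.comp i) (ext j t z) f =
      Polynomial.eval₂ j t ((optionEquivLeft F I f).map (eval₂Hom i z)) := by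
  have h : eval₂Hom (j.comp i) (ext j t z) =
      (Polynomial.eval₂RingHom j t).comp ((Polynomial.mapRingHom (eval₂Hom i z)).comp
        (optionEquivLeft F I : MvPolynomial (Option I) F →+* _)) := by
    apply MvPolynomial.ringHom_ext
    · intro r
      simp [optionEquivLeft_C]
    · intro o
      rcases o with _ | a
      · simp [optionEquivLeft_X_none, ext]
      · simp [optionEquivLeft_X_some, ext]
  exact RingHom.congr_fun h f

theorem eval_ext_zero {F K K₁ I : Type} [CommRing F] [Field K] [Field K₁] {i : F →+* K}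
    {j : K →+* K₁} {t : K₁} (ht : Tr j t) {z : I → K} {f : MvPolynomial (Option I) F} :
    eval₂ (j.comp i) (ext j t z) f = 0 ↔ ∀ n, eval₂ i z ((optionEquivLeft F I f).coeff n) = 0 := by
  rw [eval_ext]
  constructor
  · intro h n
    have h1 := ht _ h
    have h2 := congrArg (fun p => p.coeff n) h1
    simpa using h2
  · intro h
    have h1 : (optionEquivLeft F I f).map (eval₂Hom i z) = 0 := by
      ext n
      simpa using h n
    rw [h1, Polynomial.eval₂_zero]

/-- a family -/
def Fam (C : Corr) {K : Type} [Field K] (i : ℂ →+* K) {I κ : Type} (γ : I → K) (s : κ → I) :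
    Prop :=
  (∀ a, ¬ Sg C i (γ (s a))) ∧ ∀ a b, a ≠ b → ¬ Iso C i (γ (s a)) (γ (s b))

theorem Fam.inj {C : Corr} {K : Type} [Field K] {i : ℂ →+* K} {I κ : Type} {γ : I → K} {s : κ → I}
    (h : Fam C i γ s) : Function.Injective s := by
  intro a b hab
  by_contra hne
  refine h.2 a b hne ?_
  rw [hab]
  exact (eq_leaf C K i).1 _

theorem bdd (C : Corr) {K : Type} [Field K] (i : ℂ →+* K) {I : Type} [Fintype I] (γ : I → K) :
    BddAbove {d : ℕ | ∃ s : Fin d → I, (∀ a, ¬ Sg C i (γ (s a))) ∧
      ∀ a b, a ≠ b → ¬ Iso C i (γ (s a)) (γ (s b))} := by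
  refine ⟨Fintype.card I, ?_⟩
  rintro d ⟨s, hs⟩
  have h1 : Function.Injective s := Fam.inj (C := C) (i := i) (γ := γ) hs
  simpa using Fintype.card_le_of_injective s h1

theorem exists_fam (C : Corr) {K : Type} [Field K] (i : ℂ →+* K) {I : Type} [Fintype I]
    (γ : I → K) : ∃ s : Fin (rk C i γ) → I, Fam C i γ s := by
  have := Nat.sSup_mem (s := {d : ℕ | ∃ s : Fin d → I, (∀ a, ¬ Sg C i (γ (s a))) ∧
      ∀ a b, a ≠ b → ¬ Iso C i (γ (s a)) (γ (s b))}) ⟨0, Fin.elim0, fun a => a.elim0,
        fun a => a.elim0⟩ (bdd C i γ)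
  exact this

theorem card_le_rk {C : Corr} {K : Type} [Field K] {i : ℂ →+* K} {I κ : Type} [Fintype I]
    [Fintype κ] {γ : I → K} {s : κ → I} (h : Fam C i γ s) : Fintype.card κ ≤ rk C i γ := by
  refine le_csSup (bdd C i γ) ⟨fun a => s ((Fintype.equivFin κ).symm a), fun a => h.1 _,
    fun a b hab => h.2 _ _ fun h1 => hab ?_⟩
  exact (Fintype.equivFin κ).symm.injective h1

/-- isogenies specialize -/
theorem iso_spz {C : Corr} {K K' : Type} [Field K] [Field K'] {i : ℂ →+* K} {i' : ℂ →+* K'}
    {J : Type} {γ : J → K} {γ' : J → K'} (h : Spz i i' γ γ') {a b : J}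
    (h1 : Iso C i (γ a) (γ b)) : Iso C i' (γ' a) (γ' b) := by
  obtain ⟨N, hN, h2⟩ := h1
  have e : ∀ {A : Type} (x : J → A), x ∘ ![a, b] = ![x a, x b] := by
    intro A x
    funext j
    fin_cases j <;> rfl
  refine ⟨N, hN, ?_⟩
  have h3 := h (rename ![a, b] (C.Ψ N)) (by rw [eval₂_rename, e]; exact h2)
  rw [eval₂_rename, e] at h3
  exact h3

/-- special values specialize -/
theorem sg_spz {C : Corr} {K K' : Type} [Field K] [Field K'] {i : ℂ →+* K} {i' : ℂ →+* K'}
    {J : Type} {γ : J → K} {γ' : J → K'} (h : Spz i i' γ γ') {a : J}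
    (h1 : Sg C i (γ a)) : Sg C i' (γ' a) := by
  obtain ⟨s, hs, h2⟩ := h1
  refine ⟨s, hs, ?_⟩
  have h3 := h (X a - MvPolynomial.C s) (by
    rw [eval₂_sub, eval₂_X, eval₂_C, h2, sub_self])
  rw [eval₂_sub, eval₂_X, eval₂_C, sub_eq_zero] at h3
  exact h3.symm

end SptL

open SptL

/-- [SPT] -/
theorem spt : S_SPT := by
  intro K K' _ _ i i' I z ζ h K₁ K₁' _ _ j j' t t' ht f hf
  rw [eval_ext_zero ht] at hf
  rw [eval_ext]
  have h1 : (optionEquivLeft ℂ I f).map (eval₂Hom i' ζ) = 0 := by
    ext n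
    simpa using h _ (hf n)
  rw [h1, Polynomial.eval₂_zero]

/-- [COEF] -/
theorem coef : S_COEF := by
  intro K _ i I z K₁ _ j t H hH
  obtain ⟨n, hn⟩ : ∃ n, eval₂ i z ((optionEquivLeft ℂ I H).coeff n) ≠ 0 := by
    by_contra hcon
    push Not at hcon
    apply hH
    rw [eval_ext]
    have h1 : (optionEquivLeft ℂ I H).map (eval₂Hom i z) = 0 := by
      ext n
      simpa using hcon n
    rw [h1, Polynomial.eval₂_zero]
  refine ⟨_, hn, ?_⟩
  intro K' _ i' ζ K₁' _ j' t' ht' h
  exact (eval_ext_zero ht').1 h n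

/-- [TT] -/
theorem tt : S_TT := by
  intro K _ i I _ z K₁ _ j t ht
  obtain ⟨s, hs⟩ : ∃ s : Fin (td i z) → I, Indep i (fun a => z (s a)) := by
    refine Nat.sSup_mem (s := {d : ℕ | ∃ s : Fin d → I, Indep i (fun j => z (s j))}) ?_ ?_
    · refine ⟨0, Fin.elim0, ?_⟩
      intro f hf
      rw [eq_C_of_isEmpty f] at hf ⊢
      rw [eval₂_C] at hf
      rw [i.injective (hf.trans (map_zero i).symm), C_0]
    · refine ⟨Fintype.card I, ?_⟩
      rintro d ⟨s, hs⟩
      have h1 : Function.Injective s := by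
        intro a b hab
        by_contra hne
        have h1 : (X a - X b : MvPolynomial (Fin d) ℂ) = 0 := hs _ (by
          rw [eval₂_sub, eval₂_X, eval₂_X, hab, sub_self])
        exact hne (X_injective (sub_eq_zero.1 h1))
      simpa using Fintype.card_le_of_injective s h1
  -- the extended family
  let e : Fin (td i z + 1) ≃ Option (Fin (td i z)) := finSuccEquiv _
  have h2 : Indep (j.comp i) (ext j t (fun a => z (s a))) := by
    intro f hf
    rw [eval_ext_zero ht] at hf
    have h3 : optionEquivLeft ℂ _ f = 0 := by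
      ext1 n
      rw [Polynomial.coeff_zero]
      exact hs _ (hf n)
    exact (EmbeddingLike.map_eq_zero_iff (f := optionEquivLeft ℂ _)).1 h3
  have h4 : Indep (j.comp i) (fun a : Fin (td i z + 1) => ext j t z ((e a).map s)) := by
    intro f hf
    have h5 : (fun a : Fin (td i z + 1) => ext j t z ((e a).map s)) =
        ext j t (fun a => z (s a)) ∘ e := by
      funext a
      rw [Function.comp_apply]
      generalize e a = o
      rcases o with _ | b
      · rfl
      · rfl
    rw [h5, ← eval₂_rename] at hf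
    have h6 := h2 _ hf
    exact rename_injective _ e.injective (h6.trans (map_zero _).symm)
  refine le_csSup ⟨Fintype.card (Option I), ?_⟩ ⟨fun a => (e a).map s, h4⟩
  rintro d ⟨s, hs⟩
  have h1 : Function.Injective s := by
    intro a b hab
    by_contra hne
    have h1 : (X a - X b : MvPolynomial (Fin d) ℂ) = 0 := hs _ (by
      rw [eval₂_sub, eval₂_X, eval₂_X, hab, sub_self])
    exact hne (X_injective (sub_eq_zero.1 h1))
  simpa using Fintype.card_le_of_injective s h1

/-- [SPEC] -/
theorem spec : S_SPEC := by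
  classical
  intro C K K' _ _ i i' I J _ _ γ γ' τ h
  obtain ⟨s', hs'⟩ := exists_fam C i' γ'
  obtain ⟨s, hs⟩ := exists_fam C i (fun a => γ (τ a))
  obtain ⟨-, hsym, htr, hsat⟩ := eq_leaf C K' i'
  -- the indices of `s'` which are not isogenous to an element of the part
  let U : Type := {a : Fin (rk C i' γ') // ∀ b, ¬ Iso C i' (γ' (s' a)) (γ' (τ b))}
  let W : Type := {a : Fin (rk C i' γ') // ¬ ∀ b, ¬ Iso C i' (γ' (s' a)) (γ' (τ b))}
  have hcard : rk C i' γ' = Fintype.card U + Fintype.card W := by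
    have := Fintype.card_subtype_compl (fun a : Fin (rk C i' γ') =>
      ∀ b, ¬ Iso C i' (γ' (s' a)) (γ' (τ b)))
    have h2 := Fintype.card_subtype_le (fun a : Fin (rk C i' γ') =>
      ∀ b, ¬ Iso C i' (γ' (s' a)) (γ' (τ b)))
    rw [Fintype.card_fin] at this h2
    change Fintype.card W = _ - Fintype.card U at this
    change Fintype.card U ≤ _ at h2
    omega
  have hW : Fintype.card W ≤ rk C i' (fun a => γ' (τ a)) := by
    have h1 : ∀ w : W, ∃ b, Iso C i' (γ' (s' w.1)) (γ' (τ b)) := by
      intro w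
      have := w.2
      push Not at this
      exact this
    choose b hb using h1
    refine card_le_rk (s := b) ⟨fun w h2 => ?_, fun w w' hne h2 => ?_⟩
    · exact hs'.1 w.1 (hsat _ _ (hb w) h2)
    · refine hs'.2 w.1 w'.1 (fun h3 => hne (Subtype.ext h3)) ?_
      exact htr _ _ _ (htr _ _ _ (hb w) h2) (hsym _ _ (hb w'))
  have hU : Fintype.card U + rk C i (fun a => γ (τ a)) ≤ rk C i γ := by
    have h1 : Fam C i γ (Sum.elim (fun u : U => s' u.1) (fun a => τ (s a))) := by
      refine ⟨?_, ?_⟩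
      · rintro (u | a)
        · intro h2
          exact hs'.1 u.1 (sg_spz h h2)
        · exact hs.1 a
      · rintro (u | a) (u' | a') hne h2
        · refine hs'.2 u.1 u'.1 (fun h3 => hne (by rw [Subtype.ext h3])) ?_
          exact iso_spz h h2
        · exact u.2 _ (iso_spz h h2)
        · refine u'.2 _ (hsym _ _ (iso_spz h h2))
        · exact hs.2 a a' (fun h3 => hne (by rw [h3])) h2
    have := card_le_rk h1
    rw [Fintype.card_sum, Fintype.card_fin] at this
    exact this
  omega

end Pool.Agent.Helper9K9.ZY
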