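import Pool.Agent.Helper9K9.ZY.Stm2
import Pool.Agent.Helper9K9.ZY.Spt
import Pool.Agent.Helper9K9.ZU.Tan

/-!
[CHAIN2] (helper12): additive masks. The masked elements are `T + p` for `p` in a finite set of
polynomials and `(T + p) (T + q) + (T + r) = T (T + p + q) + (T + p q + r)`.
-/

set_option autoImplicit false

open MvPolynomial

namespace Pool.Agent.Helper9K9.ZY

open Pool.Agent.Helper9K9.ZU (Indep td)
open Pool.Agent.Helper9K9.ZU.TanL (inj_of_indep le_td' exists_td exists_simple indep_comp)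

namespace Chain2

/-! ### The tangent space -/

/-- The tangent space of the locus of `z` over the integers. -/
def tan {K : Type} [Field K] {I : Type} [Fintype I] (z : I → K) : Submodule K (I → K) where
  carrier := {v | ∀ f : MvPolynomial I ℤ, eval₂ (Int.castRingHom K) z f = 0 →
    ∑ j, v j * eval₂ (Int.castRingHom K) z (pderiv j f) = 0}
  add_mem' := by
    intro v w hv hw f hf
    have h1 := hv f hf
    have h2 := hw f hf
    simp only [Pi.add_apply, add_mul, Finset.sum_add_distrib, h1, h2, add_zero]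
  zero_mem' := by
    intro f _
    simp
  smul_mem' := by
    intro c v hv f hf
    have h1 := hv f hf
    simp only [Pi.smul_apply, smul_eq_mul, mul_assoc, ← Finset.mul_sum, h1, mul_zero]

theorem tan_le {K : Type} [Field K] [CharZero K] {I : Type} [Fintype I] (z : I → K) :
    Module.finrank K (tan z) ≤ td (Int.castRingHom K) z := by
  classical
  have hi : Function.Injective (Int.castRingHom K) := RingHom.injective_int _
  obtain ⟨s, hs⟩ := exists_td hi z
  have hsinj : Function.Injective s := fun a b hab => inj_of_indep hs (by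
    change z (s a) = z (s b)
    rw [hab])
  let Φ : tan z →ₗ[K] (Fin (td (Int.castRingHom K) z) → K) :=
    { toFun := fun v a => (v : I → K) (s a)
      map_add' := fun _ _ => rfl
      map_smul' := fun _ _ => rfl }
  have h1 : Function.Injective Φ := by
    rw [← LinearMap.ker_eq_bot, LinearMap.ker_eq_bot']
    intro v hv
    have hv' : ∀ a, (v : I → K) (s a) = 0 := fun a => congrFun hv a
    apply Subtype.ext
    funext j
    change (v : I → K) j = 0
    by_cases hj : ∃ a, s a = j
    · obtain ⟨a, rfl⟩ := hj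
      exact hv' a
    · let σ : Option (Fin (td (Int.castRingHom K) z)) → I := fun o => o.elim j s
      have hσ : Function.Injective σ := by
        intro a b hab
        rcases a with _ | a <;> rcases b with _ | b
        · rfl
        · exact absurd ⟨b, hab.symm⟩ hj
        · exact absurd ⟨a, hab⟩ hj
        · exact congrArg some (hsinj hab)
      have hdep : ¬ Indep (Int.castRingHom K) (fun o => z (σ o)) := by
        intro h
        have h2 := le_td' h
        rw [Fintype.card_option, Fintype.card_fin] at h2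
        omega
      unfold Indep at hdep
      push Not at hdep
      obtain ⟨f, hf0, hf⟩ := hdep
      obtain ⟨g, hg, hg'⟩ := exists_simple (fun o => z (σ o)) hs _ f hf le_rfl hf0
      have h3 := v.2 (rename σ g) (by rw [eval₂_rename]; exact hg)
      have h4 : ∀ i : I, i ≠ j →
          (v : I → K) i * eval₂ (Int.castRingHom K) z (pderiv i (rename σ g)) = 0 := by
        intro i hij
        by_cases hi' : ∃ o, σ o = i
        · obtain ⟨o, rfl⟩ := hi'
          rcases o with _ | a
          · exact absurd rfl hij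
          · change (v : I → K) (s a) * _ = 0
            rw [hv' a, zero_mul]
        · rw [pderiv_eq_zero_of_notMem_vars, eval₂_zero, mul_zero]
          intro h5
          have h6 := vars_rename σ g h5
          obtain ⟨o, _, ho⟩ := Finset.mem_image.1 h6
          exact hi' ⟨o, ho⟩
      rw [Finset.sum_eq_single j (fun i _ hij => h4 i hij)
        (fun h => absurd (Finset.mem_univ _) h)] at h3
      have h5 : pderiv j (rename σ g) = rename σ (pderiv none g) :=
        pderiv_rename hσ none g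
      rw [h5, eval₂_rename] at h3
      exact (mul_eq_zero.1 h3).resolve_right hg'
  have h2 := LinearMap.finrank_le_finrank_of_injective h1
  rwa [Module.finrank_fin_fun] at h2

/-- the transcendence degree over the integers does not depend on the field -/
theorem td_int {K K₁ : Type} [Field K] [Field K₁] (j : K →+* K₁) {I : Type} (z : I → K) :
    td (Int.castRingHom K₁) (fun a => j (z a)) = td (Int.castRingHom K) z := by
  unfold td
  congr 1
  ext d
  have key : ∀ (s : Fin d → I) (f : MvPolynomial (Fin d) ℤ),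
      eval₂ (Int.castRingHom K₁) (fun a => j (z (s a))) f =
        j (eval₂ (Int.castRingHom K) (fun a => z (s a)) f) := by
    intro s f
    rw [eval₂_comp_left]
    congr 1
    exact RingHom.ext_int _ _
  constructor
  · rintro ⟨s, hs⟩
    refine ⟨s, fun f hf => hs f ?_⟩
    rw [key, hf, map_zero]
  · rintro ⟨s, hs⟩
    refine ⟨s, fun f hf => hs f ?_⟩
    rw [key, map_eq_zero] at hf
    exact hf

/-! ### Transcendental values -/

theorem tr_poly {K K₁ : Type} [Field K] [Field K₁] {j : K →+* K₁} {t : K₁} (ht : Tr j t)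
    (g : Polynomial K) (hg : g.natDegree ≠ 0) : Tr j (Polynomial.eval₂ j t g) := by
  intro f hf
  have h1 : Polynomial.eval₂ j t (f.comp g) = 0 := by
    rw [Polynomial.eval₂_comp]
    exact hf
  have h2 := ht _ h1
  rcases Polynomial.comp_eq_zero_iff.1 h2 with h3 | ⟨-, h3⟩
  · exact h3
  · exfalso
    apply hg
    rw [h3, Polynomial.natDegree_C]

/-! ### Finite sets of polynomials reached by sums and products -/

section good

variable {I : Type}

def Good (T : Finset (MvPolynomial I ℤ)) : Prop :=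
  ∀ Q : MvPolynomial I ℤ → Prop, Q 0 → Q 1 → Q (-1) → (∀ a, Q (X a)) →
    (∀ p ∈ T, ∀ q ∈ T, p + q ∈ T → Q p → Q q → Q (p + q)) →
    (∀ p ∈ T, ∀ q ∈ T, p * q ∈ T → Q p → Q q → Q (p * q)) → ∀ p ∈ T, Q p

open Classical in
theorem good_union {T T' : Finset (MvPolynomial I ℤ)} (h : Good T) (h' : Good T') :
    Good (T ∪ T') := by
  intro Q h0 h1 hm hX ha hmul f hf
  rcases Finset.mem_union.1 hf with hf | hf
  · exact h Q h0 h1 hm hX
      (fun p hp q hq hpq => ha p (Finset.mem_union_left _ hp) q (Finset.mem_union_left _ hq)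
        (Finset.mem_union_left _ hpq))
      (fun p hp q hq hpq => hmul p (Finset.mem_union_left _ hp) q (Finset.mem_union_left _ hq)
        (Finset.mem_union_left _ hpq)) f hf
  · exact h' Q h0 h1 hm hX
      (fun p hp q hq hpq => ha p (Finset.mem_union_right _ hp) q (Finset.mem_union_right _ hq)
        (Finset.mem_union_right _ hpq))
      (fun p hp q hq hpq => hmul p (Finset.mem_union_right _ hp) q (Finset.mem_union_right _ hq)
        (Finset.mem_union_right _ hpq)) f hf

open Classical in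
theorem good_insert {T : Finset (MvPolynomial I ℤ)} (h : Good T) {f g k : MvPolynomial I ℤ}
    (hf : f ∈ T) (hg : g ∈ T) (hk : k = f + g ∨ k = f * g) : Good (insert k T) := by
  intro Q h0 h1 hm hX ha hmul
  have h3 : ∀ p ∈ T, Q p := h Q h0 h1 hm hX
    (fun p hp q hq hpq => ha p (Finset.mem_insert_of_mem hp) q (Finset.mem_insert_of_mem hq)
      (Finset.mem_insert_of_mem hpq))
    (fun p hp q hq hpq => hmul p (Finset.mem_insert_of_mem hp) q (Finset.mem_insert_of_mem hq)
      (Finset.mem_insert_of_mem hpq))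
  intro p hp
  rcases Finset.mem_insert.1 hp with rfl | hp
  · rcases hk with rfl | rfl
    · exact ha f (Finset.mem_insert_of_mem hf) g (Finset.mem_insert_of_mem hg)
        (Finset.mem_insert_self _ _) (h3 f hf) (h3 g hg)
    · exact hmul f (Finset.mem_insert_of_mem hf) g (Finset.mem_insert_of_mem hg)
        (Finset.mem_insert_self _ _) (h3 f hf) (h3 g hg)
  · exact h3 p hp

/-- elements of good sets -/
def Reach (f : MvPolynomial I ℤ) : Prop := ∃ T : Finset (MvPolynomial I ℤ), Good T ∧ f ∈ T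

theorem reach_zero : Reach (0 : MvPolynomial I ℤ) :=
  ⟨{0}, fun Q h0 _ _ _ _ _ f hf => by rw [Finset.mem_singleton.1 hf]; exact h0,
    Finset.mem_singleton_self _⟩

theorem reach_one : Reach (1 : MvPolynomial I ℤ) :=
  ⟨{1}, fun Q _ h1 _ _ _ _ f hf => by rw [Finset.mem_singleton.1 hf]; exact h1,
    Finset.mem_singleton_self _⟩

theorem reach_neg : Reach (-1 : MvPolynomial I ℤ) :=
  ⟨{-1}, fun Q _ _ hm _ _ _ f hf => by rw [Finset.mem_singleton.1 hf]; exact hm,
    Finset.mem_singleton_self _⟩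

theorem reach_X (a : I) : Reach (X a : MvPolynomial I ℤ) :=
  ⟨{X a}, fun Q _ _ _ hX _ _ f hf => by rw [Finset.mem_singleton.1 hf]; exact hX a,
    Finset.mem_singleton_self _⟩

theorem reach_op {f g k : MvPolynomial I ℤ} (hf : Reach f) (hg : Reach g)
    (hk : k = f + g ∨ k = f * g) : Reach k := by
  classical
  obtain ⟨T, h1, h2⟩ := hf
  obtain ⟨T', h3, h4⟩ := hg
  exact ⟨_, good_insert (good_union h1 h3) (Finset.mem_union_left _ h2)
    (Finset.mem_union_right _ h4) hk, Finset.mem_insert_self _ _⟩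

theorem reach (f : MvPolynomial I ℤ) : Reach f := by
  induction f using MvPolynomial.induction_on with
  | C a =>
    induction a using Int.induction_on with
    | zero => rw [C_0]; exact reach_zero
    | succ i hi => exact reach_op hi reach_one (Or.inl (by rw [map_add, C_1]))
    | pred i hi => exact reach_op hi reach_neg (Or.inl (by rw [map_sub, C_1, sub_eq_add_neg]))
  | add p q hp hq => exact reach_op hp hq (Or.inl rfl)
  | mul_X p a hp => exact reach_op hp (reach_X a) (Or.inr rfl)

theorem exists_good (G : Finset (MvPolynomial I ℤ)) :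
    ∃ T : Finset (MvPolynomial I ℤ), Good T ∧ G ⊆ T := by
  classical
  induction G using Finset.induction_on with
  | empty => exact ⟨∅, fun _ _ _ _ _ _ _ f hf => absurd hf (Finset.notMem_empty f),
      Finset.Subset.refl _⟩
  | insert a G _ ih =>
    obtain ⟨T, h1, h2⟩ := ih
    obtain ⟨T', h3, h4⟩ := reach a
    refine ⟨T ∪ T', good_union h1 h3, ?_⟩
    intro g hg
    rcases Finset.mem_insert.1 hg with rfl | hg
    · exact Finset.mem_union_right _ h4
    · exact Finset.mem_union_left _ (h2 hg)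

end good

/-! ### The linear algebra -/

section key

variable {I : Type} [Fintype I] {K₁ : Type} [Field K₁]

/-- the derivation in the direction `u` -/
noncomputable def dv (φ : MvPolynomial I ℤ →+* K₁) (u : I → K₁) (p : MvPolynomial I ℤ) : K₁ :=
  ∑ a, u a * φ (pderiv a p)

theorem dv_add (φ : MvPolynomial I ℤ →+* K₁) (u : I → K₁) (p q : MvPolynomial I ℤ) :
    dv φ u (p + q) = dv φ u p + dv φ u q := by
  simp only [dv, map_add, mul_add, Finset.sum_add_distrib]

theorem dv_mul (φ : MvPolynomial I ℤ →+* K₁) (u : I → K₁) (p q : MvPolynomial I ℤ) :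
    dv φ u (p * q) = φ q * dv φ u p + φ p * dv φ u q := by
  simp only [dv, Derivation.leibniz, smul_eq_mul, map_add, map_mul, mul_add,
    Finset.sum_add_distrib, Finset.mul_sum]
  rw [add_comm]
  congr 1 <;> exact Finset.sum_congr rfl fun j _ => by ring

theorem dv_zero (φ : MvPolynomial I ℤ →+* K₁) (u : I → K₁) : dv φ u 0 = 0 := by
  simp [dv]

theorem dv_one (φ : MvPolynomial I ℤ →+* K₁) (u : I → K₁) : dv φ u 1 = 0 := by
  have h := fun a : I => (pderiv a : Derivation ℤ (MvPolynomial I ℤ) _).map_one_eq_zero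
  simp [dv, h]

theorem dv_neg_one (φ : MvPolynomial I ℤ →+* K₁) (u : I → K₁) : dv φ u (-1) = 0 := by
  have h := dv_add φ u 1 (-1)
  rw [add_neg_cancel, dv_zero, dv_one, zero_add] at h
  exact h.symm

open Classical in
theorem dv_X (φ : MvPolynomial I ℤ →+* K₁) (u : I → K₁) (a : I) : dv φ u (X a) = u a := by
  rw [dv, Finset.sum_eq_single a]
  · rw [pderiv_X_self, map_one, mul_one]
  · intro b _ hb
    rw [pderiv_X_of_ne hb.symm, map_zero, mul_zero]
  · intro h
    exact absurd (Finset.mem_univ a) h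

variable {t : K₁} {φ : MvPolynomial I ℤ →+* K₁} {u : I → K₁} {P₀ P : Finset (MvPolynomial I ℤ)}
  {d : MvPolynomial I ℤ → K₁}

theorem key_abs (hgood : Good P₀) (h0 : (0 : MvPolynomial I ℤ) ∈ P₀)
    (h1 : (1 : MvPolynomial I ℤ) ∈ P₀) (hm : (-1 : MvPolynomial I ℤ) ∈ P₀)
    (hX : ∀ a, (X a : MvPolynomial I ℤ) ∈ P₀)
    (hadd : ∀ p ∈ P₀, ∀ q ∈ P₀, p + q ∈ P) (hmul : ∀ p ∈ P₀, ∀ q ∈ P₀, p * q ∈ P)
    (hP : ∀ p ∈ P, (∃ q ∈ P₀, ∃ r ∈ P₀, p = q + r) ∨ ∃ q ∈ P₀, ∃ r ∈ P₀, p = q * r)
    (star : ∀ p ∈ P, ∀ q ∈ P, ∀ r ∈ P, p + q ∈ P → p * q + r ∈ P →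
      (t + φ q) * d p + (t + φ p) * d q + d r =
        (t + φ (p + q)) * d 0 + t * d (p + q) + d (p * q + r))
    (hu : ∀ a, (t - 1) * d 0 + t * d (-1) + d (X a) = 2 * t * d 0 + u a) :
    ∀ p ∈ P, d p = d 0 + dv φ u p := by
  have hsub : ∀ p ∈ P₀, p ∈ P := fun p hp => by
    have := hadd p hp 0 h0
    rwa [add_zero] at this
  have h0P := hsub 0 h0
  have h1P := hsub 1 h1
  -- additivity
  have e1 : ∀ p ∈ P₀, ∀ q ∈ P₀, d (p + q) + d 0 = d p + d q := by
    intro p hp q hq
    have s1 := star p (hsub p hp) 1 h1P q (hsub q hq) (hadd p hp 1 h1)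
      (by rw [mul_one]; exact hadd p hp q hq)
    have s2 := star p (hsub p hp) 1 h1P 0 h0P (hadd p hp 1 h1)
      (by rw [mul_one, add_zero]; exact hsub p hp)
    rw [mul_one] at s1
    rw [mul_one, add_zero] at s2
    linear_combination s2 - s1
  have e2 : d 1 = d 0 := by
    have s2 := star 1 h1P 1 h1P 0 h0P (hadd 1 h1 1 h1)
      (by rw [mul_one, add_zero]; exact h1P)
    rw [mul_one, add_zero, map_one, map_add, map_one] at s2
    have s3 := e1 1 h1 1 h1
    linear_combination s2 + t * s3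
  have e3 : d (-1) = d 0 := by
    have s3 := e1 1 h1 (-1) hm
    rw [add_neg_cancel, e2] at s3
    linear_combination -s3
  have e4 : ∀ p ∈ P₀, ∀ q ∈ P₀, d (p * q) - d 0 = φ q * (d p - d 0) + φ p * (d q - d 0) := by
    intro p hp q hq
    have s1 := star p (hsub p hp) q (hsub q hq) 0 h0P (hadd p hp q hq)
      (by rw [add_zero]; exact hmul p hp q hq)
    rw [add_zero, map_add] at s1
    have s2 := e1 p hp q hq
    linear_combination -s1 - t * s2
  have e5 : ∀ a, d (X a) = d 0 + u a := by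
    intro a
    have := hu a
    rw [e3] at this
    linear_combination this
  have key : ∀ p ∈ P₀, d p = d 0 + dv φ u p := by
    refine hgood (fun p => d p = d 0 + dv φ u p) ?_ ?_ ?_ ?_ ?_ ?_
    · rw [dv_zero, add_zero]
    · rw [dv_one, add_zero, e2]
    · rw [dv_neg_one, add_zero, e3]
    · intro a
      rw [dv_X, e5]
    · intro p hp q hq _ hp' hq'
      rw [dv_add]
      have := e1 p hp q hq
      linear_combination this + hp' + hq'
    · intro p hp q hq _ hp' hq'
      rw [dv_mul]
      have := e4 p hp q hq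
      linear_combination this + φ q * hp' + φ p * hq'
  intro p hp
  rcases hP p hp with ⟨q, hq, r, hr, rfl⟩ | ⟨q, hq, r, hr, rfl⟩
  · rw [dv_add]
    have := e1 q hq r hr
    linear_combination this + key q hq + key r hr
  · rw [dv_mul]
    have := e4 q hq r hr
    linear_combination this + φ r * key q hq + φ q * key r hr

/-- vectors which are tangent at generators of the ideal are tangent -/
theorem dv_span {G : Set (MvPolynomial I ℤ)} (hG : ∀ g ∈ G, φ g = 0 ∧ dv φ u g = 0)
    {f : MvPolynomial I ℤ} (hf : f ∈ Ideal.span G) : φ f = 0 ∧ dv φ u f = 0 := by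
  induction hf using Submodule.span_induction with
  | mem g hg => exact hG g hg
  | zero => exact ⟨map_zero φ, dv_zero φ u⟩
  | add f g _ _ h3 h4 =>
    exact ⟨by rw [map_add, h3.1, h4.1, add_zero], by rw [dv_add, h3.2, h4.2, add_zero]⟩
  | smul a g _ h3 =>
    exact ⟨by rw [smul_eq_mul, map_mul, h3.1, mul_zero],
      by rw [smul_eq_mul, dv_mul, h3.1, h3.2, mul_zero, zero_mul, add_zero]⟩

end key

/-! ### The family -/

section fam

variable {I : Type} (P : Finset (MvPolynomial I ℤ))

abbrev Pt : Type := {p : MvPolynomial I ℤ // p ∈ P}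

abbrev Idx : Type := I ⊕ (Pt P ⊕ (Pt P × Pt P × Pt P))

/-- `T + p` -/
noncomputable def lin (p : MvPolynomial I ℤ) : MvPolynomial (Option I) ℤ := X none + rename some p

noncomputable def pol : Idx P → MvPolynomial (Option I) ℤ
  | Sum.inl a => X (some a)
  | Sum.inr (Sum.inl p) => lin p.1
  | Sum.inr (Sum.inr x) => lin x.1.1 * lin x.2.1.1 + lin x.2.2.1

abbrev G2 : Type := {x : Pt P × Pt P × Pt P // x.1.1 + x.2.1.1 ∈ P ∧ x.1.1 * x.2.1.1 + x.2.2.1 ∈ P}

abbrev Gt : Type := (Pt P × Pt P × Pt P) ⊕ (G2 P ⊕ I)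

variable {P} in
/-- the slots of the gates -/
noncomputable def alf (h0 : (0 : MvPolynomial I ℤ) ∈ P) (hm : (-1 : MvPolynomial I ℤ) ∈ P)
    (hX : ∀ a, (X a : MvPolynomial I ℤ) ∈ P) : Gt P → Fin 4 → Idx P
  | Sum.inl x => ![Sum.inr (Sum.inl x.1), Sum.inr (Sum.inl x.2.1), Sum.inr (Sum.inl x.2.2),
      Sum.inr (Sum.inr x)]
  | Sum.inr (Sum.inl x) => ![Sum.inr (Sum.inl ⟨0, h0⟩), Sum.inr (Sum.inl ⟨_, x.2.1⟩),
      Sum.inr (Sum.inl ⟨_, x.2.2⟩), Sum.inr (Sum.inr x.1)]
  | Sum.inr (Sum.inr a) => ![Sum.inr (Sum.inl ⟨0, h0⟩), Sum.inr (Sum.inl ⟨0, h0⟩), Sum.inl a,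
      Sum.inr (Sum.inr (⟨0, h0⟩, ⟨-1, hm⟩, ⟨X a, hX a⟩))]

variable {P}

theorem gate_id (h0 : (0 : MvPolynomial I ℤ) ∈ P) (hm : (-1 : MvPolynomial I ℤ) ∈ P)
    (hX : ∀ a, (X a : MvPolynomial I ℤ) ∈ P) (g : Gt P) :
    pol P (alf h0 hm hX g 0) * pol P (alf h0 hm hX g 1) + pol P (alf h0 hm hX g 2) =
      pol P (alf h0 hm hX g 3) := by
  rcases g with x | x | a
  · rfl
  · change lin 0 * lin (x.1.1.1 + x.1.2.1.1) + lin (x.1.1.1 * x.1.2.1.1 + x.1.2.2.1) =
      lin x.1.1.1 * lin x.1.2.1.1 + lin x.1.2.2.1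
    simp only [lin, map_add, map_mul, map_zero]
    ring
  · change lin 0 * lin 0 + X (some a) = lin 0 * lin (-1) + lin (X a)
    simp only [lin, map_zero, map_neg, map_one, rename_X]
    ring

theorem alf_inl (h0 : (0 : MvPolynomial I ℤ) ∈ P) (hm : (-1 : MvPolynomial I ℤ) ∈ P)
    (hX : ∀ a, (X a : MvPolynomial I ℤ) ∈ P) {g : Gt P} {c : Fin 4} {a : I}
    (h : alf h0 hm hX g c = Sum.inl a) : g = Sum.inr (Sum.inr a) ∧ c = 2 := by
  rcases g with x | x | b
  · exfalso
    fin_cases c <;> simp [alf] at h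
  · exfalso
    fin_cases c <;> simp [alf] at h
  · fin_cases c
    · simp [alf] at h
    · simp [alf] at h
    · have h1 : b = a := Sum.inl_injective h
      exact ⟨by rw [h1], rfl⟩
    · simp [alf] at h

end fam

/-! ### Values -/

section val

variable {I K K₁ : Type} [Field K] [Field K₁] (j : K →+* K₁) (t : K₁) (z : I → K)

theorem val_lin (p : MvPolynomial I ℤ) :
    eval₂ (Int.castRingHom K₁) (ext j t z) (lin p) =
      t + eval₂Hom (Int.castRingHom K₁) (fun a => j (z a)) p := by
  rw [lin, eval₂_add, eval₂_X, eval₂_rename]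
  rfl

theorem val_ev (p : MvPolynomial I ℤ) :
    eval₂Hom (Int.castRingHom K₁) (fun a => j (z a)) p =
      j (eval₂ (Int.castRingHom K) z p) := by
  rw [coe_eval₂Hom, eval₂_comp_left]
  congr 1
  exact RingHom.ext_int _ _

end val

end Chain2

open Chain2 in
/-- [CHAIN2] -/
theorem chain2 : S_CHAIN2 := by
  classical
  intro K _ _ I _ z
  -- generators of the ideal
  let ev : MvPolynomial I ℤ →+* K := eval₂Hom (Int.castRingHom K) z
  have hev : ∀ f, ev f = eval₂ (Int.castRingHom K) z f := fun f => rfl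
  obtain ⟨G, hG⟩ : (RingHom.ker ev).FG := IsNoetherian.noetherian _
  obtain ⟨P₀, hgood, hsub⟩ := exists_good
    (G ∪ (({0, 1, -1} : Finset (MvPolynomial I ℤ)) ∪
      Finset.univ.image (fun a : I => (X a : MvPolynomial I ℤ))))
  have h0 : (0 : MvPolynomial I ℤ) ∈ P₀ := hsub (by simp)
  have h1 : (1 : MvPolynomial I ℤ) ∈ P₀ := hsub (by simp)
  have hm : (-1 : MvPolynomial I ℤ) ∈ P₀ := hsub (by simp)
  have hX : ∀ a, (X a : MvPolynomial I ℤ) ∈ P₀ := fun a => hsub (by simp)
  have hG₀ : ∀ g ∈ G, g ∈ P₀ := fun g hg => hsub (by simp [hg])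
  obtain ⟨P, hPdef⟩ : ∃ P : Finset (MvPolynomial I ℤ),
      P = Finset.image₂ (· + ·) P₀ P₀ ∪ Finset.image₂ (· * ·) P₀ P₀ := ⟨_, rfl⟩
  have hadd : ∀ p ∈ P₀, ∀ q ∈ P₀, p + q ∈ P := fun p hp q hq => by
    rw [hPdef]
    exact Finset.mem_union_left _ (Finset.mem_image₂_of_mem hp hq)
  have hmul : ∀ p ∈ P₀, ∀ q ∈ P₀, p * q ∈ P := fun p hp q hq => by
    rw [hPdef]
    exact Finset.mem_union_right _ (Finset.mem_image₂_of_mem hp hq)
  have hP : ∀ p ∈ P, (∃ q ∈ P₀, ∃ r ∈ P₀, p = q + r) ∨ ∃ q ∈ P₀, ∃ r ∈ P₀, p = q * r := by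
    intro p hp
    rw [hPdef, Finset.mem_union, Finset.mem_image₂, Finset.mem_image₂] at hp
    rcases hp with ⟨q, hq, r, hr, h⟩ | ⟨q, hq, r, hr, h⟩
    · exact Or.inl ⟨q, hq, r, hr, h.symm⟩
    · exact Or.inr ⟨q, hq, r, hr, h.symm⟩
  have hsubP : ∀ p ∈ P₀, p ∈ P := fun p hp => by
    have := hadd p hp 0 h0
    rwa [add_zero] at this
  have h0P := hsubP 0 h0
  have hmP := hsubP (-1) hm
  have hXP : ∀ a, (X a : MvPolynomial I ℤ) ∈ P := fun a => hsubP _ (hX a)
  let e : Fin (Fintype.card (Idx P)) ≃ Idx P := (Fintype.equivFin _).symm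
  let eg : Fin (Fintype.card (Gt P)) ≃ Gt P := (Fintype.equivFin _).symm
  refine ⟨Fintype.card (Idx P), fun n => pol P (e n), fun a => e.symm (Sum.inl a),
    e.symm (Sum.inr (Sum.inl ⟨0, h0P⟩)), Fintype.card (Gt P),
    fun x => e.symm (alf h0P hmP hXP (eg x.1) x.2), ?_, ?_, ?_, ?_, ?_, ?_, ?_⟩
  · intro a b hab
    exact Sum.inl_injective (e.symm.injective hab)
  · intro a
    change pol P (e (e.symm (Sum.inl a))) = _
    rw [Equiv.apply_symm_apply]
    rfl
  · change pol P (e (e.symm (Sum.inr (Sum.inl ⟨0, h0P⟩)))) = _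
    rw [Equiv.apply_symm_apply]
    change lin 0 = X none
    rw [lin, map_zero, add_zero]
  · intro n hn K₁ _ j t ht
    obtain ⟨x, hx⟩ : ∃ x, e n = x := ⟨_, rfl⟩
    have hn' : n = e.symm x := by rw [← hx, Equiv.symm_apply_apply]
    change Tr j (eval₂ (Int.castRingHom K₁) (ext j t z) (pol P (e n)))
    rw [hx]
    rcases x with a | p | x
    · exact absurd ⟨a, hn'.symm⟩ hn
    · change Tr j (eval₂ (Int.castRingHom K₁) (ext j t z) (lin p.1))
      rw [val_lin, val_ev]
      have h2 := tr_poly ht (Polynomial.X + Polynomial.C (eval₂ (Int.castRingHom K) z p.1))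
        (by rw [Polynomial.natDegree_X_add_C]; exact one_ne_zero)
      rwa [Polynomial.eval₂_add, Polynomial.eval₂_X, Polynomial.eval₂_C] at h2
    · change Tr j (eval₂ (Int.castRingHom K₁) (ext j t z)
        (lin x.1.1 * lin x.2.1.1 + lin x.2.2.1))
      rw [eval₂_add, eval₂_mul, val_lin, val_lin, val_lin, val_ev, val_ev, val_ev]
      have h2 := tr_poly ht ((Polynomial.X + Polynomial.C (eval₂ (Int.castRingHom K) z x.1.1)) *
        (Polynomial.X + Polynomial.C (eval₂ (Int.castRingHom K) z x.2.1.1)) +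
        (Polynomial.X + Polynomial.C (eval₂ (Int.castRingHom K) z x.2.2.1)))
        (by
          have h3 : ((Polynomial.X + Polynomial.C (eval₂ (Int.castRingHom K) z x.1.1)) *
            (Polynomial.X + Polynomial.C (eval₂ (Int.castRingHom K) z x.2.1.1))).natDegree = 2 := by
            rw [(Polynomial.monic_X_add_C _).natDegree_mul (Polynomial.monic_X_add_C _),
              Polynomial.natDegree_X_add_C, Polynomial.natDegree_X_add_C]
          rw [Polynomial.natDegree_add_eq_left_of_natDegree_lt, h3]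
          · exact two_ne_zero
          · rw [h3, Polynomial.natDegree_X_add_C]
            exact one_lt_two)
      rwa [Polynomial.eval₂_add, Polynomial.eval₂_mul, Polynomial.eval₂_add,
        Polynomial.eval₂_add, Polynomial.eval₂_add, Polynomial.eval₂_X, Polynomial.eval₂_C,
        Polynomial.eval₂_C, Polynomial.eval₂_C] at h2
  · intro g
    simp only [Equiv.apply_symm_apply]
    exact gate_id h0P hmP hXP (eg g)
  · rintro ⟨g, c⟩ ⟨g', c'⟩ h ⟨a, ha⟩
    have h2 := e.symm.injective h
    have h3 := e.symm.injective ha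
    simp only at h2 h3
    obtain ⟨h4, h5⟩ := alf_inl h0P hmP hXP h3.symm
    obtain ⟨h6, h7⟩ := alf_inl h0P hmP hXP (h2.symm.trans h3.symm)
    rw [Prod.mk.injEq]
    exact ⟨eg.injective (h4.trans h6.symm), h5.trans h7.symm⟩
  · intro K₁ _ j t ht V hV1 hV2
    have hK₁ : CharZero K₁ := charZero_of_injective_ringHom j.injective
    let φ : MvPolynomial I ℤ →+* K₁ := eval₂Hom (Int.castRingHom K₁) (fun a => j (z a))
    have hφ : ∀ p, φ p = j (ev p) := fun p => val_ev j z p
    -- the gates
    have gate : ∀ v ∈ V, ∀ g : Gt P,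
        eval₂ (Int.castRingHom K₁) (ext j t z) (pol P (alf h0P hmP hXP g 1)) *
          v (e.symm (alf h0P hmP hXP g 0)) +
        eval₂ (Int.castRingHom K₁) (ext j t z) (pol P (alf h0P hmP hXP g 0)) *
          v (e.symm (alf h0P hmP hXP g 1)) +
        v (e.symm (alf h0P hmP hXP g 2)) - v (e.symm (alf h0P hmP hXP g 3)) = 0 := by
      intro v hv g
      have h2 := hV2 v hv (eg.symm g)
      simp only [Equiv.apply_symm_apply] at h2
      exact h2
    have gate1 : ∀ v ∈ V, ∀ p q r : Pt P, v (e.symm (Sum.inr (Sum.inr (p, q, r)))) =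
        (t + φ q.1) * v (e.symm (Sum.inr (Sum.inl p))) +
        (t + φ p.1) * v (e.symm (Sum.inr (Sum.inl q))) + v (e.symm (Sum.inr (Sum.inl r))) := by
      intro v hv p q r
      have h2 := gate v hv (Sum.inl (p, q, r))
      change eval₂ (Int.castRingHom K₁) (ext j t z) (lin q.1) * v (e.symm (Sum.inr (Sum.inl p))) +
        eval₂ (Int.castRingHom K₁) (ext j t z) (lin p.1) * v (e.symm (Sum.inr (Sum.inl q))) +
        v (e.symm (Sum.inr (Sum.inl r))) - v (e.symm (Sum.inr (Sum.inr (p, q, r)))) = 0 at h2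
      rw [val_lin, val_lin] at h2
      change (t + φ q.1) * _ + (t + φ p.1) * _ + _ - _ = 0 at h2
      linear_combination -h2
    have gate2 : ∀ v ∈ V, ∀ (p q r : Pt P) (h2 : p.1 + q.1 ∈ P) (h3 : p.1 * q.1 + r.1 ∈ P),
        v (e.symm (Sum.inr (Sum.inr (p, q, r)))) =
        (t + φ (p.1 + q.1)) * v (e.symm (Sum.inr (Sum.inl ⟨0, h0P⟩))) +
        t * v (e.symm (Sum.inr (Sum.inl ⟨_, h2⟩))) + v (e.symm (Sum.inr (Sum.inl ⟨_, h3⟩))) := by
      intro v hv p q r h2 h3
      have h4 := gate v hv (Sum.inr (Sum.inl ⟨(p, q, r), h2, h3⟩))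
      change eval₂ (Int.castRingHom K₁) (ext j t z) (lin (p.1 + q.1)) *
          v (e.symm (Sum.inr (Sum.inl ⟨0, h0P⟩))) +
        eval₂ (Int.castRingHom K₁) (ext j t z) (lin 0) * v (e.symm (Sum.inr (Sum.inl ⟨_, h2⟩))) +
        v (e.symm (Sum.inr (Sum.inl ⟨_, h3⟩))) - v (e.symm (Sum.inr (Sum.inr (p, q, r)))) = 0 at h4
      rw [val_lin, val_lin, map_zero, add_zero] at h4
      change (t + φ (p.1 + q.1)) * _ + t * _ + _ - _ = 0 at h4
      linear_combination -h4
    have gate3 : ∀ v ∈ V, ∀ a : I,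
        v (e.symm (Sum.inr (Sum.inr (⟨0, h0P⟩, ⟨-1, hmP⟩, ⟨X a, hXP a⟩)))) =
        2 * t * v (e.symm (Sum.inr (Sum.inl ⟨0, h0P⟩))) + v (e.symm (Sum.inl a)) := by
      intro v hv a
      have h4 := gate v hv (Sum.inr (Sum.inr a))
      change eval₂ (Int.castRingHom K₁) (ext j t z) (lin 0) *
          v (e.symm (Sum.inr (Sum.inl ⟨0, h0P⟩))) +
        eval₂ (Int.castRingHom K₁) (ext j t z) (lin 0) * v (e.symm (Sum.inr (Sum.inl ⟨0, h0P⟩))) +
        v (e.symm (Sum.inl a)) -
        v (e.symm (Sum.inr (Sum.inr (⟨0, h0P⟩, ⟨-1, hmP⟩, ⟨X a, hXP a⟩)))) = 0 at h4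
      rw [val_lin, map_zero, add_zero] at h4
      linear_combination -h4
    -- the values
    have hd : ∀ v ∈ V, ∀ (p : MvPolynomial I ℤ) (hp : p ∈ P),
        v (e.symm (Sum.inr (Sum.inl ⟨p, hp⟩))) =
          v (e.symm (Sum.inr (Sum.inl ⟨0, h0P⟩))) +
            dv φ (fun a => v (e.symm (Sum.inl a))) p := by
      intro v hv
      let d : MvPolynomial I ℤ → K₁ := fun p =>
        if hp : p ∈ P then v (e.symm (Sum.inr (Sum.inl ⟨p, hp⟩))) else 0
      have hd' : ∀ (p : MvPolynomial I ℤ) (hp : p ∈ P),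
          v (e.symm (Sum.inr (Sum.inl ⟨p, hp⟩))) = d p := fun p hp => by
        simp only [d, dif_pos hp]
      have h2 := key_abs (t := t) (φ := φ) (u := fun a => v (e.symm (Sum.inl a))) (d := d)
        hgood h0 h1 hm hX hadd hmul hP ?_ ?_
      · intro p hp
        rw [hd' p hp, hd' 0 h0P]
        exact h2 p hp
      · intro p hp q hq r hr hpq hpqr
        have h3 := gate1 v hv ⟨p, hp⟩ ⟨q, hq⟩ ⟨r, hr⟩
        have h4 := gate2 v hv ⟨p, hp⟩ ⟨q, hq⟩ ⟨r, hr⟩ hpq hpqr
        rw [h3] at h4
        simp only [hd'] at h4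
        exact h4
      · intro a
        have h3 := gate1 v hv ⟨0, h0P⟩ ⟨-1, hmP⟩ ⟨X a, hXP a⟩
        have h4 := gate3 v hv a
        rw [h3] at h4
        simp only [hd', map_zero, map_neg, map_one] at h4
        linear_combination h4
    -- the tangent vectors
    have htan : ∀ v ∈ V, ∀ f : MvPolynomial I ℤ, φ f = 0 →
        dv φ (fun a => v (e.symm (Sum.inl a))) f = 0 := by
      intro v hv f hf
      have h2 : f ∈ Ideal.span (G : Set (MvPolynomial I ℤ)) := by
        rw [hG]
        change ev f = 0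
        rw [hφ, map_eq_zero] at hf
        exact hf
      refine (dv_span (φ := φ) (fun g hg => ?_) h2).2
      have h3 : φ g = 0 := by
        have h4 : g ∈ RingHom.ker ev := by
          rw [← hG]
          exact Ideal.subset_span hg
        rw [hφ, h4, map_zero]
      refine ⟨h3, ?_⟩
      have h4 := hd v hv g (hsubP g (hG₀ g hg))
      have h5 := hV1 v hv (e.symm (Sum.inr (Sum.inl ⟨g, hsubP g (hG₀ g hg)⟩)))
        (e.symm (Sum.inr (Sum.inl ⟨0, h0P⟩))) ?_ ?_ ?_
      · rw [h5] at h4
        linear_combination -h4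
      · rintro ⟨a, ha⟩
        exact absurd (e.symm.injective ha) (by simp)
      · rintro ⟨a, ha⟩
        exact absurd (e.symm.injective ha) (by simp)
      · simp only [Equiv.apply_symm_apply]
        change eval₂ (Int.castRingHom K₁) (ext j t z) (lin g) =
          eval₂ (Int.castRingHom K₁) (ext j t z) (lin 0)
        rw [val_lin, val_lin, map_zero]
        change t + φ g = t + 0
        rw [h3]
    let Φ : V →ₗ[K₁] (Chain2.tan (fun a => j (z a)) × K₁) :=
      { toFun := fun v => (⟨fun a => (v : Fin (Fintype.card (Idx P)) → K₁) (e.symm (Sum.inl a)),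
          fun f hf => htan v v.2 f hf⟩,
          (v : Fin (Fintype.card (Idx P)) → K₁) (e.symm (Sum.inr (Sum.inl ⟨0, h0P⟩))))
        map_add' := fun _ _ => rfl
        map_smul' := fun _ _ => rfl }
    have hinj : Function.Injective Φ := by
      rw [← LinearMap.ker_eq_bot, LinearMap.ker_eq_bot']
      intro v hv
      have h2 : ∀ a : I, (v : Fin (Fintype.card (Idx P)) → K₁) (e.symm (Sum.inl a)) = 0 := fun a =>
        congrFun (congrArg Subtype.val (congrArg Prod.fst hv)) a
      have h3 : (v : Fin (Fintype.card (Idx P)) → K₁) (e.symm (Sum.inr (Sum.inl ⟨0, h0P⟩))) = 0 :=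
        congrArg Prod.snd hv
      have h4 : ∀ (p : MvPolynomial I ℤ) (hp : p ∈ P),
          (v : Fin (Fintype.card (Idx P)) → K₁) (e.symm (Sum.inr (Sum.inl ⟨p, hp⟩))) = 0 := by
        intro p hp
        rw [hd v v.2 p hp, h3, zero_add, dv]
        exact Finset.sum_eq_zero fun a _ => by rw [h2 a, zero_mul]
      apply Subtype.ext
      funext n
      change (v : Fin (Fintype.card (Idx P)) → K₁) n = 0
      rw [← e.symm_apply_apply n]
      generalize e n = x
      rcases x with a | p | x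
      · exact h2 a
      · exact h4 p.1 p.2
      · rw [gate1 v v.2 x.1 x.2.1 x.2.2, h4 x.1.1 x.1.2, h4 x.2.1.1 x.2.1.2,
          h4 x.2.2.1 x.2.2.2, mul_zero, mul_zero, add_zero, add_zero]
    have h2 := LinearMap.finrank_le_finrank_of_injective hinj
    rw [Module.finrank_prod, Module.finrank_self] at h2
    have h3 := tan_le (fun a => j (z a))
    rw [td_int j z] at h3
    omega

end Pool.Agent.Helper9K9.ZY
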