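import Pool.Agent.Helper9K9.ZY.Stm3
import Pool.Agent.Helper9K9.ZY.Chain2

/-!
[CHAIN3] (helper12). The masked elements are `T`, `T + 1`, `2 T + p` for `p` in a finite set
of polynomials, and the sums of one of them and of the squares of at most four of them.
-/

set_option autoImplicit false

open MvPolynomial

namespace Pool.Agent.Helper9K9.ZY

open Pool.Agent.Helper9K9.ZU (td)

namespace Chain3

open Chain2 (Good dv dv_add dv_mul dv_zero dv_one dv_neg_one dv_X Pt)

/-! ### The linear algebra -/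

section key

variable {I : Type} [Fintype I] {K₁ : Type} [Field K₁] [CharZero K₁]

variable {τ : K₁} {φ : MvPolynomial I ℤ →+* K₁} {P₀ P : Finset (MvPolynomial I ℤ)}
  {m : MvPolynomial I ℤ → K₁}

/-- the basic relations -/
theorem rel (hne : ∀ p, τ + φ p ≠ 0)
    (h0 : (0 : MvPolynomial I ℤ) ∈ P₀) (h1 : (1 : MvPolynomial I ℤ) ∈ P₀)
    (hadd : ∀ p ∈ P₀, ∀ q ∈ P₀, p + q ∈ P) (hadd2 : ∀ p ∈ P₀, ∀ q ∈ P₀, 2 * p + 2 * q ∈ P)
    (hm2 : ∀ p ∈ P₀, ∀ q ∈ P₀, 2 * (p * q) ∈ P) (hm4 : ∀ p ∈ P₀, ∀ q ∈ P₀, 4 * (p * q) ∈ P)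
    (hm6 : ∀ p ∈ P₀, ∀ q ∈ P₀, 6 * (p * q) ∈ P) (hm8 : ∀ p ∈ P₀, ∀ q ∈ P₀, 8 * (p * q) ∈ P)
    (R : ∀ r ∈ P, ∀ p ∈ P, ∀ q ∈ P, p + q ∈ P → r + 2 * (p * q) ∈ P →
      m (r + 2 * (p * q)) + 2 * (τ + φ p) * m p + 2 * (τ + φ q) * m q =
        m r + 2 * (τ + φ (p + q)) * m (p + q) + 2 * τ * m 0) :
    ∀ p ∈ P₀, ∀ q ∈ P₀,
      m (p + q) - m 0 = (m p - m 0) + (m q - m 0) ∧
      m (2 * p + 2 * q) - m 0 = 2 * (m p - m 0) + 2 * (m q - m 0) ∧
      m (2 * (p * q)) - m 0 = 2 * (φ q * (m p - m 0) + φ p * (m q - m 0)) ∧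
      m (4 * (p * q)) - m 0 = 4 * (φ q * (m p - m 0) + φ p * (m q - m 0)) ∧
      m (6 * (p * q)) - m 0 = 6 * (φ q * (m p - m 0) + φ p * (m q - m 0)) ∧
      m (8 * (p * q)) - m 0 = 8 * (φ q * (m p - m 0) + φ p * (m q - m 0)) := by
  have hsub : ∀ p ∈ P₀, p ∈ P := fun p hp => by
    have := hadd p hp 0 h0
    rwa [add_zero] at this
  have h0P := hsub 0 h0
  have h1P := hsub 1 h1
  have h2P : ∀ p ∈ P₀, 2 * p ∈ P := fun p hp => by
    have := hm2 p hp 1 h1
    rwa [mul_one] at this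
  -- even shifts
  have A : ∀ r ∈ P, ∀ p ∈ P₀, ∀ q ∈ P₀, r + 2 * (p * q) ∈ P →
      m (r + 2 * (p * q)) - m r = m (2 * (p * q)) - m 0 := by
    intro r hr p hp q hq hrp
    have s1 := R r hr p (hsub p hp) q (hsub q hq) (hadd p hp q hq) hrp
    have s2 := R 0 h0P p (hsub p hp) q (hsub q hq) (hadd p hp q hq)
      (by rw [zero_add]; exact hm2 p hp q hq)
    rw [zero_add] at s2
    linear_combination s1 - s2
  -- (a)
  have a1 : ∀ p ∈ P₀, ∀ q ∈ P₀, m (2 * p + 2 * q) - m 0 = (m (2 * p) - m 0) + (m (2 * q) - m 0) := by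
    intro p hp q hq
    have s1 := A (2 * p) (h2P p hp) q hq 1 h1 (by rw [mul_one]; exact hadd2 p hp q hq)
    rw [mul_one] at s1
    linear_combination s1
  -- (d)
  have d4 : ∀ p ∈ P₀, ∀ q ∈ P₀, m (4 * (p * q)) - m 0 = 2 * (m (2 * (p * q)) - m 0) := by
    intro p hp q hq
    have e : 2 * (p * q) + 2 * (p * q) = 4 * (p * q) := by ring
    have s1 := A (2 * (p * q)) (hm2 p hp q hq) p hp q hq (by rw [e]; exact hm4 p hp q hq)
    rw [e] at s1
    linear_combination s1
  have d6 : ∀ p ∈ P₀, ∀ q ∈ P₀, m (6 * (p * q)) - m 0 = 3 * (m (2 * (p * q)) - m 0) := by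
    intro p hp q hq
    have e : 4 * (p * q) + 2 * (p * q) = 6 * (p * q) := by ring
    have s1 := A (4 * (p * q)) (hm4 p hp q hq) p hp q hq (by rw [e]; exact hm6 p hp q hq)
    rw [e] at s1
    linear_combination s1 + d4 p hp q hq
  have d8 : ∀ p ∈ P₀, ∀ q ∈ P₀, m (8 * (p * q)) - m 0 = 4 * (m (2 * (p * q)) - m 0) := by
    intro p hp q hq
    have e : 6 * (p * q) + 2 * (p * q) = 8 * (p * q) := by ring
    have s1 := A (6 * (p * q)) (hm6 p hp q hq) p hp q hq (by rw [e]; exact hm8 p hp q hq)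
    rw [e] at s1
    linear_combination s1 + d6 p hp q hq
  -- Leibniz for the even values
  have L : ∀ p ∈ P₀, ∀ q ∈ P₀, m (2 * (p * q)) - m 0 =
      φ q * (m (2 * p) - m 0) + φ p * (m (2 * q) - m 0) := by
    intro p hp q hq
    have e : (0 : MvPolynomial I ℤ) + 2 * (2 * p * (2 * q)) = 8 * (p * q) := by ring
    have s1 := R 0 h0P (2 * p) (h2P p hp) (2 * q) (h2P q hq) (hadd2 p hp q hq)
      (by rw [e]; exact hm8 p hp q hq)
    rw [e] at s1
    simp only [map_add, map_mul, map_ofNat] at s1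
    have s2 := d8 p hp q hq
    have s3 := a1 p hp q hq
    have h4 : (4 : K₁) ≠ 0 := by norm_num
    apply mul_left_cancel₀ h4
    linear_combination s1 - s2 + 2 * (τ + (2 * φ p + 2 * φ q)) * s3
  -- half of the even values
  have E : ∀ p ∈ P₀, 2 * (m p - m 0) = m (2 * p) - m 0 := by
    intro p hp
    have e : p + p = 2 * p := by ring
    have s1 := R 0 h0P p (hsub p hp) p (hsub p hp) (hadd p hp p hp)
      (by rw [zero_add]; exact hm2 p hp p hp)
    rw [zero_add, e] at s1
    simp only [map_mul, map_ofNat] at s1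
    have s2 := L p hp p hp
    have h4 : 2 * (τ + φ p) ≠ 0 := mul_ne_zero two_ne_zero (hne p)
    apply mul_left_cancel₀ h4
    linear_combination s1 - s2
  intro p hp q hq
  have sp := E p hp
  have sq := E q hq
  have sL := L p hp q hq
  have sL' : m (2 * (p * q)) - m 0 = 2 * (φ q * (m p - m 0) + φ p * (m q - m 0)) := by
    linear_combination sL - φ q * sp - φ p * sq
  refine ⟨?_, ?_, sL', ?_, ?_, ?_⟩
  · have s1 := R 0 h0P p (hsub p hp) q (hsub q hq) (hadd p hp q hq)
      (by rw [zero_add]; exact hm2 p hp q hq)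
    rw [zero_add] at s1
    have h4 : 2 * (τ + φ (p + q)) ≠ 0 := mul_ne_zero two_ne_zero (hne _)
    apply mul_left_cancel₀ h4
    rw [map_add] at s1 ⊢
    linear_combination -s1 + sL'
  · have s1 := a1 p hp q hq
    linear_combination s1 - sp - sq
  · linear_combination d4 p hp q hq + 2 * sL'
  · linear_combination d6 p hp q hq + 3 * sL'
  · linear_combination d8 p hp q hq + 4 * sL'

theorem key (hne : ∀ p, τ + φ p ≠ 0) (hgood : Good P₀)
    (h0 : (0 : MvPolynomial I ℤ) ∈ P₀) (h1 : (1 : MvPolynomial I ℤ) ∈ P₀)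
    (hm1 : (-1 : MvPolynomial I ℤ) ∈ P₀)
    (hX : ∀ a, (X a : MvPolynomial I ℤ) ∈ P₀)
    (hadd : ∀ p ∈ P₀, ∀ q ∈ P₀, p + q ∈ P) (hadd2 : ∀ p ∈ P₀, ∀ q ∈ P₀, 2 * p + 2 * q ∈ P)
    (hm2 : ∀ p ∈ P₀, ∀ q ∈ P₀, 2 * (p * q) ∈ P) (hm4 : ∀ p ∈ P₀, ∀ q ∈ P₀, 4 * (p * q) ∈ P)
    (hm6 : ∀ p ∈ P₀, ∀ q ∈ P₀, 6 * (p * q) ∈ P) (hm8 : ∀ p ∈ P₀, ∀ q ∈ P₀, 8 * (p * q) ∈ P)
    (hP : ∀ x ∈ P, ∃ p ∈ P₀, ∃ q ∈ P₀, x = p + q ∨ x = 2 * p + 2 * q ∨ x = 2 * (p * q) ∨
      x = 4 * (p * q) ∨ x = 6 * (p * q) ∨ x = 8 * (p * q))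
    (R : ∀ r ∈ P, ∀ p ∈ P, ∀ q ∈ P, p + q ∈ P → r + 2 * (p * q) ∈ P →
      m (r + 2 * (p * q)) + 2 * (τ + φ p) * m p + 2 * (τ + φ q) * m q =
        m r + 2 * (τ + φ (p + q)) * m (p + q) + 2 * τ * m 0) :
    ∀ x ∈ P, m x = m 0 + dv φ (fun a => m (X a) - m 0) x := by
  have main := rel hne h0 h1 hadd hadd2 hm2 hm4 hm6 hm8 R
  set u : I → K₁ := fun a => m (X a) - m 0 with hu
  have e1 : m 1 = m 0 := by
    have s := (main 1 h1 1 h1).2.2.1
    have s' := (main 1 h1 1 h1).1
    have e : (1 : MvPolynomial I ℤ) + 1 = 2 * (1 * 1) := by ring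
    rw [e] at s'
    rw [map_one] at s
    linear_combination (s' - s) / 2
  have e2 : m (-1) = m 0 := by
    have s' := (main 1 h1 (-1) hm1).1
    rw [add_neg_cancel] at s'
    linear_combination -s' - e1
  have dz : ∀ p q : MvPolynomial I ℤ, dv φ u (2 * (p * q)) =
      2 * (φ q * dv φ u p + φ p * dv φ u q) := by
    intro p q
    rw [two_mul, dv_add, dv_mul]
    ring
  have d2 : ∀ p : MvPolynomial I ℤ, dv φ u (2 * p) = 2 * dv φ u p := by
    intro p
    rw [two_mul, dv_add]
    ring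
  have key0 : ∀ p ∈ P₀, m p = m 0 + dv φ u p := by
    have hQ : ∀ p ∈ P₀, p ∈ P₀ → m p = m 0 + dv φ u p := by
      refine hgood (fun p => p ∈ P₀ → m p = m 0 + dv φ u p) ?_ ?_ ?_ ?_ ?_ ?_
      · intro _
        rw [dv_zero, add_zero]
      · intro _
        rw [dv_one, add_zero, e1]
      · intro _
        rw [dv_neg_one, add_zero, e2]
      · intro a _
        rw [dv_X, hu]
        ring
      · intro p hp q hq _ hp' hq' _
        rw [dv_add]
        have := (main p hp q hq).1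
        linear_combination this + hp' hp + hq' hq
      · intro p hp q hq hpq hp' hq' _
        rw [dv_mul]
        have s := (main p hp q hq).2.2.1
        have s' := (main (p * q) hpq 1 h1).2.2.1
        rw [mul_one, map_one, e1] at s'
        have h2 : (2 : K₁) ≠ 0 := two_ne_zero
        apply mul_left_cancel₀ h2
        linear_combination s - s' + 2 * φ q * hp' hp + 2 * φ p * hq' hq
    exact fun p hp => hQ p hp hp
  intro x hx
  obtain ⟨p, hp, q, hq, hxx⟩ := hP x hx
  obtain ⟨r1, r2, r3, r4, r5, r6⟩ := main p hp q hq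
  have kp := key0 p hp
  have kq := key0 q hq
  rcases hxx with rfl | rfl | rfl | rfl | rfl | rfl
  · rw [dv_add]
    linear_combination r1 + kp + kq
  · rw [dv_add, d2, d2]
    linear_combination r2 + 2 * kp + 2 * kq
  · rw [dz]
    linear_combination r3 + 2 * φ q * kp + 2 * φ p * kq
  · have e : dv φ u (4 * (p * q)) = 4 * (φ q * dv φ u p + φ p * dv φ u q) := by
      have e : 4 * (p * q) = 2 * (2 * (p * q)) := by ring
      rw [e, d2 (2 * (p * q)), dz]
      ring
    rw [e]
    linear_combination r4 + 4 * φ q * kp + 4 * φ p * kq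
  · have e : dv φ u (6 * (p * q)) = 6 * (φ q * dv φ u p + φ p * dv φ u q) := by
      have e : 6 * (p * q) = 2 * (p * q) + (2 * (2 * (p * q))) := by ring
      rw [e, dv_add, d2 (2 * (p * q)), dz]
      ring
    rw [e]
    linear_combination r5 + 6 * φ q * kp + 6 * φ p * kq
  · have e : dv φ u (8 * (p * q)) = 8 * (φ q * dv φ u p + φ p * dv φ u q) := by
      have e : 8 * (p * q) = 2 * (2 * (2 * (p * q))) := by ring
      rw [e, d2 (2 * (2 * (p * q))), d2 (2 * (p * q)), dz]
      ring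
    rw [e]
    linear_combination r6 + 8 * φ q * kp + 8 * φ p * kq

end key

/-! ### The family -/

theorem sum_step {A : Type} [AddCommMonoid A] (g : Fin 4 → A) (n : ℕ) (hn : n < 4) :
    (∑ i : Fin 4, if (i : ℕ) < n + 1 then g i else 0) =
      (∑ i : Fin 4, if (i : ℕ) < n then g i else 0) + g ⟨n, hn⟩ := by
  interval_cases n <;> simp [Fin.sum_univ_four]

section fam

variable {I : Type} (P : Finset (MvPolynomial I ℤ))

abbrev La : Type := Bool ⊕ Pt P

abbrev Idx : Type := I ⊕ (La P ⊕ (La P × Fin 5 × (Fin 4 → La P)))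

/-- the linear elements -/
noncomputable def ell : La P → MvPolynomial (Option I) ℤ
  | Sum.inl false => X none
  | Sum.inl true => X none + 1
  | Sum.inr p => 2 * X none + rename some p.1

noncomputable def pol : Idx P → MvPolynomial (Option I) ℤ
  | Sum.inl a => X (some a)
  | Sum.inr (Sum.inl x) => ell P x
  | Sum.inr (Sum.inr x) => ell P x.1 +
      ∑ i : Fin 4, if (i : ℕ) < (x.2.1 : ℕ) then (ell P (x.2.2 i)) ^ 2 else 0

abbrev Gt : Type := (La P × Fin 4 × (Fin 4 → La P)) ⊕ I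

variable {P} in
/-- the slots of the gates -/
noncomputable def alf (hX1 : ∀ a, (X a + 1 : MvPolynomial I ℤ) ∈ P) : Gt P → Fin 3 → Idx P
  | Sum.inl x => ![Sum.inr (Sum.inl (x.2.2 x.2.1)), Sum.inr (Sum.inr (x.1, x.2.1.castSucc, x.2.2)),
      Sum.inr (Sum.inr (x.1, x.2.1.succ, x.2.2))]
  | Sum.inr a => ![Sum.inr (Sum.inl (Sum.inl true)), Sum.inl a,
      Sum.inr (Sum.inr (Sum.inr ⟨X a + 1, hX1 a⟩, 1, fun _ => Sum.inl false))]

variable {P}

theorem gate_id (hX1 : ∀ a, (X a + 1 : MvPolynomial I ℤ) ∈ P) (g : Gt P) :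
    pol P (alf hX1 g 0) ^ 2 + pol P (alf hX1 g 1) = pol P (alf hX1 g 2) := by
  rcases g with ⟨y, n, f⟩ | a
  · change ell P (f n) ^ 2 + (ell P y +
        ∑ i : Fin 4, if (i : ℕ) < (n : ℕ) then (ell P (f i)) ^ 2 else 0) =
      ell P y + ∑ i : Fin 4, if (i : ℕ) < (n : ℕ) + 1 then (ell P (f i)) ^ 2 else 0
    rw [sum_step (fun i => (ell P (f i)) ^ 2) n n.2]
    ring
  · change (X none + 1) ^ 2 + X (some a) = (2 * X none + rename some (X a + 1)) +
      ∑ i : Fin 4, if (i : ℕ) < 1 then (X none : MvPolynomial (Option I) ℤ) ^ 2 else 0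
    simp only [map_add, rename_X, map_one, Fin.sum_univ_four]
    simp
    ring

theorem alf_inl (hX1 : ∀ a, (X a + 1 : MvPolynomial I ℤ) ∈ P) {g : Gt P} {c : Fin 3} {a : I}
    (h : alf hX1 g c = Sum.inl a) : g = Sum.inr a ∧ c = 1 := by
  rcases g with x | b
  · exfalso
    fin_cases c <;> simp [alf] at h
  · fin_cases c
    · simp [alf] at h
    · have h1 : b = a := Sum.inl_injective h
      exact ⟨by rw [h1], rfl⟩
    · simp [alf] at h

end fam

/-! ### Values -/

section val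

variable {I K K₁ : Type} [Field K] [Field K₁] (j : K →+* K₁) (t : K₁) (z : I → K)
  {P : Finset (MvPolynomial I ℤ)}

/-- the values of the linear elements, as polynomials in `t` -/
noncomputable def ep : La P → Polynomial K
  | Sum.inl false => Polynomial.C 1 * Polynomial.X + Polynomial.C 0
  | Sum.inl true => Polynomial.C 1 * Polynomial.X + Polynomial.C 1
  | Sum.inr p => Polynomial.C 2 * Polynomial.X + Polynomial.C (eval₂ (Int.castRingHom K) z p.1)

theorem ep_spec (x : La P) : ∃ (c : ℕ) (b : K), 0 < c ∧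
    ep z x = Polynomial.C (c : K) * Polynomial.X + Polynomial.C b := by
  rcases x with (_ | _) | p
  · exact ⟨1, 0, one_pos, by simp [ep]⟩
  · exact ⟨1, 1, one_pos, by simp [ep]⟩
  · exact ⟨2, eval₂ (Int.castRingHom K) z p.1, two_pos, by simp only [ep, Nat.cast_ofNat]⟩

theorem val_ell (x : La P) :
    eval₂ (Int.castRingHom K₁) (ext j t z) (ell P x) = Polynomial.eval₂ j t (ep z x) := by
  rcases x with (_ | _) | p
  · simp [ell, ep, ext]
  · simp [ell, ep, ext]
  · change eval₂ (Int.castRingHom K₁) (ext j t z) (2 * X none + rename some p.1) =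
      Polynomial.eval₂ j t (Polynomial.C 2 * Polynomial.X +
        Polynomial.C (eval₂ (Int.castRingHom K) z p.1))
    rw [Polynomial.eval₂_add, Polynomial.eval₂_mul, Polynomial.eval₂_C, Polynomial.eval₂_X,
      Polynomial.eval₂_C, ← Chain2.val_ev, eval₂_add, eval₂_mul, eval₂_X, eval₂_rename, map_ofNat]
    congr 2
    exact map_ofNat (eval₂Hom (Int.castRingHom K₁) (ext j t z)) 2

theorem val_inr (p : Pt P) :
    eval₂ (Int.castRingHom K₁) (ext j t z) (ell P (Sum.inr p)) =
      2 * t + eval₂Hom (Int.castRingHom K₁) (fun a => j (z a)) p.1 := by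
  rw [val_ell, ep, Polynomial.eval₂_add, Polynomial.eval₂_mul, Polynomial.eval₂_C,
    Polynomial.eval₂_X, Polynomial.eval₂_C, ← Chain2.val_ev, map_ofNat]

theorem val_false : eval₂ (Int.castRingHom K₁) (ext j t z) (ell P (Sum.inl false)) = t := by
  change eval₂ (Int.castRingHom K₁) (ext j t z) (X none) = t
  rw [eval₂_X]
  rfl

theorem val_true : eval₂ (Int.castRingHom K₁) (ext j t z) (ell P (Sum.inl true)) = t + 1 := by
  change eval₂ (Int.castRingHom K₁) (ext j t z) (X none + 1) = t + 1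
  rw [eval₂_add, eval₂_X, eval₂_one]
  rfl

theorem coeff_sq (a b : K) :
    ((Polynomial.C a * Polynomial.X + Polynomial.C b) ^ 2).coeff 2 = a ^ 2 := by
  have h : (Polynomial.C a * Polynomial.X + Polynomial.C b) ^ 2 =
      Polynomial.C (a ^ 2) * Polynomial.X ^ 2 + Polynomial.C (2 * a * b) * Polynomial.X +
        Polynomial.C (b ^ 2) := by
    simp only [map_mul, map_pow, map_ofNat]
    ring
  rw [h, Polynomial.coeff_add, Polynomial.coeff_add, Polynomial.coeff_C_mul,
    Polynomial.coeff_C_mul, Polynomial.coeff_X_pow, Polynomial.coeff_X, Polynomial.coeff_C]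
  simp

theorem tr_val [CharZero K] {j : K →+* K₁} {t : K₁} (ht : Tr j t) (y : La P) (n : ℕ)
    (f : Fin 4 → La P) :
    Tr j (eval₂ (Int.castRingHom K₁) (ext j t z) (ell P y +
      ∑ i : Fin 4, if (i : ℕ) < n then (ell P (f i)) ^ 2 else 0)) := by
  classical
  have h1 : eval₂ (Int.castRingHom K₁) (ext j t z) (ell P y +
      ∑ i : Fin 4, if (i : ℕ) < n then (ell P (f i)) ^ 2 else 0) =
      Polynomial.eval₂ j t (ep z y + ∑ i : Fin 4, if (i : ℕ) < n then (ep z (f i)) ^ 2 else 0) := by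
    rw [eval₂_add, Polynomial.eval₂_add, val_ell, eval₂_sum, Polynomial.eval₂_finset_sum]
    congr 1
    refine Finset.sum_congr rfl fun i _ => ?_
    split_ifs
    · rw [eval₂_pow, Polynomial.eval₂_pow, val_ell]
    · rw [eval₂_zero, Polynomial.eval₂_zero]
  rw [h1]
  apply Chain2.tr_poly ht
  obtain ⟨c, b, hc, hy⟩ := ep_spec z y
  by_cases hn : ∃ i : Fin 4, (i : ℕ) < n
  · -- the coefficient of `t ^ 2`
    obtain ⟨i0, hi0⟩ := hn
    have h2 : ∀ i : Fin 4, ∃ k : ℕ, (if (i : ℕ) < n then (ep z (f i)) ^ 2 else 0 :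
        Polynomial K).coeff 2 = (k : K) ∧ ((i : ℕ) < n → 0 < k) := by
      intro i
      by_cases hi : (i : ℕ) < n
      · obtain ⟨c', b', hc', hf⟩ := ep_spec z (f i)
        refine ⟨c' ^ 2, ?_, fun _ => by positivity⟩
        rw [if_pos hi, hf, coeff_sq]
        push_cast
        rfl
      · exact ⟨0, by rw [if_neg hi, Polynomial.coeff_zero, Nat.cast_zero], fun h => absurd h hi⟩
    choose k hk hk' using h2
    have h3 : (ep z y + ∑ i : Fin 4, if (i : ℕ) < n then (ep z (f i)) ^ 2 else 0 :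
        Polynomial K).coeff 2 = ((∑ i, k i : ℕ) : K) := by
      rw [Polynomial.coeff_add, Polynomial.finset_sum_coeff, hy]
      simp only [hk]
      simp [Polynomial.coeff_X, Polynomial.coeff_C]
    have h4 : (ep z y + ∑ i : Fin 4, if (i : ℕ) < n then (ep z (f i)) ^ 2 else 0 :
        Polynomial K).coeff 2 ≠ 0 := by
      rw [h3]
      have : 0 < ∑ i, k i := Finset.sum_pos' (fun i _ => Nat.zero_le _)
        ⟨i0, Finset.mem_univ _, hk' i0 hi0⟩
      exact_mod_cast this.ne'
    have h5 := Polynomial.le_natDegree_of_ne_zero h4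
    omega
  · have h2 : (∑ i : Fin 4, if (i : ℕ) < n then (ep z (f i)) ^ 2 else 0 : Polynomial K) = 0 :=
      Finset.sum_eq_zero fun i _ => if_neg fun h => hn ⟨i, h⟩
    rw [h2, add_zero, hy]
    have h3 : (Polynomial.C (c : K) * Polynomial.X + Polynomial.C b).coeff 1 ≠ 0 := by
      simp [Polynomial.coeff_C]
      exact_mod_cast hc.ne'
    have h5 := Polynomial.le_natDegree_of_ne_zero h3
    omega

end val

end Chain3

open Chain3 in
/-- [CHAIN3] -/
theorem chain3 : S_CHAIN3 := by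
  classical
  intro K _ _ I _ z
  -- generators of the ideal
  let ev : MvPolynomial I ℤ →+* K := eval₂Hom (Int.castRingHom K) z
  obtain ⟨G, hG⟩ : (RingHom.ker ev).FG := IsNoetherian.noetherian _
  obtain ⟨P₀, hgood, hsub⟩ := Chain2.exists_good
    (G ∪ (({0, 1, -1} : Finset (MvPolynomial I ℤ)) ∪
      Finset.univ.image (fun a : I => (X a : MvPolynomial I ℤ))))
  have h0 : (0 : MvPolynomial I ℤ) ∈ P₀ := hsub (by simp)
  have h1 : (1 : MvPolynomial I ℤ) ∈ P₀ := hsub (by simp)
  have hm : (-1 : MvPolynomial I ℤ) ∈ P₀ := hsub (by simp)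
  have hX : ∀ a, (X a : MvPolynomial I ℤ) ∈ P₀ := fun a => hsub (by simp)
  have hG₀ : ∀ g ∈ G, g ∈ P₀ := fun g hg => hsub (by simp [hg])
  obtain ⟨P, hP⟩ : ∃ P : Finset (MvPolynomial I ℤ), ∀ x, x ∈ P ↔ ∃ p ∈ P₀, ∃ q ∈ P₀,
      x = p + q ∨ x = 2 * p + 2 * q ∨ x = 2 * (p * q) ∨ x = 4 * (p * q) ∨ x = 6 * (p * q) ∨
        x = 8 * (p * q) := by
    refine ⟨(P₀ ×ˢ P₀).biUnion fun x => {x.1 + x.2, 2 * x.1 + 2 * x.2, 2 * (x.1 * x.2),
      4 * (x.1 * x.2), 6 * (x.1 * x.2), 8 * (x.1 * x.2)}, fun x => ?_⟩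
    simp only [Finset.mem_biUnion, Finset.mem_product, Finset.mem_insert, Finset.mem_singleton,
      Prod.exists]
    constructor
    · rintro ⟨p, q, ⟨hp, hq⟩, h⟩
      exact ⟨p, hp, q, hq, h⟩
    · rintro ⟨p, hp, q, hq, h⟩
      exact ⟨p, q, ⟨hp, hq⟩, h⟩
  have hadd : ∀ p ∈ P₀, ∀ q ∈ P₀, p + q ∈ P := fun p hp q hq =>
    (hP _).2 ⟨p, hp, q, hq, Or.inl rfl⟩
  have hadd2 : ∀ p ∈ P₀, ∀ q ∈ P₀, 2 * p + 2 * q ∈ P := fun p hp q hq =>
    (hP _).2 ⟨p, hp, q, hq, Or.inr (Or.inl rfl)⟩
  have hm2 : ∀ p ∈ P₀, ∀ q ∈ P₀, 2 * (p * q) ∈ P := fun p hp q hq =>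
    (hP _).2 ⟨p, hp, q, hq, Or.inr (Or.inr (Or.inl rfl))⟩
  have hm4 : ∀ p ∈ P₀, ∀ q ∈ P₀, 4 * (p * q) ∈ P := fun p hp q hq =>
    (hP _).2 ⟨p, hp, q, hq, Or.inr (Or.inr (Or.inr (Or.inl rfl)))⟩
  have hm6 : ∀ p ∈ P₀, ∀ q ∈ P₀, 6 * (p * q) ∈ P := fun p hp q hq =>
    (hP _).2 ⟨p, hp, q, hq, Or.inr (Or.inr (Or.inr (Or.inr (Or.inl rfl))))⟩
  have hm8 : ∀ p ∈ P₀, ∀ q ∈ P₀, 8 * (p * q) ∈ P := fun p hp q hq =>
    (hP _).2 ⟨p, hp, q, hq, Or.inr (Or.inr (Or.inr (Or.inr (Or.inr rfl))))⟩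
  have hsubP : ∀ p ∈ P₀, p ∈ P := fun p hp => by
    have := hadd p hp 0 h0
    rwa [add_zero] at this
  have h0P := hsubP 0 h0
  have h2P : (2 : MvPolynomial I ℤ) ∈ P := by
    have := hadd 1 h1 1 h1
    rwa [one_add_one_eq_two] at this
  have hX1 : ∀ a, (X a + 1 : MvPolynomial I ℤ) ∈ P := fun a => hadd _ (hX a) 1 h1
  let e : Fin (Fintype.card (Idx P)) ≃ Idx P := (Fintype.equivFin _).symm
  let eg : Fin (Fintype.card (Gt P)) ≃ Gt P := (Fintype.equivFin _).symm
  refine ⟨Fintype.card (Idx P), fun n => pol P (e n), fun a => e.symm (Sum.inl a),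
    e.symm (Sum.inr (Sum.inl (Sum.inl false))), Fintype.card (Gt P),
    fun x => e.symm (alf hX1 (eg x.1) x.2), ?_, ?_, ?_, ?_, ?_, ?_, ?_⟩
  · intro a b hab
    exact Sum.inl_injective (e.symm.injective hab)
  · intro a
    change pol P (e (e.symm (Sum.inl a))) = _
    rw [Equiv.apply_symm_apply]
    rfl
  · change pol P (e (e.symm (Sum.inr (Sum.inl (Sum.inl false))))) = _
    rw [Equiv.apply_symm_apply]
    rfl
  · intro n hn K₁ _ j t ht
    obtain ⟨x, hx⟩ : ∃ x, e n = x := ⟨_, rfl⟩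
    have hn' : n = e.symm x := by rw [← hx, Equiv.symm_apply_apply]
    change Tr j (eval₂ (Int.castRingHom K₁) (ext j t z) (pol P (e n)))
    rw [hx]
    rcases x with a | y | x
    · exact absurd ⟨a, hn'.symm⟩ hn
    · have h2 := tr_val z ht y 0 (fun _ => y)
      simp only [Nat.not_lt_zero, if_false, Finset.sum_const_zero, add_zero] at h2
      exact h2
    · exact tr_val z ht x.1 x.2.1 x.2.2
  · intro g
    simp only [Equiv.apply_symm_apply]
    exact gate_id hX1 (eg g)
  · rintro ⟨g, c⟩ ⟨g', c'⟩ h ⟨a, ha⟩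
    have h2 := e.symm.injective h
    have h3 := e.symm.injective ha
    simp only at h2 h3
    obtain ⟨h4, h5⟩ := alf_inl hX1 h3.symm
    obtain ⟨h6, h7⟩ := alf_inl hX1 (h2.symm.trans h3.symm)
    rw [Prod.mk.injEq]
    exact ⟨eg.injective (h4.trans h6.symm), h5.trans h7.symm⟩
  · intro K₁ _ j t ht V hV1 hV2
    have hK₁ : CharZero K₁ := charZero_of_injective_ringHom j.injective
    let φ : MvPolynomial I ℤ →+* K₁ := eval₂Hom (Int.castRingHom K₁) (fun a => j (z a))
    have hφ : ∀ p, φ p = j (ev p) := fun p => Chain2.val_ev j z p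
    -- transcendence
    have hne : ∀ p, 2 * t + φ p ≠ 0 := by
      intro p hp
      have h2 := ht (Polynomial.C 2 * Polynomial.X + Polynomial.C (ev p)) (by
        rw [Polynomial.eval₂_add, Polynomial.eval₂_mul, Polynomial.eval₂_C, Polynomial.eval₂_X,
          Polynomial.eval₂_C, map_ofNat, ← hφ, hp])
      have h3 := congrArg (fun f => Polynomial.coeff f 1) h2
      simp [Polynomial.coeff_C] at h3
    have ht0 : t ≠ 0 := by
      intro h
      apply hne 0
      rw [h, map_zero, mul_zero, add_zero]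
    have ht1 : t + 1 ≠ 0 := by
      intro h
      apply hne 2
      rw [map_ofNat]
      linear_combination 2 * h
    -- the gates
    have gate : ∀ v ∈ V, ∀ g : Gt P,
        2 * eval₂ (Int.castRingHom K₁) (ext j t z) (pol P (alf hX1 g 0)) *
          v (e.symm (alf hX1 g 0)) +
        v (e.symm (alf hX1 g 1)) - v (e.symm (alf hX1 g 2)) = 0 := by
      intro v hv g
      have h2 := hV2 v hv (eg.symm g)
      simp only [Equiv.apply_symm_apply] at h2
      exact h2
    let va : La P → K₁ := fun x => eval₂ (Int.castRingHom K₁) (ext j t z) (ell P x)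
    -- equal values
    have heq : ∀ v ∈ V, ∀ x y : La P ⊕ (La P × Fin 5 × (Fin 4 → La P)),
        eval₂ (Int.castRingHom K₁) (ext j t z) (pol P (Sum.inr x)) =
          eval₂ (Int.castRingHom K₁) (ext j t z) (pol P (Sum.inr y)) →
        v (e.symm (Sum.inr x)) = v (e.symm (Sum.inr y)) := by
      intro v hv x y hxy
      refine hV1 v hv _ _ ?_ ?_ ?_
      · rintro ⟨a, ha⟩
        exact absurd (e.symm.injective ha) (by simp)
      · rintro ⟨a, ha⟩
        exact absurd (e.symm.injective ha) (by simp)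
      · simp only [Equiv.apply_symm_apply]
        exact hxy
    -- the paths
    have path : ∀ v ∈ V, ∀ (y : La P) (f : Fin 4 → La P) (n : ℕ) (hn : n < 5),
        v (e.symm (Sum.inr (Sum.inr (y, ⟨n, hn⟩, f)))) = v (e.symm (Sum.inr (Sum.inl y))) +
          ∑ i : Fin 4, if (i : ℕ) < n then
            2 * va (f i) * v (e.symm (Sum.inr (Sum.inl (f i)))) else 0 := by
      intro v hv y f n
      induction n with
      | zero =>
        intro hn
        simp only [Nat.not_lt_zero, if_false, Finset.sum_const_zero, add_zero]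
        apply heq v hv
        change eval₂ (Int.castRingHom K₁) (ext j t z) (ell P y +
          ∑ i : Fin 4, if (i : ℕ) < 0 then (ell P (f i)) ^ 2 else 0) =
          eval₂ (Int.castRingHom K₁) (ext j t z) (ell P y)
        simp only [Nat.not_lt_zero, if_false, Finset.sum_const_zero, add_zero]
      | succ n ih =>
        intro hn
        have h2 := ih (by omega)
        have h3 := gate v hv (Sum.inl (y, ⟨n, by omega⟩, f))
        change 2 * va (f ⟨n, by omega⟩) * v (e.symm (Sum.inr (Sum.inl (f ⟨n, by omega⟩)))) +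
          v (e.symm (Sum.inr (Sum.inr (y, ⟨n, by omega⟩, f)))) -
          v (e.symm (Sum.inr (Sum.inr (y, ⟨n + 1, hn⟩, f)))) = 0 at h3
        rw [sum_step (fun i => 2 * va (f i) * v (e.symm (Sum.inr (Sum.inl (f i))))) n (by omega)]
        linear_combination h2 - h3
    have hval : ∀ (y : La P) (f : Fin 4 → La P) (n : ℕ) (hn : n < 5),
        eval₂ (Int.castRingHom K₁) (ext j t z) (pol P (Sum.inr (Sum.inr (y, ⟨n, hn⟩, f)))) =
          va y + ∑ i : Fin 4, if (i : ℕ) < n then (va (f i)) ^ 2 else 0 := by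
      intro y f n hn
      change eval₂ (Int.castRingHom K₁) (ext j t z) (ell P y +
          ∑ i : Fin 4, if (i : ℕ) < n then (ell P (f i)) ^ 2 else 0) = _
      rw [eval₂_add, eval₂_sum]
      congr 1
      refine Finset.sum_congr rfl fun i _ => ?_
      split_ifs
      · rw [eval₂_pow]
      · rw [eval₂_zero]
    -- the relations
    have rl : ∀ v ∈ V, ∀ (y y' : La P) (f f' : Fin 4 → La P) (n n' : ℕ) (hn : n < 5) (hn' : n' < 5),
        (va y + ∑ i : Fin 4, if (i : ℕ) < n then (va (f i)) ^ 2 else 0) =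
          (va y' + ∑ i : Fin 4, if (i : ℕ) < n' then (va (f' i)) ^ 2 else 0) →
        (v (e.symm (Sum.inr (Sum.inl y))) + ∑ i : Fin 4, if (i : ℕ) < n then
            2 * va (f i) * v (e.symm (Sum.inr (Sum.inl (f i)))) else 0) =
        (v (e.symm (Sum.inr (Sum.inl y'))) + ∑ i : Fin 4, if (i : ℕ) < n' then
            2 * va (f' i) * v (e.symm (Sum.inr (Sum.inl (f' i)))) else 0) := by
      intro v hv y y' f f' n n' hn hn' h
      rw [← path v hv y f n hn, ← path v hv y' f' n' hn']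
      apply heq v hv
      rw [hval, hval]
      exact h
    have vr : ∀ p : Chain2.Pt P, va (Sum.inr p) = 2 * t + φ p.1 := fun p => val_inr j t z p
    have φ2 : φ 2 = 2 := map_ofNat φ 2
    have vf : va (Sum.inl false) = t := val_false j t z
    have vt : va (Sum.inl true) = t + 1 := val_true j t z
    -- the values
    have hd : ∀ v ∈ V, (∀ (p : MvPolynomial I ℤ) (hp : p ∈ P),
        v (e.symm (Sum.inr (Sum.inl (Sum.inr ⟨p, hp⟩)))) =
          2 * v (e.symm (Sum.inr (Sum.inl (Sum.inl false)))) +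
            Chain2.dv φ (fun a => v (e.symm (Sum.inl a))) p) ∧
        v (e.symm (Sum.inr (Sum.inl (Sum.inl true)))) =
          v (e.symm (Sum.inr (Sum.inl (Sum.inl false)))) := by
      intro v hv
      let m : MvPolynomial I ℤ → K₁ := fun p =>
        if hp : p ∈ P then v (e.symm (Sum.inr (Sum.inl (Sum.inr ⟨p, hp⟩)))) else 0
      have hd' : ∀ (p : MvPolynomial I ℤ) (hp : p ∈ P),
          v (e.symm (Sum.inr (Sum.inl (Sum.inr ⟨p, hp⟩)))) = m p := fun p hp => by
        simp only [m, dif_pos hp]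
      have R : ∀ r ∈ P, ∀ p ∈ P, ∀ q ∈ P, p + q ∈ P → r + 2 * (p * q) ∈ P →
          m (r + 2 * (p * q)) + 2 * (2 * t + φ p) * m p + 2 * (2 * t + φ q) * m q =
            m r + 2 * (2 * t + φ (p + q)) * m (p + q) + 2 * (2 * t) * m 0 := by
        intro r hr p hp q hq hpq hrpq
        have h2 := rl v hv (Sum.inr ⟨_, hrpq⟩) (Sum.inr ⟨r, hr⟩)
          ![Sum.inr ⟨p, hp⟩, Sum.inr ⟨q, hq⟩, Sum.inl false, Sum.inl false]
          ![Sum.inr ⟨_, hpq⟩, Sum.inr ⟨0, h0P⟩, Sum.inl false, Sum.inl false] 2 2 (by omega)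
          (by omega) (by
            simp only [Fin.sum_univ_four]
            simp [vr, φ2]
            ring)
        simp only [Fin.sum_univ_four] at h2
        simp [vr, hd'] at h2
        rw [map_add]
        linear_combination h2
      have h2 := key (τ := 2 * t) (φ := φ) (m := m) hne hgood h0 h1 hm hX hadd hadd2 hm2 hm4 hm6
        hm8 (fun x hx => (hP x).1 hx) R
      have e0 : m 0 = 2 * v (e.symm (Sum.inr (Sum.inl (Sum.inl false)))) := by
        have h3 := rl v hv (Sum.inl false) (Sum.inl false) (fun _ => Sum.inr ⟨0, h0P⟩)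
          (fun _ => Sum.inl false) 1 4 (by omega) (by omega) (by
            simp only [Fin.sum_univ_four]
            simp [vr, vf]
            ring)
        simp only [Fin.sum_univ_four] at h3
        simp [vr, vf, hd'] at h3
        have h4 : 4 * t ≠ 0 := mul_ne_zero (by norm_num) ht0
        apply mul_left_cancel₀ h4
        linear_combination h3
      have e2 : m 2 = 2 * v (e.symm (Sum.inr (Sum.inl (Sum.inl true)))) := by
        have h3 := rl v hv (Sum.inl false) (Sum.inl false) (fun _ => Sum.inr ⟨2, h2P⟩)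
          (fun _ => Sum.inl true) 1 4 (by omega) (by omega) (by
            simp only [Fin.sum_univ_four]
            simp [vr, vt, φ2]
            ring)
        simp only [Fin.sum_univ_four] at h3
        simp [vr, vt, hd', φ2] at h3
        have h4 : 4 * (t + 1) ≠ 0 := mul_ne_zero (by norm_num) ht1
        apply mul_left_cancel₀ h4
        linear_combination h3
      have e3 : m 2 = m 0 := by
        have h3 := h2 2 h2P
        have h4 : Chain2.dv φ (fun a => m (X a) - m 0) 2 = 0 := by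
          rw [← one_add_one_eq_two, Chain2.dv_add, Chain2.dv_one, add_zero]
        rw [h4, add_zero] at h3
        exact h3
      have e4 : v (e.symm (Sum.inr (Sum.inl (Sum.inl true)))) =
          v (e.symm (Sum.inr (Sum.inl (Sum.inl false)))) := by
        linear_combination (e0 - e2 + e3) / 2
      have e5 : ∀ a, v (e.symm (Sum.inl a)) = m (X a) - m 0 := by
        intro a
        have h3 := gate v hv (Sum.inr a)
        change 2 * va (Sum.inl true) * v (e.symm (Sum.inr (Sum.inl (Sum.inl true)))) +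
          v (e.symm (Sum.inl a)) - v (e.symm (Sum.inr (Sum.inr (Sum.inr ⟨X a + 1, hX1 a⟩,
            ⟨1, by omega⟩, fun _ => Sum.inl false)))) = 0 at h3
        rw [path v hv] at h3
        simp only [Fin.sum_univ_four] at h3
        simp [vt, vf, hd', e4] at h3
        have h4 := h2 (X a + 1) (hX1 a)
        rw [Chain2.dv_add, Chain2.dv_X, Chain2.dv_one, add_zero] at h4
        linear_combination h3 + h4 + e0
      refine ⟨fun p hp => ?_, e4⟩
      rw [hd' p hp, h2 p hp, ← e0]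
      congr 2
      funext a
      exact (e5 a).symm
    -- the tangent vectors
    have htan : ∀ v ∈ V, ∀ f : MvPolynomial I ℤ, φ f = 0 →
        Chain2.dv φ (fun a => v (e.symm (Sum.inl a))) f = 0 := by
      intro v hv f hf
      have h2 : f ∈ Ideal.span (G : Set (MvPolynomial I ℤ)) := by
        rw [hG]
        change ev f = 0
        rw [hφ, map_eq_zero] at hf
        exact hf
      refine (Chain2.dv_span (φ := φ) (fun g hg => ?_) h2).2
      have h3 : φ g = 0 := by
        have h4 : g ∈ RingHom.ker ev := by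
          rw [← hG]
          exact Ideal.subset_span hg
        rw [hφ, h4, map_zero]
      refine ⟨h3, ?_⟩
      have h4 := (hd v hv).1 g (hsubP g (hG₀ g hg))
      have h5 := heq v hv (Sum.inl (Sum.inr ⟨g, hsubP g (hG₀ g hg)⟩)) (Sum.inl (Sum.inr ⟨0, h0P⟩))
        (by
          change va (Sum.inr ⟨g, hsubP g (hG₀ g hg)⟩) = va (Sum.inr ⟨0, h0P⟩)
          rw [vr, vr]
          simp only [map_zero]
          rw [h3])
      have h6 := (hd v hv).1 0 h0P
      rw [Chain2.dv_zero, add_zero] at h6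
      rw [h5, h6] at h4
      linear_combination -h4
    let Φ : V →ₗ[K₁] (Chain2.tan (fun a => j (z a)) × K₁) :=
      { toFun := fun v => (⟨fun a => (v : Fin (Fintype.card (Idx P)) → K₁) (e.symm (Sum.inl a)),
          fun f hf => htan v v.2 f hf⟩,
          (v : Fin (Fintype.card (Idx P)) → K₁) (e.symm (Sum.inr (Sum.inl (Sum.inl false)))))
        map_add' := fun _ _ => rfl
        map_smul' := fun _ _ => rfl }
    have hinj : Function.Injective Φ := by
      rw [← LinearMap.ker_eq_bot, LinearMap.ker_eq_bot']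
      intro v hv
      have h2 : ∀ a : I, (v : Fin (Fintype.card (Idx P)) → K₁) (e.symm (Sum.inl a)) = 0 := fun a =>
        congrFun (congrArg Subtype.val (congrArg Prod.fst hv)) a
      have h3 : (v : Fin (Fintype.card (Idx P)) → K₁)
          (e.symm (Sum.inr (Sum.inl (Sum.inl false)))) = 0 :=
        congrArg Prod.snd hv
      have h4 : ∀ x : La P,
          (v : Fin (Fintype.card (Idx P)) → K₁) (e.symm (Sum.inr (Sum.inl x))) = 0 := by
        intro x
        rcases x with (_ | _) | p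
        · exact h3
        · rw [(hd v v.2).2, h3]
        · rw [(hd v v.2).1 p.1 p.2, h3, mul_zero, zero_add, Chain2.dv]
          exact Finset.sum_eq_zero fun a _ => by rw [h2 a, zero_mul]
      apply Subtype.ext
      funext n
      change (v : Fin (Fintype.card (Idx P)) → K₁) n = 0
      rw [← e.symm_apply_apply n]
      generalize e n = x
      rcases x with a | p | x
      · exact h2 a
      · exact h4 p
      · obtain ⟨y, ⟨n, hn⟩, f⟩ := x
        rw [path v v.2 y f n hn, h4 y, zero_add]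
        refine Finset.sum_eq_zero fun i _ => ?_
        rw [h4, mul_zero, ite_self]
    have h2 := LinearMap.finrank_le_finrank_of_injective hinj
    rw [Module.finrank_prod, Module.finrank_self] at h2
    have h3 := Chain2.tan_le (fun a => j (z a))
    rw [Chain2.td_int j z] at h3
    omega

end Pool.Agent.Helper9K9.ZY
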