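import Pool.Agent.Helper9K9.ZY.Stm
import Pool.Agent.Helper9K9.ZU.Basic

/-!
Assembly: the main property for tuples whose relations come from the integers.
-/

set_option autoImplicit false

open MvPolynomial

namespace Pool.Agent.Helper9K9.ZY

open Pool.Agent.Helper9K9.ZU (Indep td td_comp_le exists_td le_td)

namespace CoreL

/-- the field of rational functions -/
abbrev KX (K : Type) [Field K] : Type := FractionRing (Polynomial K)

noncomputable def jX (K : Type) [Field K] : K →+* KX K :=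
  (algebraMap (Polynomial K) (KX K)).comp Polynomial.C

noncomputable def tX (K : Type) [Field K] : KX K := algebraMap (Polynomial K) (KX K) Polynomial.X

theorem trX (K : Type) [Field K] : Tr (jX K) (tX K) := by
  intro f hf
  have h1 : Polynomial.eval₂ (jX K) (tX K) f = algebraMap (Polynomial K) (KX K) f := by
    unfold jX tX
    rw [← Polynomial.hom_eval₂, Polynomial.eval₂_C_X]
  rw [h1] at hf
  exact (map_eq_zero_iff _ (IsFractionRing.injective (Polynomial K) (KX K))).1 hf

theorem eval₂_bind₁ {A B : Type} {K : Type} [Field K] (i : ℂ →+* K) (w : B → K)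
    (g : A → MvPolynomial B ℂ) (f : MvPolynomial A ℂ) :
    eval₂ i w (bind₁ g f) = eval₂ i (fun a => eval₂ i w (g a)) f := by
  have h := eval₂Hom_bind₁ i w g f
  simpa only [coe_eval₂Hom] using h

theorem eval₂_int {K : Type} [Field K] (i : ℂ →+* K) {I : Type} (z : I → K)
    (S : MvPolynomial I ℤ) : eval₂ i z (map (Int.castRingHom ℂ) S) =
      eval₂ (Int.castRingHom K) z S := by
  rw [eval₂_map]
  congr 1
  exact RingHom.ext_int _ _

end CoreL

open CoreL

theorem core0 (spec : S_SPEC) (mono : S_MONO) (inv : S_INV) (mix : S_MIX) (spt : S_SPT)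
    (coef : S_COEF) (tt : S_TT) (jac : S_JAC) (pick : S_PICK) (chain : S_CHAIN) (vec : S_VEC)
    (eqv : S_EQ) (C : Corr) (hyp : HypG C) (K : Type) [Field K] (i : ℂ →+* K) (I : Type)
    [Fintype I] (z : I → K) (hns : ∀ a, ¬ Sg C i (z a))
    (hni : ∀ a b, a ≠ b → ¬ Iso C i (z a) (z b))
    (htd : td (Int.castRingHom K) z ≤ td i z) : Star C I K i z := by
  have hK : CharZero K := charZero_of_injective_ringHom i.injective
  have hz0 : ∀ a, z a ≠ 0 := fun a h0 => hns a ⟨0, C.zero, by rw [map_zero, h0]⟩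
  obtain ⟨N, S, τ, θ, Γ, α, hτ, hSτ, hSθ, hmask, hgate, huniq, hchain⟩ := chain K I z hz0
  -- the field with a parameter
  let K₁ := KX K
  let j : K →+* K₁ := jX K
  let t : K₁ := tX K
  have ht : Tr j t := trX K
  obtain ⟨γ, hγ⟩ : ∃ γ : Fin N → K₁,
      ∀ n, γ n = eval₂ (Int.castRingHom K₁) (ext j t z) (S n) := ⟨_, fun n => rfl⟩
  obtain ⟨V, hV1, hV2⟩ := vec C K i I z N S τ hSτ hmask K₁ j t ht γ hγ
  let l : Fin Γ → (Fin N → K₁) →ₗ[K₁] K₁ := fun g =>
    γ (α (g, 1)) • (LinearMap.proj (α (g, 0)) : (Fin N → K₁) →ₗ[K₁] K₁) +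
      γ (α (g, 0)) • (LinearMap.proj (α (g, 1)) : (Fin N → K₁) →ₗ[K₁] K₁) +
      (LinearMap.proj (α (g, 2)) : (Fin N → K₁) →ₗ[K₁] K₁) -
      (LinearMap.proj (α (g, 3)) : (Fin N → K₁) →ₗ[K₁] K₁)
  have hl : ∀ g v, l g v = γ (α (g, 1)) * v (α (g, 0)) + γ (α (g, 0)) * v (α (g, 1)) +
      v (α (g, 2)) - v (α (g, 3)) := fun g v => rfl
  obtain ⟨k, s, hs, hind, hfin⟩ := pick K₁ N V Γ l
  have heqv := eqv C K₁ (j.comp i)
  have hfin2 : Module.finrank K₁ (V ⊓ ⨅ g, LinearMap.ker (l g) : Submodule K₁ (Fin N → K₁)) ≤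
      td (Int.castRingHom K) z + 1 := by
    refine hchain K₁ j t ht _ ?_ ?_
    · intro v hv n m hn hm hnm
      rw [← hγ, ← hγ] at hnm
      have h1 := hV2 v hv.1 n m hn hm (by rw [hnm]; exact heqv.1 _) (X 0 - X 1)
        (by simp [hnm])
      simp only [map_sub, pderiv_X_self, eval₂_sub] at h1
      rw [pderiv_X_of_ne (by decide), pderiv_X_of_ne (by decide)] at h1
      simp only [eval₂_zero, eval₂_one, sub_zero, one_mul, zero_sub] at h1
      linear_combination h1
    · intro v hv g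
      have h1 := (Submodule.mem_iInf _).1 hv.2 g
      rw [LinearMap.mem_ker, hl, hγ, hγ] at h1
      exact h1
  have hk : rk C (j.comp i) γ ≤ k + td i z + 1 := by omega
  obtain ⟨α', hα'⟩ : ∃ α' : Fin k × Fin 4 → Fin N, ∀ p, α' p = α (s p.1, p.2) :=
    ⟨_, fun p => rfl⟩
  have hτz : ∀ a, γ (τ a) = j (z a) := by
    intro a
    rw [hγ, hSτ, eval₂_X]
    rfl
  -- elements which are not coordinates of `z` are transcendental
  have htr : ∀ n, n ∉ Set.range τ → Tr j (γ n) := by
    intro n hn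
    obtain ⟨p, e, he, hSn, hp⟩ := hmask n hn
    have h1 : γ n = j (eval₂ (Int.castRingHom K) z p) * t ^ e := by
      rw [hγ, hSn, eval₂_mul, eval₂_pow, eval₂_X, eval₂_rename]
      congr 1
      change eval₂ (Int.castRingHom K₁) (fun a => j (z a)) p = j (eval₂ (Int.castRingHom K) z p)
      have h3 := eval₂_comp_left j (Int.castRingHom K) z p
      rw [h3]
      congr 1
      exact RingHom.ext_int _ _
    rw [h1]
    exact (mix K K₁ j t ht).2.2 _ e hp he
  obtain ⟨m, Q, hQ1, hQ2⟩ := hyp k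
  -- the ideals are not contained in the ideal of the gate point
  have hP : ∀ a, ∃ P ∈ Q a, eval₂ (j.comp i) (fun p => γ (α' p)) P ≠ 0 := by
    intro a
    by_contra hcon
    push Not at hcon
    obtain ⟨L, _, l', y, hy, hlt, hgen⟩ := hQ1 a
    have h1 := jac C L K₁ l' (j.comp i) k y (fun p => γ (α' p))
      (fun f hf => hcon f ((hgen f).2 hf)) hy {p | α' p ∈ Set.range τ}
      (V.map (LinearMap.funLeft K₁ K₁ α')) ?_ ?_ ?_ ?_ ?_
    · omega
    · rintro p ⟨c, hc, hcp⟩
      by_cases hp : α' p ∈ Set.range τ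
      · obtain ⟨b, hb⟩ := hp
        apply hns b
        refine ⟨c, hc, j.injective ?_⟩
        rw [← hτz, hb]
        exact hcp
      · have h2 := (mix K K₁ j _ (htr _ hp)).2.1 i (Polynomial.X - Polynomial.C c) (by
          rw [Polynomial.eval₂_sub, Polynomial.eval₂_X, Polynomial.eval₂_C, hcp, sub_self])
        exact Polynomial.X_sub_C_ne_zero c h2
    · rintro p ⟨b, hb⟩ q hqp hiso
      by_cases hq : α' q ∈ Set.range τ
      · obtain ⟨b', hb'⟩ := hq
        have hne : b ≠ b' := by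
          rintro rfl
          have h3 : α (s p.1, p.2) = α (s q.1, q.2) := by rw [← hα', ← hα', ← hb, ← hb']
          have h4 := huniq _ _ h3 (by rw [← hα']; exact ⟨b, hb⟩)
          apply hqp
          obtain ⟨h5, h6⟩ := Prod.mk.inj h4
          exact (Prod.ext (hs h5) h6).symm
        apply hni b b' hne
        obtain ⟨M, hM, hR⟩ := hiso
        refine ⟨M, hM, j.injective ?_⟩
        rw [map_zero]
        rw [← hR, ← hb, ← hb', hτz, hτz, eval₂_comp_left]
        congr 1
        funext u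
        fin_cases u <;> rfl
      · refine (mix K K₁ j _ (htr _ hq)).1 C i (z b) ?_
        rw [← hb, hτz] at hiso
        exact hiso
    · intro p hp
      exact (mix K K₁ j _ (htr _ hp)).2.1 i
    · rintro w ⟨v, hv, rfl⟩ p q hp hq hiso P hP
      exact hV2 v hv (α' p) (α' q) hp hq hiso P hP
    · intro c hc
      refine hind c fun v hv => ?_
      have h2 := hc _ ⟨v, hv, rfl⟩
      rw [← h2]
      refine Finset.sum_congr rfl fun g _ => ?_
      rw [hl]
      simp only [LinearMap.funLeft_apply, hα']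
  choose P hPQ hP0 using hP
  let g : Fin k × Fin 4 → MvPolynomial (Option I) ℂ := fun p => map (Int.castRingHom ℂ) (S (α' p))
  obtain ⟨H₀, hH0, hH⟩ := coef K i I z K₁ j t (∏ a, bind₁ g (P a)) (by
    rw [Pool.Agent.Helper9K9.ZU.eval₂_prod']
    refine Finset.prod_ne_zero_iff.2 fun a _ => ?_
    rw [eval₂_bind₁]
    simp only [g, eval₂_int, ← hγ]
    exact hP0 a)
  refine ⟨H₀, hH0, fun K' _ i' ζ hsp hlt => ?_⟩
  let K₁' := KX K'
  let j' : K' →+* K₁' := jX K'
  let t' : K₁' := tX K'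
  have ht' : Tr j' t' := trX K'
  refine hH K' i' ζ K₁' j' t' ht' ?_
  obtain ⟨γ', hγ'⟩ : ∃ γ' : Fin N → K₁',
      ∀ n, γ' n = eval₂ (Int.castRingHom K₁') (ext j' t' ζ) (S n) := ⟨_, fun n => rfl⟩
  have hsp1 := spt K K' i i' I z ζ hsp K₁ K₁' j j' t t' ht
  have hsp2 : Spz (j.comp i) (j'.comp i') γ γ' := by
    intro f hf
    have h1 := hsp1 (bind₁ (fun n => map (Int.castRingHom ℂ) (S n)) f) (by
      rw [eval₂_bind₁]
      simp only [eval₂_int, ← hγ]
      exact hf)
    rw [eval₂_bind₁] at h1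
    simp only [eval₂_int, ← hγ'] at h1
    exact h1
  have hon : OnG (fun p => γ' (α' p)) := by
    intro a
    have h1 := congrArg (eval₂ (Int.castRingHom K₁') (ext j' t' ζ)) (hgate (s a))
    rw [eval₂_add, eval₂_mul] at h1
    simp only [hα', hγ']
    exact h1
  have hτζ : ∀ a, γ' (τ a) = j' (ζ a) := by
    intro a
    rw [hγ', hSτ, eval₂_X]
    rfl
  have h1 := spec C K₁ K₁' (j.comp i) (j'.comp i') I (Fin N) γ γ' τ hsp2
  simp only [hτz, hτζ] at h1
  rw [inv, inv] at h1
  have h2 := mono C K₁' (j'.comp i') (Fin N) (Fin k × Fin 4) γ' α'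
  have h3 : td i' ζ + 1 ≤ td (j'.comp i') γ' := by
    refine (tt K' i' I ζ K₁' j' t' ht').trans ?_
    have h4 := td_comp_le (j'.comp i') γ' (fun o : Option I => o.elim θ τ)
    have h5 : (fun o : Option I => γ' (o.elim θ τ)) = ext j' t' ζ := by
      funext o
      rcases o with _ | a
      · simp only [Option.elim_none]
        rw [hγ', hSθ, eval₂_X]
      · simp only [Option.elim_some]
        rw [hτζ]
        rfl
    rw [h5] at h4
    exact h4
  obtain ⟨a, ha⟩ := hQ2 K₁' (j'.comp i') (fun p => γ' (α' p)) hon (by omega)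
  rw [Pool.Agent.Helper9K9.ZU.eval₂_prod']
  refine Finset.prod_eq_zero (Finset.mem_univ a) ?_
  rw [eval₂_bind₁]
  simp only [g, eval₂_int, ← hγ']
  exact ha _ (hPQ a)

theorem rk_bdd (eqv : S_EQ) (C : Corr) {K : Type} [Field K] (i : ℂ →+* K) {I : Type} [Fintype I]
    (γ : I → K) : BddAbove {d : ℕ | ∃ s : Fin d → I, (∀ a, ¬ Sg C i (γ (s a))) ∧
      ∀ a b, a ≠ b → ¬ Iso C i (γ (s a)) (γ (s b))} := by
  refine ⟨Fintype.card I, ?_⟩
  rintro d ⟨s, -, h⟩
  have h1 : Function.Injective s := by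
    intro a b hab
    by_contra hne
    refine h a b hne ?_
    rw [hab]
    exact (eqv C K i).1 _
  simpa using Fintype.card_le_of_injective s h1

theorem core (spec : S_SPEC) (mono : S_MONO) (inv : S_INV) (mix : S_MIX) (spt : S_SPT)
    (coef : S_COEF) (tt : S_TT) (jac : S_JAC) (pick : S_PICK) (chain : S_CHAIN) (vec : S_VEC)
    (eqv : S_EQ) (rep : S_REP) : S_CORE := by
  intro C hyp K _ i I _ z htd
  obtain ⟨s, hs1, hs2, hs3⟩ := rep C K i I z
  have h1 : td (Int.castRingHom K) (fun a => z (s a)) ≤ td i (fun a => z (s a)) :=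
    (td_comp_le _ z s).trans (htd.trans (hs3 K i z fun f hf => hf))
  obtain ⟨H, hH0, hH⟩ := core0 spec mono inv mix spt coef tt jac pick chain vec eqv C hyp K i
    (Fin (rk C i z)) (fun a => z (s a)) hs1 hs2 h1
  refine ⟨rename s H, ?_, fun K' _ i' ζ hsp hlt => ?_⟩
  · rw [eval₂_rename]
    exact hH0
  · rw [eval₂_rename]
    refine hH K' i' (fun a => ζ (s a)) ?_ ?_
    · intro f hf
      have h2 := hsp (rename s f) (by rw [eval₂_rename]; exact hf)
      rw [eval₂_rename] at h2
      exact h2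
    · have h3 : rk C i z ≤ rk C i (fun a => z (s a)) :=
        le_csSup (rk_bdd eqv C i fun a => z (s a)) ⟨id, hs1, hs2⟩
      have h4 := mono C K' i' I (Fin (rk C i z)) ζ s
      have h5 := td_comp_le i' ζ s
      have h6 := td_comp_le i z s
      have h7 := hs3 K' i' ζ hsp
      omega

end Pool.Agent.Helper9K9.ZY
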