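import Pool.Agent.Helper9K9.ZY.Stm

/-!
Repaired statements of [CHAIN] and [VEC] (helper12): the masked values are arbitrary elements
which are transcendental over the small field. (With the masks `p t ^ e` the gates are homogeneous
in `t`, and the constant vector on the masked elements of the top degree is an additional solution.)
-/

set_option autoImplicit false

open MvPolynomial

namespace Pool.Agent.Helper9K9.ZY

open Pool.Agent.Helper9K9.ZU (Indep td)

/-- [CHAIN2] the straight line programs of the equations of `z` over the integers, for masked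
values -/
def S_CHAIN2 : Prop :=
  ∀ (K : Type) [Field K] [CharZero K] (I : Type) [Fintype I] (z : I → K),
    ∃ (N : ℕ) (S : Fin N → MvPolynomial (Option I) ℤ) (τ : I → Fin N) (θ : Fin N) (Γ : ℕ)
      (α : Fin Γ × Fin 4 → Fin N),
      Function.Injective τ ∧ (∀ a, S (τ a) = X (some a)) ∧ S θ = X none ∧
      (∀ n, n ∉ Set.range τ → ∀ (K₁ : Type) [Field K₁] (j : K →+* K₁) (t : K₁), Tr j t →
        Tr j (eval₂ (Int.castRingHom K₁) (ext j t z) (S n))) ∧
      (∀ g, S (α (g, 0)) * S (α (g, 1)) + S (α (g, 2)) = S (α (g, 3))) ∧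
      (∀ p q, α p = α q → α p ∈ Set.range τ → p = q) ∧
      ∀ (K₁ : Type) [Field K₁] (j : K →+* K₁) (t : K₁), Tr j t →
        ∀ V : Submodule K₁ (Fin N → K₁),
          (∀ v ∈ V, ∀ n m, n ∉ Set.range τ → m ∉ Set.range τ →
            eval₂ (Int.castRingHom K₁) (ext j t z) (S n) =
              eval₂ (Int.castRingHom K₁) (ext j t z) (S m) → v n = v m) →
          (∀ v ∈ V, ∀ g, eval₂ (Int.castRingHom K₁) (ext j t z) (S (α (g, 1))) * v (α (g, 0)) +
            eval₂ (Int.castRingHom K₁) (ext j t z) (S (α (g, 0))) * v (α (g, 1)) +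
            v (α (g, 2)) - v (α (g, 3)) = 0) →
          Module.finrank K₁ V ≤ td (Int.castRingHom K) z + 1

/-- [VEC2] the vectors which respect the isogenies between the masked values -/
def S_VEC2 : Prop :=
  ∀ (C : Corr) (K : Type) [Field K] (i : ℂ →+* K) (I : Type) [Fintype I] (z : I → K) (N : ℕ)
    (S : Fin N → MvPolynomial (Option I) ℤ) (τ : I → Fin N), (∀ a, S (τ a) = X (some a)) →
    ∀ (K₁ : Type) [Field K₁] (j : K →+* K₁) (t : K₁), Tr j t → ∀ γ : Fin N → K₁,
      (∀ n, γ n = eval₂ (Int.castRingHom K₁) (ext j t z) (S n)) →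
      (∀ n, n ∉ Set.range τ → Tr j (γ n)) →
      ∃ V : Submodule K₁ (Fin N → K₁), rk C (j.comp i) γ ≤ Module.finrank K₁ V ∧
        ∀ v ∈ V, ∀ n m, n ∉ Set.range τ → m ∉ Set.range τ → Iso C (j.comp i) (γ n) (γ m) →
          ∀ P : MvPolynomial (Fin 2) ℂ, eval₂ (j.comp i) ![γ n, γ m] P = 0 →
            eval₂ (j.comp i) ![γ n, γ m] (pderiv 0 P) * v n +
              eval₂ (j.comp i) ![γ n, γ m] (pderiv 1 P) * v m = 0

end Pool.Agent.Helper9K9.ZY
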