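import Pool.Agent.Helper9K9.ZY.Stm

/-!
The powers of the surface `x ^ 2 + y = z`: statements of the leaves.
-/

set_option autoImplicit false

open MvPolynomial

namespace Pool.Agent.Helper9K9.ZY

open Pool.Agent.Helper9K9.ZU (Indep td)

/-- a point of the `k`-th power of the surface `x ^ 2 + y = z` -/
def OnF {K : Type} [Field K] {k : ℕ} (y : Fin k × Fin 3 → K) : Prop :=
  ∀ g, y (g, 0) ^ 2 + y (g, 1) = y (g, 2)

/-- Zilber-Pink for the powers of the surface in terms of points in fields -/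
def HypF (C : Corr) : Prop :=
  ∀ k : ℕ, ∃ (s : ℕ) (Q : Fin s → Ideal (MvPolynomial (Fin k × Fin 3) ℂ)),
    (∀ j, ∃ (K : Type) (_ : Field K) (i : ℂ →+* K) (y : Fin k × Fin 3 → K), OnF y ∧
      rk C i y < td i y + k ∧ ∀ f, f ∈ Q j ↔ eval₂ i y f = 0) ∧
    ∀ (K : Type) [Field K] (i : ℂ →+* K) (y : Fin k × Fin 3 → K), OnF y →
      rk C i y < td i y + k → ∃ j, ∀ f ∈ Q j, eval₂ i y f = 0

/-- [JAC3] points of the power of the surface which specialize to a point with independent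
gates have no small defect -/
def S_JAC3 : Prop :=
  ∀ (C : Corr) (K L : Type) [Field K] [Field L] (i : ℂ →+* K) (l : ℂ →+* L) (k : ℕ)
    (y : Fin k × Fin 3 → K) (e : Fin k × Fin 3 → L), Spz i l y e → OnF y →
    ∀ (T : Set (Fin k × Fin 3)) (W : Submodule L (Fin k × Fin 3 → L)),
      (∀ p, ¬ Sg C l (e p)) → (∀ p ∈ T, ∀ q, q ≠ p → ¬ Iso C l (e p) (e q)) →
      (∀ p, p ∉ T → Tr l (e p)) →
      (∀ w ∈ W, ∀ p q, p ∉ T → q ∉ T → Iso C l (e p) (e q) → ∀ P : MvPolynomial (Fin 2) ℂ,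
        eval₂ l ![e p, e q] P = 0 → eval₂ l ![e p, e q] (pderiv 0 P) * w p +
          eval₂ l ![e p, e q] (pderiv 1 P) * w q = 0) →
      (∀ c : Fin k → L, (∀ w ∈ W, ∑ g, c g * (2 * e (g, 0) * w (g, 0) + w (g, 1) -
        w (g, 2)) = 0) → c = 0) →
      td i y + k ≤ rk C i y

/-- [CHAIN3] the straight line programs of the equations of `z` over the integers, for masked
values -/
def S_CHAIN3 : Prop :=
  ∀ (K : Type) [Field K] [CharZero K] (I : Type) [Fintype I] (z : I → K),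
    ∃ (N : ℕ) (S : Fin N → MvPolynomial (Option I) ℤ) (τ : I → Fin N) (θ : Fin N) (Γ : ℕ)
      (α : Fin Γ × Fin 3 → Fin N),
      Function.Injective τ ∧ (∀ a, S (τ a) = X (some a)) ∧ S θ = X none ∧
      (∀ n, n ∉ Set.range τ → ∀ (K₁ : Type) [Field K₁] (j : K →+* K₁) (t : K₁), Tr j t →
        Tr j (eval₂ (Int.castRingHom K₁) (ext j t z) (S n))) ∧
      (∀ g, S (α (g, 0)) ^ 2 + S (α (g, 1)) = S (α (g, 2))) ∧
      (∀ p q, α p = α q → α p ∈ Set.range τ → p = q) ∧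
      ∀ (K₁ : Type) [Field K₁] (j : K →+* K₁) (t : K₁), Tr j t →
        ∀ V : Submodule K₁ (Fin N → K₁),
          (∀ v ∈ V, ∀ n m, n ∉ Set.range τ → m ∉ Set.range τ →
            eval₂ (Int.castRingHom K₁) (ext j t z) (S n) =
              eval₂ (Int.castRingHom K₁) (ext j t z) (S m) → v n = v m) →
          (∀ v ∈ V, ∀ g, 2 * eval₂ (Int.castRingHom K₁) (ext j t z) (S (α (g, 0))) *
            v (α (g, 0)) + v (α (g, 1)) - v (α (g, 2)) = 0) →
          Module.finrank K₁ V ≤ td (Int.castRingHom K) z + 1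

/-- [VEC3] the vectors which respect the isogenies between the masked values -/
def S_VEC3 : Prop :=
  ∀ (C : Corr) (K : Type) [Field K] (i : ℂ →+* K) (I : Type) [Fintype I] (z : I → K) (N : ℕ)
    (S : Fin N → MvPolynomial (Option I) ℤ) (τ : I → Fin N), (∀ a, S (τ a) = X (some a)) →
    (∀ n, n ∉ Set.range τ → ∀ (K₁ : Type) [Field K₁] (j : K →+* K₁) (t : K₁), Tr j t →
        Tr j (eval₂ (Int.castRingHom K₁) (ext j t z) (S n))) →
    ∀ (K₁ : Type) [Field K₁] (j : K →+* K₁) (t : K₁), Tr j t → ∀ γ : Fin N → K₁,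
      (∀ n, γ n = eval₂ (Int.castRingHom K₁) (ext j t z) (S n)) →
      ∃ V : Submodule K₁ (Fin N → K₁), rk C (j.comp i) γ ≤ Module.finrank K₁ V ∧
        ∀ v ∈ V, ∀ n m, n ∉ Set.range τ → m ∉ Set.range τ → Iso C (j.comp i) (γ n) (γ m) →
          ∀ P : MvPolynomial (Fin 2) ℂ, eval₂ (j.comp i) ![γ n, γ m] P = 0 →
            eval₂ (j.comp i) ![γ n, γ m] (pderiv 0 P) * v n +
              eval₂ (j.comp i) ![γ n, γ m] (pderiv 1 P) * v m = 0

/-- [CORE3] (assembly) -/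
def S_CORE3 : Prop :=
  ∀ C : Corr, HypF C → ∀ (K : Type) [Field K] (i : ℂ →+* K) (I : Type) [Fintype I] (z : I → K),
    td (Int.castRingHom K) z ≤ td i z → Star C I K i z

/-- [STAR3] (assembly) -/
def S_STAR3 : Prop :=
  ∀ C : Corr, HypF C → ∀ (I : Type) [Fintype I] (K : Type) [Field K] (i : ℂ →+* K) (x : I → K),
    Star C I K i x

end Pool.Agent.Helper9K9.ZY
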