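import Pool.Agent.Helper9K9.ZU.Defs

/-!
# Universality of the powers of the hypersurface `x y + z = w`: correspondences and points in fields

The algebraic part of the proof uses only a family of correspondences between complex numbers.
-/

set_option autoImplicit false

open MvPolynomial

namespace Pool.Agent.Helper9K9.ZY

open Pool.Agent.Helper9K9.ZU (Indep td)

/-- A family of correspondences and a set of special values. -/
structure Corr where
  /-- the equations of the correspondences, for the positive integers -/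
  Ψ : ℕ → MvPolynomial (Fin 2) ℂ
  /-- the special values -/
  S : Set ℂ
  alg : ∀ N m, IsAlgebraic ℚ ((Ψ N).coeff m)
  algS : ∀ s ∈ S, IsAlgebraic ℚ s
  zero : (0 : ℂ) ∈ S
  refl : ∀ x : ℂ, eval ![x, x] (Ψ 1) = 0
  symm : ∀ N, 0 < N → ∀ x y : ℂ, eval ![x, y] (Ψ N) = 0 → eval ![y, x] (Ψ N) = 0
  trans : ∀ N M, 0 < N → 0 < M → ∀ x y z : ℂ, eval ![x, y] (Ψ N) = 0 → eval ![y, z] (Ψ M) = 0 →
    eval ![x, z] (Ψ (N * M)) = 0
  sat : ∀ N, 0 < N → ∀ x y : ℂ, eval ![x, y] (Ψ N) = 0 → y ∈ S → x ∈ S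
  monic : ∀ N, 0 < N → ∃ d : ℕ, (Ψ N).coeff (Finsupp.single 0 d) = 1 ∧
    ∀ m ∈ (Ψ N).support, m ≠ Finsupp.single 0 d → m 0 < d

section
variable (C : Corr) {K : Type} [Field K] (i : ℂ →+* K)

/-- `x` and `y` correspond to each other -/
def R (N : ℕ) (x y : K) : Prop := eval₂ i ![x, y] (C.Ψ N) = 0

/-- `x` and `y` are isogenous -/
def Iso (x y : K) : Prop := ∃ N, 0 < N ∧ R C i N x y

/-- `x` is special -/
def Sg (x : K) : Prop := ∃ s ∈ C.S, i s = x

/-- the rank of a tuple: the number of the isogeny classes of the nonspecial elements -/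
noncomputable def rk {I : Type} (γ : I → K) : ℕ :=
  sSup {d : ℕ | ∃ s : Fin d → I, (∀ a, ¬ Sg C i (γ (s a))) ∧
    ∀ a b, a ≠ b → ¬ Iso C i (γ (s a)) (γ (s b))}

end

/-- a point of the `k`-th power of the hypersurface `x y + z = w` -/
def OnG {K : Type} [Field K] {k : ℕ} (y : Fin k × Fin 4 → K) : Prop :=
  ∀ g, y (g, 0) * y (g, 1) + y (g, 2) = y (g, 3)

/-- Zilber-Pink for the powers of the hypersurface in terms of points in fields -/
def HypG (C : Corr) : Prop :=
  ∀ k : ℕ, ∃ (s : ℕ) (Q : Fin s → Ideal (MvPolynomial (Fin k × Fin 4) ℂ)),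
    (∀ j, ∃ (K : Type) (_ : Field K) (i : ℂ →+* K) (y : Fin k × Fin 4 → K), OnG y ∧
      rk C i y < td i y + k ∧ ∀ f, f ∈ Q j ↔ eval₂ i y f = 0) ∧
    ∀ (K : Type) [Field K] (i : ℂ →+* K) (y : Fin k × Fin 4 → K), OnG y →
      rk C i y < td i y + k → ∃ j, ∀ f ∈ Q j, eval₂ i y f = 0

/-- `t` is transcendental over the image of `K` -/
def Tr {K K₁ : Type} [Field K] [Field K₁] (j : K →+* K₁) (t : K₁) : Prop :=
  ∀ f : Polynomial K, Polynomial.eval₂ j t f = 0 → f = 0

/-- the tuple `(z, t)` over a bigger field -/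
def ext {K K₁ : Type} [Field K] [Field K₁] (j : K →+* K₁) (t : K₁) {I : Type} (z : I → K) :
    Option I → K₁ := fun o => o.elim t fun a => j (z a)

/-- `(K', ζ)` is a specialization of `(K, z)` over the complex numbers -/
def Spz {K K' : Type} [Field K] [Field K'] (i : ℂ →+* K) (i' : ℂ →+* K') {I : Type}
    (z : I → K) (ζ : I → K') : Prop :=
  ∀ f : MvPolynomial I ℂ, eval₂ i z f = 0 → eval₂ i' ζ f = 0

end Pool.Agent.Helper9K9.ZY
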