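import Pool.Agent.Helper9K9.ZY.Jinj

/-!
[EIS] the Eisenstein series as sums over the lattice
-/

set_option autoImplicit false

open UpperHalfPlane ModularForm EisensteinSeries

namespace Pool.Agent.Helper9K9.ZY

theorem eis : S_EIS := by
  intro τ L h1 h2
  have key : ∀ (k : ℕ) (hk : 3 ≤ k), L.G k = 2 * riemannZeta k * E hk τ := by
    intro k hk
    have hE : E hk τ = (1 / 2 : ℂ) * eisensteinSeries (N := 1) 0 k τ := by
      rw [show E hk τ = (1 / 2 : ℂ) • eisensteinSeriesSIF (N := 1) 0 k τ from rfl,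
        eisensteinSeriesSIF_apply, smul_eq_mul]
    have h3 := tsum_eisSummand_eq_riemannZeta_mul_eisensteinSeries hk τ
    have h4 : ∑' v : Fin 2 → ℤ, eisSummand k v τ =
        ∑' x : ℤ × ℤ, (((x.1 : ℂ) * 1 + x.2 * τ) ^ k)⁻¹ := by
      let e : ℤ × ℤ ≃ (Fin 2 → ℤ) := (Equiv.prodComm ℤ ℤ).trans (finTwoArrowEquiv ℤ).symm
      rw [← e.tsum_eq]
      refine tsum_congr fun x => ?_
      have e0 : e x 0 = x.2 := rfl
      have e1 : e x 1 = x.1 := rfl
      rw [eisSummand, e0, e1, zpow_neg, zpow_natCast, mul_one, add_comm]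
    rw [JinjL.G_eq, h1, h2, hE, ← h4, h3]
    ring
  exact ⟨by exact_mod_cast key 4 (by norm_num), by exact_mod_cast key 6 (by norm_num)⟩

end Pool.Agent.Helper9K9.ZY
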