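import Pool.Agent.Helper9K9.ZY.Defs

/-!
Statements of the leaves (algebraic part).
-/

set_option autoImplicit false

open MvPolynomial

namespace Pool.Agent.Helper9K9.ZY

open Pool.Agent.Helper9K9.ZU (Indep td)

/-- [TR] transfer of implications between equations from complex points to points in fields -/
def S_TR : Prop :=
  ∀ (I : Type) [Fintype I] (S : Set (MvPolynomial I ℂ)) (g : MvPolynomial I ℂ),
    (∀ a : I → ℂ, (∀ f ∈ S, eval a f = 0) → eval a g = 0) →
    ∀ (K : Type) [Field K] (i : ℂ →+* K) (x : I → K), (∀ f ∈ S, eval₂ i x f = 0) →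
      eval₂ i x g = 0

/-- [EQ] isogeny is an equivalence relation -/
def S_EQ : Prop :=
  ∀ (C : Corr) (K : Type) [Field K] (i : ℂ →+* K),
    (∀ x : K, Iso C i x x) ∧ (∀ x y : K, Iso C i x y → Iso C i y x) ∧
    (∀ x y z : K, Iso C i x y → Iso C i y z → Iso C i x z) ∧
    ∀ x y : K, Iso C i x y → Sg C i y → Sg C i x

/-- [ALG] isogenous elements are algebraic over each other -/
def S_ALG : Prop :=
  ∀ (C : Corr) (K : Type) [Field K] (i : ℂ →+* K) (x y : K), Iso C i x y →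
    @IsAlgebraic (@Algebra.adjoin ℂ K _ _ i.toAlgebra {y}) K _ _
      (@Subalgebra.toAlgebra K ℂ K _ _ _ i.toAlgebra _
        (@Algebra.adjoin ℂ K _ _ i.toAlgebra {y})) x

/-- [SPEC] ranks of a tuple and of a part of it under specialization -/
def S_SPEC : Prop :=
  ∀ (C : Corr) (K K' : Type) [Field K] [Field K'] (i : ℂ →+* K) (i' : ℂ →+* K') (I J : Type)
    [Fintype I] [Fintype J] (γ : J → K) (γ' : J → K') (τ : I → J), Spz i i' γ γ' →
    rk C i' γ' + rk C i (fun a => γ (τ a)) ≤ rk C i' (fun a => γ' (τ a)) + rk C i γ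

/-- [MONO] rank minus transcendence degree is monotone -/
def S_MONO : Prop :=
  ∀ (C : Corr) (K : Type) [Field K] (i : ℂ →+* K) (I J : Type) [Fintype I] [Fintype J]
    (γ : I → K) (α : J → I),
    rk C i (fun j => γ (α j)) + td i γ ≤ rk C i γ + td i (fun j => γ (α j))

/-- [INV] the rank does not depend on the field -/
def S_INV : Prop :=
  ∀ (C : Corr) (K K₁ : Type) [Field K] [Field K₁] (i : ℂ →+* K) (j : K →+* K₁) (I : Type)
    (γ : I → K), rk C (j.comp i) (fun a => j (γ a)) = rk C i γ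

/-- [SIG] the rank does not depend on the embedding of the complex numbers -/
def S_SIG : Prop :=
  ∀ (C : Corr) (K : Type) [Field K] (i : ℂ →+* K) (σ : ℂ →+* ℂ),
    (∀ a : ℂ, IsAlgebraic ℚ a → σ a = a) → ∀ (I : Type) (γ : I → K),
      rk C (i.comp σ) γ = rk C i γ

/-- [REP] representatives of the isogeny classes -/
def S_REP : Prop :=
  ∀ (C : Corr) (K : Type) [Field K] (i : ℂ →+* K) (I : Type) [Fintype I] (z : I → K),
    ∃ s : Fin (rk C i z) → I, (∀ a, ¬ Sg C i (z (s a))) ∧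
      (∀ a b, a ≠ b → ¬ Iso C i (z (s a)) (z (s b))) ∧
      ∀ (K' : Type) [Field K'] (i' : ℂ →+* K') (ζ : I → K'), Spz i i' z ζ →
        td i' ζ ≤ td i' (fun a => ζ (s a))

/-- [JACG] the Jacobian criterion at a specialization -/
def S_JACG : Prop :=
  ∀ (F K L : Type) [Field F] [Field K] [Field L] [CharZero F] (i : F →+* K) (l : F →+* L)
    (P : Type) [Fintype P] (y : P → K) (e : P → L),
    (∀ f : MvPolynomial P F, eval₂ i y f = 0 → eval₂ l e f = 0) →
    ∀ (m : ℕ) (f : Fin m → MvPolynomial P F), (∀ s, eval₂ i y (f s) = 0) →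
      LinearIndependent L (fun (s : Fin m) (p : P) => eval₂ l e (pderiv p (f s))) →
      td i y + m ≤ Fintype.card P

/-- [PAIR] a pair of isogenous elements which specializes to a pair of transcendental elements
satisfies the same equations; there is an equation with a nonzero derivative -/
def S_PAIR : Prop :=
  ∀ (C : Corr) (K L : Type) [Field K] [Field L] (i : ℂ →+* K) (l : ℂ →+* L) (x y : K)
    (x' y' : L), Iso C i x y → Spz i l ![x, y] ![x', y'] → Tr l y' →
    ∃ P : MvPolynomial (Fin 2) ℂ, eval₂ i ![x, y] P = 0 ∧ eval₂ l ![x', y'] P = 0 ∧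
      eval₂ l ![x', y'] (pderiv 0 P) ≠ 0

/-- [JAC] points of the power of the hypersurface which specialize to a point with independent
gates have no small defect -/
def S_JAC : Prop :=
  ∀ (C : Corr) (K L : Type) [Field K] [Field L] (i : ℂ →+* K) (l : ℂ →+* L) (k : ℕ)
    (y : Fin k × Fin 4 → K) (e : Fin k × Fin 4 → L), Spz i l y e → OnG y →
    ∀ (T : Set (Fin k × Fin 4)) (W : Submodule L (Fin k × Fin 4 → L)),
      (∀ p, ¬ Sg C l (e p)) → (∀ p ∈ T, ∀ q, q ≠ p → ¬ Iso C l (e p) (e q)) →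
      (∀ p, p ∉ T → Tr l (e p)) →
      (∀ w ∈ W, ∀ p q, p ∉ T → q ∉ T → Iso C l (e p) (e q) → ∀ P : MvPolynomial (Fin 2) ℂ,
        eval₂ l ![e p, e q] P = 0 → eval₂ l ![e p, e q] (pderiv 0 P) * w p +
          eval₂ l ![e p, e q] (pderiv 1 P) * w q = 0) →
      (∀ c : Fin k → L, (∀ w ∈ W, ∑ g, c g * (e (g, 1) * w (g, 0) + e (g, 0) * w (g, 1) +
        w (g, 2) - w (g, 3)) = 0) → c = 0) →
      td i y + k ≤ rk C i y

/-- [PICK] linear algebra: independent functionals -/
def S_PICK : Prop :=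
  ∀ (K : Type) [Field K] (N : ℕ) (V : Submodule K (Fin N → K)) (Γ : ℕ)
    (l : Fin Γ → (Fin N → K) →ₗ[K] K),
    ∃ (k : ℕ) (s : Fin k → Fin Γ), Function.Injective s ∧
      (∀ c : Fin k → K, (∀ v ∈ V, ∑ a, c a * l (s a) v = 0) → c = 0) ∧
      Module.finrank K V ≤ k + Module.finrank K (V ⊓ ⨅ g, LinearMap.ker (l g) :
        Submodule K (Fin N → K))

/-- [CHAIN] the straight line programs of the equations of `z` over the integers, for the masked
values `p(z) t ^ e` -/
def S_CHAIN : Prop :=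
  ∀ (K : Type) [Field K] [CharZero K] (I : Type) [Fintype I] (z : I → K), (∀ a, z a ≠ 0) →
    ∃ (N : ℕ) (S : Fin N → MvPolynomial (Option I) ℤ) (τ : I → Fin N) (θ : Fin N) (Γ : ℕ)
      (α : Fin Γ × Fin 4 → Fin N),
      Function.Injective τ ∧ (∀ a, S (τ a) = X (some a)) ∧ S θ = X none ∧
      (∀ n, n ∉ Set.range τ → ∃ (p : MvPolynomial I ℤ) (e : ℕ), 0 < e ∧
        S n = rename some p * X none ^ e ∧ eval₂ (Int.castRingHom K) z p ≠ 0) ∧
      (∀ g, S (α (g, 0)) * S (α (g, 1)) + S (α (g, 2)) = S (α (g, 3))) ∧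
      (∀ p q, α p = α q → α p ∈ Set.range τ → p = q) ∧
      ∀ (K₁ : Type) [Field K₁] (j : K →+* K₁) (t : K₁), Tr j t →
        ∀ V : Submodule K₁ (Fin N → K₁),
          (∀ v ∈ V, ∀ n m, n ∉ Set.range τ → m ∉ Set.range τ →
            eval₂ (Int.castRingHom K₁) (ext j t z) (S n) =
              eval₂ (Int.castRingHom K₁) (ext j t z) (S m) → v n = v m) →
          (∀ v ∈ V, ∀ g, eval₂ (Int.castRingHom K₁) (ext j t z) (S (α (g, 1))) * v (α (g, 0)) +
            eval₂ (Int.castRingHom K₁) (ext j t z) (S (α (g, 0))) * v (α (g, 1)) +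
            v (α (g, 2)) - v (α (g, 3)) = 0) →
          Module.finrank K₁ V ≤ td (Int.castRingHom K) z + 1

/-- [VEC] the vectors which respect the isogenies between the masked values -/
def S_VEC : Prop :=
  ∀ (C : Corr) (K : Type) [Field K] (i : ℂ →+* K) (I : Type) [Fintype I] (z : I → K) (N : ℕ)
    (S : Fin N → MvPolynomial (Option I) ℤ) (τ : I → Fin N), (∀ a, S (τ a) = X (some a)) →
    (∀ n, n ∉ Set.range τ → ∃ (p : MvPolynomial I ℤ) (e : ℕ), 0 < e ∧
        S n = rename some p * X none ^ e ∧ eval₂ (Int.castRingHom K) z p ≠ 0) →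
    ∀ (K₁ : Type) [Field K₁] (j : K →+* K₁) (t : K₁), Tr j t → ∀ γ : Fin N → K₁,
      (∀ n, γ n = eval₂ (Int.castRingHom K₁) (ext j t z) (S n)) →
      ∃ V : Submodule K₁ (Fin N → K₁), rk C (j.comp i) γ ≤ Module.finrank K₁ V ∧
        ∀ v ∈ V, ∀ n m, n ∉ Set.range τ → m ∉ Set.range τ → Iso C (j.comp i) (γ n) (γ m) →
          ∀ P : MvPolynomial (Fin 2) ℂ, eval₂ (j.comp i) ![γ n, γ m] P = 0 →
            eval₂ (j.comp i) ![γ n, γ m] (pderiv 0 P) * v n +
              eval₂ (j.comp i) ![γ n, γ m] (pderiv 1 P) * v m = 0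

/-- [MIX] transcendental elements are not isogenous to elements of the small field; masked values
are transcendental -/
def S_MIX : Prop :=
  ∀ (K K₁ : Type) [Field K] [Field K₁] (j : K →+* K₁) (t : K₁), Tr j t →
    (∀ (C : Corr) (i : ℂ →+* K) (x : K), ¬ Iso C (j.comp i) (j x) t) ∧
    (∀ i : ℂ →+* K, Tr (j.comp i) t) ∧
    ∀ (x : K) (e : ℕ), x ≠ 0 → 0 < e → Tr j (j x * t ^ e)

/-- [SPT] specializations of `(z, t)` -/
def S_SPT : Prop :=
  ∀ (K K' : Type) [Field K] [Field K'] (i : ℂ →+* K) (i' : ℂ →+* K') (I : Type) (z : I → K)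
    (ζ : I → K'), Spz i i' z ζ → ∀ (K₁ K₁' : Type) [Field K₁] [Field K₁'] (j : K →+* K₁)
    (j' : K' →+* K₁') (t : K₁) (t' : K₁'), Tr j t →
    Spz (j.comp i) (j'.comp i') (ext j t z) (ext j' t' ζ)

/-- [COEF] coefficients of a polynomial in `(z, t)` -/
def S_COEF : Prop :=
  ∀ (K : Type) [Field K] (i : ℂ →+* K) (I : Type) (z : I → K) (K₁ : Type) [Field K₁]
    (j : K →+* K₁) (t : K₁) (H : MvPolynomial (Option I) ℂ),
    eval₂ (j.comp i) (ext j t z) H ≠ 0 → ∃ H₀ : MvPolynomial I ℂ, eval₂ i z H₀ ≠ 0 ∧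
      ∀ (K' : Type) [Field K'] (i' : ℂ →+* K') (ζ : I → K') (K₁' : Type) [Field K₁']
        (j' : K' →+* K₁') (t' : K₁'), Tr j' t' → eval₂ (j'.comp i') (ext j' t' ζ) H = 0 →
        eval₂ i' ζ H₀ = 0

/-- [TT] the transcendence degree of `(z, t)` -/
def S_TT : Prop :=
  ∀ (K : Type) [Field K] (i : ℂ →+* K) (I : Type) [Fintype I] (z : I → K) (K₁ : Type) [Field K₁]
    (j : K →+* K₁) (t : K₁), Tr j t → td i z + 1 ≤ td (j.comp i) (ext j t z)

/-- [END] an endomorphism of the complex numbers the image of which is independent of `c`, the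
identity on the algebraic numbers -/
def S_END : Prop :=
  ∀ (q : ℕ) (c : Fin q → ℂ), ∃ (σ : ℂ →+* ℂ) (t : Fin (td (Int.castRingHom ℂ) c) → Fin q),
    (∀ a : ℂ, IsAlgebraic ℚ a → σ a = a) ∧ Indep σ (fun j => c (t j))

/-- The main property: a closed proper subset contains all specializations of smaller defect. -/
def Star (C : Corr) (I : Type) [Fintype I] (K : Type) [Field K] (i : ℂ →+* K) (z : I → K) :
    Prop :=
  ∃ H : MvPolynomial I ℂ, eval₂ i z H ≠ 0 ∧
    ∀ (K' : Type) [Field K'] (i' : ℂ →+* K') (ζ : I → K'), Spz i i' z ζ →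
      rk C i' ζ + td i z < rk C i z + td i' ζ → eval₂ i' ζ H = 0

/-- [CORE] (assembly) -/
def S_CORE : Prop :=
  ∀ C : Corr, HypG C → ∀ (K : Type) [Field K] (i : ℂ →+* K) (I : Type) [Fintype I] (z : I → K),
    td (Int.castRingHom K) z ≤ td i z → Star C I K i z

/-- [STAR] (assembly) -/
def S_STAR : Prop :=
  ∀ C : Corr, HypG C → ∀ (I : Type) [Fintype I] (K : Type) [Field K] (i : ℂ →+* K) (x : I → K),
    Star C I K i x

end Pool.Agent.Helper9K9.ZY
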