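import Pool.Agent.Helper9K9.ZU.End
import Pool.Agent.Helper9K9.ZY.Stm

/-!
[END] an endomorphism of the complex numbers the image of which is independent of `c`, the
identity on the algebraic numbers
-/

set_option autoImplicit false

open MvPolynomial Cardinal

namespace Pool.Agent.Helper9K9.ZY

open Pool.Agent.Helper9K9.ZU (Indep td exists_td)
open Pool.Agent.Helper9K9.ZU.EndL (exists_ext indep_ext)

namespace EndL

/-- independence over a polynomial ring -/
theorem indep_poly {F T D J : Type} [CommRing F] [Field D] (i : F →+* D) (u : J → D) (v : T → D)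
    (h : Indep i (Sum.elim u v)) :
    Indep (eval₂Hom i v) u := by
  intro p hp
  obtain ⟨p', rfl⟩ := (sumRingEquiv F J T).surjective p
  have h1 : (eval₂Hom (eval₂Hom i v) u).comp
      ((sumRingEquiv F J T : MvPolynomial (J ⊕ T) F ≃+* _) :
        MvPolynomial (J ⊕ T) F →+* MvPolynomial J (MvPolynomial T F)) =
      eval₂Hom i (Sum.elim u v) := by
    apply MvPolynomial.ringHom_ext
    · intro r
      simp
    · intro j
      rcases j with j | j
      · simp
      · simp
  have h2 := RingHom.congr_fun h1 p'
  have h3 : eval₂ i (Sum.elim u v) p' = 0 := by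
    rw [← coe_eval₂Hom, ← h2]
    exact hp
  rw [h p' h3, map_zero]

end EndL

open EndL

theorem en : S_END := by
  intro q c
  let A := algebraicClosure ℚ ℂ
  obtain ⟨t, ht⟩ := exists_td (RingHom.injective_int (Int.castRingHom ℂ)) c
  have hz : algebraMap ℤ ℂ = Int.castRingHom ℂ := RingHom.ext_int _ _
  let i : A →+* ℂ := algebraMap A ℂ
  have hQA : Algebra.IsAlgebraic ℚ A := algebraicClosure.isAlgebraic ℚ ℂ
  have hZA : @Algebra.IsAlgebraic ℤ A _ _ (Int.castRingHom A).toAlgebra := by
    have h1 : Algebra.IsAlgebraic ℤ A :=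
      (IsFractionRing.comap_isAlgebraic_iff (A := ℤ) (K := ℚ) (C := A)).2 hQA
    convert h1
    exact Subsingleton.elim _ _
  have ht1 : Indep i (fun j => c (t j)) := by
    refine indep_ext (Int.castRingHom A) hZA i _ ?_
    have h1 : i.comp (Int.castRingHom A) = Int.castRingHom ℂ := RingHom.ext_int _ _
    rw [h1]
    exact ht
  have ht' : AlgebraicIndependent A (fun j => c (t j)) := by
    rw [algebraicIndependent_iff]
    intro p hp
    exact ht1 p hp
  obtain ⟨T, hT, hTB⟩ := exists_isTranscendenceBasis_superset ht'.to_subtype_range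
  have hcA : #A ≤ ℵ₀ := by
    have h1 := Algebra.IsAlgebraic.cardinalMk_le_max ℚ A
    rw [Cardinal.mkRat] at h1
    simpa using h1
  have hcard : #ℂ = #T := by
    refine IsAlgClosed.cardinal_eq_cardinal_transcendence_basis_of_aleph0_lt' _ hTB
      hcA ?_
    rw [mk_complex]
    exact aleph0_lt_continuum
  have hTinf : Infinite T := by
    rw [infinite_iff, ← hcard, mk_complex]
    exact aleph0_le_continuum
  let T0 : Set T := {v | (v : ℂ) ∈ Set.range fun j => c (t j)}
  have hT0 : T0.Finite := by
    refine Set.Finite.preimage Subtype.val_injective.injOn ?_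
    exact Set.finite_range _
  have hT0c : #(T0ᶜ : Set T) = #T := by
    refine mk_compl_of_infinite T0 ?_
    exact (hT0.lt_aleph0).trans_le (aleph0_le_mk T)
  obtain ⟨e⟩ := Cardinal.eq.1 hT0c
  let a : MvPolynomial T A →+* ℂ := eval₂Hom i (fun v : T => (v : ℂ))
  let f : MvPolynomial T A →+* ℂ := eval₂Hom i (fun v : T => ((e.symm v : T) : ℂ))
  have haev : ∀ p, a p = aeval (fun v : T => (v : ℂ)) p := by
    intro p
    rw [aeval_def]
    rfl
  have hai : Function.Injective a := by
    intro p p' h
    rw [haev, haev] at h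
    exact hTB.1 h
  have hs : Indep i
      (Sum.elim (fun j => c (t j)) (fun v : T => ((e.symm v : T) : ℂ))) := by
    let r : Fin (td (Int.castRingHom ℂ) c) ⊕ T → T :=
      Sum.elim (fun j => ⟨c (t j), hT ⟨j, rfl⟩⟩) (fun v => (e.symm v : T))
    have hr : Function.Injective r := by
      rintro (x | x) (y | y) hxy
      · have h1 : c (t x) = c (t y) := congrArg (fun v : T => (v : ℂ)) hxy
        exact congrArg Sum.inl (ht.inj h1)
      · exfalso
        have h1 : c (t x) = ((e.symm y : T) : ℂ) := congrArg (fun v : T => (v : ℂ)) hxy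
        exact (e.symm y).2 ⟨x, h1⟩
      · exfalso
        have h1 : ((e.symm x : T) : ℂ) = c (t y) := congrArg (fun v : T => (v : ℂ)) hxy
        exact (e.symm x).2 ⟨y, h1.symm⟩
      · have h1 : (e.symm x : T) = (e.symm y : T) := hxy
        exact congrArg Sum.inr (e.symm.injective (Subtype.ext h1))
    have h2 := hTB.1.comp r hr
    rw [algebraicIndependent_iff] at h2
    intro p hp
    refine h2 p ?_
    rw [aeval_def]
    rw [← hp]
    change eval₂ i _ p = eval₂ i _ p
    congr 1
    funext j
    rcases j with j | j <;> rfl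
  have hfi : Function.Injective f := by
    rw [injective_iff_map_eq_zero]
    intro p hp
    have h1 : eval₂ i
        (Sum.elim (fun j => c (t j)) (fun v : T => ((e.symm v : T) : ℂ))) (rename Sum.inr p) = 0 := by
      rw [eval₂_rename]
      exact hp
    have h2 := hs _ h1
    exact (rename_injective _ Sum.inr_injective) (h2.trans (map_zero _).symm)
  have haa : @Algebra.IsAlgebraic (MvPolynomial T A) ℂ _ _ a.toAlgebra := by
    letI := a.toAlgebra
    haveI := hTB.isAlgebraic
    refine Algebra.IsAlgebraic.of_ringHom_of_comp_eq hTB.1.aevalEquiv (RingHom.id ℂ)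
      hTB.1.aevalEquiv.surjective Function.injective_id ?_
    refine RingHom.ext fun p => ?_
    exact (hTB.1.algebraMap_aevalEquiv p).trans (haev p).symm
  obtain ⟨σ, hσ⟩ := exists_ext a hai haa f hfi
  refine ⟨σ, t, ?_, ?_⟩
  · intro α hα
    have hαA : α ∈ A := mem_algebraicClosure_iff.2 hα
    have h1 := RingHom.congr_fun hσ (C (⟨α, hαA⟩ : A))
    have h2 : a (C (⟨α, hαA⟩ : A)) = α := by
      simp only [a, coe_eval₂Hom, eval₂_C]
      rfl
    have h3 : f (C (⟨α, hαA⟩ : A)) = α := by
      simp only [f, coe_eval₂Hom, eval₂_C]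
      rfl
    rw [RingHom.comp_apply, h2, h3] at h1
    exact h1
  · apply indep_ext a haa
    rw [hσ]
    exact indep_poly _ _ _ hs

end Pool.Agent.Helper9K9.ZY
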