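import Pool.Agent.Helper9K9.ZY.Hyp

/-!
Assembly: finiteness of the set of maximal atypical subvarieties from the main property.
-/

set_option autoImplicit false

open MvPolynomial

namespace Pool.Agent.Helper9K9.ZY

open Pool.Agent.Helper9K9.ZU (td td_le_card)

variable {ι : Type}

open Classical in
/-- the rank of a generic point -/
noncomputable def rkI (C : Corr) [Fintype ι] (gen : S_GEN) (A : Set (ι → ℂ)) : ℕ :=
  if h : IsIrr A then
    letI := (gen ι A h).choose_spec.choose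
    rk C (gen ι A h).choose_spec.choose_spec.choose
      (gen ι A h).choose_spec.choose_spec.choose_spec.choose
  else 0

theorem rkI_eq (C : Corr) [Fintype ι] (gen : S_GEN) {A : Set (ι → ℂ)} (hA : IsIrr A) {K : Type}
    [Field K] {i : ℂ →+* K} {x : ι → K} (h : IsGen A i x) : rkI C gen A = rk C i x := by
  classical
  unfold rkI
  rw [dif_pos hA]
  letI := (gen ι A hA).choose_spec.choose
  exact IsGen.rk_eq C (gen ι A hA).choose_spec.choose_spec.choose_spec.choose_spec h

/-- the optimal subvarieties of `V` -/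
def Opt (C : Corr) [Fintype ι] (gen : S_GEN) (V : Set (ι → ℂ)) : Set (Set (ι → ℂ)) :=
  {A | IsIrr A ∧ A ⊆ V ∧ ∀ B, IsIrr B → A ⊆ B → B ⊆ V → A ≠ B →
    rkI C gen A + dimI B < rkI C gen B + dimI A}

theorem opt_finite (C : Corr) (gen : S_GEN) (dm : S_DIM) (dlt : S_DLT) (comp : S_COMP)
    (hstar : ∀ (I : Type) [Fintype I] (K : Type) [Field K] (i : ℂ →+* K) (x : I → K),
      Star C I K i x) (ι : Type) [Fintype ι] :
    ∀ (n : ℕ) (V : Set (ι → ℂ)), IsIrr V → dimI V < n → (Opt C gen V).Finite := by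
  intro n
  induction n with
  | zero => intro V _ h; exact absurd h (Nat.not_lt_zero _)
  | succ n ih =>
    intro V hV hn
    obtain ⟨K, _, i, x, hx⟩ := gen ι V hV
    obtain ⟨H, hH0, hH⟩ := hstar ι K i x
    obtain ⟨S, hS⟩ := hV.1
    have hfin := (comp ι (S ∪ {H})).1
    have hsub : Opt C gen V ⊆
        {V} ∪ ⋃ B ∈ {B | IsComponent B (zeros (S ∪ {H}))}, Opt C gen B := by
      intro A hA
      obtain ⟨hAirr, hAV, hAopt⟩ := hA
      by_cases hAeq : A = V
      · exact Or.inl hAeq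
      right
      obtain ⟨K', _, i', ξ, hξ⟩ := gen ι A hAirr
      have h1 := hAopt V hV hAV subset_rfl hAeq
      rw [rkI_eq C gen hAirr hξ, rkI_eq C gen hV hx, dm ι V K i x hx, dm ι A K' i' ξ hξ] at h1
      have h2 : H ∈ idealOf A := (hξ H).2 (hH K' i' ξ (fun f hf =>
        (hξ f).1 (idealOf_anti hAV ((hx f).2 hf))) h1)
      have h3 : A ⊆ zeros (S ∪ {H}) := by
        intro y hy f hf
        have h4 := hAV hy
        rw [hS] at h4
        rcases hf with hf | hf
        · exact h4 f hf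
        · rw [Set.mem_singleton_iff.1 hf]
          exact mem_idealOf.1 h2 y hy
      obtain ⟨B, hB, hAB⟩ := (comp ι (S ∪ {H})).2 A hAirr h3
      have hBV : B ⊆ V := by
        rw [hS]
        intro y hy
        have h4 := hB.2.1 hy
        exact fun f hf => h4 f (Or.inl hf)
      refine Set.mem_iUnion₂.2 ⟨B, hB, hAirr, hAB, fun D hD hAD hDB hne => ?_⟩
      exact hAopt D hD hAD (hDB.trans hBV) hne
    refine Set.Finite.subset (Set.Finite.union (Set.finite_singleton V)
      (Set.Finite.biUnion hfin fun B hB => ?_)) hsub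
    have hBV : B ⊆ V := by
      rw [hS]
      intro y hy
      have h4 := hB.2.1 hy
      exact fun f hf => h4 f (Or.inl hf)
    have hne : B ≠ V := by
      rintro rfl
      apply hH0
      rw [← hx, mem_idealOf]
      intro y hy
      exact (hB.2.1 hy) H (Or.inr rfl)
    have h5 := dlt ι B V hB.1 hV hBV hne
    exact ih B hB.1 (by omega)

theorem fin (gen : S_GEN) (dm : S_DIM) (dlt : S_DLT) (comp : S_COMP) (tor : S_TOR) : S_FIN := by
  intro Co hCo hstar ι _ S
  have hfin := (comp ι S).1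
  refine Set.Finite.subset (Set.Finite.biUnion hfin fun B hB =>
    opt_finite Co gen dm dlt comp hstar ι (dimI B + 1) B hB.1 (Nat.lt_succ_self _)) ?_
  intro A hA
  obtain ⟨hat, hmax⟩ := hA
  obtain ⟨T, r, hT, hcomp, hdim⟩ := hat
  obtain ⟨V₁, hV₁, hAV₁⟩ := (comp ι S).2 A hcomp.1 (fun y hy => (hcomp.2.1 hy).1)
  refine Set.mem_iUnion₂.2 ⟨V₁, hV₁, hcomp.1, hAV₁, fun B hB hAB hBV hne => ?_⟩
  by_contra hcon
  obtain ⟨K, _, i, x, hx⟩ := gen ι A hcomp.1
  obtain ⟨K', _, i', x', hx'⟩ := gen ι B hB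
  rw [rkI_eq Co gen hcomp.1 hx, rkI_eq Co gen hB hx'] at hcon
  have h1 := (tor Co hCo ι A K i x hx).2 T r hT (fun y hy => (hcomp.2.1 hy).2)
  obtain ⟨⟨T', hT', hsub⟩, -⟩ := tor Co hCo ι B K' i' x' hx'
  obtain ⟨B', hB', hBB'⟩ := exists_comp comp ι S T' hT'.closed B hB
    (hBV.trans hV₁.2.1) hsub
  have h2 := dimI_mono dlt ι hB hB'.1 hBB'
  have hat' : Atypical (zeros S) B' := ⟨T', _, hT', hB', by omega⟩
  have h5 := hmax B' hat' (hAB.trans hBB')
  apply hne
  exact subset_antisymm hAB (by rw [← h5]; exact hBB')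

end Pool.Agent.Helper9K9.ZY
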