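import Pool.Agent.Helper9K9.ZY.Aff

/-!
[GDIM] the dimension of the powers of the hypersurface `x y + z = w`.
-/

set_option autoImplicit false

open MvPolynomial

namespace Pool.Agent.Helper9K9.ZY

open Pool.Agent.Helper9K9.ZU (Indep td exists_td le_td)

theorem td_graph_le {K : Type} [Field K] {i : ℂ →+* K} {k : ℕ} {x : Fin k × Fin 4 → K}
    (hx : OnG x) : td i x ≤ 3 * k := by
  obtain ⟨s, hs⟩ := exists_td i.injective x
  have hsi : Function.Injective s := fun a b hab => hs.inj (by simp only [hab])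
  have hmiss : ∀ g : Fin k, ∃ u : Fin 4, ∀ j, s j ≠ (g, u) := by
    intro g
    by_contra hcon
    push Not at hcon
    choose r hr using hcon
    have h1 := hs (X (r 0) * X (r 1) + X (r 2) - X (r 3)) (by
      rw [eval₂_sub, eval₂_add, eval₂_mul, eval₂_X, eval₂_X, eval₂_X, eval₂_X, hr, hr, hr, hr,
        hx g, sub_self])
    have hne : ∀ u : Fin 4, u ≠ 3 → r u ≠ r 3 := by
      intro u hu h
      have h2 := congrArg s h
      rw [hr, hr] at h2
      exact hu (congrArg Prod.snd h2)
    have h5 := congrArg (eval (fun j => if j = r 3 then (1 : ℂ) else 0)) h1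
    rw [map_sub, map_add, map_mul, eval_X, eval_X, eval_X, eval_X, if_neg (hne 0 (by decide)),
      if_neg (hne 1 (by decide)), if_neg (hne 2 (by decide)), if_pos rfl, map_zero] at h5
    norm_num at h5
  choose u hu using hmiss
  have hinj : Function.Injective (Sum.elim s (fun g => (g, u g))) := by
    rintro (a | a) (b | b) hab
    · exact congrArg Sum.inl (hsi hab)
    · exact absurd hab (hu b a)
    · exact absurd hab.symm (hu a b)
    · exact congrArg Sum.inr (congrArg Prod.fst hab)
  have h1 := Fintype.card_le_of_injective _ hinj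
  rw [Fintype.card_sum, Fintype.card_fin, Fintype.card_fin, Fintype.card_prod, Fintype.card_fin,
    Fintype.card_fin] at h1
  omega

theorem gdim : S_GDIM := by
  intro k
  have hle : ∀ d ∈ {d | ∃ A, IsIrr A ∧ A ⊆ graph k ∧ dimI A = d}, d ≤ 3 * k := by
    rintro d ⟨A, hA, hAL, rfl⟩
    obtain ⟨K, _, i, x, hx⟩ := gen _ A hA
    rw [dim _ A K i x hx]
    refine td_graph_le fun g => ?_
    have h1 : (X (g, 0) * X (g, 1) + X (g, 2) - X (g, 3) : MvPolynomial (Fin k × Fin 4) ℂ) ∈
        idealOf A := by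
      rw [mem_idealOf]
      intro y hy
      rw [map_sub, map_add, map_mul, eval_X, eval_X, eval_X, eval_X, hAL hy g, sub_self]
    have h2 := (hx _).1 h1
    rw [eval₂_sub, eval₂_add, eval₂_mul, eval₂_X, eval₂_X, eval₂_X, eval₂_X, sub_eq_zero] at h2
    exact h2
  refine le_antisymm (csSup_le' hle) ?_
  let Rg := MvPolynomial (Fin k × Fin 3) ℂ
  let K := FractionRing Rg
  let i : ℂ →+* K := (algebraMap Rg K).comp C
  have hinj : Function.Injective (algebraMap Rg K) :=
    IsFractionRing.injective _ _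
  let x : Fin k × Fin 4 → K := fun p => algebraMap Rg K
    ((![X (p.1, 0), X (p.1, 1), X (p.1, 2), X (p.1, 0) * X (p.1, 1) + X (p.1, 2)] :
      Fin 4 → Rg) p.2)
  have hx0 : ∀ g, x (g, 0) = algebraMap Rg K (X (g, 0)) := fun g => rfl
  have hx1 : ∀ g, x (g, 1) = algebraMap Rg K (X (g, 1)) := fun g => rfl
  have hx2 : ∀ g, x (g, 2) = algebraMap Rg K (X (g, 2)) := fun g => rfl
  have hx3 : ∀ g, x (g, 3) = algebraMap Rg K (X (g, 0) * X (g, 1) + X (g, 2)) := fun g => rfl
  have hxc : ∀ p : Fin k × Fin 3, x (p.1, p.2.castSucc) = algebraMap Rg K (X p) := by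
    rintro ⟨g, u⟩
    fin_cases u <;> rfl
  have hI : Indep i (fun p : Fin k × Fin 3 => x (p.1, p.2.castSucc)) := by
    intro f hf
    simp only [hxc] at hf
    have h2 : eval₂ i (fun j => algebraMap Rg K (X j)) f = algebraMap Rg K f := by
      have h3 : eval₂Hom i (fun j => algebraMap Rg K (X j)) = algebraMap Rg K := by
        apply MvPolynomial.ringHom_ext
        · intro r
          rw [eval₂Hom_C]
          rfl
        · intro j
          rw [eval₂Hom_X']
      exact RingHom.congr_fun h3 f
    rw [h2, map_eq_zero_iff _ hinj] at hf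
    exact hf
  obtain ⟨hirr, hgen⟩ := loc _ K i x
  have h3 : 3 * k ≤ dimI (zeros {f | eval₂ i x f = 0}) := by
    rw [dim _ _ K i x hgen]
    have hc : Fintype.card (Fin k × Fin 3) = 3 * k := by
      rw [Fintype.card_prod, Fintype.card_fin, Fintype.card_fin, mul_comm]
    let e : Fin (3 * k) ≃ Fin k × Fin 3 := (Fintype.equivFinOfCardEq hc).symm
    have h4 : Indep i (fun j : Fin (3 * k) => x ((e j).1, (e j).2.castSucc)) := by
      intro f hf
      have h5 := hI (rename e f) (by
        rw [eval₂_rename]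
        exact hf)
      exact rename_injective _ e.injective (h5.trans (map_zero _).symm)
    exact le_td (s := fun j => ((e j).1, (e j).2.castSucc)) h4
  refine h3.trans (le_csSup ⟨3 * k, hle⟩ ⟨_, hirr, ?_, rfl⟩)
  rw [graph_eq]
  rintro y hy _ ⟨g, rfl⟩
  refine hy _ ?_
  simp only [Set.mem_ofPred_eq, eval₂_sub, eval₂_add, eval₂_mul, eval₂_X, hx0, hx1, hx2, hx3,
    ← map_add, ← map_mul]
  rw [sub_self]

end Pool.Agent.Helper9K9.ZY
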