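import Pool.Agent.Helper9K9.ZY.Geo
import Pool.Agent.Helper9K9.ZY.Stm3

/-!
The powers of the surface `x ^ 2 + y = z` in `Y(1) ^ (3 k)`; special subvarieties defined by the
modular equations.
-/

set_option autoImplicit false

open MvPolynomial UpperHalfPlane

namespace Pool.Agent.Helper9K9.ZY

open H294ZP (jj IsCM)
open Pool.Agent.Helper9K9.ZU (td)

variable {ι : Type}

/-- The `k`-th power of the surface `x ^ 2 + y = z`. -/
def surf (k : ℕ) : Set (Fin k × Fin 3 → ℂ) := {x | ∀ g, x (g, 0) ^ 2 + x (g, 1) = x (g, 2)}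

/-- A point `(x, y)` of the modular curve `Φ_N (x, y) = 0`: `y = j τ` and `x = j (g τ)` for a
primitive integral matrix `g` of determinant `N`. -/
def Phi (N : ℕ) (x y : ℂ) : Prop :=
  ∃ (g : Matrix (Fin 2) (Fin 2) ℤ) (τ w : ℍ), g.det = N ∧
    (∀ d : ℤ, (∀ a b, d ∣ g a b) → IsUnit d) ∧
    (w : ℂ) * (g 1 0 * τ + g 1 1) = g 0 0 * τ + g 0 1 ∧ x = jj w ∧ y = jj τ

/-- The subset cut out by finitely many modular equations `Φ_N (x_a, x_b) = 0`. -/
def cut (E : Finset (ℕ × ι × ι)) : Set (ι → ℂ) := {x | ∀ e ∈ E, Phi e.1 (x e.2.1) (x e.2.2)}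

/-- Special subvarieties: the components of the subsets cut out by finitely many modular
equations. -/
def IsSpec (T : Set (ι → ℂ)) : Prop :=
  ∃ E : Finset (ℕ × ι × ι), (∀ e ∈ E, 1 ≤ e.1) ∧ IsComponent T (cut E)

/-- `A` is an atypical subvariety of `V`. -/
def Atyp [Fintype ι] (V A : Set (ι → ℂ)) : Prop :=
  ∃ T : Set (ι → ℂ), IsSpec T ∧ IsComponent A (V ∩ T) ∧
    dimension V + dimI T < dimI A + Fintype.card ι

/-- `V` has only finitely many maximal atypical subvarieties. -/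
def ZP [Fintype ι] (V : Set (ι → ℂ)) : Prop :=
  {A | Atyp V A ∧ ∀ B, Atyp V B → A ⊆ B → B = A}.Finite

/-- [GDIM3] the power of the surface -/
def S_GDIM3 : Prop := ∀ k : ℕ, dimension (surf k) = 2 * k

/-- [TOR3] the special subvariety of all relations of a point -/
def S_TOR3 : Prop :=
  ∀ C : Corr, IsMod C → ∀ (ι : Type) [Fintype ι] (A : Set (ι → ℂ)) (K : Type) [Field K]
    (i : ℂ →+* K) (x : ι → K), IsGen A i x →
    (∃ T, IsSpec T ∧ dimI T = rk C i x ∧ A ⊆ T) ∧
    ∀ T : Set (ι → ℂ), IsSpec T → A ⊆ T → rk C i x ≤ dimI T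

/-- [HYP3] (assembly) -/
def S_HYP3 : Prop := ∀ C : Corr, IsMod C → (∀ k : ℕ, ZP (surf k)) → HypF C

/-- [FIN3] (assembly) -/
def S_FIN3 : Prop :=
  ∀ C : Corr, IsMod C →
    (∀ (I : Type) [Fintype I] (K : Type) [Field K] (i : ℂ →+* K) (x : I → K), Star C I K i x) →
    ∀ (ι : Type) [Fintype ι] (S : Set (MvPolynomial ι ℂ)), ZP (zeros S)

/-- [PHI] the primitive modular polynomials -/
def S_PHI : Prop :=
  ∀ N : ℕ, 0 < N → ∃ Φ : MvPolynomial (Fin 2) ℂ,
    (∃ d : ℕ, Φ.coeff (Finsupp.single 0 d) = 1 ∧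
      ∀ m ∈ Φ.support, m ≠ Finsupp.single 0 d → m 0 < d) ∧
    ∀ x y : ℂ, eval ![x, y] Φ = 0 ↔ Phi N x y

/-- a family of polynomials of the primitive modular equations -/
def IsPhi (Φ : ℕ → MvPolynomial (Fin 2) ℂ) : Prop :=
  ∀ N : ℕ, 0 < N → ∀ x y : ℂ, eval ![x, y] (Φ N) = 0 ↔ Phi N x y

/-- [PIS] isogenous elements satisfy a primitive modular equation, and conversely -/
def S_PIS : Prop :=
  ∀ C : Corr, IsMod C → ∀ Φ, IsPhi Φ → ∀ (K : Type) [Field K] (i : ℂ →+* K) (x y : K),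
    Iso C i x y ↔ ∃ N, 0 < N ∧ eval₂ i ![x, y] (Φ N) = 0

/-- [UNI] the level of a primitive modular equation of nonspecial elements is unique -/
def S_UNI : Prop :=
  ∀ C : Corr, IsMod C → ∀ Φ, IsPhi Φ → ∀ (K : Type) [Field K] (i : ℂ →+* K) (x y : K),
    ¬ Sg C i y → ∀ N M, 0 < N → 0 < M → eval₂ i ![x, y] (Φ N) = 0 → eval₂ i ![x, y] (Φ M) = 0 →
    N = M

/-- [CMN] the special elements are the elements which satisfy a primitive modular equation of
level at least two with themselves -/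
def S_CMN : Prop :=
  ∀ C : Corr, IsMod C → ∀ Φ, IsPhi Φ → ∀ (K : Type) [Field K] (i : ℂ →+* K) (x : K),
    Sg C i x ↔ ∃ N, 2 ≤ N ∧ eval₂ i ![x, x] (Φ N) = 0

/-- [LIFT] lifting of a specialization to integral extensions: `t` is a tuple with coordinates
which are constant or integral over a coordinate in the range of `s`; there is a tuple with the
same equations `P a` with independent coordinates `s` which specializes to `t` -/
def S_LIFT : Prop :=
  ∀ (K : Type) [Field K] (i : ℂ →+* K) (ι : Type) [Fintype ι] (t : ι → K) (r : ℕ)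
    (s : Fin r → ι) (c : ι → Option (Fin r)) (P : ι → MvPolynomial (Fin 2) ℂ),
    (∀ a, c (s a) = some a) →
    (∀ a, c a = none → ∃ b : ℂ, i b = t a) →
    (∀ a l, c a = some l → a ≠ s l → eval₂ i ![t a, t (s l)] (P a) = 0 ∧
      ∃ d : ℕ, (P a).coeff (Finsupp.single 0 d) = 1 ∧
        ∀ m ∈ (P a).support, m ≠ Finsupp.single 0 d → m 0 < d) →
    ∃ (L : Type) (_ : Field L) (i' : ℂ →+* L) (u : ι → L), Spz i' i u t ∧
      Pool.Agent.Helper9K9.ZU.Indep i' (fun l => u (s l)) ∧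
      (∀ a, c a = none → ∃ b : ℂ, i' b = u a ∧ i b = t a) ∧
      ∀ a l, c a = some l → a ≠ s l → eval₂ i' ![u a, u (s l)] (P a) = 0

/-- [KEY] the generic point of a component of a set cut out by modular equations -/
def S_KEY : Prop :=
  ∀ C : Corr, IsMod C → ∀ (ι : Type) [Fintype ι] (T : Set (ι → ℂ)) (K : Type) [Field K]
    (i : ℂ →+* K) (t : ι → K), IsSpec T → IsGen T i t → td i t = rk C i t

end Pool.Agent.Helper9K9.ZY
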