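import Pool.Agent.Helper9K9.ZY.Stm
import Pool.Agent.H294ZP.Stmts

/-!
Subvarieties of the affine space `Y(1) ^ n` and the Zilber-Pink property.
-/

set_option autoImplicit false

open MvPolynomial UpperHalfPlane

namespace Pool.Agent.Helper9K9.ZY

open H294ZP (jj IsCM)
open Pool.Agent.Helper9K9.ZU (td)

variable {ι : Type}

/-- The closed subset of the affine space defined by a set of polynomials. -/
def zeros (S : Set (MvPolynomial ι ℂ)) : Set (ι → ℂ) := {x | ∀ f ∈ S, eval x f = 0}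

/-- The ideal of a set of points. -/
noncomputable def idealOf (A : Set (ι → ℂ)) : Ideal (MvPolynomial ι ℂ) :=
  ⨅ x ∈ A, RingHom.ker (eval x : MvPolynomial ι ℂ →+* ℂ)

/-- Irreducible closed subvarieties. -/
def IsIrr (A : Set (ι → ℂ)) : Prop := (∃ S, A = zeros S) ∧ (idealOf A).IsPrime

/-- The dimension of an irreducible subvariety. -/
noncomputable def dimI (A : Set (ι → ℂ)) : ℕ :=
  Cardinal.toNat (Algebra.trdeg ℂ (MvPolynomial ι ℂ ⧸ idealOf A))

/-- The dimension of a subvariety. -/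
noncomputable def dimension (V : Set (ι → ℂ)) : ℕ :=
  sSup {d | ∃ A, IsIrr A ∧ A ⊆ V ∧ dimI A = d}

/-- `A` is an irreducible component of `X`. -/
def IsComponent (A X : Set (ι → ℂ)) : Prop :=
  IsIrr A ∧ A ⊆ X ∧ ∀ B, IsIrr B → A ⊆ B → B ⊆ X → B = A

/-- The points whose coordinates with `cls a = none` are the constants `c a` and whose coordinates
with `cls a = some l` are `j (g a • z l)`, for points `z 0, …, z (r - 1)` of the upper half
plane. -/
def locus {r : ℕ} (cls : ι → Option (Fin r)) (g : ι → Matrix (Fin 2) (Fin 2) ℤ) (c : ι → ℂ) :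
    Set (ι → ℂ) :=
  {x | ∃ z : Fin r → ℍ, ∀ a, (cls a = none → x a = c a) ∧ ∀ l, cls a = some l → ∃ w : ℍ,
    (w : ℂ) * (g a 1 0 * z l + g a 1 1) = g a 0 0 * z l + g a 0 1 ∧ x a = jj w}

/-- `T` is a special subvariety of dimension `r`. -/
def IsSpecial (T : Set (ι → ℂ)) (r : ℕ) : Prop :=
  ∃ (cls : ι → Option (Fin r)) (g : ι → Matrix (Fin 2) (Fin 2) ℤ) (c : ι → ℂ),
    (∀ l, ∃ a, cls a = some l) ∧ (∀ a, 0 < (g a).det) ∧
    (∀ a, cls a = none → ∃ τ : ℍ, IsCM τ ∧ c a = jj τ) ∧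
    T = zeros (idealOf (locus cls g c) : Set (MvPolynomial ι ℂ))

/-- `A` is an atypical subvariety of `V`. -/
def Atypical [Fintype ι] (V A : Set (ι → ℂ)) : Prop :=
  ∃ (T : Set (ι → ℂ)) (r : ℕ), IsSpecial T r ∧ IsComponent A (V ∩ T) ∧
    dimension V + r < dimI A + Fintype.card ι

/-- `V` has only finitely many maximal atypical subvarieties. -/
def ZilberPink [Fintype ι] (V : Set (ι → ℂ)) : Prop :=
  {A | Atypical V A ∧ ∀ B, Atypical V B → A ⊆ B → B = A}.Finite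

/-- The `k`-th power of the hypersurface `x y + z = w`. -/
def graph (k : ℕ) : Set (Fin k × Fin 4 → ℂ) :=
  {x | ∀ g, x (g, 0) * x (g, 1) + x (g, 2) = x (g, 3)}

/-- `x` is a generic point of `A` with coordinates in the field `K` -/
def IsGen (A : Set (ι → ℂ)) {K : Type} [Field K] (i : ℂ →+* K) (x : ι → K) : Prop :=
  ∀ f, f ∈ idealOf A ↔ eval₂ i x f = 0

/-- [GEN] irreducible sets have generic points -/
def S_GEN : Prop :=
  ∀ (ι : Type) [Fintype ι] (A : Set (ι → ℂ)), IsIrr A →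
    ∃ (K : Type) (_ : Field K) (i : ℂ →+* K) (x : ι → K), IsGen A i x

/-- [LOC] a point with coordinates in a field is generic in its locus -/
def S_LOC : Prop :=
  ∀ (ι : Type) [Fintype ι] (K : Type) [Field K] (i : ℂ →+* K) (x : ι → K),
    IsIrr (zeros {f | eval₂ i x f = 0}) ∧ IsGen (zeros {f | eval₂ i x f = 0}) i x

/-- [DIM] the dimension is the transcendence degree of a generic point -/
def S_DIM : Prop :=
  ∀ (ι : Type) [Fintype ι] (A : Set (ι → ℂ)) (K : Type) [Field K] (i : ℂ →+* K) (x : ι → K),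
    IsGen A i x → dimI A = td i x

/-- [DLT] proper irreducible subsets have smaller dimension -/
def S_DLT : Prop :=
  ∀ (ι : Type) [Fintype ι] (A B : Set (ι → ℂ)), IsIrr A → IsIrr B → A ⊆ B → A ≠ B →
    dimI A < dimI B

/-- [COMP] closed sets are finite unions of irreducible ones, and every irreducible subset is
contained in a component -/
def S_COMP : Prop :=
  ∀ (ι : Type) [Fintype ι] (S : Set (MvPolynomial ι ℂ)),
    {B | IsComponent B (zeros S)}.Finite ∧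
    ∀ A, IsIrr A → A ⊆ zeros S → ∃ B, IsComponent B (zeros S) ∧ A ⊆ B

/-- [GDIM] the power of the hypersurface -/
def S_GDIM : Prop :=
  ∀ k : ℕ, dimension (graph k) = 3 * k

/-- The complex numbers `x` and `y` are connected by an isogeny of degree `N`. -/
def Modular (N : ℕ) (x y : ℂ) : Prop :=
  ∃ (g : Matrix (Fin 2) (Fin 2) ℤ) (τ w : ℍ), g.det = N ∧
    (w : ℂ) * (g 1 0 * τ + g 1 1) = g 0 0 * τ + g 0 1 ∧ x = jj w ∧ y = jj τ

/-- [SURJ] `j` is surjective -/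
def S_SURJ : Prop := ∀ x : ℂ, ∃ τ : ℍ, jj τ = x

/-- [RHO] zero is a singular modulus -/
def S_RHO : Prop := ∃ τ : ℍ, IsCM τ ∧ jj τ = 0

/-- [PSI] the modular equations: `Ψ (X, j τ) = ∏ (X - j (g τ))` -/
def S_PSI : Prop :=
  ∀ N : ℕ, 0 < N → ∃ (Ψ : MvPolynomial (Fin 2) ℂ) (G : Set (Matrix (Fin 2) (Fin 2) ℤ)),
    G.Finite ∧ (∀ g ∈ G, g.det = N) ∧ (∀ m, IsAlgebraic ℚ (Ψ.coeff m)) ∧
    (∃ d : ℕ, Ψ.coeff (Finsupp.single 0 d) = 1 ∧
      ∀ m ∈ Ψ.support, m ≠ Finsupp.single 0 d → m 0 < d) ∧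
    (∀ (x : ℂ) (τ : ℍ), eval ![x, jj τ] Ψ = 0 → ∃ g ∈ G, ∃ w : ℍ,
      (w : ℂ) * (g 1 0 * τ + g 1 1) = g 0 0 * τ + g 0 1 ∧ x = jj w) ∧
    ∀ (g : Matrix (Fin 2) (Fin 2) ℤ) (τ w : ℍ), g.det = N →
      (w : ℂ) * (g 1 0 * τ + g 1 1) = g 0 0 * τ + g 0 1 → eval ![jj w, jj τ] Ψ = 0

/-- [FINM] (from PSI) finitely many matrices are enough -/
def S_FINM : Prop :=
  ∀ N : ℕ, 0 < N → ∃ G : Set (Matrix (Fin 2) (Fin 2) ℤ), G.Finite ∧ (∀ g ∈ G, g.det = N) ∧
    ∀ (x : ℂ) (τ : ℍ), Modular N x (jj τ) → ∃ g ∈ G, ∃ w : ℍ,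
      (w : ℂ) * (g 1 0 * τ + g 1 1) = g 0 0 * τ + g 0 1 ∧ x = jj w

/-- the family of the modular correspondences -/
def IsMod (C : Corr) : Prop :=
  C.S = {x | ∃ τ : ℍ, IsCM τ ∧ x = jj τ} ∧
    ∀ N, 0 < N → ∀ x y : ℂ, eval ![x, y] (C.Ψ N) = 0 ↔ Modular N x y

/-- [MOD] (from SURJ, RHO, PSI, FINM and `H294ZP.singular_modulus_integral`) -/
def S_MOD : Prop := ∃ C : Corr, IsMod C

/-- [TOR] the special subvariety of all relations of a point -/
def S_TOR : Prop :=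
  ∀ C : Corr, IsMod C → ∀ (ι : Type) [Fintype ι] (A : Set (ι → ℂ)) (K : Type) [Field K]
    (i : ℂ →+* K) (x : ι → K), IsGen A i x →
    (∃ T, IsSpecial T (rk C i x) ∧ A ⊆ T) ∧
    ∀ (T : Set (ι → ℂ)) (r : ℕ), IsSpecial T r → A ⊆ T → rk C i x ≤ r

/-- [HYP] (assembly) -/
def S_HYP : Prop := ∀ C : Corr, IsMod C → (∀ k : ℕ, ZilberPink (graph k)) → HypG C

/-- [FIN] (assembly) -/
def S_FIN : Prop :=
  ∀ C : Corr, IsMod C →
    (∀ (I : Type) [Fintype I] (K : Type) [Field K] (i : ℂ →+* K) (x : I → K), Star C I K i x) →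
    ∀ (ι : Type) [Fintype ι] (S : Set (MvPolynomial ι ℂ)), ZilberPink (zeros S)

end Pool.Agent.Helper9K9.ZY
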