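import Pool.Agent.Helper9K9.ZY.Geo
import Pool.Agent.Helper9K9.ZU.Basic

/-!
Basic facts about subvarieties of the affine space.
-/

set_option autoImplicit false

open MvPolynomial

namespace Pool.Agent.Helper9K9.ZY

variable {ι : Type}

theorem mem_idealOf {A : Set (ι → ℂ)} {f : MvPolynomial ι ℂ} :
    f ∈ idealOf A ↔ ∀ x ∈ A, eval x f = 0 := by
  simp [idealOf, Submodule.mem_iInf, RingHom.mem_ker]

theorem idealOf_anti {A B : Set (ι → ℂ)} (h : A ⊆ B) : idealOf B ≤ idealOf A := by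
  intro f hf
  rw [mem_idealOf] at hf ⊢
  exact fun x hx => hf x (h hx)

theorem zeros_inter (S T : Set (MvPolynomial ι ℂ)) : zeros S ∩ zeros T = zeros (S ∪ T) := by
  ext x
  constructor
  · rintro ⟨h2, h3⟩
    exact fun f hf => hf.elim (h2 f) (h3 f)
  · intro h2
    exact ⟨fun f hf => h2 f (Or.inl hf), fun f hf => h2 f (Or.inr hf)⟩

theorem graph_eq (k : ℕ) : graph k =
    zeros (Set.range fun g : Fin k => (X (g, 0) * X (g, 1) + X (g, 2) - X (g, 3) :
      MvPolynomial (Fin k × Fin 4) ℂ)) := by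
  ext x
  constructor
  · rintro h _ ⟨g, rfl⟩
    rw [map_sub, map_add, map_mul, eval_X, eval_X, eval_X, eval_X, sub_eq_zero]
    exact h g
  · intro h g
    have h1 := h _ ⟨g, rfl⟩
    rw [map_sub, map_add, map_mul, eval_X, eval_X, eval_X, eval_X, sub_eq_zero] at h1
    exact h1

/-- special subvarieties are closed -/
theorem IsSpecial.closed {T : Set (ι → ℂ)} {r : ℕ} (h : IsSpecial T r) :
    ∃ S, T = zeros S := by
  obtain ⟨_, _, _, _, _, _, rfl⟩ := h
  exact ⟨_, rfl⟩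

theorem IsGen.iso_iff (C : Corr) {A : Set (ι → ℂ)} {K : Type} [Field K] {i : ℂ →+* K}
    {x : ι → K} (h : IsGen A i x) (a b : ι) :
    Iso C i (x a) (x b) ↔ ∃ N, 0 < N ∧ rename ![a, b] (C.Ψ N) ∈ idealOf A := by
  refine exists_congr fun N => and_congr_right fun _ => ?_
  rw [h, eval₂_rename, R]
  have h1 : (![x a, x b] : Fin 2 → K) = x ∘ ![a, b] := by
    funext u
    fin_cases u <;> rfl
  rw [h1]

theorem IsGen.sg_iff (C : Corr) {A : Set (ι → ℂ)} {K : Type} [Field K] {i : ℂ →+* K}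
    {x : ι → K} (h : IsGen A i x) (a : ι) :
    Sg C i (x a) ↔ ∃ s ∈ C.S, X a - MvPolynomial.C s ∈ idealOf A := by
  refine exists_congr fun s => and_congr_right fun _ => ?_
  rw [h, eval₂_sub, eval₂_X, eval₂_C, sub_eq_zero]
  exact eq_comm

theorem IsGen.rk_eq (C : Corr) {A : Set (ι → ℂ)} {K K' : Type} [Field K] [Field K']
    {i : ℂ →+* K} {i' : ℂ →+* K'} {x : ι → K} {x' : ι → K'} (h : IsGen A i x)
    (h' : IsGen A i' x') : rk C i x = rk C i' x' := by
  unfold rk
  simp only [h.iso_iff C, h'.iso_iff C, h.sg_iff C, h'.sg_iff C]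

end Pool.Agent.Helper9K9.ZY
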