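import Pool.Agent.Helper9K9.ZY.GeoBasic

/-!
Assembly: from the finiteness of the set of maximal atypical subvarieties to points in fields.
-/

set_option autoImplicit false

open MvPolynomial

namespace Pool.Agent.Helper9K9.ZY

open Pool.Agent.Helper9K9.ZU (td td_le_card)

theorem dimI_le_card (gen : S_GEN) (dm : S_DIM) (ι : Type) [Fintype ι] (A : Set (ι → ℂ))
    (hA : IsIrr A) : dimI A ≤ Fintype.card ι := by
  obtain ⟨K, _, i, x, hx⟩ := gen ι A hA
  rw [dm ι A K i x hx]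
  exact td_le_card i _

theorem dimI_mono (dlt : S_DLT) (ι : Type) [Fintype ι] {A B : Set (ι → ℂ)} (hA : IsIrr A)
    (hB : IsIrr B) (h : A ⊆ B) : dimI A ≤ dimI B := by
  by_cases hAB : A = B
  · rw [hAB]
  · exact (dlt ι A B hA hB h hAB).le

/-- a component of the intersection of a closed set with a special subvariety -/
theorem exists_comp (comp : S_COMP) (ι : Type) [Fintype ι]
    (S : Set (MvPolynomial ι ℂ)) (T : Set (ι → ℂ)) (hT : ∃ S', T = zeros S')
    (A : Set (ι → ℂ)) (hA : IsIrr A) (hAV : A ⊆ zeros S)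
    (hAT : A ⊆ T) : ∃ B, IsComponent B (zeros S ∩ T) ∧ A ⊆ B := by
  obtain ⟨S', rfl⟩ := hT
  rw [zeros_inter]
  refine (comp ι (S ∪ S')).2 A hA ?_
  rw [← zeros_inter]
  exact Set.subset_inter hAV hAT

/-- every atypical subvariety is contained in a maximal one -/
theorem exists_max (gen : S_GEN) (dm : S_DIM) (dlt : S_DLT) (ι : Type) [Fintype ι]
    (V A : Set (ι → ℂ)) (hA : Atypical V A) :
    ∃ B, (Atypical V B ∧ ∀ C, Atypical V C → B ⊆ C → C = B) ∧ A ⊆ B := by
  classical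
  have hbd : ∀ n : ℕ, ∀ A, Atypical V A → Fintype.card ι ≤ dimI A + n →
      ∃ B, (Atypical V B ∧ ∀ C, Atypical V C → B ⊆ C → C = B) ∧ A ⊆ B := by
    intro n
    induction n with
    | zero =>
      intro A hA hn
      refine ⟨A, ⟨hA, fun C hC hAC => ?_⟩, subset_rfl⟩
      by_contra hne
      obtain ⟨T, r, -, hcA, -⟩ := hA
      obtain ⟨T', r', -, hcC, -⟩ := hC
      have h1 := dlt ι A C hcA.1 hcC.1 hAC (Ne.symm hne)
      have h2 := dimI_le_card gen dm ι C hcC.1
      omega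
    | succ n ih =>
      intro A hA hn
      by_cases hmax : ∀ C, Atypical V C → A ⊆ C → C = A
      · exact ⟨A, ⟨hA, hmax⟩, subset_rfl⟩
      · push Not at hmax
        obtain ⟨C, hC, hAC, hne⟩ := hmax
        have hC' := hC
        obtain ⟨T, r, -, hcA, -⟩ := hA
        obtain ⟨T', r', -, hcC, -⟩ := hC'
        have h1 := dlt ι A C hcA.1 hcC.1 hAC (Ne.symm hne)
        obtain ⟨B, hB, hCB⟩ := ih C hC (by omega)
        exact ⟨B, hB, hAC.trans hCB⟩
  exact hbd (Fintype.card ι) A hA (by omega)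

theorem hyp (gen : S_GEN) (loc : S_LOC) (dm : S_DIM) (dlt : S_DLT) (comp : S_COMP)
    (tor : S_TOR) (gdim : S_GDIM) : S_HYP := by
  intro Co hCo hZP k
  have hfin : {A | Atypical (graph k) A ∧ ∀ B, Atypical (graph k) B → A ⊆ B → B = A}.Finite :=
    hZP k
  let e := hfin.toFinset.equivFin
  have he : ∀ j, Atypical (graph k) (e.symm j : Set (Fin k × Fin 4 → ℂ)) := by
    intro j
    have h1 := (hfin.mem_toFinset).1 (e.symm j).2
    exact h1.1
  have h4 : Fintype.card (Fin k × Fin 4) = k * 4 := by simp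
  refine ⟨hfin.toFinset.card, fun j => idealOf (e.symm j : Set (Fin k × Fin 4 → ℂ)), ?_, ?_⟩
  · intro j
    obtain ⟨T, r, hT, hcomp, hdim⟩ := he j
    obtain ⟨K, hK, i, y, hy⟩ := gen _ _ hcomp.1
    refine ⟨K, hK, i, y, ?_, ?_, hy⟩
    · intro g
      have h1 : (X (g, 0) * X (g, 1) + X (g, 2) - X (g, 3) : MvPolynomial (Fin k × Fin 4) ℂ) ∈
          idealOf (e.symm j : Set (Fin k × Fin 4 → ℂ)) := by
        rw [mem_idealOf]
        intro x hx
        have h2 := (hcomp.2.1 hx).1 g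
        rw [map_sub, map_add, map_mul, eval_X, eval_X, eval_X, eval_X, h2, sub_self]
      have h2 := (hy _).1 h1
      rw [eval₂_sub, eval₂_add, eval₂_mul, eval₂_X, eval₂_X, eval₂_X, eval₂_X, sub_eq_zero] at h2
      exact h2
    · have h1 := (tor Co hCo _ _ K i y hy).2 T r hT (fun x hx => (hcomp.2.1 hx).2)
      rw [gdim k, dm _ _ K i y hy] at hdim
      omega
  · intro K _ i y hon hlt
    obtain ⟨hirr, hgen⟩ := loc _ K i y
    obtain ⟨⟨T, hT, hsub⟩, -⟩ := tor Co hCo _ _ K i y hgen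
    have hAV : zeros {f | eval₂ i y f = 0} ⊆ graph k := by
      rw [graph_eq]
      rintro x h2 _ ⟨g, rfl⟩
      refine h2 _ ?_
      change eval₂ i y (X (g, 0) * X (g, 1) + X (g, 2) - X (g, 3)) = 0
      rw [eval₂_sub, eval₂_add, eval₂_mul, eval₂_X, eval₂_X, eval₂_X, eval₂_X, sub_eq_zero]
      exact hon g
    obtain ⟨B, hB, hAB⟩ := exists_comp comp (Fin k × Fin 4) _ T hT.closed _ hirr
      (hAV.trans (graph_eq k).subset) hsub
    rw [← graph_eq] at hB
    have hBat : Atypical (graph k) B := by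
      refine ⟨T, _, hT, hB, ?_⟩
      have h1 := dimI_mono dlt _ hirr hB.1 hAB
      rw [dm _ _ K i y hgen] at h1
      rw [gdim k]
      omega
    obtain ⟨D, hD, hBD⟩ := exists_max gen dm dlt _ _ B hBat
    have hD' : D ∈ hfin.toFinset := hfin.mem_toFinset.2 hD
    refine ⟨e ⟨D, hD'⟩, fun f hf => ?_⟩
    change f ∈ idealOf (e.symm (e ⟨D, hD'⟩) : Set (Fin k × Fin 4 → ℂ)) at hf
    rw [Equiv.symm_apply_apply] at hf
    exact (hgen f).1 (idealOf_anti (hAB.trans hBD) hf)

end Pool.Agent.Helper9K9.ZY
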