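import Pool.Agent.Helper9K9.ZY.Hyp
import Pool.Agent.Helper9K9.ZY.Fin
import Pool.Agent.Helper9K9.ZY.Gdim3

/-!
Assemblies: the hypothesis on the powers of the surface in terms of points, and the finiteness of
the set of maximal atypical subvarieties from the main property.
-/

set_option autoImplicit false

open MvPolynomial

namespace Pool.Agent.Helper9K9.ZY

open Pool.Agent.Helper9K9.ZU (td td_le_card)

/-- special subvarieties are closed -/
theorem IsSpec.closed {ι : Type} {T : Set (ι → ℂ)} (h : IsSpec T) : ∃ S, T = zeros S := by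
  obtain ⟨_, _, hT⟩ := h
  exact hT.1.1

/-- every atypical subvariety is contained in a maximal one -/
theorem exists_max3 (gen : S_GEN) (dm : S_DIM) (dlt : S_DLT) (ι : Type) [Fintype ι]
    (V A : Set (ι → ℂ)) (hA : Atyp V A) :
    ∃ B, (Atyp V B ∧ ∀ C, Atyp V C → B ⊆ C → C = B) ∧ A ⊆ B := by
  classical
  have hbd : ∀ n : ℕ, ∀ A, Atyp V A → Fintype.card ι ≤ dimI A + n →
      ∃ B, (Atyp V B ∧ ∀ C, Atyp V C → B ⊆ C → C = B) ∧ A ⊆ B := by
    intro n
    induction n with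
    | zero =>
      intro A hA hn
      refine ⟨A, ⟨hA, fun C hC hAC => ?_⟩, subset_rfl⟩
      by_contra hne
      obtain ⟨T, -, hcA, -⟩ := hA
      obtain ⟨T', -, hcC, -⟩ := hC
      have h1 := dlt ι A C hcA.1 hcC.1 hAC (Ne.symm hne)
      have h2 := dimI_le_card gen dm ι C hcC.1
      omega
    | succ n ih =>
      intro A hA hn
      by_cases hmax : ∀ C, Atyp V C → A ⊆ C → C = A
      · exact ⟨A, ⟨hA, hmax⟩, subset_rfl⟩
      · push Not at hmax
        obtain ⟨C, hC, hAC, hne⟩ := hmax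
        have hC' := hC
        obtain ⟨T, -, hcA, -⟩ := hA
        obtain ⟨T', -, hcC, -⟩ := hC'
        have h1 := dlt ι A C hcA.1 hcC.1 hAC (Ne.symm hne)
        obtain ⟨B, hB, hCB⟩ := ih C hC (by omega)
        exact ⟨B, hB, hAC.trans hCB⟩
  exact hbd (Fintype.card ι) A hA (by omega)

theorem hyp3 (gen : S_GEN) (loc : S_LOC) (dm : S_DIM) (dlt : S_DLT) (comp : S_COMP)
    (tor : S_TOR3) (gdim : S_GDIM3) : S_HYP3 := by
  intro Co hCo hZP k
  have hfin : {A | Atyp (surf k) A ∧ ∀ B, Atyp (surf k) B → A ⊆ B → B = A}.Finite :=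
    hZP k
  let e := hfin.toFinset.equivFin
  have he : ∀ j, Atyp (surf k) (e.symm j : Set (Fin k × Fin 3 → ℂ)) := by
    intro j
    have h1 := (hfin.mem_toFinset).1 (e.symm j).2
    exact h1.1
  have h4 : Fintype.card (Fin k × Fin 3) = k * 3 := by simp
  refine ⟨hfin.toFinset.card, fun j => idealOf (e.symm j : Set (Fin k × Fin 3 → ℂ)), ?_, ?_⟩
  · intro j
    obtain ⟨T, hT, hcomp, hdim⟩ := he j
    obtain ⟨K, hK, i, y, hy⟩ := gen _ _ hcomp.1
    refine ⟨K, hK, i, y, ?_, ?_, hy⟩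
    · intro g
      have h1 : (X (g, 0) ^ 2 + X (g, 1) - X (g, 2) : MvPolynomial (Fin k × Fin 3) ℂ) ∈
          idealOf (e.symm j : Set (Fin k × Fin 3 → ℂ)) := by
        rw [mem_idealOf]
        intro x hx
        have h2 := (hcomp.2.1 hx).1 g
        rw [map_sub, map_add, map_pow, eval_X, eval_X, eval_X, h2, sub_self]
      have h2 := (hy _).1 h1
      rw [eval₂_sub, eval₂_add, eval₂_pow, eval₂_X, eval₂_X, eval₂_X, sub_eq_zero] at h2
      exact h2
    · have h1 := (tor Co hCo _ _ K i y hy).2 T hT (fun x hx => (hcomp.2.1 hx).2)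
      rw [gdim k, dm _ _ K i y hy] at hdim
      omega
  · intro K _ i y hon hlt
    obtain ⟨hirr, hgen⟩ := loc _ K i y
    obtain ⟨⟨T, hT, hTd, hsub⟩, -⟩ := tor Co hCo _ _ K i y hgen
    have hAV : zeros {f | eval₂ i y f = 0} ⊆ surf k := by
      rw [surf_eq]
      rintro x h2 _ ⟨g, rfl⟩
      refine h2 _ ?_
      change eval₂ i y (X (g, 0) ^ 2 + X (g, 1) - X (g, 2)) = 0
      rw [eval₂_sub, eval₂_add, eval₂_pow, eval₂_X, eval₂_X, eval₂_X, sub_eq_zero]
      exact hon g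
    obtain ⟨B, hB, hAB⟩ := exists_comp comp (Fin k × Fin 3) _ T hT.closed _ hirr
      (hAV.trans (surf_eq k).subset) hsub
    rw [← surf_eq] at hB
    have hBat : Atyp (surf k) B := by
      refine ⟨T, hT, hB, ?_⟩
      have h1 := dimI_mono dlt _ hirr hB.1 hAB
      rw [dm _ _ K i y hgen] at h1
      rw [gdim k]
      omega
    obtain ⟨D, hD, hBD⟩ := exists_max3 gen dm dlt _ _ B hBat
    have hD' : D ∈ hfin.toFinset := hfin.mem_toFinset.2 hD
    refine ⟨e ⟨D, hD'⟩, fun f hf => ?_⟩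
    change f ∈ idealOf (e.symm (e ⟨D, hD'⟩) : Set (Fin k × Fin 3 → ℂ)) at hf
    rw [Equiv.symm_apply_apply] at hf
    exact (hgen f).1 (idealOf_anti (hAB.trans hBD) hf)

theorem fin3 (gen : S_GEN) (dm : S_DIM) (dlt : S_DLT) (comp : S_COMP) (tor : S_TOR3) :
    S_FIN3 := by
  intro Co hCo hstar ι _ S
  have hfin := (comp ι S).1
  refine Set.Finite.subset (Set.Finite.biUnion hfin fun B hB =>
    opt_finite Co gen dm dlt comp hstar ι (dimI B + 1) B hB.1 (Nat.lt_succ_self _)) ?_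
  intro A hA
  obtain ⟨hat, hmax⟩ := hA
  obtain ⟨T, hT, hcomp, hdim⟩ := hat
  obtain ⟨V₁, hV₁, hAV₁⟩ := (comp ι S).2 A hcomp.1 (fun y hy => (hcomp.2.1 hy).1)
  refine Set.mem_iUnion₂.2 ⟨V₁, hV₁, hcomp.1, hAV₁, fun B hB hAB hBV hne => ?_⟩
  by_contra hcon
  obtain ⟨K, _, i, x, hx⟩ := gen ι A hcomp.1
  obtain ⟨K', _, i', x', hx'⟩ := gen ι B hB
  rw [rkI_eq Co gen hcomp.1 hx, rkI_eq Co gen hB hx'] at hcon
  have h1 := (tor Co hCo ι A K i x hx).2 T hT (fun y hy => (hcomp.2.1 hy).2)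
  obtain ⟨⟨T', hT', hTd, hsub⟩, -⟩ := tor Co hCo ι B K' i' x' hx'
  obtain ⟨B', hB', hBB'⟩ := exists_comp comp ι S T' hT'.closed B hB
    (hBV.trans hV₁.2.1) hsub
  have h2 := dimI_mono dlt ι hB hB'.1 hBB'
  have hat' : Atyp (zeros S) B' := ⟨T', hT', hB', by omega⟩
  have h5 := hmax B' hat' (hAB.trans hBB')
  apply hne
  exact subset_antisymm hAB (by rw [← h5]; exact hBB')

end Pool.Agent.Helper9K9.ZY
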