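import Pool.Agent.Helper9K9.ZY.Tr

/-!
[INV] [SIG] the rank does not depend on the field and on the embedding; [MIX] transcendental
elements.
-/

set_option autoImplicit false

open MvPolynomial

open Pool.Agent.Helper9K9.ZU (td)

namespace Pool.Agent.Helper9K9.ZY

namespace InvL

/-- two embeddings which give the same isogenies and the same special elements -/
theorem rk_congr {C : Corr} {K K' : Type} [Field K] [Field K'] {i : ℂ →+* K} {i' : ℂ →+* K'}
    {I : Type} {γ : I → K} {γ' : I → K'} (h1 : ∀ a, Sg C i (γ a) ↔ Sg C i' (γ' a))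
    (h2 : ∀ a b, Iso C i (γ a) (γ b) ↔ Iso C i' (γ' a) (γ' b)) : rk C i γ = rk C i' γ' := by
  unfold rk
  congr 1
  ext d
  simp only [Set.mem_setOf_eq, h1, h2]

theorem eval₂_sig {K : Type} [Field K] (i : ℂ →+* K) (σ : ℂ →+* ℂ)
    (hσ : ∀ a : ℂ, IsAlgebraic ℚ a → σ a = a) {I : Type} [Fintype I] (x : I → K)
    (f : MvPolynomial I ℂ) (hf : ∀ m, IsAlgebraic ℚ (f.coeff m)) :
    eval₂ (i.comp σ) x f = eval₂ i x f := by
  rw [eval₂_eq', eval₂_eq']
  refine Finset.sum_congr rfl fun m _ => ?_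
  rw [RingHom.comp_apply, hσ _ (hf m)]

end InvL

open InvL in
theorem inv : S_INV := by
  intro C K K₁ _ _ i j I γ
  refine rk_congr (fun a => ?_) (fun a b => ?_)
  · constructor
    · rintro ⟨s, hs, h⟩
      exact ⟨s, hs, j.injective h⟩
    · rintro ⟨s, hs, h⟩
      exact ⟨s, hs, by rw [RingHom.comp_apply, h]⟩
  · have key : ∀ N, eval₂ (j.comp i) ![j (γ a), j (γ b)] (C.Ψ N) =
        j (eval₂ i ![γ a, γ b] (C.Ψ N)) := by
      intro N
      rw [eval₂_comp_left]
      congr 1
      funext c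
      fin_cases c <;> rfl
    constructor
    · rintro ⟨N, hN, h⟩
      refine ⟨N, hN, ?_⟩
      have h1 : eval₂ (j.comp i) ![j (γ a), j (γ b)] (C.Ψ N) = 0 := h
      rw [key, map_eq_zero] at h1
      exact h1
    · rintro ⟨N, hN, h⟩
      refine ⟨N, hN, ?_⟩
      change eval₂ (j.comp i) ![j (γ a), j (γ b)] (C.Ψ N) = 0
      rw [key]
      have h1 : eval₂ i ![γ a, γ b] (C.Ψ N) = 0 := h
      rw [h1, map_zero]

open InvL in
theorem sig : S_SIG := by
  intro C K _ i σ hσ I γ
  refine rk_congr (fun a => ?_) (fun a b => ?_)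
  · constructor
    · rintro ⟨s, hs, h⟩
      refine ⟨s, hs, ?_⟩
      rwa [RingHom.comp_apply, hσ _ (C.algS s hs)] at h
    · rintro ⟨s, hs, h⟩
      refine ⟨s, hs, ?_⟩
      rwa [RingHom.comp_apply, hσ _ (C.algS s hs)]
  · unfold Iso R
    simp only [eval₂_sig i σ hσ _ (C.Ψ _) (C.alg _)]

open TrL in
theorem mix : S_MIX := by
  intro K K₁ _ _ j t ht
  refine ⟨?_, ?_, ?_⟩
  · intro C i x h
    obtain ⟨N, hN, h1⟩ := (eq_leaf C K₁ (j.comp i)).2.1 _ _ h
    have h2 : Polynomial.eval₂ j t (pol C i x N) = 0 := by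
      rw [eval₂_pol]
      exact h1
    exact pol_ne C i x hN (ht _ h2)
  · intro i f hf
    have h1 : Polynomial.eval₂ j t (f.map i) = 0 := by
      rw [Polynomial.eval₂_map]
      exact hf
    have h2 := ht _ h1
    exact (Polynomial.map_eq_zero i).1 h2
  · intro x e hx he f hf
    have h1 : Polynomial.eval₂ j t (f.comp (Polynomial.C x * Polynomial.X ^ e)) = 0 := by
      rw [Polynomial.eval₂_comp, Polynomial.eval₂_mul, Polynomial.eval₂_C, Polynomial.eval₂_pow,
        Polynomial.eval₂_X]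
      exact hf
    have h2 := ht _ h1
    rcases Polynomial.comp_eq_zero_iff.1 h2 with h3 | ⟨-, h3⟩
    · exact h3
    · exfalso
      have h4 := congrArg (fun p => Polynomial.coeff p e) h3
      simp only [Polynomial.coeff_C_mul, Polynomial.coeff_X_pow_self, mul_one] at h4
      rw [Polynomial.coeff_C, if_neg he.ne'] at h4
      exact hx h4

end Pool.Agent.Helper9K9.ZY
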