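import Pool.Agent.Helper9K9.ZY.Stm
import Pool.Agent.Helper9K9.ZU.Jac

/-!
[JACG] the Jacobian criterion at a specialization.
-/

set_option autoImplicit false

open MvPolynomial

namespace Pool.Agent.Helper9K9.ZY

namespace JacgL

/-- the chain rule -/
theorem der_eval {F K : Type} [Field F] [Field K] [Algebra F K] (D : Derivation F K K)
    {P : Type} [Fintype P] [DecidableEq P] (y : P → K) (f : MvPolynomial P F) :
    D (eval₂ (algebraMap F K) y f) =
      ∑ p, D (y p) * eval₂ (algebraMap F K) y (pderiv p f) := by
  induction f using MvPolynomial.induction_on with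
  | C a => simp
  | add p q hp hq =>
    rw [eval₂_add, map_add, hp, hq, ← Finset.sum_add_distrib]
    refine Finset.sum_congr rfl fun r _ => ?_
    rw [map_add, eval₂_add, mul_add]
  | mul_X p j hp =>
    rw [eval₂_mul, eval₂_X, Derivation.leibniz, hp, smul_eq_mul, smul_eq_mul]
    have h1 : ∀ r, D (y r) * eval₂ (algebraMap F K) y (pderiv r (p * X j)) =
        y j * (D (y r) * eval₂ (algebraMap F K) y (pderiv r p)) +
          (if r = j then eval₂ (algebraMap F K) y p * D (y r) else 0) := by
      intro r
      rw [Derivation.leibniz, smul_eq_mul, smul_eq_mul, eval₂_add, eval₂_mul, eval₂_mul, eval₂_X,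
        pderiv_X]
      by_cases h : r = j
      · subst h
        rw [if_pos rfl, Pi.single_eq_same, eval₂_one]
        ring
      · rw [if_neg h, Pi.single_eq_of_ne (Ne.symm h), eval₂_zero]
        ring
    simp only [h1]
    rw [Finset.sum_add_distrib, ← Finset.mul_sum, Finset.sum_ite_eq' Finset.univ j,
      if_pos (Finset.mem_univ _)]
    ring

end JacgL

open JacgL ZU ZU.JacL in
theorem jacg : S_JACG := by
  classical
  intro F K L _ _ _ _ i l P _ y e hsp m f hf hind
  let _ := i.toAlgebra
  obtain ⟨σ, hσ⟩ := Pool.Agent.TH145.GC.exists_minor _ hind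
  let M : Matrix (Fin m) (Fin m) (MvPolynomial P F) :=
    Matrix.of fun a c => pderiv (σ c) (f a)
  have hM : ∀ (K' : Type) [Field K'] (i' : F →+* K') (y' : P → K'),
      eval₂ i' y' M.det = (Matrix.of fun a c => eval₂ i' y' (pderiv (σ c) (f a))).det := by
    intro K' _ i' y'
    change (eval₂Hom i' y') M.det = _
    rw [RingHom.map_det]
    rfl
  have hwy : LinearIndependent K (fun (s : Fin m) (p : P) => eval₂ i y (pderiv p (f s))) := by
    refine ind_of_minor (σ := σ) ?_
    intro h
    apply hσ
    rw [← hM L l e]
    apply hsp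
    rw [hM K i y]
    exact h
  obtain ⟨s, hs⟩ := TanL.exists_td i.injective y
  have hs' : AlgebraicIndependent F (fun a => y (s a)) := by
    rw [algebraicIndependent_iff]
    intro f hf
    exact hs f hf
  have hD : ∀ a : Fin (td i y), ∃ D : Derivation F K K,
      ∀ c, D (y (s c)) = if c = a then 1 else 0 := fun a =>
    Pool.Agent.H135R2.VS.exists_der hs' _
  choose D hD using hD
  have hu : LinearIndependent K (fun (a : Fin (td i y)) (p : P) => D a (y p)) := by
    rw [Fintype.linearIndependent_iff]
    intro c hc a
    have h1 := congrFun hc (s a)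
    rw [Finset.sum_apply, Finset.sum_eq_single a] at h1
    · rw [Pi.smul_apply, smul_eq_mul, Pi.zero_apply] at h1
      have h2 : D a (y (s a)) = 1 := (hD a a).trans (if_pos rfl)
      rw [h2, mul_one] at h1
      exact h1
    · intro a' _ ha'
      have h2 : D a' (y (s a)) = 0 := (hD a' a).trans (if_neg (Ne.symm ha'))
      rw [Pi.smul_apply, h2, smul_zero]
    · intro h; exact absurd (Finset.mem_univ _) h
  have horth : ∀ (a : Fin (td i y)) (c : Fin m),
      ∑ p, D a (y p) * eval₂ i y (pderiv p (f c)) = 0 := by
    intro a c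
    have h1 := der_eval (D a) y (f c)
    have h2 : eval₂ (algebraMap F K) y (f c) = 0 := hf c
    rw [h2, map_zero] at h1
    exact h1.symm
  have h1 := card_le_of_orth hu hwy horth
  rwa [Fintype.card_fin, Fintype.card_fin] at h1

end Pool.Agent.Helper9K9.ZY
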