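import Pool.Agent.Helper9K9.ZY.Stm

/-!
[PAIR] pairs of isogenous elements which specialize to transcendental elements.
-/

set_option autoImplicit false

open MvPolynomial

namespace Pool.Agent.Helper9K9.ZY

namespace PairL

/-- polynomials in the second element -/
noncomputable def phi {K : Type} [Field K] (i : ℂ →+* K) (y : K) : Polynomial ℂ →+* K :=
  Polynomial.eval₂RingHom i y

theorem phi_C {K : Type} [Field K] (i : ℂ →+* K) (y : K) (a : ℂ) :
    phi i y (Polynomial.C a) = i a := Polynomial.eval₂_C _ _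

theorem phi_X {K : Type} [Field K] (i : ℂ →+* K) (y : K) : phi i y Polynomial.X = y :=
  Polynomial.eval₂_X _ _

/-- isogenous elements are integral over each other -/
theorem integral_x (C : Corr) {K : Type} [Field K] {i : ℂ →+* K} {x y : K}
    (h : Iso C i x y) : (phi i y).IsIntegralElem x := by
  classical
  obtain ⟨N, hN, hR⟩ := h
  obtain ⟨d, hd1, hd2⟩ := C.monic N hN
  let s := (C.Ψ N).support.erase (Finsupp.single 0 d)
  let q : Polynomial (Polynomial ℂ) := ∑ m ∈ s,
    Polynomial.C (Polynomial.C (coeff m (C.Ψ N)) * Polynomial.X ^ (m 1)) * Polynomial.X ^ (m 0)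
  refine ⟨Polynomial.X ^ d + q, Polynomial.monic_X_pow_add ?_, ?_⟩
  · refine lt_of_le_of_lt (Polynomial.degree_sum_le _ _) ?_
    refine (Finset.sup_lt_iff (WithBot.bot_lt_coe d)).2 ?_
    intro m hm
    have h1 := Finset.mem_erase.1 hm
    refine lt_of_le_of_lt (Polynomial.degree_C_mul_X_pow_le _ _) ?_
    exact WithBot.coe_lt_coe.2 (hd2 m h1.2 h1.1)
  · have hmem : Finsupp.single 0 d ∈ (C.Ψ N).support := by
      rw [mem_support_iff, hd1]; exact one_ne_zero
    have h2 : eval₂ i ![x, y] (C.Ψ N) = 0 := hR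
    rw [eval₂_eq', ← Finset.add_sum_erase _ _ hmem, hd1, map_one, one_mul, Fin.prod_univ_two] at h2
    rw [Polynomial.eval₂_add, Polynomial.eval₂_pow, Polynomial.eval₂_X, Polynomial.eval₂_finsetSum,
      ← h2]
    congr 1
    · simp
    · refine Finset.sum_congr rfl fun m _ => ?_
      rw [Polynomial.eval₂_mul, Polynomial.eval₂_C, Polynomial.eval₂_pow, Polynomial.eval₂_X,
        map_mul, map_pow, phi_C, phi_X, Fin.prod_univ_two]
      simp only [Matrix.cons_val_zero, Matrix.cons_val_one]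
      ring

theorem integral_all (C : Corr) {K : Type} [Field K] {i : ℂ →+* K} {x y : K}
    (h : Iso C i x y) (P : MvPolynomial (Fin 2) ℂ) :
    (phi i y).IsIntegralElem (eval₂ i ![x, y] P) := by
  induction P using MvPolynomial.induction_on with
  | C a =>
    rw [eval₂_C, ← phi_C i y]
    exact (phi i y).isIntegralElem_map
  | add p q hp hq =>
    rw [eval₂_add]
    exact RingHom.IsIntegralElem.add _ hp hq
  | mul_X p j hp =>
    rw [eval₂_mul, eval₂_X]
    refine RingHom.IsIntegralElem.mul _ hp ?_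
    fin_cases j
    · exact integral_x C h
    · have h1 : (![x, y] : Fin 2 → K) 1 = phi i y Polynomial.X := by
        rw [phi_X]; rfl
      change (phi i y).IsIntegralElem ((![x, y] : Fin 2 → K) 1)
      rw [h1]
      exact (phi i y).isIntegralElem_map

/-- a nonzero integral element satisfies an equation with nonzero constant term -/
theorem exists_const {A K : Type} [CommRing A] [Field K] (φ : A →+* K) {u : K} (hu : u ≠ 0)
    (h : φ.IsIntegralElem u) : ∃ q : Polynomial A, Polynomial.eval₂ φ u q = 0 ∧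
      φ (q.coeff 0) ≠ 0 := by
  obtain ⟨p, hp, hp0⟩ := h
  suffices hs : ∀ n : ℕ, ∀ p : Polynomial A, p.natDegree ≤ n → p.coeff n = 1 →
      Polynomial.eval₂ φ u p = 0 →
      ∃ q : Polynomial A, Polynomial.eval₂ φ u q = 0 ∧ φ (q.coeff 0) ≠ 0 from
    hs _ p le_rfl hp hp0
  intro n
  induction n with
  | zero =>
    intro p hp hc h0
    refine ⟨p, h0, ?_⟩
    rw [hc, map_one]
    exact one_ne_zero
  | succ n ih =>
    intro p hp hc h0
    by_cases hz : φ (p.coeff 0) = 0
    · refine ih p.divX ?_ ?_ ?_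
      · rw [Polynomial.natDegree_divX_eq_natDegree_tsub_one]
        omega
      · rw [Polynomial.coeff_divX]
        exact hc
      · have h1 := h0
        rw [← Polynomial.divX_mul_X_add p, Polynomial.eval₂_add, Polynomial.eval₂_mul,
          Polynomial.eval₂_X, Polynomial.eval₂_C, hz, add_zero] at h1
        exact (mul_eq_zero.1 h1).resolve_right hu
    · exact ⟨p, h0, hz⟩

/-- the equations of the special point hold at the general point -/
theorem eval_eq_zero (C : Corr) {K L : Type} [Field K] [Field L] {i : ℂ →+* K} {l : ℂ →+* L}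
    {x y : K} {x' y' : L} (h : Iso C i x y) (hs : Spz i l ![x, y] ![x', y']) (ht : Tr l y')
    {P : MvPolynomial (Fin 2) ℂ} (hP : eval₂ l ![x', y'] P = 0) : eval₂ i ![x, y] P = 0 := by
  by_contra hu
  obtain ⟨q, hq, hq0⟩ := exists_const (phi i y) hu (integral_all C h P)
  let ψ : Polynomial ℂ →+* MvPolynomial (Fin 2) ℂ :=
    Polynomial.eval₂RingHom MvPolynomial.C (X 1)
  let G : MvPolynomial (Fin 2) ℂ := Polynomial.eval₂ ψ P q
  have hG : ∀ {K' : Type} [Field K'] (i' : ℂ →+* K') (a b : K'),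
      eval₂ i' ![a, b] G = Polynomial.eval₂ (phi i' b) (eval₂ i' ![a, b] P) q := by
    intro K' _ i' a b
    have h1 := Polynomial.hom_eval₂ q ψ (eval₂Hom i' ![a, b]) P
    have h2 : (eval₂Hom i' ![a, b]).comp ψ = phi i' b := by
      refine Polynomial.ringHom_ext' ?_ ?_
      · ext c
        · simp [ψ, phi]
      · simp [ψ, phi]
    rw [h2] at h1
    exact h1
  have h1 : eval₂ i ![x, y] G = 0 := by rw [hG]; exact hq
  have h2 := hs G h1
  rw [hG, hP, Polynomial.eval₂_at_zero] at h2
  apply hq0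
  rw [ht _ h2, map_zero]

theorem exists_rename0 {f : MvPolynomial (Fin 2) ℂ} (h : pderiv 0 f = 0) :
    ∃ g : Polynomial ℂ, Polynomial.eval₂ MvPolynomial.C (X 1) g = f := by
  classical
  have hsupp : ∀ m ∈ f.support, m 0 = 0 := by
    intro m hm
    by_contra hm0
    have h1 : m = (m - Finsupp.single 0 1) + Finsupp.single 0 1 := by
      rw [tsub_add_cancel_of_le]
      rw [Finsupp.single_le_iff]
      exact Nat.one_le_iff_ne_zero.2 hm0
    have h2 := coeff_pderiv (i := 0) f (m - Finsupp.single 0 1)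
    rw [h, coeff_zero, ← h1] at h2
    rcases mul_eq_zero.1 h2.symm with h3 | h3
    · exact (mem_support_iff.1 hm) h3
    · exact Nat.cast_add_one_ne_zero _ h3
  refine ⟨∑ m ∈ f.support, Polynomial.C (coeff m f) * Polynomial.X ^ (m 1), ?_⟩
  rw [Polynomial.eval₂_finsetSum]
  conv_rhs => rw [f.as_sum]
  refine Finset.sum_congr rfl fun m hm => ?_
  rw [Polynomial.eval₂_mul, Polynomial.eval₂_C, Polynomial.eval₂_pow, Polynomial.eval₂_X,
    monomial_eq, Finsupp.prod_fintype _ _ (fun _ => pow_zero _), Fin.prod_univ_two, hsupp m hm,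
    pow_zero, one_mul]

theorem td_pderiv (f : MvPolynomial (Fin 2) ℂ) (n : ℕ)
    (h : f.totalDegree ≤ n + 1) : (pderiv 0 f).totalDegree ≤ n := by
  refine Finset.sup_le fun m hm => ?_
  rw [mem_support_iff, coeff_pderiv] at hm
  have h1 : m + Finsupp.single 0 1 ∈ f.support := by
    rw [mem_support_iff]
    intro h2
    rw [h2, zero_mul] at hm
    exact hm rfl
  have h2 := le_totalDegree h1
  rw [Finsupp.sum_add_index' (fun _ => rfl) (fun _ _ _ => rfl),
    Finsupp.sum_single_index rfl] at h2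
  omega

theorem exists_simple {L : Type} [Field L] (l : ℂ →+* L) (x' y' : L) (ht : Tr l y') (n : ℕ) :
    ∀ f : MvPolynomial (Fin 2) ℂ, f ≠ 0 → f.totalDegree ≤ n → eval₂ l ![x', y'] f = 0 →
      ∃ g : MvPolynomial (Fin 2) ℂ, eval₂ l ![x', y'] g = 0 ∧
        eval₂ l ![x', y'] (pderiv 0 g) ≠ 0 := by
  have key : ∀ f : MvPolynomial (Fin 2) ℂ, f ≠ 0 → eval₂ l ![x', y'] f = 0 →
      pderiv 0 f ≠ 0 := by
    intro f hf h0 h
    obtain ⟨g, rfl⟩ := exists_rename0 h
    have h1 := Polynomial.hom_eval₂ g MvPolynomial.C (eval₂Hom l ![x', y']) (X 1)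
    rw [coe_eval₂Hom, h0] at h1
    have h2 : (eval₂Hom l ![x', y']).comp MvPolynomial.C = l := by
      ext c
      simp
    rw [h2, eval₂_X] at h1
    apply hf
    rw [ht g h1.symm, Polynomial.eval₂_zero]
  induction n with
  | zero =>
    intro f hf hd h0
    exfalso
    have h1 := key f hf h0
    rw [Nat.le_zero, totalDegree_eq_zero_iff_eq_C] at hd
    rw [hd, pderiv_C] at h1
    exact h1 rfl
  | succ n ih =>
    intro f hf hd h0
    by_cases h : eval₂ l ![x', y'] (pderiv 0 f) = 0
    · exact ih _ (key f hf h0) (td_pderiv f n hd) h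
    · exact ⟨f, h0, h⟩

end PairL

open PairL in
theorem pair : S_PAIR := by
  intro C K L _ _ i l x y x' y' hiso hs ht
  obtain ⟨N, hN, hR⟩ := id hiso
  obtain ⟨d, hd1, -⟩ := C.monic N hN
  have h0 : C.Ψ N ≠ 0 := by
    intro h
    rw [h, coeff_zero] at hd1
    exact zero_ne_one hd1
  obtain ⟨P, hP, hP'⟩ := exists_simple l x' y' ht _ (C.Ψ N) h0 le_rfl (hs _ hR)
  exact ⟨P, eval_eq_zero C hiso hs ht hP, hP, hP'⟩

end Pool.Agent.Helper9K9.ZY
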