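import Pool.Agent.Helper9K9.ZY.Stm3
import Pool.Agent.Helper9K9.ZY.Jac

/-!
[JAC3] points of the power of the surface which specialize to a point with independent gates
have no small defect.
-/

set_option autoImplicit false

open MvPolynomial

open Pool.Agent.Helper9K9.ZU (td)

namespace Pool.Agent.Helper9K9.ZY

namespace Jac3L

/-- a gate -/
noncomputable def gate {k : ℕ} (g : Fin k) : MvPolynomial (Fin k × Fin 3) ℂ :=
  X (g, 0) ^ 2 + X (g, 1) - X (g, 2)

theorem eval_gate {K : Type} [Field K] (i : ℂ →+* K) {k : ℕ} (y : Fin k × Fin 3 → K)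
    (g : Fin k) : eval₂ i y (gate g) = y (g, 0) ^ 2 + y (g, 1) - y (g, 2) := by
  unfold gate
  simp only [eval₂_sub, eval₂_add, eval₂_pow, eval₂_X]

/-- the differential of a gate -/
theorem sum_gate {L : Type} [Field L] (l : ℂ →+* L) {k : ℕ} (e w : Fin k × Fin 3 → L)
    (g : Fin k) : ∑ p, w p * eval₂ l e (pderiv p (gate g)) =
      2 * e (g, 0) * w (g, 0) + w (g, 1) - w (g, 2) := by
  classical
  have h1 : ∀ q : Fin k × Fin 3, ∑ p, w p * eval₂ l e (pderiv p (X q : MvPolynomial _ ℂ)) = w q := by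
    intro q
    rw [Finset.sum_eq_single q]
    · rw [pderiv_X_self, eval₂_one, mul_one]
    · intro p _ hp
      rw [pderiv_X_of_ne (Ne.symm hp), eval₂_zero, mul_zero]
    · intro h
      exact absurd (Finset.mem_univ _) h
  have h2 : ∀ p, w p * eval₂ l e (pderiv p (gate g)) =
      2 * e (g, 0) * (w p * eval₂ l e (pderiv p (X (g, 0) : MvPolynomial _ ℂ))) +
      w p * eval₂ l e (pderiv p (X (g, 1) : MvPolynomial _ ℂ)) -
      w p * eval₂ l e (pderiv p (X (g, 2) : MvPolynomial _ ℂ)) := by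
    intro p
    unfold gate
    rw [map_sub, map_add, pow_two, Derivation.leibniz, smul_eq_mul, eval₂_sub, eval₂_add,
      eval₂_add, eval₂_mul, eval₂_X]
    ring
  simp only [h2]
  rw [Finset.sum_sub_distrib, Finset.sum_add_distrib, ← Finset.mul_sum, h1, h1, h1]

end Jac3L

open Jac3L RkL in
theorem jac3 (hE : S_EQ) : S_JAC3 := by
  classical
  intro C K L _ _ i l k y e hsp hy T W h1 h2 h3 h4 h5
  obtain ⟨s, hs⟩ := exists_rk hE (C := C) (i := i) y
  have hns : ∀ p, ¬ Sg C i (y p) := fun p hp => h1 p (SpzL.sg hsp hp)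
  -- the equations of the other coordinates
  have hex : ∀ p : {p // p ∉ Set.range s}, ∃ (q : Fin k × Fin 3) (P : MvPolynomial (Fin 2) ℂ),
      q ∈ Set.range s ∧ p.1 ∉ T ∧ q ∉ T ∧ Iso C l (e p.1) (e q) ∧ eval₂ i ![y p.1, y q] P = 0 ∧
      eval₂ l ![e p.1, e q] P = 0 ∧ eval₂ l ![e p.1, e q] (pderiv 0 P) ≠ 0 := by
    intro p
    rcases maximal hE hs p.1 with h6 | ⟨a, h6⟩
    · exact absurd h6 (hns p.1)
    · have h7 : Iso C l (e p.1) (e (s a)) := SpzL.iso hsp h6
      have hne : s a ≠ p.1 := fun h => p.2 ⟨a, h⟩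
      have h8 : p.1 ∉ T := fun h => h2 p.1 h (s a) hne h7
      have h9 : s a ∉ T := fun h => h2 (s a) h p.1 hne.symm ((hE C L l).2.1 _ _ h7)
      obtain ⟨P, hP1, hP2, hP3⟩ := pair C K L i l (y p.1) (y (s a)) (e p.1) (e (s a)) h6
        (SpzL.pair hsp _ _) (h3 _ h9)
      exact ⟨s a, P, ⟨a, rfl⟩, h8, h9, h7, hP1, hP2, hP3⟩
  choose q P hq hpT hqT hiso hPy hPe hPd using hex
  let f : Fin k ⊕ {p // p ∉ Set.range s} → MvPolynomial (Fin k × Fin 3) ℂ :=
    Sum.elim gate (fun p => rename ![p.1, q p] (P p))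
  have hf : ∀ a, eval₂ i y (f a) = 0 := by
    rintro (g | p)
    · change eval₂ i y (gate g) = 0
      rw [eval_gate, hy g, sub_self]
    · change eval₂ i y (rename ![p.1, q p] (P p)) = 0
      rw [eval₂_rename]
      have h6 : y ∘ ![p.1, q p] = ![y p.1, y (q p)] := by
        funext c
        fin_cases c <;> rfl
      rw [h6]
      exact hPy p
  have hind : LinearIndependent L (fun (a : Fin k ⊕ {p // p ∉ Set.range s})
      (r : Fin k × Fin 3) => eval₂ l e (pderiv r (f a))) := by
    rw [Fintype.linearIndependent_iff]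
    intro c hc
    -- pairing with a vector
    have hpair : ∀ w : Fin k × Fin 3 → L,
        (∑ g, c (Sum.inl g) * (2 * e (g, 0) * w (g, 0) + w (g, 1) - w (g, 2))) +
        ∑ p, c (Sum.inr p) * (eval₂ l ![e p.1, e (q p)] (pderiv 0 (P p)) * w p.1 +
          eval₂ l ![e p.1, e (q p)] (pderiv 1 (P p)) * w (q p)) = 0 := by
      intro w
      have h6 : ∀ a, ∑ r, w r * eval₂ l e (pderiv r (f a)) = Sum.elim
          (fun g => 2 * e (g, 0) * w (g, 0) + w (g, 1) - w (g, 2))
          (fun p => eval₂ l ![e p.1, e (q p)] (pderiv 0 (P p)) * w p.1 +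
          eval₂ l ![e p.1, e (q p)] (pderiv 1 (P p)) * w (q p)) a := by
        rintro (g | p)
        · exact sum_gate l e w g
        · exact JacL.sum_pair l e w p.1 (q p) (P p)
      have h7 : ∑ r, w r * (∑ a, c a • (fun r => eval₂ l e (pderiv r (f a)))) r = 0 := by
        rw [hc]
        simp
      have h8 : ∑ r, w r * (∑ a, c a • (fun r => eval₂ l e (pderiv r (f a)))) r =
          ∑ a, c a * ∑ r, w r * eval₂ l e (pderiv r (f a)) := by
        simp only [Finset.sum_apply, Pi.smul_apply, smul_eq_mul, Finset.mul_sum]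
        rw [Finset.sum_comm]
        refine Finset.sum_congr rfl fun a _ => Finset.sum_congr rfl fun r _ => ?_
        ring
      rw [h8, Fintype.sum_sum_type] at h7
      simp only [h6, Sum.elim_inl, Sum.elim_inr] at h7
      exact h7
    have hc0 : (fun g => c (Sum.inl g)) = 0 := by
      refine h5 _ fun w hw => ?_
      have h6 := hpair w
      rw [Finset.sum_eq_zero (s := Finset.univ (α := {p // p ∉ Set.range s})), add_zero] at h6
      · exact h6
      · intro p _
        rw [h4 w hw p.1 (q p) (hpT p) (hqT p) (hiso p) (P p) (hPe p), mul_zero]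
    have hc1 : ∀ g, c (Sum.inl g) = 0 := fun g => congrFun hc0 g
    rintro (g | p)
    · exact hc1 g
    · have h6 := hpair (Pi.single p.1 1)
      simp only [hc1, zero_mul, Finset.sum_const_zero, zero_add] at h6
      rw [Finset.sum_eq_single p] at h6
      · have h7 : q p ≠ p.1 := fun h => p.2 (h ▸ hq p)
        rw [Pi.single_eq_same, Pi.single_eq_of_ne h7, mul_one, mul_zero, add_zero] at h6
        exact (mul_eq_zero.1 h6).resolve_right (hPd p)
      · intro p' _ hp'
        have h7 : p'.1 ≠ p.1 := fun h => hp' (Subtype.ext h)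
        have h8 : q p' ≠ p.1 := fun h => p.2 (h ▸ hq p')
        rw [Pi.single_eq_of_ne h7, Pi.single_eq_of_ne h8, mul_zero, mul_zero, add_zero, mul_zero]
      · intro h; exact absurd (Finset.mem_univ _) h
  have h6 := JacL.jacg' hsp f hf hind
  rw [Fintype.card_sum, Fintype.card_fin] at h6
  have h7 : Fintype.card (Fin k × Fin 3) ≤
      Fintype.card (Fin (rk C i y) ⊕ {p // p ∉ Set.range s}) := by
    refine Fintype.card_le_of_surjective (Sum.elim s (fun p => p.1)) ?_
    intro p
    by_cases h : p ∈ Set.range s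
    · obtain ⟨a, ha⟩ := h
      exact ⟨Sum.inl a, ha⟩
    · exact ⟨Sum.inr ⟨p, h⟩, rfl⟩
  rw [Fintype.card_sum, Fintype.card_fin] at h7
  omega

end Pool.Agent.Helper9K9.ZY
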