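import Pool.Agent.Helper9K9.ZY.Stm4

/-!
[JINJ] `j` separates the orbits of `SL(2, ℤ)` (from LAT and EIS)
-/

set_option autoImplicit false

open UpperHalfPlane ModularForm

namespace Pool.Agent.Helper9K9.ZY

open H294ZP (jj IsCM)

namespace JinjL

theorem exists_scale (τ τ' : ℍ) (h : jj τ = jj τ') :
    ∃ μ : ℂ, μ ≠ 0 ∧ E₄ τ' = μ ^ 4 * E₄ τ ∧ E₆ τ' = μ ^ 6 * E₆ τ := by
  have hd : ModularForm.discriminant τ ≠ 0 := ModularForm.discriminant_ne_zero τ
  have hd' : ModularForm.discriminant τ' ≠ 0 := ModularForm.discriminant_ne_zero τ'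
  have hD := discriminant_eq_E₄_cube_sub_E₆_sq τ
  have hD' := discriminant_eq_E₄_cube_sub_E₆_sq τ'
  unfold H294ZP.jj at h
  rw [div_eq_div_iff hd hd'] at h
  obtain ⟨l, hl⟩ := IsAlgClosed.exists_pow_nat_eq
    (ModularForm.discriminant τ' / ModularForm.discriminant τ) (n := 12) (by norm_num)
  have hl0 : l ≠ 0 := by
    rintro rfl
    rw [zero_pow (by norm_num)] at hl
    exact div_ne_zero hd' hd hl.symm
  have hl' : l ^ 12 * ModularForm.discriminant τ = ModularForm.discriminant τ' := by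
    rw [hl, div_mul_cancel₀ _ hd]
  have h1 : E₄ τ' ^ 3 = l ^ 12 * E₄ τ ^ 3 := by
    apply mul_right_cancel₀ hd
    rw [← h, ← hl']
    ring
  obtain ⟨m, hm0, hm12, hm4⟩ : ∃ m : ℂ, m ≠ 0 ∧ m ^ 12 = l ^ 12 ∧ E₄ τ' = m ^ 4 * E₄ τ := by
    by_cases h0 : E₄ τ = 0
    · refine ⟨l, hl0, rfl, ?_⟩
      rw [h0, mul_zero]
      rw [h0, zero_pow three_ne_zero, mul_zero] at h1
      exact (pow_eq_zero_iff three_ne_zero).1 h1
    · have h2 : l ^ 4 * E₄ τ ≠ 0 := mul_ne_zero (pow_ne_zero _ hl0) h0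
      obtain ⟨z, hz⟩ : ∃ z : ℂ, z = E₄ τ' / (l ^ 4 * E₄ τ) := ⟨_, rfl⟩
      have hz1 : z * (l ^ 4 * E₄ τ) = E₄ τ' := by rw [hz, div_mul_cancel₀ _ h2]
      have hz3 : z ^ 3 = 1 := by
        have h3 : (l ^ 4 * E₄ τ) ^ 3 ≠ 0 := pow_ne_zero _ h2
        apply mul_right_cancel₀ h3
        rw [← mul_pow, hz1, h1]
        ring
      have hz0 : z ≠ 0 := by
        rintro rfl
        rw [zero_pow three_ne_zero] at hz3
        exact zero_ne_one hz3
      refine ⟨z * l, mul_ne_zero hz0 hl0, ?_, ?_⟩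
      · rw [mul_pow, show (12 : ℕ) = 3 * 4 from rfl, pow_mul z, hz3, one_pow, one_mul]
      · rw [← hz1, mul_pow, show z ^ 4 = z ^ 3 * z by ring, hz3]
        ring
  have h2 : E₆ τ' ^ 2 = (m ^ 6 * E₆ τ) ^ 2 := by
    have e1 : E₆ τ ^ 2 = E₄ τ ^ 3 - 1728 * ModularForm.discriminant τ := by
      rw [hD]; ring
    have e2 : E₆ τ' ^ 2 = E₄ τ' ^ 3 - 1728 * ModularForm.discriminant τ' := by
      rw [hD']; ring
    rw [mul_pow, e1, e2, ← hl', hm4, ← hm12]
    ring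
  rcases sq_eq_sq_iff_eq_or_eq_neg.1 h2 with h3 | h3
  · exact ⟨m, hm0, hm4, h3⟩
  · refine ⟨Complex.I * m, mul_ne_zero Complex.I_ne_zero hm0, ?_, ?_⟩
    · rw [mul_pow, Complex.I_pow_four, one_mul]
      exact hm4
    · rw [mul_pow, show Complex.I ^ 6 = Complex.I ^ 4 * Complex.I ^ 2 by ring,
        Complex.I_pow_four, Complex.I_sq, h3]
      ring

theorem G_eq (L : PeriodPair) (n : ℕ) :
    L.G n = ∑' x : ℤ × ℤ, (((x.1 : ℂ) * L.ω₁ + x.2 * L.ω₂) ^ n)⁻¹ := by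
  unfold PeriodPair.G
  rw [← (L.latticeEquivProd.symm.toEquiv).tsum_eq]
  refine tsum_congr fun x => ?_
  have h := L.latticeEquiv_symm_apply x
  change (((L.latticeEquivProd.symm x : L.lattice) : ℂ) ^ n)⁻¹ = _
  rw [h]

theorem G_scale (L L' : PeriodPair) (c : ℂ) (h1 : L'.ω₁ = c * L.ω₁) (h2 : L'.ω₂ = c * L.ω₂)
    (n : ℕ) : L'.G n = (c ^ n)⁻¹ * L.G n := by
  rw [G_eq, G_eq, ← tsum_mul_left]
  refine tsum_congr fun x => ?_
  rw [h1, h2, ← mul_inv, ← mul_pow]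
  congr 2
  ring

theorem indep_pair (c : ℂ) (hc : c ≠ 0) (τ : ℍ) : LinearIndependent ℝ ![c, c * (τ : ℂ)] := by
  rw [LinearIndependent.pair_iff]
  intro s t h
  have h1 : c * ((s : ℂ) + t * τ) = 0 := by
    rw [← h]
    simp only [Complex.real_smul]
    ring
  have h2 : (s : ℂ) + t * τ = 0 := (mul_eq_zero.1 h1).resolve_left hc
  have him := congrArg Complex.im h2
  have hre := congrArg Complex.re h2
  simp only [Complex.add_im, Complex.mul_im, Complex.ofReal_re, Complex.ofReal_im, zero_mul,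
    add_zero, Complex.zero_im, zero_add, Complex.add_re, Complex.mul_re, Complex.zero_re,
    sub_zero] at him hre
  have hτ : (τ : ℂ).im ≠ 0 := τ.im_pos.ne'
  have ht : t = 0 := (mul_eq_zero.1 him).resolve_right hτ
  rw [ht, zero_mul, add_zero] at hre
  exact ⟨hre, ht⟩

end JinjL

open JinjL

theorem jinj (lat : S_LAT) (eis : S_EIS) : S_JINJ := by
  intro τ τ' h
  obtain ⟨μ, hμ, h4, h6⟩ := exists_scale τ τ' h
  have hν : μ⁻¹ ≠ 0 := inv_ne_zero hμ
  have hi := indep_pair 1 one_ne_zero τ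
  have hi' := indep_pair 1 one_ne_zero τ'
  rw [one_mul] at hi hi'
  let L : PeriodPair := ⟨1, τ, hi⟩
  let L' : PeriodPair := ⟨1, τ', hi'⟩
  let Lν : PeriodPair := ⟨μ⁻¹, μ⁻¹ * τ, indep_pair _ hν τ⟩
  obtain ⟨e4, e6⟩ := eis τ L rfl rfl
  obtain ⟨e4', e6'⟩ := eis τ' L' rfl rfl
  have hs : ∀ n, Lν.G n = μ ^ n * L.G n := by
    intro n
    rw [G_scale L Lν μ⁻¹ (mul_one _).symm rfl, inv_pow, inv_inv]
  have hlat := lat L' Lν (by rw [hs, e4, e4', h4]; ring) (by rw [hs, e6, e6', h6]; ring)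
  have h1 : (1 : ℂ) ∈ Lν.lattice := by
    rw [← hlat]
    exact L'.ω₁_mem_lattice
  have h2 : (τ' : ℂ) ∈ Lν.lattice := by
    rw [← hlat]
    exact L'.ω₂_mem_lattice
  have h3 : μ⁻¹ ∈ L'.lattice := by
    rw [hlat]
    exact Lν.ω₁_mem_lattice
  have h5 : μ⁻¹ * (τ : ℂ) ∈ L'.lattice := by
    rw [hlat]
    exact Lν.ω₂_mem_lattice
  obtain ⟨d, c, hdc⟩ := PeriodPair.mem_lattice.1 h1
  obtain ⟨b, a, hba⟩ := PeriodPair.mem_lattice.1 h2
  obtain ⟨p, q, hpq⟩ := PeriodPair.mem_lattice.1 h3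
  obtain ⟨r, s, hrs⟩ := PeriodPair.mem_lattice.1 h5
  change (d : ℂ) * μ⁻¹ + c * (μ⁻¹ * τ) = 1 at hdc
  change (b : ℂ) * μ⁻¹ + a * (μ⁻¹ * τ) = τ' at hba
  change (p : ℂ) * 1 + q * τ' = μ⁻¹ at hpq
  change (r : ℂ) * 1 + s * τ' = μ⁻¹ * τ at hrs
  have hτ' : (τ' : ℂ).im ≠ 0 := τ'.im_pos.ne'
  have hlin : ∀ x y : ℤ, (x : ℂ) + y * τ' = 0 → x = 0 ∧ y = 0 := by
    intro x y hxy
    have him := congrArg Complex.im hxy
    have hre := congrArg Complex.re hxy
    simp only [Complex.add_im, Complex.mul_im, Complex.intCast_re, Complex.intCast_im, zero_mul,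
      add_zero, Complex.zero_im, zero_add, Complex.add_re, Complex.mul_re, Complex.zero_re,
      sub_zero] at him hre
    have hy : (y : ℝ) = 0 := (mul_eq_zero.1 him).resolve_right hτ'
    rw [hy, zero_mul, add_zero] at hre
    exact ⟨by exact_mod_cast hre, by exact_mod_cast hy⟩
  have e1 := hlin (d * p + c * r - 1) (d * q + c * s) (by
    push_cast
    linear_combination hdc + (d : ℂ) * hpq + (c : ℂ) * hrs)
  have e2 := hlin (b * p + a * r) (b * q + a * s - 1) (by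
    push_cast
    linear_combination hba + (b : ℂ) * hpq + (a : ℂ) * hrs)
  have hdet : (a * d - b * c) * (p * s - q * r) = 1 := by
    obtain ⟨e11, e12⟩ := e1
    obtain ⟨e21, e22⟩ := e2
    linear_combination (b * q + a * s) * e11 + e22 - (b * p + a * r) * e12
  have hne : (c : ℂ) * τ + d ≠ 0 := by
    intro h0
    have h7 : (1 : ℂ) = 0 := by
      rw [← hdc]
      linear_combination μ⁻¹ * h0
    exact one_ne_zero h7
  have hmob : (τ' : ℂ) * (c * τ + d) = a * τ + b := by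
    linear_combination ((c : ℂ) * τ + d) * (-hba) + ((a : ℂ) * τ + b) * hdc
  refine ⟨a, b, c, d, ?_, hmob⟩
  have hdet' : a * d - b * c = 1 ∨ a * d - b * c = -1 := Int.eq_one_or_neg_one_of_mul_eq_one hdet
  rcases hdet' with h7 | h7
  · exact h7
  · exfalso
    -- the imaginary part
    have h8 : (τ' : ℂ).im * Complex.normSq (c * τ + d) = ((a * d - b * c : ℤ) : ℝ) * (τ : ℂ).im := by
      have h9 : (τ' : ℂ) * (Complex.normSq (c * τ + d) : ℝ) =
          (a * τ + b) * (starRingEnd ℂ) (c * τ + d) := by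
        rw [← hmob, mul_assoc, Complex.mul_conj]
      have h10 := congrArg Complex.im h9
      simp only [Complex.mul_im, Complex.ofReal_re, Complex.ofReal_im, mul_zero, zero_add,
        Complex.add_re, Complex.add_im, Complex.mul_re, Complex.intCast_re, Complex.intCast_im,
        zero_mul, sub_zero, add_zero, Complex.conj_re, Complex.conj_im] at h10
      rw [h10]
      push_cast
      ring
    rw [h7] at h8
    have h11 : 0 < (τ' : ℂ).im := τ'.im_pos
    have h12 : 0 < (τ : ℂ).im := τ.im_pos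
    have h13 : 0 < Complex.normSq (c * τ + d) := Complex.normSq_pos.2 hne
    have h14 : 0 < (τ' : ℂ).im * Complex.normSq (c * τ + d) := mul_pos h11 h13
    rw [h8] at h14
    push_cast at h14
    linarith

end Pool.Agent.Helper9K9.ZY
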