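import Pool.Agent.Helper9K9.ZY.Rk
import Pool.Agent.Helper9K9.ZU.Mono
import Pool.Agent.Helper9K9.ZU.Tan

/-!
[REP] representatives of the isogeny classes.
-/

set_option autoImplicit false

open MvPolynomial

open Pool.Agent.Helper9K9.ZU (td)

namespace Pool.Agent.Helper9K9.ZY

namespace RepL

open ZU in
/-- the transcendence degree of a tuple which is algebraic over a part of it -/
theorem td_le_of_alg {K : Type} [Field K] (i : ℂ →+* K) {I J : Type} [Fintype I] [Fintype J]
    (ζ : I → K) (s : J → I) (h : letI := i.toAlgebra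
      ∀ p, IsAlgebraic (Algebra.adjoin ℂ (Set.range fun a => ζ (s a))) (ζ p)) :
    td i ζ ≤ td i (fun a => ζ (s a)) := by
  classical
  letI := i.toAlgebra
  let M := AlgebraicIndependent.matroid ℂ K
  obtain ⟨Y, hY⟩ := M.exists_isBasis (Set.range fun a => ζ (s a)) (by simp [M])
  have hYf : Y.Finite := (Set.finite_range _).subset hY.subset
  have hYtd : Y.ncard ≤ td i (fun a => ζ (s a)) := by
    haveI : Finite Y := hYf.to_subtype
    let e := (Finite.equivFin Y).symm
    have hc : Nat.card Y = Y.ncard := rfl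
    choose r hr using fun v : Y => hY.subset v.2
    have h1 : Indep i (fun j => ζ (s (r (e j)))) := by
      rw [MonoL.indep_iff]
      have h2 : AlgebraicIndependent ℂ (fun v : Y => (v : K)) := hY.indep
      have h3 := h2.comp e e.injective
      have h4 : (fun j => ζ (s (r (e j)))) = (fun v : Y => (v : K)) ∘ e := by
        funext j
        rw [Function.comp_apply]
        exact hr (e j)
      rw [h4]
      exact h3
    exact TanL.le_td (y := fun a => ζ (s a)) (s := fun j => r (e j)) h1
  obtain ⟨t, ht⟩ := TanL.exists_td i.injective ζ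
  have hinj := TanL.inj_of_indep ht
  have h1 : M.Indep (Set.range fun j => ζ (t j)) := by
    rw [MonoL.indep_iff] at ht
    exact ht.to_subtype_range
  have h2 : (Set.range fun j => ζ (t j)) ⊆ M.closure (Set.range fun a => ζ (s a)) := by
    rintro _ ⟨j, rfl⟩
    change ζ (t j) ∈ (AlgebraicIndependent.matroid ℂ K).closure _
    rw [AlgebraicIndependent.matroid_closure_eq, SetLike.mem_coe, Subalgebra.mem_algebraicClosure]
    exact h (t j)
  have h3 := h1.encard_le_eRk_of_subset h2
  rw [M.eRk_closure_eq, ← hY.encard_eq_eRk, ← hYf.cast_ncard_eq,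
    ← (Set.finite_range _).cast_ncard_eq] at h3
  have h4 : (Set.range fun j => ζ (t j)).ncard = td i ζ := by
    rw [← Set.image_univ, Set.ncard_image_of_injective _ hinj, Set.ncard_univ, Nat.card_fin]
  rw [h4] at h3
  have h5 : td i ζ ≤ Y.ncard := by exact_mod_cast h3
  exact h5.trans hYtd

end RepL

open RepL RkL in
theorem rep (hE : S_EQ) (hA : S_ALG) : S_REP := by
  classical
  intro C K _ i I _ z
  obtain ⟨s, hs⟩ := exists_rk hE (C := C) (i := i) z
  refine ⟨s, hs.1, hs.2, ?_⟩
  intro K' _ i' ζ hsp
  refine td_le_of_alg i' ζ s ?_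
  letI := i'.toAlgebra
  intro p
  rcases maximal hE hs p with h | ⟨a, h⟩
  · obtain ⟨c, -, hc⟩ := SpzL.sg (C := C) hsp h
    have h1 : ζ p = algebraMap (Algebra.adjoin ℂ (Set.range fun a => ζ (s a))) K'
        (algebraMap ℂ _ c) := by
      rw [← hc]
      rfl
    rw [h1]
    exact isAlgebraic_algebraMap _
  · have h1 := hA C K' i' (ζ p) (ζ (s a)) (SpzL.iso hsp h)
    refine IsAlgebraic.tower_top_of_subalgebra_le (Algebra.adjoin_mono ?_) h1
    rintro _ rfl
    exact ⟨a, rfl⟩

end Pool.Agent.Helper9K9.ZY
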