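import Pool.Agent.Helper9K9.ZY.Stm

/-!
Basic facts about the number of isogeny classes.
-/

set_option autoImplicit false

open MvPolynomial

namespace Pool.Agent.Helper9K9.ZY

namespace RkL

variable {C : Corr} {K : Type} [Field K] {i : ℂ →+* K} {I : Type}

/-- a family of nonspecial, pairwise nonisogenous elements -/
def Fam (C : Corr) {K : Type} [Field K] (i : ℂ →+* K) {I : Type} (γ : I → K) {J : Type}
    (s : J → I) : Prop :=
  (∀ a, ¬ Sg C i (γ (s a))) ∧ ∀ a b, a ≠ b → ¬ Iso C i (γ (s a)) (γ (s b))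

theorem fam_inj (hE : S_EQ) {γ : I → K} {J : Type} {s : J → I} (h : Fam C i γ s) :
    Function.Injective s := by
  intro a b hab
  by_contra hne
  apply h.2 a b hne
  rw [hab]
  exact (hE C K i).1 _

theorem bdd (hE : S_EQ) [Fintype I] (γ : I → K) :
    BddAbove {d : ℕ | ∃ s : Fin d → I, (∀ a, ¬ Sg C i (γ (s a))) ∧
      ∀ a b, a ≠ b → ¬ Iso C i (γ (s a)) (γ (s b))} := by
  refine ⟨Fintype.card I, ?_⟩
  rintro d ⟨s, hs⟩
  have h1 := Fintype.card_le_of_injective s (fam_inj hE hs)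
  rwa [Fintype.card_fin] at h1

theorem le_rk (hE : S_EQ) [Fintype I] {γ : I → K} {d : ℕ} {s : Fin d → I} (h : Fam C i γ s) :
    d ≤ rk C i γ := le_csSup (bdd hE γ) ⟨s, h⟩

theorem fam_comp {γ : I → K} {J J' : Type} {s : J → I} (h : Fam C i γ s) {t : J' → J}
    (ht : Function.Injective t) : Fam C i γ (fun a => s (t a)) :=
  ⟨fun a => h.1 _, fun a b hab => h.2 _ _ (fun h' => hab (ht h'))⟩

theorem le_rk' (hE : S_EQ) [Fintype I] {γ : I → K} {J : Type} [Fintype J] {s : J → I}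
    (h : Fam C i γ s) : Fintype.card J ≤ rk C i γ :=
  le_rk hE (fam_comp h (Fintype.equivFin J).symm.injective)

theorem exists_rk (hE : S_EQ) [Fintype I] (γ : I → K) :
    ∃ s : Fin (rk C i γ) → I, Fam C i γ s :=
  Nat.sSup_mem (s := {d : ℕ | ∃ s : Fin d → I, (∀ a, ¬ Sg C i (γ (s a))) ∧
      ∀ a b, a ≠ b → ¬ Iso C i (γ (s a)) (γ (s b))})
    ⟨0, fun j => j.elim0, fun j => j.elim0, fun j => j.elim0⟩ (bdd hE γ)

/-- every other element is special or isogenous to an element of the family -/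
theorem maximal (hE : S_EQ) [Fintype I] {γ : I → K} {s : Fin (rk C i γ) → I}
    (h : Fam C i γ s) (p : I) : Sg C i (γ p) ∨ ∃ a, Iso C i (γ p) (γ (s a)) := by
  by_contra hcon
  push Not at hcon
  obtain ⟨h1, h2⟩ := hcon
  have h3 : Fam C i γ (fun o : Option (Fin (rk C i γ)) => o.elim p s) := by
    constructor
    · rintro (_ | a)
      · exact h1
      · exact h.1 a
    · rintro (_ | a) (_ | b) hab
      · exact absurd rfl hab
      · exact h2 b
      · intro h4
        exact h2 a ((hE C K i).2.1 _ _ h4)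
      · exact h.2 a b (fun h4 => hab (by rw [h4]))
  have h4 := le_rk' hE h3
  rw [Fintype.card_option, Fintype.card_fin] at h4
  omega

end RkL

namespace SpzL

variable {C : Corr} {K K' : Type} [Field K] [Field K'] {i : ℂ →+* K} {i' : ℂ →+* K'} {I : Type}
  {z : I → K} {ζ : I → K'}

theorem comp (h : Spz i i' z ζ) {J : Type} (τ : J → I) :
    Spz i i' (fun a => z (τ a)) (fun a => ζ (τ a)) := by
  intro f hf
  have h1 := h (rename τ f) (by rw [eval₂_rename]; exact hf)
  rw [eval₂_rename] at h1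
  exact h1

theorem pair (h : Spz i i' z ζ) (a b : I) : Spz i i' ![z a, z b] ![ζ a, ζ b] := by
  have h1 := comp h ![a, b]
  have h2 : (fun c => z ((![a, b] : Fin 2 → I) c)) = ![z a, z b] := by
    funext c
    fin_cases c <;> rfl
  have h3 : (fun c => ζ ((![a, b] : Fin 2 → I) c)) = ![ζ a, ζ b] := by
    funext c
    fin_cases c <;> rfl
  rw [h2, h3] at h1
  exact h1

theorem iso (h : Spz i i' z ζ) {a b : I} (hi : Iso C i (z a) (z b)) : Iso C i' (ζ a) (ζ b) := by
  obtain ⟨N, hN, hR⟩ := hi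
  exact ⟨N, hN, pair h a b _ hR⟩

theorem sg (h : Spz i i' z ζ) {a : I} (hi : Sg C i (z a)) : Sg C i' (ζ a) := by
  obtain ⟨s, hs, hs'⟩ := hi
  refine ⟨s, hs, ?_⟩
  have h1 := h (X a - MvPolynomial.C s) (by
    rw [eval₂_sub, eval₂_X, eval₂_C, hs', sub_self])
  rw [eval₂_sub, eval₂_X, eval₂_C, sub_eq_zero] at h1
  exact h1.symm

end SpzL

end Pool.Agent.Helper9K9.ZY
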