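import Pool.Agent.Helper9K9.ZY.Stm

/-!
[TR], [EQ], [ALG] (helper12)
-/

set_option autoImplicit false

open MvPolynomial

namespace Pool.Agent.Helper9K9.ZY

open Pool.Agent.Helper9K9.ZU (Indep td)

/-- [TR] -/
theorem tr : S_TR := by
  intro I _ S g h K _ i x hx
  have h1 : g ∈ (Ideal.span S).radical := by
    rw [← vanishingIdeal_zeroLocus_eq_radical (K := ℂ)]
    rw [mem_vanishingIdeal_iff]
    intro a ha
    rw [mem_zeroLocus_iff] at ha
    have := h a fun f hf => by
      have := ha f (Ideal.subset_span hf)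
      rwa [aeval_def, Algebra.algebraMap_self, eval₂_id] at this
    rwa [aeval_def, Algebra.algebraMap_self, eval₂_id]
  obtain ⟨n, hn⟩ := h1
  have h2 : Ideal.span S ≤ RingHom.ker (eval₂Hom i x) :=
    Ideal.span_le.2 fun f hf => hx f hf
  have h3 : eval₂ i x (g ^ n) = 0 := h2 hn
  rw [eval₂_pow] at h3
  exact eq_zero_of_pow_eq_zero h3

namespace TrL

/-- the equation of the correspondence in variables `a`, `b` -/
noncomputable def rn {n : ℕ} (C : Corr) (N : ℕ) (a b : Fin n) : MvPolynomial (Fin n) ℂ :=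
  rename ![a, b] (C.Ψ N)

theorem comp_vec {n : ℕ} {A : Type} (x : Fin n → A) (a b : Fin n) :
    x ∘ ![a, b] = ![x a, x b] := by
  funext j
  fin_cases j <;> rfl

theorem eval_rn {n : ℕ} (C : Corr) (N : ℕ) (a b : Fin n) (x : Fin n → ℂ) :
    eval x (rn C N a b) = eval ![x a, x b] (C.Ψ N) := by
  rw [rn, eval_rename, comp_vec]

theorem eval₂_rn {n : ℕ} {K : Type} [Field K] (i : ℂ →+* K) (C : Corr) (N : ℕ) (a b : Fin n)
    (x : Fin n → K) : eval₂ i x (rn C N a b) = eval₂ i ![x a, x b] (C.Ψ N) := by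
  rw [rn, eval₂_rename, comp_vec]

/-- the equation as a polynomial in the first variable -/
noncomputable def pol {A : Type} [CommRing A] (C : Corr) (φ : ℂ →+* A) (y : A) (N : ℕ) :
    Polynomial A :=
  eval₂ (Polynomial.C.comp φ) ![Polynomial.X, Polynomial.C y] (C.Ψ N)

theorem pol_ne {A : Type} [CommRing A] [Nontrivial A] (C : Corr) (φ : ℂ →+* A) (y : A) {N : ℕ}
    (hN : 0 < N) : pol C φ y N ≠ 0 := by
  classical
  obtain ⟨d, h1, h2⟩ := C.monic N hN
  intro h
  have h3 : (pol C φ y N).coeff d = 1 := by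
    rw [pol, eval₂_eq', Polynomial.finset_sum_coeff, Finset.sum_eq_single (Finsupp.single 0 d)]
    · rw [h1]
      simp [Fin.prod_univ_two]
    · intro m hm hne
      have h4 := h2 m hm hne
      simp only [RingHom.comp_apply, Fin.prod_univ_two, Matrix.cons_val_zero, Matrix.cons_val_one]
      rw [← Polynomial.C_pow, mul_left_comm, ← Polynomial.C_mul, mul_comm, Polynomial.coeff_C_mul,
        Polynomial.coeff_X_pow, if_neg (by omega), mul_zero]
    · intro hm
      rw [notMem_support_iff.1 hm] at h1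
      exact absurd h1 zero_ne_one
  rw [h, Polynomial.coeff_zero] at h3
  exact zero_ne_one h3

theorem eval₂_pol {A B : Type} [CommRing A] [CommRing B] (C : Corr) (φ : ℂ →+* A) (y : A) (N : ℕ)
    (ψ : A →+* B) (x : B) :
    Polynomial.eval₂ ψ x (pol C φ y N) = eval₂ (ψ.comp φ) ![x, ψ y] (C.Ψ N) := by
  rw [pol, ← Polynomial.coe_eval₂RingHom, ← coe_eval₂Hom]
  have h : (Polynomial.eval₂RingHom ψ x).comp (eval₂Hom (Polynomial.C.comp φ)
      ![Polynomial.X, Polynomial.C y]) = eval₂Hom (ψ.comp φ) ![x, ψ y] := by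
    apply MvPolynomial.ringHom_ext
    · intro r
      simp
    · intro j
      fin_cases j <;> simp
  exact RingHom.congr_fun h (C.Ψ N)

end TrL

open TrL

/-- [EQ] -/
theorem eq_leaf : S_EQ := by
  intro C K _ i
  refine ⟨fun x => ⟨1, one_pos, ?_⟩, ?_, ?_, ?_⟩
  · have := tr (Fin 1) ∅ (rn C 1 0 0) (fun a _ => by rw [eval_rn]; exact C.refl _) K i (fun _ => x)
      (fun f hf => absurd hf (Set.notMem_empty f))
    rwa [eval₂_rn] at this
  · rintro x y ⟨N, hN, h⟩
    refine ⟨N, hN, ?_⟩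
    have := tr (Fin 2) {rn C N 0 1} (rn C N 1 0) (fun a ha => by
      have h1 := ha _ rfl
      rw [eval_rn] at h1 ⊢
      exact C.symm N hN _ _ h1) K i ![x, y] (fun f hf => by
        rw [Set.mem_singleton_iff.1 hf, eval₂_rn]
        exact h)
    rwa [eval₂_rn] at this
  · rintro x y z ⟨N, hN, h⟩ ⟨M, hM, h'⟩
    refine ⟨N * M, Nat.mul_pos hN hM, ?_⟩
    have := tr (Fin 3) {rn C N 0 1, rn C M 1 2} (rn C (N * M) 0 2) (fun a ha => by
      have h1 := ha _ (Or.inl rfl)
      have h2 := ha _ (Or.inr rfl)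
      rw [eval_rn] at h1 h2 ⊢
      exact C.trans N M hN hM _ _ _ h1 h2) K i ![x, y, z] (fun f hf => by
        rcases hf with rfl | hf
        · rw [eval₂_rn]
          exact h
        · rw [Set.mem_singleton_iff.1 hf, eval₂_rn]
          exact h')
    rwa [eval₂_rn] at this
  · rintro x y ⟨N, hN, h⟩ ⟨s, hs, rfl⟩
    -- the polynomial over the complex numbers
    set p : Polynomial ℂ := pol C (RingHom.id ℂ) s N with hp
    have hp0 : p ≠ 0 := pol_ne C _ s hN
    have h1 : Polynomial.eval₂ i x p = 0 := by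
      rw [hp, eval₂_pol]
      exact h
    obtain ⟨a, ha, hx⟩ : ∃ a : ℂ, Polynomial.eval a p = 0 ∧ i a = x := by
      have hsp := IsAlgClosed.splits p
      have h2 := hsp.eq_prod_roots
      rw [h2, Polynomial.eval₂_mul, Polynomial.eval₂_C, mul_eq_zero] at h1
      rcases h1 with h1 | h1
      · rw [map_eq_zero, Polynomial.leadingCoeff_eq_zero] at h1
        exact absurd h1 hp0
      · rw [← Polynomial.coe_eval₂RingHom, map_multiset_prod, Multiset.prod_eq_zero_iff,
          Multiset.mem_map] at h1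
        obtain ⟨q, hq, hq0⟩ := h1
        rw [Multiset.mem_map] at hq
        obtain ⟨a, ha, rfl⟩ := hq
        refine ⟨a, (Polynomial.mem_roots hp0).1 ha, ?_⟩
        rw [Polynomial.coe_eval₂RingHom, Polynomial.eval₂_sub, Polynomial.eval₂_X,
          Polynomial.eval₂_C, sub_eq_zero] at hq0
        exact hq0.symm
    refine ⟨a, ?_, hx⟩
    refine C.sat N hN a s ?_ hs
    have h3 := eval₂_pol C (RingHom.id ℂ) s N (RingHom.id ℂ) a
    rw [Polynomial.eval₂_id, ← hp, ha] at h3
    rw [← eval₂_id]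
    exact h3.symm

/-- [ALG] -/
theorem alg : S_ALG := by
  intro C K _ i x y ⟨N, hN, h⟩
  letI : Algebra ℂ K := i.toAlgebra
  set A := Algebra.adjoin ℂ ({y} : Set K) with hA
  have hy : y ∈ A := Algebra.subset_adjoin rfl
  refine ⟨pol C (algebraMap ℂ A) ⟨y, hy⟩ N, pol_ne C _ _ hN, ?_⟩
  rw [Polynomial.aeval_def, eval₂_pol]
  exact h

end Pool.Agent.Helper9K9.ZY
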