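import Pool.Agent.Helper9K9.ZY.Geo3
import Pool.Agent.Helper9K9.ZY.GeoBasic
import Pool.Agent.Helper9K9.ZY.Aff
import Pool.Agent.Helper9K9.ZY.Rk
import Pool.Agent.Helper9K9.ZY.Tr
import Pool.Agent.Helper9K9.ZY.Rep
import Pool.Agent.Helper9K9.ZY.Spt

/-!
Assemblies: the dimension of the components of the subsets cut out by modular equations; the
special subvariety of all relations of a point.
-/

set_option autoImplicit false

open MvPolynomial

namespace Pool.Agent.Helper9K9.ZY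

open Pool.Agent.Helper9K9.ZU (Indep td td_le_card le_td)

namespace KeyL

theorem eval₂_pair {K : Type} [Field K] (i : ℂ →+* K) {ι : Type} (t : ι → K) (a b : ι)
    (f : MvPolynomial (Fin 2) ℂ) :
    eval₂ i t (rename ![a, b] f) = eval₂ i ![t a, t b] f := by
  rw [eval₂_rename]
  congr 1
  funext u
  fin_cases u <;> rfl

theorem eval_pair {ι : Type} (t : ι → ℂ) (a b : ι) (f : MvPolynomial (Fin 2) ℂ) :
    eval t (rename ![a, b] f) = eval ![t a, t b] f := by
  rw [eval_rename]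
  have h : t ∘ ![a, b] = ![t a, t b] := by
    funext u
    fin_cases u <;> rfl
  rw [h]

theorem eval₂_const {K : Type} [Field K] (i : ℂ →+* K) (a b : ℂ) (f : MvPolynomial (Fin 2) ℂ) :
    eval₂ i ![i a, i b] f = i (eval ![a, b] f) := by
  have h := eval₂_comp_left i (RingHom.id ℂ) ![a, b] f
  rw [RingHom.comp_id, eval₂_id] at h
  rw [h]
  congr 1
  funext u
  fin_cases u <;> rfl

end KeyL

open KeyL

theorem key (Φ : ℕ → MvPolynomial (Fin 2) ℂ) (hΦ : IsPhi Φ) (pis : S_PIS) (uni : S_UNI)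
    (lift : S_LIFT) (rep : S_REP) : S_KEY := by
  intro Co hCo ι _ T K _ i t hT hgen
  classical
  obtain ⟨E, hE, hcomp⟩ := hT
  obtain ⟨s, hs1, hs2, hs3⟩ := rep Co K i ι t
  have hfam : RkL.Fam Co i t s := ⟨hs1, hs2⟩
  obtain ⟨-, hsymm, htrans, hsat⟩ := eq_leaf Co K i
  have hmax : ∀ p, ¬ Sg Co i (t p) → ∃ a, Iso Co i (t p) (t (s a)) := fun p hp =>
    (RkL.maximal eq_leaf hfam p).resolve_left hp
  have hc : ∀ p, ∃ c : Option (Fin (rk Co i t)), (c = none → Sg Co i (t p)) ∧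
      ∀ l, c = some l → ¬ Sg Co i (t p) ∧ Iso Co i (t p) (t (s l)) := by
    intro p
    by_cases h : Sg Co i (t p)
    · exact ⟨none, fun _ => h, fun l hl => (by cases hl)⟩
    · obtain ⟨a, ha⟩ := hmax p h
      refine ⟨some a, fun h' => (by cases h'), fun l hl => ?_⟩
      obtain rfl := Option.some.inj hl
      exact ⟨h, ha⟩
  choose c hcn hcs using hc
  have hcs' : ∀ a, c (s a) = some a := by
    intro a
    rcases hca : c (s a) with _ | b
    · exact absurd (hcn _ hca) (hs1 a)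
    · congr 1
      by_contra hne
      exact hs2 a b (fun h => hne h.symm) (hcs _ _ hca).2
  have hN : ∀ p, ∃ N, ∀ l, c p = some l → 0 < N ∧ R Co i N (t p) (t (s l)) := by
    intro p
    rcases hcp : c p with _ | l
    · exact ⟨1, fun l hl => by cases hl⟩
    · obtain ⟨N, hN, hR⟩ := (hcs p l hcp).2
      refine ⟨N, fun l' hl' => ?_⟩
      obtain rfl := Option.some.inj hl'
      exact ⟨hN, hR⟩
  choose N hN using hN
  obtain ⟨L, _, i', u, hsp, hind, hconst, hrel⟩ := lift K i ι t _ s c (fun p => Co.Ψ (N p)) hcs'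
    (fun a ha => by
      obtain ⟨b, -, hb⟩ := hcn a ha
      exact ⟨b, hb⟩)
    (fun a l hal _ => ⟨(hN a l hal).2, Co.monic _ (hN a l hal).1⟩)
  obtain ⟨hrefl', hsymm', htrans', -⟩ := eq_leaf Co L i'
  have hiso : ∀ a l, c a = some l → Iso Co i' (u a) (u (s l)) := by
    intro a l hal
    by_cases h : a = s l
    · rw [h]
      exact hrefl' _
    · exact ⟨N a, (hN a l hal).1, hrel a l hal h⟩
  obtain ⟨hBirr, hBgen⟩ := loc ι L i' u
  have hTB : T ⊆ zeros {f | eval₂ i' u f = 0} := by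
    intro x hx f hf
    have h1 : f ∈ idealOf T := (hgen f).2 (hsp f hf)
    exact mem_idealOf.1 h1 x hx
  have hBE : zeros {f | eval₂ i' u f = 0} ⊆ cut E := by
    rintro x hx ⟨M, a, b⟩ he
    have hM : 0 < M := hE _ he
    change Phi M (x a) (x b)
    rw [← hΦ M hM, ← eval_pair]
    refine hx _ ?_
    change eval₂ i' u (rename ![a, b] (Φ M)) = 0
    rw [eval₂_pair]
    have h1 : eval₂ i ![t a, t b] (Φ M) = 0 := by
      rw [← eval₂_pair]
      refine (hgen _).1 ?_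
      rw [mem_idealOf]
      intro y hy
      rw [eval_pair, hΦ M hM]
      exact hcomp.2.1 hy _ he
    have h2 : Iso Co i (t a) (t b) := (pis Co hCo Φ hΦ K i _ _).2 ⟨M, hM, h1⟩
    by_cases hb : Sg Co i (t b)
    · have ha : Sg Co i (t a) := hsat _ _ h2 hb
      have hca : c a = none := by
        rcases hca : c a with _ | l
        · rfl
        · exact absurd ha (hcs _ _ hca).1
      have hcb : c b = none := by
        rcases hcb : c b with _ | l
        · rfl
        · exact absurd hb (hcs _ _ hcb).1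
      obtain ⟨a', ha1, ha2⟩ := hconst a hca
      obtain ⟨b', hb1, hb2⟩ := hconst b hcb
      rw [← ha2, ← hb2, eval₂_const, map_eq_zero] at h1
      rw [← ha1, ← hb1, eval₂_const, h1, map_zero]
    · have ha : ¬ Sg Co i (t a) := fun h => hb (hsat _ _ (hsymm _ _ h2) h)
      rcases hca : c a with _ | l
      · exact absurd (hcn _ hca) ha
      rcases hcb : c b with _ | l'
      · exact absurd (hcn _ hcb) hb
      have hll : l = l' := by
        by_contra hne
        exact hs2 l l' hne (htrans _ _ _ (hsymm _ _ (hcs _ _ hca).2)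
          (htrans _ _ _ h2 (hcs _ _ hcb).2))
      subst hll
      have h3 : Iso Co i' (u a) (u b) := htrans' _ _ _ (hiso a l hca) (hsymm' _ _ (hiso b l hcb))
      obtain ⟨M', hM', h4⟩ := (pis Co hCo Φ hΦ L i' _ _).1 h3
      have h5 := SpzL.pair hsp a b _ h4
      have h6 := uni Co hCo Φ hΦ K i _ _ hb M' M hM' hM h5 h1
      rw [← h6]
      exact h4
  have hB := hcomp.2.2 _ hBirr hTB hBE
  have h1 : td i t = td i' u := by
    rw [← dim ι T K i t hgen, ← dim ι _ L i' u hBgen, hB]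
  have h2 : rk Co i t ≤ td i' u := le_td (s := s) hind
  have h3 := hs3 K i t (fun f hf => hf)
  have h4 := td_le_card i (fun a => t (s a))
  rw [Fintype.card_fin] at h4
  omega

/-- the set cut out by modular equations is closed -/
theorem cut_eq {ι : Type} (Φ : ℕ → MvPolynomial (Fin 2) ℂ) (hΦ : IsPhi Φ)
    (E : Finset (ℕ × ι × ι)) (hE : ∀ e ∈ E, 1 ≤ e.1) :
    cut E = zeros ((fun e : ℕ × ι × ι => rename ![e.2.1, e.2.2] (Φ e.1)) '' (E : Set _)) := by
  ext x
  constructor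
  · rintro h _ ⟨e, he, rfl⟩
    rw [eval_pair, hΦ _ (hE e he)]
    exact h e he
  · intro h e he
    rw [← hΦ _ (hE e he), ← eval_pair]
    exact h _ ⟨e, he, rfl⟩

theorem rk_spz (spec : S_SPEC) (C : Corr) {K K' : Type} [Field K] [Field K'] {i : ℂ →+* K}
    {i' : ℂ →+* K'} {ι : Type} [Fintype ι] {z : ι → K} {ζ : ι → K'} (h : Spz i i' z ζ) :
    rk C i' ζ ≤ rk C i z := by
  have h1 := spec C K K' i i' (Fin 0) ι z ζ Fin.elim0 h
  have h2 : rk C i' (fun a : Fin 0 => ζ (Fin.elim0 a)) ≤ 0 := by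
    unfold rk
    refine csSup_le' ?_
    rintro d ⟨s, -⟩
    by_contra hd
    exact (s ⟨0, by omega⟩).elim0
  omega

theorem tor3 (Φ : ℕ → MvPolynomial (Fin 2) ℂ) (hΦ : IsPhi Φ) (pis : S_PIS) (uni : S_UNI)
    (cmn : S_CMN) (lift : S_LIFT) (rep : S_REP) (spec : S_SPEC) : S_TOR3 := by
  intro Co hCo ι _ A K _ i x hx
  classical
  have hkey := key Φ hΦ pis uni lift rep Co hCo ι
  have hlow : ∀ T : Set (ι → ℂ), IsSpec T → A ⊆ T → rk Co i x ≤ dimI T := by
    intro T hT hAT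
    have hTirr : IsIrr T := by
      obtain ⟨_, _, h⟩ := hT
      exact h.1
    obtain ⟨K', _, i', t, ht⟩ := gen ι T hTirr
    rw [dim ι T K' i' t ht, hkey T K' i' t hT ht]
    exact rk_spz spec Co fun f hf => (hx f).1 (idealOf_anti hAT ((ht f).2 hf))
  refine ⟨?_, hlow⟩
  -- the equations
  have hp : ∀ p : ι × ι, ∃ N, 1 ≤ N ∧ (Iso Co i (x p.1) (x p.2) →
      eval₂ i ![x p.1, x p.2] (Φ N) = 0) := by
    intro p
    by_cases h : Iso Co i (x p.1) (x p.2)
    · obtain ⟨N, hN, h1⟩ := (pis Co hCo Φ hΦ K i _ _).1 h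
      exact ⟨N, hN, fun _ => h1⟩
    · exact ⟨1, le_rfl, fun h' => absurd h' h⟩
  have hq : ∀ a : ι, ∃ N, 2 ≤ N ∧ (Sg Co i (x a) → eval₂ i ![x a, x a] (Φ N) = 0) := by
    intro a
    by_cases h : Sg Co i (x a)
    · obtain ⟨N, hN, h1⟩ := (cmn Co hCo Φ hΦ K i _).1 h
      exact ⟨N, hN, fun _ => h1⟩
    · exact ⟨2, le_rfl, fun h' => absurd h' h⟩
  choose N hN1 hN2 using hp
  choose M hM1 hM2 using hq
  let E1 : Finset (ℕ × ι × ι) := (Finset.univ.filter fun p : ι × ι =>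
    Iso Co i (x p.1) (x p.2)).image fun p => (N p, p.1, p.2)
  let E2 : Finset (ℕ × ι × ι) := (Finset.univ.filter fun a : ι => Sg Co i (x a)).image
    fun a => (M a, a, a)
  let E := E1 ∪ E2
  have hE : ∀ e ∈ E, 1 ≤ e.1 := by
    intro e he
    rcases Finset.mem_union.1 he with he | he
    · obtain ⟨p, -, rfl⟩ := Finset.mem_image.1 he
      exact hN1 p
    · obtain ⟨a, -, rfl⟩ := Finset.mem_image.1 he
      exact le_trans one_le_two (hM1 a)
  have hE' : ∀ e ∈ E, eval₂ i ![x e.2.1, x e.2.2] (Φ e.1) = 0 := by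
    intro e he
    rcases Finset.mem_union.1 he with he | he
    · obtain ⟨p, hp, rfl⟩ := Finset.mem_image.1 he
      exact hN2 p (Finset.mem_filter.1 hp).2
    · obtain ⟨a, ha, rfl⟩ := Finset.mem_image.1 he
      exact hM2 a (Finset.mem_filter.1 ha).2
  obtain ⟨hA', hAg⟩ := loc ι K i x
  have hAA : A ⊆ zeros {f | eval₂ i x f = 0} := fun y hy f hf =>
    mem_idealOf.1 ((hx f).2 hf) y hy
  have hAE : zeros {f | eval₂ i x f = 0} ⊆ zeros
      ((fun e : ℕ × ι × ι => rename ![e.2.1, e.2.2] (Φ e.1)) '' (E : Set _)) := by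
    rintro y hy _ ⟨e, he, rfl⟩
    refine hy _ ?_
    change eval₂ i x (rename ![e.2.1, e.2.2] (Φ e.1)) = 0
    rw [eval₂_pair]
    exact hE' e he
  obtain ⟨T, hT, hAT⟩ := (comp ι _).2 _ hA' hAE
  rw [← cut_eq Φ hΦ E hE] at hT
  have hTs : IsSpec T := ⟨E, hE, hT⟩
  refine ⟨T, hTs, ?_, hAA.trans hAT⟩
  obtain ⟨K', _, i', t, ht⟩ := gen ι T hT.1
  refine le_antisymm ?_ (hlow T hTs (hAA.trans hAT))
  rw [dim ι T K' i' t ht, hkey T K' i' t hTs ht]
  obtain ⟨s, hs⟩ := RkL.exists_rk (C := Co) (i := i') eq_leaf t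
  have hTE : ∀ e ∈ E, eval₂ i' ![t e.2.1, t e.2.2] (Φ e.1) = 0 := by
    intro e he
    rw [← eval₂_pair]
    refine (ht _).1 ?_
    rw [mem_idealOf]
    intro y hy
    rw [eval_pair, hΦ _ (hE e he)]
    exact hT.2.1 hy e he
  refine RkL.le_rk eq_leaf (s := s) ⟨fun a h => ?_, fun a b hab h => ?_⟩
  · refine hs.1 a ((cmn Co hCo Φ hΦ K' i' _).2 ⟨M (s a), hM1 _, ?_⟩)
    exact hTE (M (s a), s a, s a) (Finset.mem_union_right _ (Finset.mem_image.2
      ⟨s a, Finset.mem_filter.2 ⟨Finset.mem_univ _, h⟩, rfl⟩))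
  · refine hs.2 a b hab ((pis Co hCo Φ hΦ K' i' _ _).2 ⟨N (s a, s b), hN1 _, ?_⟩)
    exact hTE (N (s a, s b), s a, s b) (Finset.mem_union_left _ (Finset.mem_image.2
      ⟨(s a, s b), Finset.mem_filter.2 ⟨Finset.mem_univ _, h⟩, rfl⟩))

end Pool.Agent.Helper9K9.ZY
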