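import Mathlib

/-!
[LAT] Lattices with the same invariants `G 4`, `G 6` are equal.
-/

set_option autoImplicit false

open Filter Topology

namespace Pool.Agent.Helper9K9.ZY.LatL

open PeriodPair

theorem eq_except (L : PeriodPair) (z : ℂ) : ℘[L] z = L.weierstrassPExcept 0 z + 1 / z ^ 2 := by
  have := L.weierstrassPExcept_add 0 z
  simp only [ZeroMemClass.coe_zero, sub_zero] at this
  rw [← this]
  simp

theorem deriv_eq_except (L : PeriodPair) (z : ℂ) : ℘'[L] z = L.derivWeierstrassPExcept 0 z - 2 / z ^ 3 := by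
  have := L.derivWeierstrassPExcept_sub 0 z
  simp only [ZeroMemClass.coe_zero, sub_zero] at this
  rw [← this]

theorem ev_notMem (L : PeriodPair) (x : ℂ) : ∀ᶠ z in 𝓝[≠] x, z ∉ L.lattice := by
  have h1 : ((↑L.lattice : Set ℂ) \ {x})ᶜ ∈ 𝓝 x := L.compl_lattice_sdiff_singleton_mem_nhds x
  filter_upwards [mem_nhdsWithin_of_mem_nhds h1, self_mem_nhdsWithin] with z hz hzx hzL
  exact hz ⟨hzL, hzx⟩

/-- The difference of the two functions satisfies a linear equation. -/
theorem ode (L L' : PeriodPair) (h4 : L.G 4 = L'.G 4) (h6 : L.G 6 = L'.G 6) (z : ℂ)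
    (hz : z ∉ L.lattice) (hz' : z ∉ L'.lattice) :
    (℘'[L] z + ℘'[L'] z) * (℘'[L] z - ℘'[L'] z) =
      (4 * (℘[L] z ^ 2 + ℘[L] z * ℘[L'] z + ℘[L'] z ^ 2) - L.g₂) * (℘[L] z - ℘[L'] z) := by
  have h1 := L.derivWeierstrassP_sq z hz
  have h2 := L'.derivWeierstrassP_sq z hz'
  have hg2 : L'.g₂ = L.g₂ := by simp only [PeriodPair.g₂, h4]
  have hg3 : L'.g₃ = L.g₃ := by simp only [PeriodPair.g₃, h6]
  rw [hg2, hg3] at h2
  linear_combination h1 - h2

theorem u_zero (L L' : PeriodPair) (h4 : L.G 4 = L'.G 4) (h6 : L.G 6 = L'.G 6) :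
    ∀ᶠ z in 𝓝 (0 : ℂ), L.weierstrassPExcept 0 z - L'.weierstrassPExcept 0 z = 0 := by
  set u : ℂ → ℂ := fun z => L.weierstrassPExcept 0 z - L'.weierstrassPExcept 0 z with hu
  have hua : AnalyticAt ℂ u 0 := (L.analyticAt_weierstrassPExcept 0).fun_sub
    (L'.analyticAt_weierstrassPExcept 0)
  by_contra hne
  obtain ⟨n, g, hg, hg0, hgu⟩ := (hua.exists_eventuallyEq_pow_smul_nonzero_iff).2 hne
  have hdu : ∀ᶠ z in 𝓝 (0 : ℂ), deriv u z = L.derivWeierstrassPExcept 0 z - L'.derivWeierstrassPExcept 0 z := by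
    have k1 := L.compl_lattice_sdiff_singleton_mem_nhds 0
    have k2 := L'.compl_lattice_sdiff_singleton_mem_nhds 0
    filter_upwards [k1, k2] with z hz hz'
    have d1 : DifferentiableAt ℂ (L.weierstrassPExcept 0) z :=
      (L.analyticOnNhd_weierstrassPExcept 0 z hz).differentiableAt
    have d2 : DifferentiableAt ℂ (L'.weierstrassPExcept 0) z :=
      (L'.analyticOnNhd_weierstrassPExcept 0 z hz').differentiableAt
    have e1 : deriv (L.weierstrassPExcept 0) z = L.derivWeierstrassPExcept 0 z :=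
      L.eqOn_deriv_weierstrassPExcept_derivWeierstrassPExcept 0 hz
    have e2 : deriv (L'.weierstrassPExcept 0) z = L'.derivWeierstrassPExcept 0 z :=
      L'.eqOn_deriv_weierstrassPExcept_derivWeierstrassPExcept 0 hz'
    rw [← e1, ← e2]
    exact deriv_fun_sub d1 d2
  -- the derivative of `z ^ n g`
  have hdg : ∀ᶠ z in 𝓝 (0 : ℂ), z * deriv u z = z ^ n * (n * g z + z * deriv g z) := by
    have h1 : u =ᶠ[𝓝 0] fun z => z ^ n * g z := by
      filter_upwards [hgu] with z hz
      rw [hz, sub_zero, smul_eq_mul]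
    filter_upwards [h1.deriv, hg.eventually_analyticAt] with z hz hgz
    rw [hz, deriv_fun_mul (by fun_prop) hgz.differentiableAt, deriv_pow_field]
    rcases n with _ | n
    · simp
    · simp only [Nat.add_sub_cancel]
      ring
  -- the linear equation near `0`
  set A : ℂ → ℂ := fun z => z ^ 3 * (L.derivWeierstrassPExcept 0 z + L'.derivWeierstrassPExcept 0 z) - 4 with hA
  set B : ℂ → ℂ := fun z => 4 * ((z ^ 2 * L.weierstrassPExcept 0 z + 1) ^ 2 +
    (z ^ 2 * L.weierstrassPExcept 0 z + 1) * (z ^ 2 * L'.weierstrassPExcept 0 z + 1) + (z ^ 2 * L'.weierstrassPExcept 0 z + 1) ^ 2) -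
      L.g₂ * z ^ 4 with hB
  have hlin : ∀ᶠ z in 𝓝[≠] (0 : ℂ), A z * (n * g z + z * deriv g z) = B z * g z := by
    filter_upwards [ev_notMem L 0, ev_notMem L' 0, hdu.filter_mono nhdsWithin_le_nhds,
      hdg.filter_mono nhdsWithin_le_nhds, hgu.filter_mono nhdsWithin_le_nhds,
      self_mem_nhdsWithin] with z h1 h2 h3 h4' h5 h6'
    have hz0 : z ≠ 0 := h6'
    have h7 := ode L L' h4 h6 z h1 h2
    rw [eq_except L, eq_except L', deriv_eq_except L, deriv_eq_except L'] at h7
    rw [sub_zero, smul_eq_mul] at h5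
    have h8 : z ^ n * (A z * (n * g z + z * deriv g z)) = z ^ n * (B z * g z) := by
      have h9 : z ^ n * (A z * (n * g z + z * deriv g z)) = A z * (z * deriv u z) := by
        rw [h4']; ring
      have h10 : z ^ n * (B z * g z) = B z * u z := by rw [h5]; ring
      rw [h9, h10, h3, hA, hB, hu]
      simp only
      have h11 : (1 / z ^ 2) * z ^ 2 = 1 := by field_simp
      have h12 : (2 / z ^ 3) * z ^ 3 = 2 := by field_simp
      generalize (1 / z ^ 2) = a at h7 h11
      generalize (2 / z ^ 3) = b at h7 h12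
      generalize L.weierstrassPExcept 0 z = f at h7 ⊢
      generalize L'.weierstrassPExcept 0 z = f' at h7 ⊢
      generalize L.derivWeierstrassPExcept 0 z = d at h7 ⊢
      generalize L'.derivWeierstrassPExcept 0 z = d' at h7 ⊢
      have h13 : (z ^ 3 * (d + d') - 4) = z ^ 3 * ((d - b) + (d' - b)) := by
        linear_combination 2 * h12
      have h14 : 4 * ((z ^ 2 * f + 1) ^ 2 + (z ^ 2 * f + 1) * (z ^ 2 * f' + 1) +
          (z ^ 2 * f' + 1) ^ 2) - L.g₂ * z ^ 4 =
          z ^ 4 * (4 * ((f + a) ^ 2 + (f + a) * (f' + a) + (f' + a) ^ 2) - L.g₂) := by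
        have k1 : z ^ 2 * f + 1 = z ^ 2 * (f + a) := by linear_combination -h11
        have k2 : z ^ 2 * f' + 1 = z ^ 2 * (f' + a) := by linear_combination -h11
        rw [k1, k2]; ring
      rw [h13, h14]
      linear_combination z ^ 4 * h7
    exact mul_left_cancel₀ (pow_ne_zero n hz0) h8
  have hcA : ContinuousAt A 0 := by
    have h1 := (L.analyticAt_derivWeierstrassPExcept 0).continuousAt
    have h2 := (L'.analyticAt_derivWeierstrassPExcept 0).continuousAt
    fun_prop
  have hcB : ContinuousAt B 0 := by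
    have h1 := (L.analyticAt_weierstrassPExcept 0).continuousAt
    have h2 := (L'.analyticAt_weierstrassPExcept 0).continuousAt
    fun_prop
  have hcg : ContinuousAt g 0 := hg.continuousAt
  have hcg' : ContinuousAt (deriv g) 0 := hg.deriv.continuousAt
  have hl1 : Tendsto (fun z => A z * (n * g z + z * deriv g z)) (𝓝[≠] 0)
      (𝓝 (A 0 * (n * g 0 + 0 * deriv g 0))) := by
    have : ContinuousAt (fun z => A z * (n * g z + z * deriv g z)) 0 := by fun_prop
    exact this.tendsto.mono_left nhdsWithin_le_nhds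
  have hl2 : Tendsto (fun z => B z * g z) (𝓝[≠] 0) (𝓝 (B 0 * g 0)) := by
    have : ContinuousAt (fun z => B z * g z) 0 := by fun_prop
    exact this.tendsto.mono_left nhdsWithin_le_nhds
  have h0 : A 0 * (n * g 0 + 0 * deriv g 0) = B 0 * g 0 :=
    tendsto_nhds_unique (hl1.congr' hlin) hl2
  have h1 : (-4 * (n : ℂ) - 12) * g 0 = 0 := by
    simp only [hA, hB] at h0
    linear_combination h0
  have h2 : (-4 * (n : ℂ) - 12) = 0 := by
    rcases mul_eq_zero.1 h1 with h | h
    · exact h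
    · exact absurd h hg0
  have h3 : ((4 * n + 12 : ℕ) : ℂ) = 0 := by push_cast; linear_combination -h2
  rw [Nat.cast_eq_zero] at h3
  omega


theorem countable (L : PeriodPair) : (L.lattice : Set ℂ).Countable := by
  have : Countable L.lattice := countable_of_Lindelof_of_discrete
  exact Set.countable_coe_iff.1 this

theorem p_eq (L L' : PeriodPair) (h4 : L.G 4 = L'.G 4) (h6 : L.G 6 = L'.G 6) :
    Set.EqOn ℘[L] ℘[L'] ((L.lattice : Set ℂ) ∪ L'.lattice)ᶜ := by
  have hc : ((L.lattice : Set ℂ) ∪ L'.lattice).Countable :=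
    Set.Countable.union (countable L) (countable L')
  have hconn : IsPreconnected ((L.lattice : Set ℂ) ∪ L'.lattice)ᶜ :=
    (hc.isConnected_compl_of_one_lt_rank (by simp)).isPreconnected
  have hev : ∀ᶠ z in 𝓝[≠] (0 : ℂ), z ∈ ((L.lattice : Set ℂ) ∪ L'.lattice)ᶜ ∧
      ∀ᶠ w in 𝓝 z, ℘[L] w = ℘[L'] w := by
    have h1 := (u_zero L L' h4 h6).eventually_nhds.filter_mono
      (nhdsWithin_le_nhds : 𝓝[≠] (0 : ℂ) ≤ 𝓝 0)
    filter_upwards [h1, ev_notMem L 0, ev_notMem L' 0] with z hz k1 k2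
    refine ⟨by simp [k1, k2], ?_⟩
    filter_upwards [hz] with w hw
    rw [eq_except, eq_except]
    linear_combination hw
  obtain ⟨z, hzU, hz⟩ := hev.exists
  have a1 : AnalyticOnNhd ℂ ℘[L] ((L.lattice : Set ℂ) ∪ L'.lattice)ᶜ :=
    L.analyticOnNhd_weierstrassP.mono (by
      intro w hw; simp only [Set.mem_compl_iff, Set.mem_union, not_or] at hw; exact hw.1)
  have a2 : AnalyticOnNhd ℂ ℘[L'] ((L.lattice : Set ℂ) ∪ L'.lattice)ᶜ :=
    L'.analyticOnNhd_weierstrassP.mono (by
      intro w hw; simp only [Set.mem_compl_iff, Set.mem_union, not_or] at hw; exact hw.2)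
  exact a1.eqOn_of_preconnected_of_eventuallyEq a2 hconn hzU hz

theorem lat_le (L L' : PeriodPair) (h4 : L.G 4 = L'.G 4) (h6 : L.G 6 = L'.G 6) :
    L.lattice ≤ L'.lattice := by
  intro l hl
  by_contra hl'
  have h1 : ∀ᶠ z in 𝓝[≠] l, ℘[L] z = ℘[L'] z := by
    filter_upwards [ev_notMem L l, ev_notMem L' l] with z k1 k2
    exact p_eq L L' h4 h6 (by simp [k1, k2])
  have h2 := L.order_weierstrassP l hl
  have h3 : 0 ≤ meromorphicOrderAt ℘[L'] l :=
    (L'.analyticOnNhd_weierstrassP l hl').meromorphicOrderAt_nonneg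
  rw [← meromorphicOrderAt_congr h1, h2] at h3
  exact absurd h3 (by decide)

theorem lat_main (L L' : PeriodPair) (h4 : L.G 4 = L'.G 4) (h6 : L.G 6 = L'.G 6) :
    L.lattice = L'.lattice :=
  le_antisymm (lat_le L L' h4 h6) (lat_le L' L h4.symm h6.symm)

end Pool.Agent.Helper9K9.ZY.LatL
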