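import Pool.Agent.Helper9K9.ZY.Stm4
import Pool.Agent.Helper9K9.ZY.LatA

/-!
[LAT] Lattices with the same invariants `G 4`, `G 6` are equal.
-/

namespace Pool.Agent.Helper9K9.ZY

theorem lat : S_LAT := fun L L' h4 h6 => LatL.lat_main L L' h4 h6

end Pool.Agent.Helper9K9.ZY
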