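import Pool.Agent.Helper9K9.ZY.Geo3
import Pool.Agent.Helper9K9.ZU.Basic

/-!
[LIFT] lifting of a specialization to integral extensions
-/

set_option autoImplicit false

open MvPolynomial

namespace Pool.Agent.Helper9K9.ZY

open Pool.Agent.Helper9K9.ZU (Indep td)

namespace LiftL

/-- extension of homomorphisms to algebraic extensions -/
theorem exists_ext {R C D : Type} [CommRing R] [IsDomain R] [CommRing C] [IsDomain C] [Field D]
    [IsAlgClosed D] (a : R →+* C) (hai : Function.Injective a)
    (ha : @Algebra.IsAlgebraic R C _ _ a.toAlgebra) (f : R →+* D) (hf : Function.Injective f) :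
    ∃ σ : C →+* D, σ.comp a = f := by
  letI := a.toAlgebra
  letI := f.toAlgebra
  haveI : Algebra.IsAlgebraic R C := ha
  haveI : FaithfulSMul R C := (faithfulSMul_iff_algebraMap_injective R C).2 hai
  haveI : FaithfulSMul R D := (faithfulSMul_iff_algebraMap_injective R D).2 hf
  haveI : Module.IsTorsionFree R C := inferInstance
  haveI : Module.IsTorsionFree R D := inferInstance
  refine ⟨((IsAlgClosed.lift : C →ₐ[R] D) : C →+* D), ?_⟩
  exact AlgHom.comp_algebraMap (IsAlgClosed.lift : C →ₐ[R] D)

/-- extension of homomorphisms to integral extensions -/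
theorem exists_ext_int {R B D : Type} [CommRing R] [CommRing B] [Algebra R B]
    [Algebra.IsIntegral R B] (hinj : Function.Injective (algebraMap R B)) [Field D]
    [IsAlgClosed D] (φ : R →+* D) : ∃ θ : B →+* D, θ.comp (algebraMap R B) = φ := by
  haveI hp : (RingHom.ker φ).IsPrime := RingHom.ker_isPrime φ
  obtain ⟨Q, -, hQ, hQp⟩ := Ideal.exists_ideal_over_prime_of_isIntegral (RingHom.ker φ)
    (⊥ : Ideal B) (by
      rw [← RingHom.ker_eq_comap_bot, (RingHom.injective_iff_ker_eq_bot _).1 hinj]
      exact bot_le)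
  let a : R ⧸ RingHom.ker φ →+* B ⧸ Q := Ideal.quotientMap Q (algebraMap R B) hQp.ge
  have hai : Function.Injective a := Ideal.quotientMap_injective' hQp.le
  let f : R ⧸ RingHom.ker φ →+* D := Ideal.Quotient.lift _ φ fun x hx => hx
  have hf : Function.Injective f := RingHom.kerLift_injective φ
  have haa : @Algebra.IsAlgebraic (R ⧸ RingHom.ker φ) (B ⧸ Q) _ _ a.toAlgebra := by
    letI := a.toAlgebra
    haveI : Algebra.IsIntegral (R ⧸ RingHom.ker φ) (B ⧸ Q) := by
      constructor
      intro b
      obtain ⟨b, rfl⟩ := Ideal.Quotient.mk_surjective b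
      obtain ⟨p, hp, hpb⟩ := Algebra.IsIntegral.isIntegral (R := R) b
      refine ⟨p.map (Ideal.Quotient.mk _), hp.map _, ?_⟩
      rw [Polynomial.eval₂_map]
      have h1 : (algebraMap (R ⧸ RingHom.ker φ) (B ⧸ Q)).comp (Ideal.Quotient.mk (RingHom.ker φ)) =
          (Ideal.Quotient.mk Q).comp (algebraMap R B) := by
        refine RingHom.ext fun x => ?_
        exact Ideal.quotientMap_mk (H := hQp.ge) (f := algebraMap R B)
      rw [h1, ← Polynomial.hom_eval₂, hpb, map_zero]
    infer_instance
  obtain ⟨σ, hσ⟩ := exists_ext a hai haa f hf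
  refine ⟨σ.comp (Ideal.Quotient.mk Q), ?_⟩
  refine RingHom.ext fun x => ?_
  have h1 := RingHom.congr_fun hσ (Ideal.Quotient.mk _ x)
  rw [RingHom.comp_apply] at h1
  rw [RingHom.comp_apply, RingHom.comp_apply]
  have h2 : a (Ideal.Quotient.mk _ x) = Ideal.Quotient.mk Q (algebraMap R B x) :=
    Ideal.quotientMap_mk (H := hQp.ge) (f := algebraMap R B)
  rw [h2] at h1
  rw [h1]
  exact Ideal.Quotient.lift_mk _ _ _

/-- the polynomial `P (X, y)` -/
noncomputable def pl {A : Type} [CommRing A] (φ : ℂ →+* A) (y : A) (P : MvPolynomial (Fin 2) ℂ) :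
    Polynomial A :=
  eval₂ (Polynomial.C.comp φ) ![Polynomial.X, Polynomial.C y] P

theorem eval₂_pl {A B : Type} [CommRing A] [CommRing B] (φ : ℂ →+* A) (y : A)
    (P : MvPolynomial (Fin 2) ℂ) (ψ : A →+* B) (x : B) :
    Polynomial.eval₂ ψ x (pl φ y P) = eval₂ (ψ.comp φ) ![x, ψ y] P := by
  rw [pl, ← Polynomial.coe_eval₂RingHom, ← coe_eval₂Hom]
  have h : (Polynomial.eval₂RingHom ψ x).comp (eval₂Hom (Polynomial.C.comp φ)
      ![Polynomial.X, Polynomial.C y]) = eval₂Hom (ψ.comp φ) ![x, ψ y] := by
    apply MvPolynomial.ringHom_ext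
    · intro r
      simp
    · intro j
      fin_cases j <;> simp
  rw [← RingHom.comp_apply, h, coe_eval₂Hom]

theorem pl_monic {A : Type} [CommRing A] [Nontrivial A] (φ : ℂ →+* A) (y : A)
    (P : MvPolynomial (Fin 2) ℂ) {d : ℕ} (h1 : P.coeff (Finsupp.single 0 d) = 1)
    (h2 : ∀ m ∈ P.support, m ≠ Finsupp.single 0 d → m 0 < d) : (pl φ y P).Monic := by
  classical
  have hterm : ∀ m : Fin 2 →₀ ℕ, (Polynomial.C.comp φ) (P.coeff m) *
      ∏ j, (![Polynomial.X, Polynomial.C y] : Fin 2 → Polynomial A) j ^ m j =
      Polynomial.C (φ (P.coeff m) * y ^ m 1) * Polynomial.X ^ m 0 := by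
    intro m
    rw [Fin.prod_univ_two]
    simp only [Matrix.cons_val_zero, Matrix.cons_val_one, RingHom.comp_apply, map_mul, map_pow,
      Matrix.cons_val_fin_one]
    ring
  have hpl : pl φ y P = ∑ m ∈ P.support,
      Polynomial.C (φ (P.coeff m) * y ^ m 1) * Polynomial.X ^ m 0 := by
    rw [pl, eval₂_eq']
    exact Finset.sum_congr rfl fun m _ => hterm m
  have hdeg : (pl φ y P).natDegree ≤ d := by
    rw [hpl]
    refine Polynomial.natDegree_sum_le_of_forall_le _ _ fun m hm => ?_
    refine (Polynomial.natDegree_C_mul_X_pow_le _ _).trans ?_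
    by_cases h : m = Finsupp.single 0 d
    · rw [h]
      simp
    · exact (h2 m hm h).le
  have hco : (pl φ y P).coeff d = 1 := by
    rw [hpl, Polynomial.finsetSum_coeff, Finset.sum_eq_single (Finsupp.single 0 d)]
    · rw [Polynomial.coeff_C_mul, Polynomial.coeff_X_pow]
      simp [h1]
    · intro m hm hne
      rw [Polynomial.coeff_C_mul, Polynomial.coeff_X_pow, if_neg, mul_zero]
      have := h2 m hm hne
      omega
    · intro h
      exfalso
      apply h
      rw [mem_support_iff, h1]
      exact one_ne_zero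
  exact Polynomial.monic_of_natDegree_le_of_coeff_eq_one d hdeg hco

end LiftL

open LiftL

theorem lift : S_LIFT := by
  intro K _ i ι _ t r s c P hcs hconst hP
  classical
  let R0 := MvPolynomial (Fin r) ℂ
  let Ω := AlgebraicClosure (FractionRing R0)
  let B := integralClosure R0 Ω
  let D := AlgebraicClosure K
  let κ : K →+* D := algebraMap K D
  let φ : R0 →+* D := eval₂Hom (κ.comp i) (fun l => κ (t (s l)))
  have hRΩ : Function.Injective (algebraMap R0 Ω) := by
    rw [IsScalarTower.algebraMap_eq R0 (FractionRing R0) Ω]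
    exact (algebraMap (FractionRing R0) Ω).injective.comp (IsFractionRing.injective R0 _)
  have hRB : Function.Injective (algebraMap R0 B) := by
    intro x y hxy
    exact hRΩ (congrArg (algebraMap B Ω) hxy)
  obtain ⟨θ, hθ⟩ := exists_ext_int hRB φ
  -- the coordinates
  let cB : ℂ →+* B := (algebraMap R0 B).comp C
  have hθc : θ.comp cB = κ.comp i := by
    refine RingHom.ext fun b => ?_
    have h1 := RingHom.congr_fun hθ (C b)
    rw [RingHom.comp_apply] at h1
    change θ (algebraMap R0 B (C b)) = _
    rw [h1]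
    exact eval₂_C _ _ _
  have hθX : ∀ l, θ (algebraMap R0 B (X l)) = κ (t (s l)) := by
    intro l
    have h1 := RingHom.congr_fun hθ (X l)
    rw [RingHom.comp_apply] at h1
    rw [h1]
    exact eval₂_X _ _ _
  have hroot : ∀ (p : Polynomial R0) (x : D), p.Monic → Polynomial.eval₂ φ x p = 0 →
      ∃ b : B, Polynomial.eval₂ (algebraMap R0 B) b p = 0 ∧ θ b = x := by
    intro p x hp hx
    let q := p.map (algebraMap R0 Ω)
    have hq : q.Monic := hp.map _
    have hint : ∀ y ∈ q.roots, y ∈ B := by
      intro y hy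
      refine ⟨p, hp, ?_⟩
      rw [Polynomial.mem_roots hq.ne_zero, Polynomial.IsRoot, Polynomial.eval_map] at hy
      exact hy
    let m : Multiset B := q.roots.attach.map fun y => (⟨y.1, hint y.1 y.2⟩ : B)
    have hm : m.map (algebraMap B Ω) = q.roots := by
      rw [Multiset.map_map]
      exact Multiset.attach_map_val _
    have hsplit : q = (q.roots.map fun y => Polynomial.X - Polynomial.C y).prod := by
      have h1 := (IsAlgClosed.splits q).eq_prod_roots
      rw [hq.leadingCoeff, map_one, one_mul] at h1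
      exact h1
    have hpB : p.map (algebraMap R0 B) = (m.map fun y => Polynomial.X - Polynomial.C y).prod := by
      have hinj : Function.Injective (Polynomial.map (algebraMap B Ω)) :=
        Polynomial.map_injective _ Subtype.val_injective
      apply hinj
      rw [Polynomial.map_map, ← IsScalarTower.algebraMap_eq, Polynomial.map_multiset_prod,
        Multiset.map_map]
      change q = _
      rw [hsplit]
      conv_lhs => rw [← hm, Multiset.map_map]
      congr 1
      refine Multiset.map_congr rfl fun y _ => ?_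
      simp
    have h2 : Polynomial.eval₂ φ x p = (m.map fun y => x - θ y).prod := by
      rw [← hθ, ← Polynomial.eval₂_map, hpB, ← Polynomial.coe_eval₂RingHom,
        map_multiset_prod, Multiset.map_map]
      congr 1
      refine Multiset.map_congr rfl fun y _ => ?_
      simp
    rw [h2, Multiset.prod_eq_zero_iff, Multiset.mem_map] at hx
    obtain ⟨b, hb, hbx⟩ := hx
    refine ⟨b, ?_, (sub_eq_zero.1 hbx).symm⟩
    rw [← Polynomial.eval_map, hpB, Polynomial.eval_multiset_prod, Multiset.prod_eq_zero_iff,
      Multiset.map_map, Multiset.mem_map]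
    exact ⟨b, hb, by simp⟩
  have hu : ∀ a, ∃ b : B, θ b = κ (t a) ∧ (c a = none → ∃ b' : ℂ, cB b' = b ∧ i b' = t a) ∧
      ∀ l, c a = some l → if a = s l then b = algebraMap R0 B (X l) else
        eval₂ cB ![b, algebraMap R0 B (X l)] (P a) = 0 := by
    intro a
    rcases hca : c a with _ | l
    · obtain ⟨b', hb'⟩ := hconst a hca
      refine ⟨cB b', ?_, fun _ => ⟨b', rfl, hb'⟩, fun l hl => (by cases hl)⟩
      rw [← RingHom.comp_apply, hθc, RingHom.comp_apply, hb']
    · by_cases hs : a = s l
      · refine ⟨algebraMap R0 B (X l), ?_, fun h => (by cases h), fun l' hl' => ?_⟩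
        · rw [hθX, hs]
        · obtain rfl := Option.some.inj hl'
          rw [if_pos hs]
      · obtain ⟨h1, d, h2, h3⟩ := hP a l hca hs
        obtain ⟨b, hb1, hb2⟩ := hroot (pl C (X l) (P a)) (κ (t a)) (pl_monic _ _ _ h2 h3) (by
          rw [eval₂_pl]
          have h4 : φ.comp C = κ.comp i := by
            refine RingHom.ext fun b => ?_
            exact eval₂_C _ _ _
          have h5 : φ (X l) = κ (t (s l)) := eval₂_X _ _ _
          rw [h4, h5]
          have h6 := eval₂_comp_left κ i ![t a, t (s l)] (P a)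
          rw [h1, map_zero] at h6
          rw [h6]
          congr 1
          funext u
          fin_cases u <;> rfl)
        refine ⟨b, hb2, fun h => (by cases h), fun l' hl' => ?_⟩
        obtain rfl := Option.some.inj hl'
        rw [if_neg hs]
        rw [eval₂_pl] at hb1
        exact hb1
  choose u hu1 hu2 hu3 using hu
  let ω : B →+* Ω := algebraMap B Ω
  have hω : Function.Injective ω := Subtype.val_injective
  refine ⟨Ω, inferInstance, ω.comp cB, fun a => ω (u a), ?_, ?_, ?_, ?_⟩
  · intro f hf
    have h1 : eval₂ cB u f = 0 := by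
      apply hω
      rw [map_zero, ← hf]
      exact eval₂_comp_left ω cB u f
    have h2 := eval₂_comp_left θ cB u f
    rw [h1, map_zero, hθc] at h2
    have h3 := eval₂_comp_left κ i t f
    have h4 : (θ ∘ u) = κ ∘ t := by
      funext a
      exact hu1 a
    rw [h4, ← h3] at h2
    exact κ.injective (h2.symm.trans (map_zero κ).symm)
  · intro f hf
    have h1 : ∀ l, u (s l) = algebraMap R0 B (X l) := by
      intro l
      have h2 := hu3 (s l) l (hcs l)
      rwa [if_pos rfl] at h2
    simp only [h1] at hf
    have h2 : eval₂ (ω.comp cB) (fun l => ω (algebraMap R0 B (X l))) f = algebraMap R0 Ω f := by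
      have h3 : eval₂Hom (ω.comp cB) (fun l => ω (algebraMap R0 B (X l))) = algebraMap R0 Ω := by
        apply MvPolynomial.ringHom_ext
        · intro b
          rw [eval₂Hom_C]
          rfl
        · intro l
          rw [eval₂Hom_X']
          rfl
      exact RingHom.congr_fun h3 f
    rw [h2, map_eq_zero_iff _ hRΩ] at hf
    exact hf
  · intro a ha
    obtain ⟨b, hb1, hb2⟩ := hu2 a ha
    exact ⟨b, by rw [RingHom.comp_apply, hb1], hb2⟩
  · intro a l hal hne
    have h1 := hu3 a l hal
    rw [if_neg hne] at h1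
    have h2 : u (s l) = algebraMap R0 B (X l) := by
      have h2 := hu3 (s l) l (hcs l)
      rwa [if_pos rfl] at h2
    have h3 := eval₂_comp_left ω cB ![u a, algebraMap R0 B (X l)] (P a)
    rw [h1, map_zero] at h3
    change eval₂ (ω.comp cB) ![ω (u a), ω (u (s l))] (P a) = 0
    rw [h2, h3]
    congr 1
    funext v
    fin_cases v <;> rfl

end Pool.Agent.Helper9K9.ZY
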