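import Pool.Agent.Helper9K9.ZY.Geo
import Pool.Agent.H294ZP.Main

/-!
[FINM], [MOD]: the family of the modular correspondences (helper55)
-/

set_option autoImplicit false

open MvPolynomial UpperHalfPlane

namespace Pool.Agent.Helper9K9.ZY

open H294ZP (jj IsCM)

namespace ModL

/-- the denominator of a fractional linear transformation does not vanish -/
theorem den_ne {g : Matrix (Fin 2) (Fin 2) ℤ} (hg : g.det ≠ 0) (τ : ℍ) :
    ((g 1 0 : ℂ) * τ + g 1 1) ≠ 0 := by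
  intro h
  have him := congrArg Complex.im h
  have hre := congrArg Complex.re h
  simp only [Complex.add_im, Complex.mul_im, Complex.intCast_re, Complex.intCast_im, zero_mul,
    add_zero, Complex.zero_im, Complex.add_re, Complex.mul_re, sub_zero, Complex.zero_re] at him hre
  have hτ : (τ : ℂ).im ≠ 0 := τ.im_pos.ne'
  have h10 : (g 1 0 : ℝ) = 0 := by
    rcases mul_eq_zero.1 him with h | h
    · exact h
    · exact absurd h hτ
  rw [h10, zero_mul, zero_add] at hre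
  have h10' : g 1 0 = 0 := by exact_mod_cast h10
  have h11' : g 1 1 = 0 := by exact_mod_cast hre
  apply hg
  rw [Matrix.det_fin_two, h10', h11']
  ring

/-- the adjugate gives the inverse transformation -/
theorem adj {g : Matrix (Fin 2) (Fin 2) ℤ} {τ w : ℍ}
    (h : (w : ℂ) * (g 1 0 * τ + g 1 1) = g 0 0 * τ + g 0 1) :
    (τ : ℂ) * ((!![g 1 1, -g 0 1; -g 1 0, g 0 0] : Matrix (Fin 2) (Fin 2) ℤ) 1 0 * w +
      (!![g 1 1, -g 0 1; -g 1 0, g 0 0] : Matrix (Fin 2) (Fin 2) ℤ) 1 1) =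
      (!![g 1 1, -g 0 1; -g 1 0, g 0 0] : Matrix (Fin 2) (Fin 2) ℤ) 0 0 * w +
        (!![g 1 1, -g 0 1; -g 1 0, g 0 0] : Matrix (Fin 2) (Fin 2) ℤ) 0 1 := by
  simp only [Matrix.of_apply, Matrix.cons_val_zero, Matrix.cons_val_one, Matrix.cons_val',
    Matrix.cons_val_fin_one]
  push_cast
  linear_combination -h

/-- composition of fractional linear transformations -/
theorem comp {g g' : Matrix (Fin 2) (Fin 2) ℤ} (hg : g.det ≠ 0) {τ w u : ℍ}
    (h : (w : ℂ) * (g 1 0 * τ + g 1 1) = g 0 0 * τ + g 0 1)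
    (h' : (u : ℂ) * (g' 1 0 * w + g' 1 1) = g' 0 0 * w + g' 0 1) :
    (u : ℂ) * ((g' * g) 1 0 * τ + (g' * g) 1 1) = (g' * g) 0 0 * τ + (g' * g) 0 1 := by
  have hd := den_ne hg τ
  simp only [Matrix.mul_apply, Fin.sum_univ_two]
  push_cast
  linear_combination (g' 0 0 - g' 1 0 * (u : ℂ)) * h + ((g 1 0 : ℂ) * τ + g 1 1) * h'

/-- images of CM points are CM points -/
theorem isCM {g : Matrix (Fin 2) (Fin 2) ℤ} (hg : g.det ≠ 0) {τ w : ℍ}
    (h : (w : ℂ) * (g 1 0 * τ + g 1 1) = g 0 0 * τ + g 0 1) (hτ : IsCM τ) : IsCM w := by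
  obtain ⟨a, b, c, ha, habc⟩ := hτ
  have hd := den_ne hg τ
  refine ⟨a * g 1 1 ^ 2 - b * g 1 1 * g 1 0 + c * g 1 0 ^ 2,
    -2 * a * g 1 1 * g 0 1 + b * (g 1 1 * g 0 0 + g 0 1 * g 1 0) - 2 * c * g 1 0 * g 0 0,
    a * g 0 1 ^ 2 - b * g 0 1 * g 0 0 + c * g 0 0 ^ 2, ?_, ?_⟩
  · intro h0
    have him := congrArg Complex.im habc
    have hre := congrArg Complex.re habc
    simp only [pow_two, Complex.add_im, Complex.mul_im, Complex.intCast_re, Complex.intCast_im,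
      zero_mul, add_zero, Complex.zero_im, Complex.add_re, Complex.mul_re, sub_zero,
      Complex.zero_re] at him hre
    have hy : 0 < (τ : ℂ).im := τ.im_pos
    set x := (τ : ℂ).re with hx
    set y := (τ : ℂ).im with hy'
    have hb : (b : ℝ) = -2 * a * x := by
      have : y * (2 * a * x + b) = 0 := by linarith
      rcases mul_eq_zero.1 this with h1 | h1
      · exact absurd h1 hy.ne'
      · linarith
    have hc : (c : ℝ) = a * (x ^ 2 + y ^ 2) := by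
      rw [hb] at hre
      linarith
    have h0' : (a : ℝ) * g 1 1 ^ 2 - b * g 1 1 * g 1 0 + c * g 1 0 ^ 2 = 0 := by
      exact_mod_cast h0
    rw [hb, hc] at h0'
    have h1 : (a : ℝ) * ((g 1 1 + x * g 1 0) ^ 2 + (y * g 1 0) ^ 2) = 0 := by linarith
    have ha' : (a : ℝ) ≠ 0 := by exact_mod_cast ha
    have h2 : ((g 1 1 : ℝ) + x * g 1 0) ^ 2 + (y * g 1 0) ^ 2 = 0 := by
      rcases mul_eq_zero.1 h1 with h1 | h1
      · exact absurd h1 ha'
      · exact h1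
    have h3 : y * (g 1 0 : ℝ) = 0 := by
      have e1 := sq_nonneg ((g 1 1 : ℝ) + x * g 1 0)
      have e2 := sq_nonneg (y * (g 1 0 : ℝ))
      have e3 : (y * (g 1 0 : ℝ)) ^ 2 = 0 := by linarith
      exact (pow_eq_zero_iff (two_ne_zero)).1 e3
    have h4 : (g 1 0 : ℝ) = 0 := by
      rcases mul_eq_zero.1 h3 with h1 | h1
      · exact absurd h1 hy.ne'
      · exact h1
    rw [h4] at h2
    have h5 : (g 1 1 : ℝ) = 0 := by
      have : (g 1 1 : ℝ) ^ 2 = 0 := by linarith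
      exact (pow_eq_zero_iff (two_ne_zero)).1 this
    apply hg
    have h10' : g 1 0 = 0 := by exact_mod_cast h4
    have h11' : g 1 1 = 0 := by exact_mod_cast h5
    rw [Matrix.det_fin_two, h10', h11']
    ring
  · have key : ((a * g 1 1 ^ 2 - b * g 1 1 * g 1 0 + c * g 1 0 ^ 2) * (w : ℂ) ^ 2 +
        (-2 * a * g 1 1 * g 0 1 + b * (g 1 1 * g 0 0 + g 0 1 * g 1 0) - 2 * c * g 1 0 * g 0 0) *
          (w : ℂ) + (a * g 0 1 ^ 2 - b * g 0 1 * g 0 0 + c * g 0 0 ^ 2)) *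
        ((g 1 0 : ℂ) * τ + g 1 1) ^ 2 = 0 := by
      have e1 : ((g 1 1 : ℂ) * w - g 0 1) * ((g 1 0 : ℂ) * τ + g 1 1) =
          (g 0 0 * g 1 1 - g 0 1 * g 1 0) * τ := by linear_combination (g 1 1 : ℂ) * h
      have e2 : (-(g 1 0 : ℂ) * w + g 0 0) * ((g 1 0 : ℂ) * τ + g 1 1) =
          (g 0 0 * g 1 1 - g 0 1 * g 1 0) := by linear_combination -(g 1 0 : ℂ) * h
      calc _ = a * (((g 1 1 : ℂ) * w - g 0 1) * ((g 1 0 : ℂ) * τ + g 1 1)) ^ 2 +
            b * (((g 1 1 : ℂ) * w - g 0 1) * ((g 1 0 : ℂ) * τ + g 1 1)) *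
              ((-(g 1 0 : ℂ) * w + g 0 0) * ((g 1 0 : ℂ) * τ + g 1 1)) +
            c * ((-(g 1 0 : ℂ) * w + g 0 0) * ((g 1 0 : ℂ) * τ + g 1 1)) ^ 2 := by ring
        _ = (g 0 0 * g 1 1 - g 0 1 * g 1 0) ^ 2 * (a * (τ : ℂ) ^ 2 + b * τ + c) := by
            rw [e1, e2]
            ring
        _ = 0 := by rw [habc, mul_zero]
    rcases mul_eq_zero.1 key with h1 | h1
    · push_cast
      exact h1
    · exact absurd ((pow_eq_zero_iff (two_ne_zero)).1 h1) hd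

end ModL

theorem finm (psi : S_PSI) : S_FINM := by
  intro N hN
  obtain ⟨Ψ, G, hG, hdet, -, -, h1, h2⟩ := psi N hN
  refine ⟨G, hG, hdet, ?_⟩
  rintro x τ ⟨g, τ', w, hg, hw, rfl, hτ⟩
  apply h1
  rw [hτ]
  exact h2 g τ' w hg hw

open ModL in
theorem mod (surj : S_SURJ) (rho : S_RHO) (psi : S_PSI) : S_MOD := by
  classical
  choose Ψ G _ hdet halg hmon h1 h2 using psi
  -- the values of the equations
  have hev : ∀ N (hN : 0 < N) (x y : ℂ), eval ![x, y] (Ψ N hN) = 0 ↔ Modular N x y := by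
    intro N hN x y
    obtain ⟨τ, rfl⟩ := surj y
    constructor
    · intro h
      obtain ⟨g, hg, w, hw, rfl⟩ := h1 N hN x τ h
      exact ⟨g, τ, w, hdet N hN g hg, hw, rfl, rfl⟩
    · rintro ⟨g, τ', w, hg, hw, rfl, hτ⟩
      rw [hτ]
      exact h2 N hN g τ' w hg hw
  have hne : ∀ {N : ℕ} {g : Matrix (Fin 2) (Fin 2) ℤ}, 0 < N → g.det = N → g.det ≠ 0 := by
    intro N g hN hg
    rw [hg]
    exact_mod_cast hN.ne'
  have hΨ : ∀ N (hN : 0 < N), (if h : 0 < N then Ψ N h else 0) = Ψ N hN := fun N hN =>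
    dif_pos hN
  refine ⟨{
    Ψ := fun N => if h : 0 < N then Ψ N h else 0
    S := {x | ∃ τ : ℍ, IsCM τ ∧ x = jj τ}
    alg := ?_
    algS := ?_
    zero := ?_
    refl := ?_
    symm := ?_
    trans := ?_
    sat := ?_
    monic := ?_ }, rfl, ?_⟩
  · intro N m
    by_cases hN : 0 < N
    · rw [hΨ N hN]
      exact halg N hN m
    · rw [dif_neg hN, coeff_zero]
      exact isAlgebraic_zero
  · rintro _ ⟨τ, hτ, rfl⟩
    exact ((H294ZP.singular_modulus_integral τ hτ).tower_top (A := ℚ)).isAlgebraic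
  · obtain ⟨τ, hτ, h0⟩ := rho
    exact ⟨τ, hτ, h0.symm⟩
  · intro x
    rw [hΨ 1 one_pos, hev]
    obtain ⟨τ, rfl⟩ := surj x
    refine ⟨1, τ, τ, by simp, ?_, rfl, rfl⟩
    simp
  · intro N hN x y
    rw [hΨ N hN, hev, hev]
    rintro ⟨g, τ, w, hg, hw, rfl, rfl⟩
    refine ⟨!![g 1 1, -g 0 1; -g 1 0, g 0 0], w, τ, ?_, adj hw, rfl, rfl⟩
    rw [Matrix.det_fin_two_of, ← hg, Matrix.det_fin_two]
    ring
  · intro N M hN hM x y z
    rw [hΨ N hN, hΨ M hM, hΨ (N * M) (Nat.mul_pos hN hM), hev, hev]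
    intro ha hb
    -- choose the point over `z`, then the point over `y`
    obtain ⟨g, τ, w, hg, hw, rfl, rfl⟩ := hb
    obtain ⟨g', hg', u, hu, rfl⟩ := h1 N hN x w ((hev N hN _ _).2 ha)
    refine h2 (N * M) (Nat.mul_pos hN hM) (g' * g) τ u ?_ (comp (hne hM hg) hw hu)
    rw [Matrix.det_mul, hdet N hN g' hg', hg]
    push_cast
    ring
  · intro N hN x y
    rw [hΨ N hN]
    rintro h ⟨τ, hτ, rfl⟩
    obtain ⟨g, hg, w, hw, rfl⟩ := h1 N hN x τ h
    exact ⟨w, isCM (hne hN (hdet N hN g hg)) hw hτ, rfl⟩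
  · intro N hN
    rw [hΨ N hN]
    exact hmon N hN
  · intro N hN x y
    change eval ![x, y] (if h : 0 < N then Ψ N h else 0) = 0 ↔ _
    rw [hΨ N hN]
    exact hev N hN x y

end Pool.Agent.Helper9K9.ZY
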