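import Pool.Agent.Helper9K9.ZY.Rk
import Pool.Agent.Helper9K9.ZY.Tr
import Pool.Agent.Helper9K9.ZU.Mono

/-!
[MONO] rank minus transcendence degree is monotone
-/

set_option autoImplicit false

open MvPolynomial

namespace Pool.Agent.Helper9K9.ZY

open Pool.Agent.Helper9K9.ZU (Indep td exists_td le_td)
open Pool.Agent.Helper9K9.ZU.MonoL (indep_iff)

theorem mono : S_MONO := by
  intro C K _ i I J _ _ γ α
  classical
  letI := i.toAlgebra
  set y : J → K := fun j => γ (α j) with hy
  let M := AlgebraicIndependent.matroid ℂ K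
  -- a basis of `y`
  obtain ⟨Y, hY⟩ := M.exists_isBasis (Set.range y) (by simp [M])
  have hyγ : Set.range y ⊆ Set.range γ := by
    rintro _ ⟨j, rfl⟩
    exact ⟨α j, rfl⟩
  have hYX : Y ⊆ Set.range γ := hY.subset.trans hyγ
  obtain ⟨B, hB, hYB⟩ := hY.indep.subset_isBasis_of_subset hYX (by simp [M])
  have hfX : (Set.range γ).Finite := Set.finite_range _
  have hBf : B.Finite := hfX.subset hB.subset
  have hYf : Y.Finite := hBf.subset hYB
  have hZ : B \ Y ⊆ Set.range γ := fun b hb => hB.subset hb.1
  -- cardinalities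
  have hYtd : Y.ncard ≤ td i y := by
    haveI : Finite Y := hYf.to_subtype
    let e := (Finite.equivFin Y).symm
    have hc : Nat.card Y = Y.ncard := rfl
    choose r hr using fun v : Y => hY.subset v.2
    have h1 : Indep i (fun j => y (r (e j))) := by
      rw [indep_iff]
      have h2 : AlgebraicIndependent ℂ (fun v : Y => (v : K)) := hY.indep
      have h3 := h2.comp e e.injective
      have h4 : (fun j => y (r (e j))) = (fun v : Y => (v : K)) ∘ e := by
        funext j
        rw [Function.comp_apply, hr]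
      rw [h4]
      exact h3
    exact le_td (s := fun j => r (e j)) h1
  have hBtd : td i γ ≤ B.ncard := by
    obtain ⟨s, hs⟩ := exists_td i.injective γ
    have hinj := hs.inj
    have h1 : M.Indep (Set.range fun j => γ (s j)) := by
      rw [indep_iff] at hs
      exact hs.to_subtype_range
    have h2 : (Set.range fun j => γ (s j)) ⊆ Set.range γ := by
      rintro _ ⟨j, rfl⟩
      exact ⟨_, rfl⟩
    have h3 := h1.encard_le_eRk_of_subset h2
    rw [← hB.encard_eq_eRk, ← hBf.cast_ncard_eq, ← (Set.finite_range _).cast_ncard_eq] at h3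
    have h4 : (Set.range fun j => γ (s j)).ncard = td i γ := by
      rw [← Set.image_univ, Set.ncard_image_of_injective _ hinj, Set.ncard_univ, Nat.card_fin]
    rw [h4] at h3
    exact_mod_cast h3
  have hZc : (B \ Y).ncard = B.ncard - Y.ncard := Set.ncard_sdiff hYB hYf
  have hYB' : Y.ncard ≤ B.ncard := Set.ncard_le_ncard hYB hBf
  -- the tuple
  let e : Fin (B \ Y).ncard ≃ ↑(B \ Y) := by
    haveI : Finite ↑(B \ Y) := (hBf.sdiff).to_subtype
    exact (Finite.equivFin ↑(B \ Y)).symm
  choose r hr using fun v : ↑(B \ Y) => hZ v.2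
  have hz : ∀ j, γ (r (e j)) = e j := fun j => hr (e j)
  -- closures
  have hclo : ∀ (S : Set K) (a : K), a ∈ M.closure S ↔ IsAlgebraic (Algebra.adjoin ℂ S) a := by
    intro S a
    rw [AlgebraicIndependent.matroid_closure_eq]
    rfl
  have hiso : ∀ a b : K, Iso C i a b → a ∈ M.closure {b} := fun a b h =>
    (hclo _ _).2 (alg C K i a b h)
  have hsg : ∀ (a : K) (S : Set K), Sg C i a → a ∈ M.closure S := by
    rintro _ S ⟨s, _, rfl⟩
    rw [hclo]
    exact isAlgebraic_algebraMap (R := Algebra.adjoin ℂ S) (A := K)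
      (algebraMap ℂ (Algebra.adjoin ℂ S) s)
  have hsub : ∀ (a b : K) (S : Set K), Iso C i a b → b ∈ M.closure S → a ∈ M.closure S := by
    intro a b S h hb
    have h1 : M.closure {b} ⊆ M.closure S := by
      rw [Matroid.closure_subset_closure_iff_subset_closure]
      · exact Set.singleton_subset_iff.2 hb
    exact h1 (hiso a b h)
  have hnot : ∀ j, (γ (r (e j)) : K) ∉ M.closure (B \ {γ (r (e j))}) := by
    intro j
    refine hB.indep.notMem_closure_sdiff_of_mem ?_
    rw [hz]
    exact (e j).2.1
  have hYc : ∀ j l, y l ∈ M.closure (B \ {γ (r (e j))}) := by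
    intro j l
    refine M.closure_subset_closure ?_ (hY.subset_closure ⟨l, rfl⟩)
    intro a ha
    refine ⟨hYB ha, ?_⟩
    rintro rfl
    rw [hz] at ha
    exact (e j).2.2 ha
  have hZl : ∀ j l, l ≠ j → γ (r (e l)) ∈ M.closure (B \ {γ (r (e j))}) := by
    intro j l hlj
    refine M.subset_closure _ (by simp [M]) ?_
    refine ⟨by rw [hz]; exact (e l).2.1, ?_⟩
    intro h
    rw [Set.mem_singleton_iff, hz, hz] at h
    exact hlj (e.injective (Subtype.ext h))
  obtain ⟨s, hs⟩ := RkL.exists_rk (C := C) (i := i) eq_leaf y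
  have hfam : RkL.Fam C i γ (Sum.elim (fun a => α (s a)) (fun j => r (e j))) := by
    constructor
    · rintro (a | j)
      · exact hs.1 a
      · intro h
        exact hnot j (hsg _ _ h)
    · rintro (a | j) (b | l) hab
      · exact hs.2 a b (fun h => hab (by rw [h]))
      · intro h
        exact hnot l (hsub _ _ _ ((eq_leaf C K i).2.1 _ _ h) (hYc l (s a)))
      · intro h
        exact hnot j (hsub _ _ _ h (hYc j (s b)))
      · intro h
        exact hnot j (hsub _ _ _ h (hZl j l (fun h' => hab (by rw [h']))))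
  have h1 := RkL.le_rk' eq_leaf hfam
  rw [Fintype.card_sum, Fintype.card_fin, Fintype.card_fin] at h1
  omega

end Pool.Agent.Helper9K9.ZY
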