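import Pool.Agent.Helper9K9.ZY.Geo
import Pool.Agent.H294ZP.TA1
import Pool.Agent.H294ZP.TaskTA2
import Pool.Agent.H294ZP.TBproof
import Pool.Agent.H294ZP.TD
import Pool.Agent.H294ZP.TaskTC
import Pool.Agent.H676R4.ZPTF

/-! [PSI] the modular equations -/

set_option autoImplicit false

open UpperHalfPlane

namespace Pool.Agent.Helper9K9.ZY

open H294ZP (jj IsCM Inv Hol Lau TC)

namespace PsiL

open MvPolynomial

/-- the polynomial with the coefficients `q j k`, `j ≤ n`, `k ≤ D` -/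
noncomputable def pol (n D : ℕ) (q : ℕ → ℕ → ℂ) : MvPolynomial (Fin 2) ℂ :=
  ∑ j ∈ Finset.range (n + 1), ∑ k ∈ Finset.range (D + 1),
    monomial (Finsupp.single 0 j + Finsupp.single 1 k) (q j k)

theorem eq_iff (j k : ℕ) (m : Fin 2 →₀ ℕ) :
    Finsupp.single 0 j + Finsupp.single 1 k = m ↔ j = m 0 ∧ k = m 1 := by
  constructor
  · rintro rfl
    simp
  · rintro ⟨rfl, rfl⟩
    ext i
    fin_cases i
    · simp
    · simp

theorem coeff_pol (n D : ℕ) (q : ℕ → ℕ → ℂ) (m : Fin 2 →₀ ℕ) :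
    (pol n D q).coeff m = if m 0 ≤ n ∧ m 1 ≤ D then q (m 0) (m 1) else 0 := by
  classical
  unfold pol
  rw [coeff_sum]
  simp only [coeff_sum, coeff_monomial, eq_iff]
  by_cases h : m 0 ≤ n ∧ m 1 ≤ D
  · rw [if_pos h, Finset.sum_eq_single (m 0), Finset.sum_eq_single (m 1)]
    · simp
    · intro k _ hk
      rw [if_neg (fun h' => hk h'.2)]
    · intro h'
      exact absurd (Finset.mem_range.2 (by omega)) h'
    · intro j _ hj
      refine Finset.sum_eq_zero fun k _ => ?_
      rw [if_neg (fun h' => hj h'.1)]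
    · intro h'
      exact absurd (Finset.mem_range.2 (by omega)) h'
  · rw [if_neg h]
    refine Finset.sum_eq_zero fun j hj => Finset.sum_eq_zero fun k hk => ?_
    rw [Finset.mem_range] at hj hk
    rw [if_neg]
    rintro ⟨rfl, rfl⟩
    exact h ⟨by omega, by omega⟩

theorem eval_pol (n D : ℕ) (q : ℕ → ℕ → ℂ) (x y : ℂ) :
    eval ![x, y] (pol n D q) = ∑ j ∈ Finset.range (n + 1),
      (∑ k ∈ Finset.range (D + 1), q j k * y ^ k) * x ^ j := by
  unfold pol
  rw [map_sum]
  refine Finset.sum_congr rfl fun j _ => ?_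
  rw [map_sum, Finset.sum_mul]
  refine Finset.sum_congr rfl fun k _ => ?_
  rw [eval_monomial, Finsupp.prod_fintype _ _ (fun i => pow_zero _)]
  rw [Fin.prod_univ_two]
  simp
  ring

end PsiL

open Polynomial in
/-- [PSI] -/
theorem psi : S_PSI := by
  classical
  intro N hN
  obtain ⟨ι, _, _, α, δ, β, h, h1, h2, h3, h4⟩ := H294ZP.TF676.tf H294ZP.inv_jj N hN
  have hA : H294ZP.TA := ⟨H294ZP.ta1.1, H294ZP.ta1.2, H294ZP.ta2⟩
  have hC : TC := H294ZP.tc
  have hB : H294ZP.TB := H294ZP.TBproof.tb hA hC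
  have hG : ∀ k, H294ZP.TDaux.Lx N (fun τ => jj (h k τ)) := by
    intro k
    obtain ⟨ha, hd, had⟩ := h1 k
    have := hC.2.2.2.2 hA.2.1 hA.2.2 (α k) (δ k) (β k) ha hd (h k) (h2 k)
    rw [had] at this
    exact ⟨⟨_, _, this.1⟩, this.2⟩
  let F : ℍ → ℂ[X] := fun τ => ∏ k, (X - C (jj (h k τ)))
  have hco := H294ZP.TDaux.coeff_prod hC hN (fun k τ => jj (h k τ)) hG Finset.univ
  have hinv : ∀ j, Inv (fun τ => (F τ).coeff j) := by
    intro j p q r s hps τ w hw
    obtain ⟨σ, hσ⟩ := h3 p q r s hps τ w hw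
    have : F w = F τ := by
      show ∏ k, (X - C (jj (h k w))) = ∏ k, (X - C (jj (h k τ)))
      rw [← Equiv.prod_comp σ (fun k => (X - C (jj (h k τ))))]
      exact Finset.prod_congr rfl fun k _ => by rw [hσ k]
    show (F w).coeff j = (F τ).coeff j
    rw [this]
  have hP : ∀ j, ∃ P : ℂ[X], (∀ k, IsIntegral ℤ (P.coeff k)) ∧ ∀ τ, (F τ).coeff j = P.eval (jj τ) := by
    intro j
    obtain ⟨⟨m, A, hL⟩, hH⟩ := hco j
    obtain ⟨P, hP1, hP2, -⟩ := hB N hN m A _ (hinv j) hH hL
    exact ⟨P, hP1, hP2⟩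
  choose P hP1 hP2 using hP
  have hmon : ∀ τ, (F τ).Monic := fun τ => monic_prod_of_monic _ _ fun k _ => monic_X_sub_C _
  have hdeg : ∀ τ, (F τ).natDegree = Fintype.card ι := by
    intro τ
    show (∏ k, (X - C (jj (h k τ)))).natDegree = _
    rw [natDegree_prod_of_monic _ _ fun k _ => monic_X_sub_C _]
    simp
  set n := Fintype.card ι with hn
  obtain ⟨D, hD⟩ : ∃ D, ∀ j ∈ Finset.range n, (P j).natDegree ≤ D :=
    ⟨∑ j ∈ Finset.range n, (P j).natDegree, fun j hj =>
      Finset.single_le_sum (f := fun j => (P j).natDegree) (fun _ _ => Nat.zero_le _) hj⟩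
  let q : ℕ → ℕ → ℂ := fun j k => if j = n then (if k = 0 then 1 else 0) else (P j).coeff k
  have hev : ∀ (x : ℂ) (τ : ℍ), MvPolynomial.eval ![x, jj τ] (PsiL.pol n D q) = (F τ).eval x := by
    intro x τ
    rw [PsiL.eval_pol, eval_eq_sum_range, hdeg τ]
    refine Finset.sum_congr rfl fun j hj => ?_
    congr 1
    by_cases hjn : j = n
    · subst hjn
      have e1 : (F τ).coeff n = 1 := by
        have := hmon τ
        rw [Monic, leadingCoeff, hdeg τ] at this
        exact this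
      rw [e1]
      simp [q]
    · have hjn' : j ∈ Finset.range n := by
        rw [Finset.mem_range] at hj ⊢
        omega
      rw [hP2 j τ, eval_eq_sum_range' (n := D + 1) (by have := hD j hjn'; omega)]
      refine Finset.sum_congr rfl fun k _ => ?_
      simp only [q]
      rw [if_neg hjn]
  refine ⟨PsiL.pol n D q, Set.range fun k => !![(α k : ℤ), β k; 0, (δ k : ℤ)],
    Set.finite_range _, ?_, ?_, ⟨n, ?_, ?_⟩, ?_, ?_⟩
  · rintro _ ⟨k, rfl⟩
    rw [Matrix.det_fin_two_of]
    have := (h1 k).2.2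
    push_cast [← this]
    ring
  · intro m
    rw [PsiL.coeff_pol]
    have : IsIntegral ℤ (if m 0 ≤ n ∧ m 1 ≤ D then q (m 0) (m 1) else 0) := by
      split_ifs
      · simp only [q]
        split_ifs
        · exact isIntegral_one
        · exact isIntegral_zero
        · exact hP1 _ _
      · exact isIntegral_zero
    exact (this.tower_top (A := ℚ)).isAlgebraic
  · rw [PsiL.coeff_pol]
    simp [q]
  · intro m hm hne
    rw [MvPolynomial.mem_support_iff, PsiL.coeff_pol] at hm
    by_contra hcon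
    apply hm
    by_cases hle : m 0 ≤ n ∧ m 1 ≤ D
    · rw [if_pos hle]
      have h5 : m 0 = n := by omega
      simp only [q]
      rw [if_pos h5, if_neg]
      intro h6
      apply hne
      ext i
      fin_cases i
      · simpa using h5
      · simpa using h6
    · rw [if_neg hle]
  · intro x τ hx
    rw [hev] at hx
    have hx' : (∏ k, (X - C (jj (h k τ)))).eval x = 0 := hx
    rw [eval_prod, Finset.prod_eq_zero_iff] at hx'
    obtain ⟨k, _, hk⟩ := hx'
    refine ⟨_, ⟨k, rfl⟩, h k τ, ?_, ?_⟩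
    · have := h2 k τ
      simp only [Matrix.of_apply, Matrix.cons_val', Matrix.cons_val_zero, Matrix.cons_val_one,
        Matrix.cons_val_fin_one]
      push_cast
      linear_combination this
    · rw [eval_sub, eval_X, eval_C] at hk
      exact sub_eq_zero.1 hk
  · intro g τ w hg hw
    rw [hev]
    obtain ⟨k, hk⟩ := h4 (g 0 0) (g 0 1) (g 1 0) (g 1 1) (by
      rw [← hg, Matrix.det_fin_two]) τ w hw
    show (∏ k, (X - C (jj (h k τ)))).eval (jj w) = 0
    rw [eval_prod]
    exact Finset.prod_eq_zero (Finset.mem_univ k) (by rw [hk]; simp)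

end Pool.Agent.Helper9K9.ZY
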