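import Pool.Agent.Helper9K9.ZY.Geo
import Pool.Agent.H294ZP.TA1
import Pool.Agent.H294ZP.TaskTA2
import Pool.Agent.H294ZP.TBproof

/-! [SURJ] the modular function `j` is surjective -/

set_option autoImplicit false

open UpperHalfPlane ModularForm Function Filter Topology Matrix.SpecialLinearGroup

open scoped MatrixGroups ModularForm Manifold

namespace Pool.Agent.Helper9K9.ZY

open H294ZP (jj IsCM Inv Hol)

namespace SurjL

/-- invariant holomorphic functions with a limit at infinity are constant -/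
theorem const_of_lim (f : ℍ → ℂ) (A : ℂ) (hI : Inv f) (hH : Hol f)
    (hlim : Tendsto f atImInfty (𝓝 A)) : ∀ τ, f τ = A := by
  have hslash : ∀ γ : SL(2, ℤ), f ∣[(0 : ℤ)] γ = f := by
    intro γ
    ext τ
    rw [SL_slash_apply]
    simp only [neg_zero, zpow_zero, mul_one]
    have hdet := γ.det_coe
    rw [Matrix.det_fin_two] at hdet
    apply hI (γ 0 0) (γ 0 1) (γ 1 0) (γ 1 1) hdet τ (γ • τ)
    rw [coe_specialLinearGroup_apply]
    have hd : ((γ 1 0 : ℤ) : ℂ) * (τ : ℂ) + ((γ 1 1 : ℤ) : ℂ) ≠ 0 := by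
      have := denom_ne_zero γ τ
      simpa [denom] using this
    simp only [eq_intCast, Complex.ofReal_intCast]
    rw [div_mul_cancel₀ _ hd]
  let g : ModularForm 𝒮ℒ 0 :=
    { toFun := f
      slash_action_eq' := by
        rintro _ ⟨γ, rfl⟩
        exact hslash γ
      holo' := mdifferentiable_iff.2 hH
      bdd_at_cusps' := by
        intro c hc
        rw [OnePoint.isBoundedAt_iff_forall_SL2Z hc]
        intro γ _
        rw [hslash γ]
        exact hlim.isBigO_one ℝ }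
  obtain ⟨c, hc⟩ := ModularFormClass.levelOne_weight_zero_const g
  have hf : f = Function.const ℍ c := hc
  have hcA : c = A := by
    rw [hf] at hlim
    exact tendsto_nhds_unique tendsto_const_nhds hlim
  intro τ
  rw [hf, ← hcA]; rfl

end SurjL

/-- [SURJ] -/
theorem surj : S_SURJ := by
  intro x
  by_contra hx
  push Not at hx
  have hne : ∀ τ, jj τ - x ≠ 0 := fun τ h => hx τ (sub_eq_zero.1 h)
  have hI : Inv (fun τ => (jj τ - x)⁻¹) := by
    intro a b c d h τ w hw
    simp only [H294ZP.inv_jj a b c d h τ w hw]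
  have hH : Hol (fun τ => (jj τ - x)⁻¹) := by
    have h1 : DifferentiableOn ℂ (jj ∘ ofComplex) {z | 0 < z.im} := H294ZP.hol_jj
    have h2 : ((fun τ => (jj τ - x)⁻¹) ∘ ofComplex) = fun z => ((jj ∘ ofComplex) z - x)⁻¹ := by
      ext z; rfl
    unfold Hol
    rw [h2]
    exact (h1.sub_const x).inv fun z _ => hne _
  have h1 : Tendsto (fun τ => H294ZP.qq 1 τ ^ 1 * jj τ) atImInfty (𝓝 1) :=
    H294ZP.TBproof.lau_limit 1 1 1 jj (by norm_num) H294ZP.ta2
  have h2 : Tendsto (H294ZP.qq 1) atImInfty (𝓝 0) := H294ZP.TBproof.tendsto_qq 1 (by norm_num)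
  have h3 : Tendsto (fun τ => H294ZP.qq 1 τ ^ 1 * jj τ - H294ZP.qq 1 τ * x) atImInfty (𝓝 1) := by
    have := h1.sub (h2.mul_const x)
    simpa using this
  have h4 : Tendsto (fun τ => H294ZP.qq 1 τ * (H294ZP.qq 1 τ ^ 1 * jj τ - H294ZP.qq 1 τ * x)⁻¹)
      atImInfty (𝓝 0) := by
    have := h2.mul (h3.inv₀ one_ne_zero)
    simpa using this
  have h5 : (fun τ => H294ZP.qq 1 τ * (H294ZP.qq 1 τ ^ 1 * jj τ - H294ZP.qq 1 τ * x)⁻¹)
      = fun τ => (jj τ - x)⁻¹ := by
    funext τ
    have hq := H294ZP.TBproof.qq_ne_zero 1 τ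
    rw [pow_one, ← mul_sub, mul_inv, ← mul_assoc, mul_inv_cancel₀ hq, one_mul]
  rw [h5] at h4
  have h6 := SurjL.const_of_lim _ 0 hI hH h4 I
  exact inv_ne_zero (hne I) h6

end Pool.Agent.Helper9K9.ZY
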