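import Pool.Agent.Helper9K9.ZY.Geo3
import Pool.Agent.Helper9K9.ZY.Psi
import Pool.Agent.Helper9K9.ZY.Surj

/-! [PHI] the primitive modular equations -/

set_option autoImplicit false

open UpperHalfPlane MatrixGroups FixedDetMatrices

namespace Pool.Agent.Helper9K9.ZY

open H294ZP (jj IsCM Inv Hol Lau TC)

namespace PhiL

open H294ZP.TF676

/-- primitive matrices -/
def Prim (g : Matrix (Fin 2) (Fin 2) ℤ) : Prop := ∀ d : ℤ, (∀ a b, d ∣ g a b) → IsUnit d

theorem prim_smul {m : ℤ} (g : SL(2, ℤ)) (A : FixedDetMatrix (Fin 2) ℤ m) (h : Prim A.1) :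
    Prim (g • A).1 := by
  intro d hd
  apply h d
  have e : A = g⁻¹ • (g • A) := by rw [inv_smul_smul]
  intro a b
  rw [e, smul_entries]
  exact dvd_add (dvd_mul_of_dvd_right (hd 0 b) _) (dvd_mul_of_dvd_right (hd 1 b) _)

theorem prim_mul (A g g' : Matrix (Fin 2) (Fin 2) ℤ) (hg : g * g' = 1) (h : Prim A) :
    Prim (A * g) := by
  intro d hd
  apply h d
  have e : A = A * g * g' := by rw [mul_assoc, hg, mul_one]
  intro a b
  rw [e, Matrix.mul_apply]
  exact Finset.dvd_sum fun k _ => dvd_mul_of_dvd_left (hd a k) _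

theorem prim_rmul {m : ℤ} (g : SL(2, ℤ)) (A : FixedDetMatrix (Fin 2) ℤ m) (h : Prim A.1) :
    Prim (rmul A g).1 :=
  prim_mul A.1 g.1 (g⁻¹ : SL(2, ℤ)).1 (congrArg Subtype.val (mul_inv_cancel g)) h

theorem prim_red {N : ℕ} (hN : 0 < N) (A : FixedDetMatrix (Fin 2) ℤ (N : ℤ)) (h : Prim A.1) :
    Prim (red hN A).1.1 := by
  obtain ⟨g, hg⟩ := reduce_orbit A
  show Prim (reduce A).1
  rw [hg]
  exact prim_smul g A h

/-- the primitive representatives -/
def PR (N : ℕ) : Type := {k : reps (N : ℤ) // Prim k.1.1}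

noncomputable instance (N : ℕ) : Finite (PR N) := by
  unfold PR
  infer_instance

/-- the finite set of the primitive representatives with their functions -/
theorem tfp (N : ℕ) (hN : 0 < N) :
    (∀ p q r s : ℤ, p * s - q * r = 1 → ∀ τ w : ℍ, (w : ℂ) * (r * τ + s) = p * τ + q →
      ∃ σ : Equiv.Perm (PR N), ∀ k : PR N, jj (hf hN k.1 w) = jj (hf hN (σ k).1 τ)) ∧
    (∀ g : Matrix (Fin 2) (Fin 2) ℤ, g.det = N → Prim g → ∀ τ w : ℍ,
      (w : ℂ) * (g 1 0 * τ + g 1 1) = g 0 0 * τ + g 0 1 →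
      ∃ k : PR N, jj w = jj (hf hN k.1 τ)) := by
  have hj : Inv jj := H294ZP.inv_jj
  constructor
  · intro p q r s hdet τ w hw
    set γ : SL(2, ℤ) := ⟨!![p, q; r, s], by rw [Matrix.det_fin_two_of]; exact hdet⟩ with hγ
    have hinj : Function.Injective (fun k : PR N =>
        (⟨red hN (rmul k.1.1 γ), prim_red hN _ (prim_rmul γ _ k.2)⟩ : PR N)) := by
      intro k k' hkk
      simp only at hkk
      have h1 : reduce (rmul k.1.1 γ) = reduce (rmul k'.1.1 γ) :=
        congrArg (fun z : PR N => z.1.1) hkk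
      obtain ⟨g, hg⟩ := reduce_orbit (rmul k.1.1 γ)
      obtain ⟨g', hg'⟩ := reduce_orbit (rmul k'.1.1 γ)
      rw [hg, hg', smul_rmul, smul_rmul] at h1
      have h2 := rmul_inj γ h1
      have h3 : k'.1.1 = (g'⁻¹ * g) • k.1.1 := by
        rw [mul_smul, h2, inv_smul_smul]
      exact Subtype.ext (Subtype.ext (reps_unique (by exact_mod_cast hN) k.1.2 k'.1.2 _ h3))
    refine ⟨Equiv.ofBijective _ (Finite.injective_iff_bijective.1 hinj), fun k => ?_⟩
    show jj (hf hN k.1 w) = jj (hf hN (red hN (rmul k.1.1 γ)) τ)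
    apply key hN hj
    have h1 := hf_mul hN k.1 w
    have h10 : k.1.1.1 1 0 = 0 := (reps_pos hN k.1).2.2.2.2.2
    have e10 : (rmul k.1.1 γ).1 1 0 = k.1.1.1 1 1 * r := by
      show (k.1.1.1 * γ.1) 1 0 = _
      simp [Matrix.mul_apply, Fin.sum_univ_two, hγ, h10]
    have e11 : (rmul k.1.1 γ).1 1 1 = k.1.1.1 1 1 * s := by
      show (k.1.1.1 * γ.1) 1 1 = _
      simp [Matrix.mul_apply, Fin.sum_univ_two, hγ, h10]
    have e00 : (rmul k.1.1 γ).1 0 0 = k.1.1.1 0 0 * p + k.1.1.1 0 1 * r := by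
      show (k.1.1.1 * γ.1) 0 0 = _
      simp [Matrix.mul_apply, Fin.sum_univ_two, hγ]
    have e01 : (rmul k.1.1 γ).1 0 1 = k.1.1.1 0 0 * q + k.1.1.1 0 1 * s := by
      show (k.1.1.1 * γ.1) 0 1 = _
      simp [Matrix.mul_apply, Fin.sum_univ_two, hγ]
    rw [e10, e11, e00, e01]
    push_cast
    linear_combination ((r : ℂ) * τ + s) * h1 + (k.1.1.1 0 0 : ℂ) * hw
  · intro g hdet hp τ w hw
    set A : FixedDetMatrix (Fin 2) ℤ (N : ℤ) := ⟨g, hdet⟩ with hA
    exact ⟨⟨red hN A, prim_red hN A hp⟩, key hN hj A τ w hw⟩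

end PhiL

open Polynomial PhiL in
/-- [PHI] -/
theorem phi : S_PHI := by
  classical
  intro N hN
  haveI : Fintype (PR N) := Fintype.ofFinite _
  obtain ⟨h3, h4⟩ := PhiL.tfp N hN
  have hA : H294ZP.TA := ⟨H294ZP.ta1.1, H294ZP.ta1.2, H294ZP.ta2⟩
  have hC : TC := H294ZP.tc
  have hB : H294ZP.TB := H294ZP.TBproof.tb hA hC
  set h : PR N → ℍ → ℍ := fun k => H294ZP.TF676.hf hN k.1 with hh
  have h1 := fun k : PR N => H294ZP.TF676.reps_pos hN k.1
  have hG : ∀ k, H294ZP.TDaux.Lx N (fun τ => jj (h k τ)) := by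
    intro k
    have := hC.2.2.2.2 hA.2.1 hA.2.2 (k.1.1.1 0 0).toNat (k.1.1.1 1 1).toNat (k.1.1.1 0 1)
      (h1 k).1 (h1 k).2.1 (h k) (fun τ => H294ZP.TF676.hk_mul _ _ _ (h1 k).1 (h1 k).2.1 τ)
    rw [(h1 k).2.2.1] at this
    exact ⟨⟨_, _, this.1⟩, this.2⟩
  let F : ℍ → ℂ[X] := fun τ => ∏ k, (X - C (jj (h k τ)))
  have hco := H294ZP.TDaux.coeff_prod hC hN (fun k τ => jj (h k τ)) hG Finset.univ
  have hinv : ∀ j, Inv (fun τ => (F τ).coeff j) := by
    intro j p q r s hps τ w hw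
    obtain ⟨σ, hσ⟩ := h3 p q r s hps τ w hw
    have : F w = F τ := by
      show ∏ k, (X - C (jj (h k w))) = ∏ k, (X - C (jj (h k τ)))
      rw [← Equiv.prod_comp σ (fun k => (X - C (jj (h k τ))))]
      exact Finset.prod_congr rfl fun k _ => by rw [hσ k]
    show (F w).coeff j = (F τ).coeff j
    rw [this]
  have hP : ∀ j, ∃ P : ℂ[X], ∀ τ, (F τ).coeff j = P.eval (jj τ) := by
    intro j
    obtain ⟨⟨m, A, hL⟩, hH⟩ := hco j
    obtain ⟨P, hP1, hP2, -⟩ := hB N hN m A _ (hinv j) hH hL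
    exact ⟨P, hP2⟩
  choose P hP2 using hP
  have hmon : ∀ τ, (F τ).Monic := fun τ => monic_prod_of_monic _ _ fun k _ => monic_X_sub_C _
  have hdeg : ∀ τ, (F τ).natDegree = Fintype.card (PR N) := by
    intro τ
    show (∏ k, (X - C (jj (h k τ)))).natDegree = _
    rw [natDegree_prod_of_monic _ _ fun k _ => monic_X_sub_C _]
    simp
  set n := Fintype.card (PR N) with hn
  obtain ⟨D, hD⟩ : ∃ D, ∀ j ∈ Finset.range n, (P j).natDegree ≤ D :=
    ⟨∑ j ∈ Finset.range n, (P j).natDegree, fun j hj =>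
      Finset.single_le_sum (f := fun j => (P j).natDegree) (fun _ _ => Nat.zero_le _) hj⟩
  let q : ℕ → ℕ → ℂ := fun j k => if j = n then (if k = 0 then 1 else 0) else (P j).coeff k
  have hev : ∀ (x : ℂ) (τ : ℍ), MvPolynomial.eval ![x, jj τ] (PsiL.pol n D q) = (F τ).eval x := by
    intro x τ
    rw [PsiL.eval_pol, eval_eq_sum_range, hdeg τ]
    refine Finset.sum_congr rfl fun j hj => ?_
    congr 1
    by_cases hjn : j = n
    · subst hjn
      have e1 : (F τ).coeff n = 1 := by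
        have := hmon τ
        rw [Monic, leadingCoeff, hdeg τ] at this
        exact this
      rw [e1]
      simp [q]
    · have hjn' : j ∈ Finset.range n := by
        rw [Finset.mem_range] at hj ⊢
        omega
      rw [hP2 j τ, eval_eq_sum_range' (n := D + 1) (by have := hD j hjn'; omega)]
      refine Finset.sum_congr rfl fun k _ => ?_
      simp only [q]
      rw [if_neg hjn]
  refine ⟨PsiL.pol n D q, ⟨n, ?_, ?_⟩, ?_⟩
  · rw [PsiL.coeff_pol]
    simp [q]
  · intro m hm hne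
    rw [MvPolynomial.mem_support_iff, PsiL.coeff_pol] at hm
    by_contra hcon
    apply hm
    by_cases hle : m 0 ≤ n ∧ m 1 ≤ D
    · rw [if_pos hle]
      have h5 : m 0 = n := by omega
      simp only [q]
      rw [if_pos h5, if_neg]
      intro h6
      apply hne
      ext i
      fin_cases i
      · simpa using h5
      · simpa using h6
    · rw [if_neg hle]
  · intro x y
    constructor
    · intro hx
      obtain ⟨τ, rfl⟩ := surj y
      rw [hev] at hx
      have hx' : (∏ k, (X - C (jj (h k τ)))).eval x = 0 := hx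
      rw [eval_prod, Finset.prod_eq_zero_iff] at hx'
      obtain ⟨k, _, hk⟩ := hx'
      refine ⟨k.1.1.1, τ, h k τ, k.1.1.2, k.2, ?_, ?_, rfl⟩
      · have e1 := H294ZP.TF676.hf_mul hN k.1 τ
        have e2 : k.1.1.1 1 0 = 0 := (h1 k).2.2.2.2.2
        rw [e2]
        push_cast
        linear_combination e1
      · rw [eval_sub, eval_X, eval_C] at hk
        exact sub_eq_zero.1 hk
    · rintro ⟨g, τ, w, hg, hp, hw, rfl, rfl⟩
      rw [hev]
      obtain ⟨k, hk⟩ := h4 g hg hp τ w hw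
      show (∏ k, (X - C (jj (h k τ)))).eval (jj w) = 0
      rw [eval_prod]
      exact Finset.prod_eq_zero (Finset.mem_univ k) (by rw [hk]; simp [hh])

end Pool.Agent.Helper9K9.ZY
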