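import Pool.Agent.Helper9K9.ZY.Stm

/-!
[PICK] independent functionals (helper12)
-/

set_option autoImplicit false

namespace Pool.Agent.Helper9K9.ZY

/-- [PICK] -/
theorem pick : S_PICK := by
  classical
  intro K _ N V Γ l
  let v : Fin Γ → Module.Dual K V := fun g => (l g).comp V.subtype
  obtain ⟨b, hbs, hspan, hli⟩ := exists_linearIndependent K (Set.range v)
  have : Finite b := hli.finite
  let _ : Fintype b := Fintype.ofFinite b
  let k := Fintype.card b
  let e : Fin k ≃ b := (Fintype.equivFin b).symm
  have hb : ∀ a : Fin k, ∃ g : Fin Γ, v g = (e a : Module.Dual K V) := fun a => hbs (e a).2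
  choose s hs using hb
  refine ⟨k, s, ?_, ?_, ?_⟩
  · intro a a' h
    apply e.injective
    apply Subtype.ext
    rw [← hs a, ← hs a', h]
  · intro c hc
    have h4 : LinearIndependent K (fun a : Fin k => (e a : Module.Dual K V)) :=
      hli.comp e e.injective
    funext a
    refine (Fintype.linearIndependent_iff.1 h4) c ?_ a
    apply LinearMap.ext
    intro w
    rw [LinearMap.sum_apply, LinearMap.zero_apply, ← hc w w.2]
    refine Finset.sum_congr rfl fun a _ => ?_
    rw [LinearMap.smul_apply, smul_eq_mul, ← hs a]
    rfl
  · let Ψ : V →ₗ[K] (Fin k → K) := LinearMap.pi fun a => (e a : Module.Dual K V)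
    have h1 : Module.finrank K (LinearMap.ker Ψ) ≤
        Module.finrank K (V ⊓ ⨅ g, LinearMap.ker (l g) : Submodule K (Fin N → K)) := by
      have h2 : ∀ w : LinearMap.ker Ψ, ((w : V) : Fin N → K) ∈
          (V ⊓ ⨅ g, LinearMap.ker (l g) : Submodule K (Fin N → K)) := by
        intro w
        have hw : ∀ a, (e a : Module.Dual K V) (w : V) = 0 := fun a => congrFun w.2 a
        rw [Submodule.mem_inf, Submodule.mem_iInf]
        refine ⟨(w : V).2, fun g => ?_⟩
        have h3 : v g ∈ Submodule.span K (Set.range v) := Submodule.subset_span ⟨g, rfl⟩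
        rw [← hspan] at h3
        have h4 : ∀ φ ∈ Submodule.span K b, φ (w : V) = 0 := by
          intro φ hφ'
          induction hφ' using Submodule.span_induction with
          | mem x hx =>
            have := hw (e.symm ⟨x, hx⟩)
            rw [Equiv.apply_symm_apply] at this
            exact this
          | zero => rfl
          | add x y _ _ hx hy => rw [LinearMap.add_apply, hx, hy, add_zero]
          | smul a x _ hx => rw [LinearMap.smul_apply, hx, smul_zero]
        exact h4 _ h3
      let Θ : LinearMap.ker Ψ →ₗ[K]
          (V ⊓ ⨅ g, LinearMap.ker (l g) : Submodule K (Fin N → K)) :=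
        { toFun := fun w => ⟨((w : V) : Fin N → K), h2 w⟩
          map_add' := fun _ _ => rfl
          map_smul' := fun _ _ => rfl }
      refine LinearMap.finrank_le_finrank_of_injective (f := Θ) ?_
      intro w w' h
      have h3 := congrArg Subtype.val h
      exact Subtype.ext (Subtype.ext h3)
    have h2 := LinearMap.finrank_range_add_finrank_ker Ψ
    have h3 : Module.finrank K (LinearMap.range Ψ) ≤ k := by
      refine (Submodule.finrank_le _).trans ?_
      rw [Module.finrank_fin_fun]
    omega

end Pool.Agent.Helper9K9.ZY
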