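import Pool.Agent.Helper9K9.ZY.Geo3
import Pool.Agent.Helper9K9.ZY.Tr

/-!
[PIS] isogenous elements satisfy a primitive modular equation, and conversely
-/

set_option autoImplicit false

open MvPolynomial UpperHalfPlane

namespace Pool.Agent.Helper9K9.ZY

open H294ZP (jj IsCM)

namespace PisL

/-- division by the gcd of the entries -/
theorem exists_prim (g : Matrix (Fin 2) (Fin 2) ℤ) (N : ℕ) (hN : 0 < N) (hg : g.det = N) :
    ∃ (e : ℕ) (g' : Matrix (Fin 2) (Fin 2) ℤ) (M : ℕ), 0 < e ∧ (∀ a b, g a b = e * g' a b) ∧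
      (∀ d : ℤ, (∀ a b, d ∣ g' a b) → IsUnit d) ∧ g'.det = M ∧ 0 < M ∧ M ≤ N := by
  let e : ℕ := Nat.gcd (Nat.gcd (g 0 0).natAbs (g 0 1).natAbs)
    (Nat.gcd (g 1 0).natAbs (g 1 1).natAbs)
  have hdvd : ∀ a b, (e : ℤ) ∣ g a b := by
    intro a b
    rw [Int.natCast_dvd]
    fin_cases a <;> fin_cases b
    · exact (Nat.gcd_dvd_left _ _).trans (Nat.gcd_dvd_left _ _)
    · exact (Nat.gcd_dvd_left _ _).trans (Nat.gcd_dvd_right _ _)
    · exact (Nat.gcd_dvd_right _ _).trans (Nat.gcd_dvd_left _ _)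
    · exact (Nat.gcd_dvd_right _ _).trans (Nat.gcd_dvd_right _ _)
  have he : 0 < e := by
    rcases Nat.eq_zero_or_pos e with h | h
    · exfalso
      have h1 : ∀ a b, g a b = 0 := by
        intro a b
        have := hdvd a b
        rw [h, Nat.cast_zero] at this
        exact zero_dvd_iff.1 this
      rw [Matrix.det_fin_two, h1, h1, h1] at hg
      simp only [zero_mul, mul_zero, sub_zero] at hg
      omega
    · exact h
  choose q hq using hdvd
  refine ⟨e, Matrix.of q, (Matrix.of q).det.natAbs, he, hq, ?_, ?_⟩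
  · intro d hd
    have h1 : ∀ a b, (e * d.natAbs : ℕ) ∣ (g a b).natAbs := by
      intro a b
      rw [hq, Int.natAbs_mul, Int.natAbs_natCast]
      exact Nat.mul_dvd_mul_left e (Int.natAbs_dvd_natAbs.2 (hd a b))
    have h2 : (e * d.natAbs : ℕ) ∣ e := Nat.dvd_gcd (Nat.dvd_gcd (h1 0 0) (h1 0 1))
      (Nat.dvd_gcd (h1 1 0) (h1 1 1))
    have h3 : d.natAbs ∣ 1 := by
      have : e * d.natAbs ∣ e * 1 := by rwa [mul_one]
      exact Nat.dvd_of_mul_dvd_mul_left he this
    exact Int.isUnit_iff_natAbs_eq.2 (Nat.dvd_one.1 h3)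
  · have h1 : (N : ℤ) = e ^ 2 * (Matrix.of q).det := by
      rw [← hg, Matrix.det_fin_two, Matrix.det_fin_two, hq, hq, hq, hq]
      simp only [Matrix.of_apply]
      ring
    have he' : (0 : ℤ) < e ^ 2 := by positivity
    have hN' : (0 : ℤ) < N := by exact_mod_cast hN
    have h2 : 0 < (Matrix.of q).det := by
      by_contra h
      push Not at h
      nlinarith
    have h3 : (((Matrix.of q).det.natAbs : ℕ) : ℤ) = (Matrix.of q).det :=
      Int.natAbs_of_nonneg h2.le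
    refine ⟨h3.symm, ?_, ?_⟩
    · have : (0 : ℤ) < ((Matrix.of q).det.natAbs : ℕ) := by rw [h3]; exact h2
      exact_mod_cast this
    · have h4 : (((Matrix.of q).det.natAbs : ℕ) : ℤ) ≤ N := by
        rw [h3, h1]
        have h5 : (1 : ℤ) ≤ e ^ 2 := by
          have : (1 : ℤ) ≤ e := by exact_mod_cast he
          nlinarith
        nlinarith
      exact_mod_cast h4

theorem phi_modular {N : ℕ} {x y : ℂ} (h : Phi N x y) : Modular N x y := by
  obtain ⟨g, τ, w, hg, -, hw, hx, hy⟩ := h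
  exact ⟨g, τ, w, hg, hw, hx, hy⟩

theorem modular_phi {N : ℕ} (hN : 0 < N) {x y : ℂ} (h : Modular N x y) :
    ∃ M, 0 < M ∧ M ≤ N ∧ Phi M x y := by
  obtain ⟨g, τ, w, hg, hw, hx, hy⟩ := h
  obtain ⟨e, g', M, he, hgg, hprim, hdet, hM, hMN⟩ := exists_prim g N hN hg
  refine ⟨M, hM, hMN, g', τ, w, hdet, hprim, ?_, hx, hy⟩
  have he' : (e : ℂ) ≠ 0 := by
    rw [Nat.cast_ne_zero]
    exact he.ne'
  apply mul_left_cancel₀ he'
  rw [hgg, hgg, hgg, hgg] at hw
  push_cast at hw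
  linear_combination hw

end PisL

open PisL

theorem pis : S_PIS := by
  intro Co hCo Φ hΦ K _ i x y
  have hvec : ∀ a : Fin 2 → ℂ, a = ![a 0, a 1] := by
    intro a
    funext u
    fin_cases u <;> rfl
  constructor
  · rintro ⟨N, hN, hR⟩
    have h1 := tr (Fin 2) {Co.Ψ N} (∏ M ∈ Finset.Icc 1 N, Φ M) (by
      intro a ha
      have h2 := ha _ rfl
      rw [hvec a] at h2
      rw [hCo.2 N hN] at h2
      obtain ⟨M, hM, hMN, hphi⟩ := modular_phi hN h2
      rw [map_prod]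
      refine Finset.prod_eq_zero (Finset.mem_Icc.2 ⟨hM, hMN⟩) ?_
      rw [hvec a]
      exact (hΦ M hM _ _).2 hphi) K i ![x, y] (by
        rintro f rfl
        exact hR)
    rw [← coe_eval₂Hom, map_prod, Finset.prod_eq_zero_iff] at h1
    obtain ⟨M, hM, h2⟩ := h1
    exact ⟨M, (Finset.mem_Icc.1 hM).1, h2⟩
  · rintro ⟨N, hN, h⟩
    refine ⟨N, hN, ?_⟩
    refine tr (Fin 2) {Φ N} (Co.Ψ N) ?_ K i ![x, y] (by
      rintro f rfl
      exact h)
    intro a ha
    have h2 := ha _ rfl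
    rw [hvec a] at h2 ⊢
    rw [hΦ N hN] at h2
    exact (hCo.2 N hN _ _).2 (phi_modular h2)

end Pool.Agent.Helper9K9.ZY
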