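import Pool.Agent.Helper9K9.ZY.Geo
import Pool.Agent.H294ZP.TA1

/-! [RHO] zero is a singular modulus -/

set_option autoImplicit false

open UpperHalfPlane ModularForm MatrixGroups

namespace Pool.Agent.Helper9K9.ZY

open H294ZP (jj IsCM)

namespace RhoL

/-- a primitive third root of unity -/
noncomputable def ρ : ℍ := ⟨⟨-1 / 2, Real.sqrt 3 / 2⟩, by
  have : 0 < Real.sqrt 3 := Real.sqrt_pos.2 (by norm_num)
  show 0 < Real.sqrt 3 / 2
  positivity⟩

theorem eq : (ρ : ℂ) ^ 2 + ρ + 1 = 0 := by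
  have h3 : Real.sqrt 3 * Real.sqrt 3 = 3 := Real.mul_self_sqrt (by norm_num)
  have h : (ρ : ℂ) = ⟨-1 / 2, Real.sqrt 3 / 2⟩ := rfl
  rw [h, sq]
  apply Complex.ext
  · simp only [Complex.add_re, Complex.mul_re, Complex.one_re, Complex.zero_re]
    nlinarith
  · simp only [Complex.add_im, Complex.mul_im, Complex.one_im, Complex.zero_im]
    ring

theorem E4_rho : E₄ ρ = 0 := by
  have hρ := eq
  let γ : SL(2, ℤ) := ⟨!![0, -1; 1, 1], by rw [Matrix.det_fin_two_of]; norm_num⟩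
  have hden : denom (γ : GL (Fin 2) ℝ) ρ = (ρ : ℂ) + 1 := by
    rw [ModularGroup.denom_apply]
    simp [γ]
  have hne : (ρ : ℂ) + 1 ≠ 0 := by
    rw [← hden]
    exact denom_ne_zero _ ρ
  have hfix : γ • ρ = ρ := by
    apply UpperHalfPlane.ext
    rw [coe_specialLinearGroup_apply]
    have h2 : ((ρ : ℂ)) = (-1) / ((ρ : ℂ) + 1) := by
      rw [eq_div_iff hne]
      linear_combination hρ
    simp only [γ, Matrix.SpecialLinearGroup.coe_mk, Matrix.of_apply, Matrix.cons_val', Matrix.cons_val_zero,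
      Matrix.cons_val_one, Matrix.cons_val_fin_one, eq_intCast, Int.cast_zero, Int.cast_neg,
      Int.cast_one, Complex.ofReal_zero, Complex.ofReal_neg, Complex.ofReal_one, zero_mul, zero_add,
      one_mul]
    exact h2.symm
  have h4 : E₄ (γ • ρ) = (denom γ ρ) ^ (4 : ℤ) * E₄ ρ :=
    SlashInvariantForm.slash_action_eqn' E₄ (MonoidHom.mem_range.mpr ⟨γ, rfl⟩) ρ
  rw [hfix] at h4
  have hden' : denom γ ρ = (ρ : ℂ) + 1 := hden
  rw [hden'] at h4
  have h5 : ((ρ : ℂ) + 1) ^ (4 : ℤ) = -(ρ : ℂ) - 1 := by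
    have : ((ρ : ℂ) + 1) ^ (4 : ℤ) = ((ρ : ℂ) + 1) ^ (4 : ℕ) := by norm_cast
    rw [this]
    linear_combination ((ρ : ℂ) ^ 2 + 3 * ρ + 2) * hρ
  rw [h5] at h4
  have h6 : ((ρ : ℂ) + 2) * E₄ ρ = 0 := by linear_combination h4
  rcases mul_eq_zero.1 h6 with h7 | h7
  · exfalso
    have h8 := congrArg Complex.im h7
    have h9 := ρ.im_pos
    simp only [Complex.add_im, Complex.im_ofNat, add_zero, Complex.zero_im] at h8
    have h10 : (ρ : ℂ).im = ρ.im := rfl
    rw [h10] at h8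
    exact h9.ne' h8
  · exact h7

end RhoL

/-- [RHO] -/
theorem rho : S_RHO := by
  refine ⟨RhoL.ρ, ⟨1, 1, 1, one_ne_zero, ?_⟩, ?_⟩
  · push_cast
    linear_combination RhoL.eq
  · unfold jj
    rw [RhoL.E4_rho]
    simp

end Pool.Agent.Helper9K9.ZY
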