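import Pool.Agent.Helper9K9.ZY.Stm4
import Pool.Agent.Helper9K9.ZY.Lift

/-!
[SPC] specialization of a pair of isogenous elements to complex numbers
-/

set_option autoImplicit false

open MvPolynomial

namespace Pool.Agent.Helper9K9.ZY

open LiftL

theorem spc : S_SPC := by
  intro C K _ i x y hxy hy y'
  obtain ⟨N, hN, hR⟩ := hxy
  obtain ⟨d, hd1, hd2⟩ := C.monic N hN
  let R0 := Polynomial ℂ
  let j : R0 →+* K := Polynomial.eval₂RingHom i y
  have hj : Function.Injective j := by
    rw [injective_iff_map_eq_zero]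
    intro f hf
    exact hy f hf
  let _ : Algebra R0 K := j.toAlgebra
  have hjK : algebraMap R0 K = j := rfl
  let B := integralClosure R0 K
  have hRB : Function.Injective (algebraMap R0 B) := by
    intro a b hab
    exact hj (congrArg (algebraMap B K) hab)
  obtain ⟨θ, hθ⟩ := exists_ext_int hRB (Polynomial.evalRingHom y')
  have hjC : j.comp Polynomial.C = i := by
    refine RingHom.ext fun b => ?_
    exact Polynomial.eval₂_C _ _
  have hjX : j Polynomial.X = y := Polynomial.eval₂_X _ _
  have hx : x ∈ B := by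
    refine ⟨pl Polynomial.C Polynomial.X (C.Ψ N), pl_monic _ _ _ hd1 hd2, ?_⟩
    rw [hjK, eval₂_pl, hjC, hjX]
    exact hR
  let cB : ℂ →+* B := (algebraMap R0 B).comp Polynomial.C
  have hcK : (algebraMap B K).comp cB = i := by
    rw [← hjC]
    rfl
  have hθc : θ.comp cB = RingHom.id ℂ := by
    refine RingHom.ext fun b => ?_
    have h1 := RingHom.congr_fun hθ (Polynomial.C b)
    rw [RingHom.comp_apply] at h1
    change θ (algebraMap R0 B (Polynomial.C b)) = _
    rw [h1]
    exact Polynomial.eval_C
  have hθX : θ (algebraMap R0 B Polynomial.X) = y' := by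
    have h1 := RingHom.congr_fun hθ Polynomial.X
    rw [RingHom.comp_apply] at h1
    rw [h1]
    exact Polynomial.eval_X
  refine ⟨θ ⟨x, hx⟩, fun f hf => ?_⟩
  have h1 : eval₂ cB ![(⟨x, hx⟩ : B), algebraMap R0 B Polynomial.X] f = 0 := by
    have hinj : Function.Injective (algebraMap B K) := Subtype.val_injective
    apply hinj
    rw [map_zero, ← hf, eval₂_comp_left (algebraMap B K) cB, hcK]
    congr 1
    funext u
    fin_cases u
    · rfl
    · exact hjX
  have h2 := eval₂_comp_left θ cB ![(⟨x, hx⟩ : B), algebraMap R0 B Polynomial.X] f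
  rw [h1, map_zero, hθc] at h2
  have h3 : (θ ∘ ![(⟨x, hx⟩ : B), algebraMap R0 B Polynomial.X]) = ![θ ⟨x, hx⟩, y'] := by
    funext u
    fin_cases u
    · rfl
    · exact hθX
  rw [h3] at h2
  rw [← eval₂_id]
  exact h2.symm

end Pool.Agent.Helper9K9.ZY
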