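import Pool.Agent.Helper9K9.ZY.Stm
import Pool.Agent.Helper9K9.ZU.Star
import Pool.Agent.Helper9K9.ZU.Stm

/-!
Assembly: the main property for all complex tuples.
-/

set_option autoImplicit false

open MvPolynomial

namespace Pool.Agent.Helper9K9.ZY

open Pool.Agent.Helper9K9.ZU (Indep td td_comp_le exists_td le_td td_comp_ring exists_coeffs
  S_FA S_FB)

theorem star (core : S_CORE) (spec : S_SPEC) (sig : S_SIG) (en : S_END) (fa : S_FA)
    (fb : S_FB) : S_STAR := by
  intro C hyp I _ K _ i x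
  classical
  have hK : CharZero K := charZero_of_injective_ringHom i.injective
  -- generators of the ideal
  obtain ⟨G, hG⟩ := (inferInstance : IsNoetherianRing (MvPolynomial I ℂ)).noetherian
    (RingHom.ker (eval₂Hom i x))
  have hG' : ∀ f, eval₂ i x f = 0 ↔ f ∈ Ideal.span (G : Set (MvPolynomial I ℂ)) := by
    intro f
    have h1 : f ∈ RingHom.ker (eval₂Hom i x) ↔
        f ∈ Ideal.span (G : Set (MvPolynomial I ℂ)) := by
      rw [← hG]
    rw [RingHom.mem_ker, coe_eval₂Hom] at h1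
    exact h1
  obtain ⟨q, c, hc⟩ := exists_coeffs G
  obtain ⟨σ, t, hσ, ht⟩ := en q (fun j => (c j : ℂ))
  -- the tuple with the constants
  obtain ⟨z, hz⟩ : ∃ z : I ⊕ Fin q → K, z = Sum.elim x (fun j => i (c j)) := ⟨_, rfl⟩
  have h1 := fa q _ (fun j => (c j : ℂ)) σ t ht K i I x
  have h2 := fb q (fun j => (c j : ℂ)) K i I x G hG' hc
  rw [← hz] at h1 h2
  have htd : td (Int.castRingHom K) z ≤ td (i.comp σ) z := h2.trans h1
  obtain ⟨H, hH0, hH⟩ := core C hyp K (i.comp σ) (I ⊕ Fin q) z htd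
  -- substitution of the constants
  let φ : MvPolynomial (I ⊕ Fin q) ℂ →+* MvPolynomial I ℂ :=
    eval₂Hom (MvPolynomial.C.comp σ) (Sum.elim X fun j => MvPolynomial.C (c j : ℂ))
  have hφ : ∀ (K' : Type) [Field K'] (i' : ℂ →+* K') (ξ : I → K')
      (f : MvPolynomial (I ⊕ Fin q) ℂ), eval₂ i' ξ (φ f) =
        eval₂ (i'.comp σ) (Sum.elim ξ fun j => i' (c j)) f := by
    intro K' _ i' ξ f
    have h3 : (eval₂Hom i' ξ).comp φ = eval₂Hom (i'.comp σ)
        (Sum.elim ξ fun j => i' (c j)) := by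
      apply MvPolynomial.ringHom_ext
      · intro a
        simp [φ]
      · intro j
        rcases j with j | j
        · simp [φ]
        · simp [φ]
    exact RingHom.congr_fun h3 f
  refine ⟨φ H, ?_, ?_⟩
  · rw [hφ, ← hz]
    exact hH0
  · intro K' _ i' ξ hsp hlt
    rw [hφ]
    have hsp' : Spz (i.comp σ) (i'.comp σ) z (Sum.elim ξ fun j => i' (c j)) := by
      intro f hf
      rw [← hφ]
      refine hsp _ ?_
      rw [hφ, ← hz]
      exact hf
    refine hH K' (i'.comp σ) (Sum.elim ξ fun j => i' (c j)) hsp' ?_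
    have h4 := fa q _ (fun j => (c j : ℂ)) σ t ht K' i' I ξ
    have h5 : td (i.comp σ) z ≤ td (Int.castRingHom ℂ) (fun j => (c j : ℂ)) + td i x := by
      refine le_trans ?_ h2
      have h6 := td_comp_ring (Int.castRingHom ℂ) (RingHom.injective_int _) (i.comp σ) z
      have h7 : (i.comp σ).comp (Int.castRingHom ℂ) = Int.castRingHom K := RingHom.ext_int _ _
      rwa [h7] at h6
    have h6 := spec C K K' (i.comp σ) (i'.comp σ) I (I ⊕ Fin q) z
      (Sum.elim ξ fun j => i' (c j)) Sum.inl hsp'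
    have h7 : (fun a => z (Sum.inl a)) = x := by rw [hz]; rfl
    have h8 : (fun a : I => (Sum.elim ξ fun j => i' (c j) : I ⊕ Fin q → K') (Sum.inl a)) = ξ := rfl
    rw [h7, h8, sig C K i σ hσ I x, sig C K' i' σ hσ I ξ] at h6
    omega

end Pool.Agent.Helper9K9.ZY
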