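import Pool.Agent.Helper9K9.ZY.Geo3

/-!
Statements of the leaves: `j` separates the orbits of `SL(2, ℤ)`; uniqueness of the level.
-/

set_option autoImplicit false

open MvPolynomial UpperHalfPlane ModularForm

namespace Pool.Agent.Helper9K9.ZY

open H294ZP (jj IsCM)

/-- [LAT] lattices with the same invariants are equal -/
def S_LAT : Prop :=
  ∀ L L' : PeriodPair, L.G 4 = L'.G 4 → L.G 6 = L'.G 6 → L.lattice = L'.lattice

/-- [EIS] the Eisenstein series as sums over the lattice -/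
def S_EIS : Prop :=
  ∀ (τ : ℍ) (L : PeriodPair), L.ω₁ = 1 → L.ω₂ = τ →
    L.G 4 = 2 * riemannZeta 4 * E₄ τ ∧ L.G 6 = 2 * riemannZeta 6 * E₆ τ

/-- [JINJ] `j` separates the orbits -/
def S_JINJ : Prop :=
  ∀ τ τ' : ℍ, jj τ = jj τ' → ∃ a b c d : ℤ, a * d - b * c = 1 ∧
    (τ' : ℂ) * (c * τ + d) = a * τ + b

/-- [UNIC] uniqueness of the level for complex numbers -/
def S_UNIC : Prop :=
  ∀ (N M : ℕ) (x y : ℂ), 0 < N → 0 < M → (¬ ∃ τ : ℍ, IsCM τ ∧ y = jj τ) → Phi N x y →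
    Phi M x y → N = M

/-- [SPC] a pair `(x, y)` of isogenous elements, `y` transcendental, specializes to a pair of
complex numbers with a given second coordinate -/
def S_SPC : Prop :=
  ∀ (C : Corr) (K : Type) [Field K] (i : ℂ →+* K) (x y : K), Iso C i x y → Tr i y →
    ∀ y' : ℂ, ∃ x' : ℂ, ∀ f : MvPolynomial (Fin 2) ℂ, eval₂ i ![x, y] f = 0 →
      eval ![x', y'] f = 0

end Pool.Agent.Helper9K9.ZY
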