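import Pool.Agent.Helper9K9.ZY.Geo
import Pool.Agent.Helper9K9.ZY.Rk
import Pool.Agent.Helper9K9.ZY.Tr
import Pool.Agent.Helper9K9.ZY.Surj
import Pool.Agent.Helper9K9.ZY.Psi

/-! [TOR] the special subvariety of all relations of a point -/

set_option autoImplicit false

open MvPolynomial UpperHalfPlane

namespace Pool.Agent.Helper9K9.ZY

open H294ZP (jj IsCM)

namespace TorL

variable {ι : Type}

theorem rn {R : Type} [CommSemiring R] (φ : ℂ →+* R) (x : ι → R) (a b : ι)
    (P : MvPolynomial (Fin 2) ℂ) :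
    eval₂ φ x (rename ![a, b] P) = eval₂ φ ![x a, x b] P := by
  rw [eval₂_rename]
  congr 1
  funext c
  fin_cases c <;> rfl

theorem rne (y : ι → ℂ) (a b : ι) (P : MvPolynomial (Fin 2) ℂ) :
    eval y (rename ![a, b] P) = eval ![y a, y b] P := by
  rw [eval_rename]
  congr 2
  funext c
  fin_cases c <;> rfl

theorem mem_idealOf {A : Set (ι → ℂ)} {f : MvPolynomial ι ℂ} :
    f ∈ idealOf A ↔ ∀ y ∈ A, eval y f = 0 := by
  unfold idealOf
  simp only [Ideal.mem_iInf, RingHom.mem_ker]

/-- finitely many matrices are enough -/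
theorem finm' (N : ℕ) (hN : 0 < N) : ∃ G : Set (Matrix (Fin 2) (Fin 2) ℤ), G.Finite ∧
    (∀ g ∈ G, g.det = N) ∧ ∀ (x : ℂ) (τ : ℍ), Modular N x (jj τ) → ∃ g ∈ G, ∃ w : ℍ,
      (w : ℂ) * (g 1 0 * τ + g 1 1) = g 0 0 * τ + g 0 1 ∧ x = jj w := by
  obtain ⟨Ψ, G, h1, h2, -, -, h5, h6⟩ := psi N hN
  refine ⟨G, h1, h2, ?_⟩
  rintro x τ ⟨g, τ', w, hg, hw, rfl, hτ⟩
  apply h5
  rw [hτ]
  exact h6 g τ' w hg hw

theorem den_ne {z : ℍ} {g : Matrix (Fin 2) (Fin 2) ℤ} (h : 0 < g.det) :
    (g 1 0 : ℂ) * (z : ℂ) + g 1 1 ≠ 0 := by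
  intro h0
  have h1 := congrArg Complex.im h0
  simp only [Complex.add_im, Complex.mul_im, Complex.intCast_re, Complex.intCast_im, zero_mul,
    add_zero, Complex.zero_im] at h1
  have h2 : (z : ℂ).im ≠ 0 := z.im_pos.ne'
  have h3 : (g 1 0 : ℝ) = 0 := by
    rcases mul_eq_zero.1 h1 with h | h
    · exact h
    · exact absurd h h2
  have h4 : g 1 0 = 0 := by exact_mod_cast h3
  rw [h4, Int.cast_zero, zero_mul, zero_add] at h0
  have h5 : g 1 1 = 0 := by exact_mod_cast h0
  rw [Matrix.det_fin_two, h4, h5] at h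
  simp at h

/-- two images of one point are connected by an isogeny -/
theorem modular_of {g g' : Matrix (Fin 2) (Fin 2) ℤ} (hg : 0 < g.det) (hg' : 0 < g'.det)
    {z w w' : ℍ} (h : (w : ℂ) * (g 1 0 * z + g 1 1) = g 0 0 * z + g 0 1)
    (h' : (w' : ℂ) * (g' 1 0 * z + g' 1 1) = g' 0 0 * z + g' 0 1) :
    Modular (g.det * g'.det).toNat (jj w) (jj w') := by
  have hp : 0 < g.det * g'.det := mul_pos hg hg'
  refine ⟨!![g 0 0 * g' 1 1 - g 0 1 * g' 1 0, g 0 1 * g' 0 0 - g 0 0 * g' 0 1;
    g 1 0 * g' 1 1 - g 1 1 * g' 1 0, g 1 1 * g' 0 0 - g 1 0 * g' 0 1], w', w, ?_, ?_, rfl, rfl⟩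
  · rw [Matrix.det_fin_two_of, Int.toNat_of_nonneg hp.le, Matrix.det_fin_two, Matrix.det_fin_two]
    ring
  · have hne := den_ne (z := z) hg'
    simp only [Matrix.of_apply, Matrix.cons_val', Matrix.cons_val_zero, Matrix.cons_val_one,
      Matrix.cons_val_fin_one]
    push_cast
    apply mul_right_cancel₀ hne
    linear_combination ((w : ℂ) * ((g 1 0 : ℂ) * g' 1 1 - g 1 1 * g' 1 0)
      - ((g 0 0 : ℂ) * g' 1 1 - g 0 1 * g' 1 0)) * h'
      + ((g' 0 0 : ℂ) * g' 1 1 - g' 0 1 * g' 1 0) * h

end TorL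

open TorL in
/-- [TOR] -/
theorem tor : S_TOR := by
  classical
  intro C hC ι _ A K _ i x hx
  obtain ⟨hS, hΨ⟩ := hC
  constructor
  · obtain ⟨s, hs⟩ := RkL.exists_rk (C := C) (i := i) eq_leaf x
    have key : ∀ a : ι, ∃ (cl : Option (Fin (rk C i x))) (c : ℂ)
        (G : Set (Matrix (Fin 2) (Fin 2) ℤ)), G.Finite ∧ (∀ g ∈ G, 0 < g.det) ∧
        (cl = none → (∃ τ : ℍ, IsCM τ ∧ c = jj τ) ∧ i c = x a ∧ G.Nonempty) ∧
        (∀ l, cl = some l → ∀ y ∈ A, ∀ τ : ℍ, y (s l) = jj τ → ∃ g ∈ G, ∃ w : ℍ,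
          (w : ℂ) * (g 1 0 * τ + g 1 1) = g 0 0 * τ + g 0 1 ∧ y a = jj w) ∧
        ∀ l, a = s l → cl = some l := by
      intro a
      by_cases hsg : Sg C i (x a)
      · obtain ⟨c, hc, hc'⟩ := hsg
        rw [hS] at hc
        refine ⟨none, c, {1}, Set.finite_singleton _, ?_, fun _ => ⟨hc, hc',
          Set.singleton_nonempty _⟩, ?_, ?_⟩
        · rintro g rfl
          simp
        · intro l hl
          cases hl
        · rintro l rfl
          exfalso
          apply hs.1 l
          refine ⟨c, ?_, hc'⟩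
          rw [hS]
          exact hc
      · rcases RkL.maximal (C := C) (i := i) eq_leaf hs a with h1 | ⟨l, N, hN, hR⟩
        · exact absurd h1 hsg
        · obtain ⟨G, hG1, hG2, hG3⟩ := finm' N hN
          refine ⟨some l, 0, G, hG1, ?_, ?_, ?_, ?_⟩
          · intro g hg
            rw [hG2 g hg]
            exact_mod_cast hN
          · intro h; cases h
          · intro l' hl' y hy τ hτ
            obtain rfl := Option.some.inj hl'
            have h2 : rename ![a, s l] (C.Ψ N) ∈ idealOf A := by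
              rw [hx, rn]
              exact hR
            have h3 := mem_idealOf.1 h2 y hy
            have h4 : eval ![y a, y (s l)] (C.Ψ N) = 0 := by
              rw [rne] at h3
              exact h3
            rw [hΨ N hN, hτ] at h4
            exact hG3 _ _ h4
          · rintro l' rfl
            by_contra hne
            have hne' : l' ≠ l := fun h => hne (by rw [h])
            exact hs.2 _ _ hne' ⟨N, hN, hR⟩
    choose cl c G hG1 hG2 hG3 hG4 hG5 using key
    have hfin : (Set.pi Set.univ G).Finite := Set.Finite.pi' hG1 |>.subset (by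
      intro g hg a
      exact hg a (Set.mem_univ a))
    have hcov : ∀ y ∈ A, ∃ g ∈ hfin.toFinset, y ∈ locus cl g c := by
      intro y hy
      have hz : ∀ l, ∃ z : ℍ, jj z = y (s l) := fun l => surj _
      choose z hz using hz
      have h1 : ∀ a, ∃ g ∈ G a, (cl a = none → y a = c a) ∧ ∀ l, cl a = some l → ∃ w : ℍ,
          (w : ℂ) * (g 1 0 * z l + g 1 1) = g 0 0 * z l + g 0 1 ∧ y a = jj w := by
        intro a
        cases hcl : cl a with
        | none =>
          obtain ⟨h2, h3, g, hg⟩ := hG3 a hcl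
          refine ⟨g, hg, fun _ => ?_, fun l hl => (by cases hl)⟩
          have h4 : X a - MvPolynomial.C (c a) ∈ idealOf A := by
            rw [hx, eval₂_sub, eval₂_X, eval₂_C, h3, sub_self]
          have h5 := mem_idealOf.1 h4 y hy
          rw [eval_sub, eval_X, eval_C] at h5
          exact sub_eq_zero.1 h5
        | some l =>
          obtain ⟨g, hg, w, hw⟩ := hG4 a l hcl y hy (z l) (hz l).symm
          refine ⟨g, hg, fun h => (by cases h), fun l' hl' => ?_⟩
          obtain rfl := Option.some.inj hl'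
          exact ⟨w, hw⟩
      choose g hg hg1 using h1
      refine ⟨g, ?_, z, hg1⟩
      rw [Set.Finite.mem_toFinset]
      exact fun a _ => hg a
    have hprime : (idealOf A).IsPrime := by
      have : idealOf A = RingHom.ker (eval₂Hom i x) := by
        ext f
        rw [hx, RingHom.mem_ker]
        rfl
      rw [this]
      exact RingHom.ker_isPrime _
    have hinf : hfin.toFinset.inf (fun g => idealOf (locus cl g c)) ≤ idealOf A := by
      intro f hf
      rw [mem_idealOf]
      intro y hy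
      obtain ⟨g, hg, hyg⟩ := hcov y hy
      have h1 : f ∈ idealOf (locus cl g c) := (Finset.inf_le (f := fun g => idealOf (locus cl g c)) hg) hf
      exact mem_idealOf.1 h1 y hyg
    obtain ⟨g, hg, hle⟩ := (Ideal.IsPrime.inf_le' hprime).1 hinf
    refine ⟨zeros (idealOf (locus cl g c) : Set (MvPolynomial ι ℂ)), ⟨cl, g, c, ?_, ?_, ?_, rfl⟩, ?_⟩
    · intro l
      exact ⟨s l, hG5 _ l rfl⟩
    · intro a
      rw [Set.Finite.mem_toFinset] at hg
      exact hG2 a _ (hg a (Set.mem_univ a))
    · intro a ha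
      exact (hG3 a ha).1
    · intro y hy f hf
      exact mem_idealOf.1 (hle hf) y hy
  · rintro T r ⟨cls, g, c, h1, h2, h3, rfl⟩ hA
    -- equations of the locus hold at `x`
    have hmem : ∀ f, (∀ y ∈ locus cls g c, eval y f = 0) → eval₂ i x f = 0 := by
      intro f hf
      rw [← hx, mem_idealOf]
      intro y hy
      exact hA hy f (mem_idealOf.2 hf)
    refine csSup_le ⟨0, fun j => j.elim0, fun j => j.elim0, fun j => j.elim0⟩ ?_
    rintro d ⟨s, hs1, hs2⟩
    have hcl : ∀ b : Fin d, ∃ l, cls (s b) = some l := by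
      intro b
      cases hb : cls (s b) with
      | some l => exact ⟨l, rfl⟩
      | none =>
        exfalso
        apply hs1 b
        have h4 := hmem (X (s b) - MvPolynomial.C (c (s b))) (by
          rintro y ⟨z, hz⟩
          rw [eval_sub, eval_X, eval_C, (hz (s b)).1 hb, sub_self])
        rw [eval₂_sub, eval₂_X, eval₂_C, sub_eq_zero] at h4
        refine ⟨c (s b), ?_, h4.symm⟩
        rw [hS]
        exact h3 _ hb
    choose l hl using hcl
    have hinj : Function.Injective l := by
      intro b b' hbb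
      by_contra hne
      apply hs2 b b' hne
      have hp : 0 < ((g (s b)).det * (g (s b')).det).toNat := by
        have := mul_pos (h2 (s b)) (h2 (s b'))
        omega
      refine ⟨((g (s b)).det * (g (s b')).det).toNat, hp, ?_⟩
      have h4 := hmem (rename ![s b, s b'] (C.Ψ ((g (s b)).det * (g (s b')).det).toNat)) (by
        rintro y ⟨z, hz⟩
        obtain ⟨w, hw, hy⟩ := (hz (s b)).2 (l b) (hl b)
        obtain ⟨w', hw', hy'⟩ := (hz (s b')).2 (l b) (by rw [hbb]; exact hl b')
        have h5 := modular_of (h2 (s b)) (h2 (s b')) hw hw'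
        rw [← hy, ← hy', ← hΨ _ hp] at h5
        rw [rne]
        exact h5)
      rw [rn] at h4
      exact h4
    have := Fintype.card_le_of_injective l hinj
    rwa [Fintype.card_fin, Fintype.card_fin] at this

end Pool.Agent.Helper9K9.ZY
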