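import Pool.Agent.Helper9K9.ZY.Unic
import Pool.Agent.Helper9K9.ZY.Pis

/-! [UNI] uniqueness of the level, [CMN] characterization of the special elements -/

set_option autoImplicit false

open MvPolynomial UpperHalfPlane

namespace Pool.Agent.Helper9K9.ZY

open H294ZP (jj IsCM)

namespace UniL

variable {K : Type} [Field K] (i : ℂ →+* K)

/-- roots of polynomials with complex coefficients are complex numbers -/
theorem root (p : Polynomial ℂ) (hp0 : p ≠ 0) (x : K) (h1 : p.eval₂ i x = 0) : ∃ a : ℂ, i a = x := by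
  have hsp := IsAlgClosed.splits p
  have h2 := hsp.eq_prod_roots
  rw [h2, Polynomial.eval₂_mul, Polynomial.eval₂_C, mul_eq_zero] at h1
  rcases h1 with h1 | h1
  · rw [map_eq_zero, Polynomial.leadingCoeff_eq_zero] at h1
    exact absurd h1 hp0
  · rw [← Polynomial.coe_eval₂RingHom, map_multiset_prod, Multiset.prod_eq_zero_iff,
      Multiset.mem_map] at h1
    obtain ⟨q, hq, hq0⟩ := h1
    rw [Multiset.mem_map] at hq
    obtain ⟨a, ha, rfl⟩ := hq
    refine ⟨a, ?_⟩
    rw [Polynomial.coe_eval₂RingHom, Polynomial.eval₂_sub, Polynomial.eval₂_X,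
      Polynomial.eval₂_C, sub_eq_zero] at hq0
    exact hq0.symm

theorem const (a b : ℂ) (f : MvPolynomial (Fin 2) ℂ) :
    eval₂ i ![i a, i b] f = i (eval ![a, b] f) := by
  have h := eval₂_comp_left i (RingHom.id ℂ) ![a, b] f
  rw [RingHom.comp_id, eval₂_id] at h
  rw [h]
  congr 1
  funext u
  fin_cases u <;> rfl

theorem exists_tr : ∃ y : ℂ, ¬ IsAlgebraic ℚ y := by
  by_contra h
  push Not at h
  have h1 : {x : ℂ | IsAlgebraic ℚ x}.Countable := Algebraic.countable ℚ ℂ
  have h2 : {x : ℂ | IsAlgebraic ℚ x} = Set.univ := Set.eq_univ_of_forall h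
  rw [h2] at h1
  exact not_countable_complex h1

theorem cm_alg {τ : ℍ} (hτ : IsCM τ) : IsAlgebraic ℚ (jj τ) :=
  ((H294ZP.singular_modulus_integral τ hτ).tower_top (A := ℚ)).isAlgebraic

end UniL

open UniL

/-- [UNI] -/
theorem uni (hU : S_UNIC) (hS : S_SPC) : S_UNI := by
  intro C hC Φ hΦ K _ i x y hy N M hN hM h1 h2
  have hiso : Iso C i x y := (pis C hC Φ hΦ K i x y).2 ⟨N, hN, h1⟩
  by_cases ht : Tr i y
  · obtain ⟨y', hy'⟩ := exists_tr
    obtain ⟨x', hx'⟩ := hS C K i x y hiso ht y'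
    refine hU N M x' y' hN hM ?_ ((hΦ N hN _ _).1 (hx' _ h1)) ((hΦ M hM _ _).1 (hx' _ h2))
    rintro ⟨τ, hτ, rfl⟩
    exact hy' (cm_alg hτ)
  · unfold Tr at ht
    push Not at ht
    obtain ⟨f, hf, hf0⟩ := ht
    obtain ⟨b, rfl⟩ := root i f hf0 y hf
    obtain ⟨N', hN', h3⟩ := hiso
    have h4 : Polynomial.eval₂ i x (TrL.pol C (RingHom.id ℂ) b N') = 0 := by
      rw [TrL.eval₂_pol]
      exact h3
    obtain ⟨a, rfl⟩ := root i _ (TrL.pol_ne C _ b hN') x h4
    rw [const, map_eq_zero] at h1 h2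
    refine hU N M a b hN hM ?_ ((hΦ N hN _ _).1 h1) ((hΦ M hM _ _).1 h2)
    rintro ⟨τ, hτ, rfl⟩
    apply hy
    refine ⟨jj τ, ?_, rfl⟩
    rw [hC.1]
    exact ⟨τ, hτ, rfl⟩

namespace UniL

/-- a point with complex multiplication is fixed by a primitive matrix of determinant at least
two -/
theorem cm_phi {τ : ℍ} (hτ : IsCM τ) : ∃ N : ℕ, 2 ≤ N ∧ Phi N (jj τ) (jj τ) := by
  obtain ⟨a, b, c, ha, h⟩ := hτ
  set p : ℤ := 1 + a ^ 2 * (|a| + |b| + |c| + 1) with hp
  have hA : 0 ≤ |a| := abs_nonneg a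
  have hB : 0 ≤ |b| := abs_nonneg b
  have hC : 0 ≤ |c| := abs_nonneg c
  have ha2 : 1 ≤ a ^ 2 := by
    have : 0 < a ^ 2 := by positivity
    omega
  have h1 : 2 + |a| + |b| + |c| ≤ p := by
    have : 1 * (|a| + |b| + |c| + 1) ≤ a ^ 2 * (|a| + |b| + |c| + 1) :=
      mul_le_mul_of_nonneg_right ha2 (by positivity)
    rw [hp]
    linarith
  have h2 : 2 + |a| + |c| ≤ p + b := by
    have := neg_abs_le b
    linarith
  have h3 : -(|a| * |c|) ≤ a * c := by
    rw [← abs_mul]
    exact neg_abs_le _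
  have h4 : (2 + |a| + |c|) * (2 + |a| + |c|) ≤ p * (p + b) :=
    mul_le_mul (by linarith) h2 (by positivity) (by linarith)
  have h5 : 2 ≤ p * (p + b) + a * c := by
    have : 0 ≤ |a| * |c| := mul_nonneg hA hC
    nlinarith [sq_nonneg (|a|), sq_nonneg (|c|)]
  refine ⟨(p * (p + b) + a * c).toNat, by omega, !![p, -c; a, p + b], τ, τ, ?_, ?_, ?_, rfl, rfl⟩
  · rw [Matrix.det_fin_two_of, Int.toNat_of_nonneg (by linarith)]
    ring
  · intro d hd
    have e1 := hd 0 0
    have e2 := hd 1 0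
    simp only [Matrix.of_apply, Matrix.cons_val_zero, Matrix.cons_val_one, Matrix.cons_val',
      Matrix.cons_val_fin_one] at e1 e2
    rw [hp] at e1
    have e3 : d ∣ a ^ 2 * (|a| + |b| + |c| + 1) := by
      rw [pow_two, mul_assoc]
      exact dvd_mul_of_dvd_left e2 _
    exact isUnit_of_dvd_one ((dvd_add_left e3).1 e1)
  · simp only [Matrix.of_apply, Matrix.cons_val_zero, Matrix.cons_val_one, Matrix.cons_val',
      Matrix.cons_val_fin_one]
    push_cast
    linear_combination h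

end UniL

/-- [CMN] -/
theorem cmn (hu : S_UNI) : S_CMN := by
  intro C hC Φ hΦ K _ i x
  constructor
  · rintro ⟨s, hs, rfl⟩
    rw [hC.1] at hs
    obtain ⟨τ, hτ, rfl⟩ := hs
    obtain ⟨N, hN, hphi⟩ := cm_phi hτ
    refine ⟨N, hN, ?_⟩
    rw [const, (hΦ N (by omega) _ _).2 hphi, map_zero]
  · rintro ⟨N, hN, h⟩
    by_contra hx
    have h1 : eval₂ i ![x, x] (Φ 1) = 0 := by
      have h2 := tr (Fin 1) ∅ (rename (![0, 0] : Fin 2 → Fin 1) (Φ 1)) (fun a _ => by
        rw [eval_rename]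
        have e : a ∘ ![0, 0] = ![a 0, a 0] := by
          funext u
          fin_cases u <;> rfl
        rw [e, hΦ 1 one_pos]
        obtain ⟨τ, hτ⟩ := surj (a 0)
        rw [← hτ]
        refine ⟨1, τ, τ, by simp, ?_, by simp, rfl, rfl⟩
        intro d hd
        have := hd 0 0
        rw [Matrix.one_apply_eq] at this
        exact isUnit_of_dvd_one this) K i (fun _ => x) (fun f hf => absurd hf (Set.notMem_empty f))
      rw [eval₂_rename] at h2
      have e : ((fun _ => x) ∘ (![0, 0] : Fin 2 → Fin 1)) = ![x, x] := by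
        funext u
        fin_cases u <;> rfl
      rwa [e] at h2
    have := hu C hC Φ hΦ K i x x hx N 1 (by omega) one_pos h h1
    omega

end Pool.Agent.Helper9K9.ZY
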