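import Pool.Agent.Helper9K9.ZY.Stm4
import Pool.Agent.Helper9K9.ZY.Phi
import Pool.Agent.Helper9K9.ZY.Mod

/-! [UNIC] uniqueness of the level for complex numbers -/

set_option autoImplicit false

open UpperHalfPlane

namespace Pool.Agent.Helper9K9.ZY

open H294ZP (jj IsCM)

namespace UnicL

open PhiL (Prim)

theorem prim_lmul (A g g' : Matrix (Fin 2) (Fin 2) ℤ) (hg : g' * g = 1) (h : Prim A) :
    Prim (g * A) := by
  intro d hd
  apply h d
  have e : A = g' * (g * A) := by rw [← mul_assoc, hg, one_mul]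
  intro a b
  rw [e, Matrix.mul_apply]
  exact Finset.dvd_sum fun k _ => dvd_mul_of_dvd_right (hd k b) _

theorem scalar {h : Matrix (Fin 2) (Fin 2) ℤ} {τ : ℍ} (hτ : ¬ IsCM τ)
    (hh : (τ : ℂ) * (h 1 0 * τ + h 1 1) = h 0 0 * τ + h 0 1) :
    h 1 0 = 0 ∧ h 0 1 = 0 ∧ h 1 1 = h 0 0 := by
  have h0 : h 1 0 = 0 := by
    by_contra hne
    apply hτ
    refine ⟨h 1 0, h 1 1 - h 0 0, - h 0 1, hne, ?_⟩
    push_cast
    linear_combination hh
  rw [h0, Int.cast_zero, zero_mul, zero_add] at hh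
  have him := congrArg Complex.im hh
  have hre := congrArg Complex.re hh
  simp only [Complex.add_im, Complex.mul_im, Complex.intCast_re, Complex.intCast_im, zero_mul,
    mul_zero, add_zero, zero_add, Complex.add_re, Complex.mul_re, sub_zero] at him hre
  have hy : (τ : ℂ).im ≠ 0 := τ.im_pos.ne'
  have h1 : (h 1 1 : ℝ) = h 0 0 := by
    apply mul_left_cancel₀ hy
    linarith
  have h2 : (h 0 1 : ℝ) = 0 := by
    rw [h1] at hre
    linarith
  exact ⟨h0, by exact_mod_cast h2, by exact_mod_cast h1⟩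

theorem dvd_of {g : Matrix (Fin 2) (Fin 2) ℤ} (hg : Prim g) {N c : ℤ}
    (h : ∀ a b, N ∣ c * g a b) : N ∣ c := by
  have h1 : IsUnit (Finset.univ.gcd fun p : Fin 2 × Fin 2 => g p.1 p.2) :=
    hg _ fun a b => Finset.gcd_dvd (f := fun p : Fin 2 × Fin 2 => g p.1 p.2)
      (Finset.mem_univ (a, b))
  have h2 : N ∣ Finset.univ.gcd fun p : Fin 2 × Fin 2 => c * g p.1 p.2 :=
    Finset.dvd_gcd fun p _ => h p.1 p.2
  rw [Finset.gcd_mul_left] at h2
  rw [IsUnit.dvd_mul_right h1] at h2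
  exact dvd_normalize_iff.1 h2

/-- two primitive matrices which move a point without complex multiplication to the same point
have the same determinant -/
theorem key {g G : Matrix (Fin 2) (Fin 2) ℤ} {N M : ℕ} (hN : 0 < N) (hM : 0 < M)
    (hg : g.det = N) (hG : G.det = M) (pg : Prim g) (pG : Prim G) {τ w : ℍ} (hτ : ¬ IsCM τ)
    (hw : (w : ℂ) * (g 1 0 * τ + g 1 1) = g 0 0 * τ + g 0 1)
    (hW : (w : ℂ) * (G 1 0 * τ + G 1 1) = G 0 0 * τ + G 0 1) : N = M := by
  have hG0 : G.det ≠ 0 := by rw [hG]; exact_mod_cast hM.ne'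
  have h1 := ModL.adj hw
  have h2 := ModL.comp hG0 hW h1
  obtain ⟨e10, e01, e11⟩ := scalar hτ h2
  set c : ℤ := ((!![g 1 1, -g 0 1; -g 1 0, g 0 0] : Matrix (Fin 2) (Fin 2) ℤ) * G) 0 0 with hc
  simp only [Matrix.mul_apply, Fin.sum_univ_two, Matrix.of_apply, Matrix.cons_val_zero,
    Matrix.cons_val_one, Matrix.cons_val', Matrix.cons_val_fin_one] at e10 e01 e11 hc
  have hdet := hg
  rw [Matrix.det_fin_two] at hdet
  have k00 : (N : ℤ) * G 0 0 = c * g 0 0 := by
    rw [← hdet]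
    linear_combination (-g 0 0) * hc + g 0 1 * e10
  have k01 : (N : ℤ) * G 0 1 = c * g 0 1 := by
    rw [← hdet]
    linear_combination g 0 0 * e01 + g 0 1 * e11
  have k10 : (N : ℤ) * G 1 0 = c * g 1 0 := by
    rw [← hdet]
    linear_combination (-g 1 0) * hc + g 1 1 * e10
  have k11 : (N : ℤ) * G 1 1 = c * g 1 1 := by
    rw [← hdet]
    linear_combination g 1 0 * e01 + g 1 1 * e11
  have kk : ∀ a b, (N : ℤ) * G a b = c * g a b := by
    intro a b
    fin_cases a <;> fin_cases b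
    · exact k00
    · exact k01
    · exact k10
    · exact k11
  obtain ⟨k, hk⟩ : (N : ℤ) ∣ c := dvd_of pg fun a b => ⟨G a b, (kk a b).symm⟩
  have hN' : (N : ℤ) ≠ 0 := by exact_mod_cast hN.ne'
  have hk2 : ∀ a b, G a b = k * g a b := by
    intro a b
    apply mul_left_cancel₀ hN'
    rw [kk, hk]
    ring
  have hu : IsUnit k := pG k fun a b => ⟨g a b, hk2 a b⟩
  have hk3 : k * k = 1 := by
    rcases Int.isUnit_iff.1 hu with h | h <;> rw [h] <;> norm_num
  have : (M : ℤ) = N := by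
    rw [← hG, ← hg, Matrix.det_fin_two, Matrix.det_fin_two, hk2, hk2, hk2, hk2]
    linear_combination (g 0 0 * g 1 1 - g 0 1 * g 1 0) * hk3
  exact_mod_cast this.symm

theorem det_sl {a b c d : ℤ} (h : a * d - b * c = 1) :
    !![d, -b; -c, a] * !![a, b; c, d] = (1 : Matrix (Fin 2) (Fin 2) ℤ) ∧
      !![a, b; c, d] * !![d, -b; -c, a] = (1 : Matrix (Fin 2) (Fin 2) ℤ) := by
  constructor
  · rw [Matrix.mul_fin_two, Matrix.one_fin_two, show d * a + -b * c = 1 by linarith,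
      show d * b + -b * d = 0 by ring, show -c * a + a * c = 0 by ring,
      show -c * b + a * d = 1 by linarith]
  · rw [Matrix.mul_fin_two, Matrix.one_fin_two, show a * d + b * -c = 1 by linarith,
      show a * -b + b * a = 0 by ring, show c * d + d * -c = 0 by ring,
      show c * -b + d * a = 1 by linarith]

/-- the fractional linear transformation of a matrix -/
theorem mv {a b c d : ℤ} {τ w : ℍ} (h : (w : ℂ) * (c * τ + d) = a * τ + b) :
    (w : ℂ) * ((!![a, b; c, d] : Matrix (Fin 2) (Fin 2) ℤ) 1 0 * τ +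
      (!![a, b; c, d] : Matrix (Fin 2) (Fin 2) ℤ) 1 1) =
      (!![a, b; c, d] : Matrix (Fin 2) (Fin 2) ℤ) 0 0 * τ +
        (!![a, b; c, d] : Matrix (Fin 2) (Fin 2) ℤ) 0 1 := by
  simpa using h

end UnicL

open UnicL in
/-- [UNIC] -/
theorem unic (hJ : S_JINJ) : S_UNIC := by
  rintro N M x y hN hM hy ⟨g, τ, w, hg, hp, hw, hx, rfl⟩ ⟨g', τ', w', hg', hp', hw', hx', hy'⟩
  obtain ⟨a, b, c, d, h1, h2⟩ := hJ τ τ' hy'
  obtain ⟨a', b', c', d', h1', h2'⟩ := hJ w' w (hx'.symm.trans hx)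
  have hg0 : g'.det ≠ 0 := by rw [hg']; exact_mod_cast hM.ne'
  have d1 : (!![a, b; c, d] : Matrix (Fin 2) (Fin 2) ℤ).det = 1 := by
    rw [Matrix.det_fin_two_of]
    exact h1
  have d2 : (!![a', b'; c', d'] : Matrix (Fin 2) (Fin 2) ℤ).det = 1 := by
    rw [Matrix.det_fin_two_of]
    exact h1'
  have hA := ModL.comp (by rw [d1]; exact one_ne_zero) (mv h2) hw'
  have dA : (g' * !![a, b; c, d]).det = M := by rw [Matrix.det_mul, d1, hg', mul_one]
  have hB := ModL.comp (by rw [dA]; exact_mod_cast hM.ne') hA (mv h2')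
  have dB : (!![a', b'; c', d'] * (g' * !![a, b; c, d])).det = M := by
    rw [Matrix.det_mul, d2, dA, one_mul]
  have pA : PhiL.Prim (g' * !![a, b; c, d]) := PhiL.prim_mul _ _ _ (det_sl h1).2 hp'
  have pB : PhiL.Prim (!![a', b'; c', d'] * (g' * !![a, b; c, d])) :=
    prim_lmul _ _ _ (det_sl h1').1 pA
  exact key hN hM hg dB hp pB (fun h => hy ⟨τ, h, rfl⟩) hw hB

end Pool.Agent.Helper9K9.ZY
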