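import Pool.Agent.Helper9K9.ZY.Univ3
import Pool.Agent.Helper9K9.ZY.Chain3
import Pool.Agent.Helper9K9.ZY.Eis
import Pool.Agent.Helper9K9.ZY.Lat
import Pool.Agent.Helper9K9.ZY.Unic
import Pool.Agent.Helper9K9.ZY.Uni
import Pool.Agent.Helper9K9.ZY.Spc

/-!
The powers of the surface `x ^ 2 + y = z` are universal for the Zilber-Pink property in
`Y(1) ^ n`.
-/

set_option autoImplicit false

open MvPolynomial

namespace Pool.Agent.Helper9K9.ZY

theorem univ : (∀ k : ℕ, ZP (surf k)) ↔
    ∀ (ι : Type) [Fintype ι] (S : Set (MvPolynomial ι ℂ)), ZP (zeros S) := by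
  have hj : S_JINJ := jinj lat eis
  have hu : S_UNI := uni (unic hj) spc
  exact univ3_of chain3 hu (cmn hu)

end Pool.Agent.Helper9K9.ZY
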