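import Pool.Agent.Helper9K9.ZY.Vec2
import Pool.Agent.Helper9K9.ZY.Stm3

/-!
[VEC3] the vectors which respect the isogenies between the masked values.
-/

set_option autoImplicit false

open MvPolynomial

namespace Pool.Agent.Helper9K9.ZY

theorem vec3 (hE : S_EQ) : S_VEC3 := by
  intro C K _ i I _ z N S τ hτ hS K₁ _ j t ht γ hγ
  exact vec2 hE C K i I z N S τ hτ K₁ j t ht γ hγ (fun n hn => by
    rw [hγ]
    exact hS n hn K₁ j t ht)

end Pool.Agent.Helper9K9.ZY
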