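import Pool.Agent.Helper9K9.ZY.Core3
import Pool.Agent.Helper9K9.ZY.Star3
import Pool.Agent.Helper9K9.ZY.Hyp3
import Pool.Agent.Helper9K9.ZY.Key
import Pool.Agent.Helper9K9.ZY.Lift
import Pool.Agent.Helper9K9.ZY.Pis
import Pool.Agent.Helper9K9.ZY.Phi
import Pool.Agent.Helper9K9.ZY.Mono
import Pool.Agent.Helper9K9.ZY.Inv
import Pool.Agent.Helper9K9.ZY.Rep
import Pool.Agent.Helper9K9.ZY.Spt
import Pool.Agent.Helper9K9.ZY.Pick
import Pool.Agent.Helper9K9.ZY.End
import Pool.Agent.Helper9K9.ZY.Mod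
import Pool.Agent.Helper9K9.ZY.Rho
import Pool.Agent.Helper9K9.ZY.Surj
import Pool.Agent.Helper9K9.ZY.Psi
import Pool.Agent.Helper9K9.ZY.Jac3
import Pool.Agent.Helper9K9.ZY.Vec3
import Pool.Agent.Helper9K9.ZU.Fa
import Pool.Agent.Helper9K9.ZU.Fb

/-!
The powers of the surface `x ^ 2 + y = z` are universal for the Zilber-Pink property in
`Y(1) ^ n`.
-/

set_option autoImplicit false

open MvPolynomial

namespace Pool.Agent.Helper9K9.ZY

theorem univ3_of (chain : S_CHAIN3) (uni : S_UNI) (cmn : S_CMN) : (∀ k : ℕ, ZP (surf k)) ↔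
    ∀ (ι : Type) [Fintype ι] (S : Set (MvPolynomial ι ℂ)), ZP (zeros S) := by
  constructor
  · intro h
    have hphi : ∀ N : ℕ, ∃ Φ : MvPolynomial (Fin 2) ℂ, 0 < N →
        ∀ x y : ℂ, eval ![x, y] Φ = 0 ↔ Phi N x y := by
      intro N
      by_cases hN : 0 < N
      · obtain ⟨Φ, -, hΦ⟩ := phi N hN
        exact ⟨Φ, fun _ => hΦ⟩
      · exact ⟨0, fun h => absurd h hN⟩
    choose Φ hΦ using hphi
    have hΦ' : IsPhi Φ := fun N hN => hΦ N hN
    obtain ⟨Co, hCo⟩ : S_MOD := mod surj rho psi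
    have tor : S_TOR3 := tor3 Φ hΦ' pis uni cmn lift (rep eq_leaf alg) spec
    have h1 : S_CORE3 := core3 spec mono inv mix spt coef tt (jac3 eq_leaf) pick chain
      (vec3 eq_leaf) eq_leaf (rep eq_leaf alg)
    have h2 : S_STAR3 := star3 h1 spec sig en ZU.fa ZU.fb
    have h3 : HypF Co := hyp3 gen loc dim dlt comp tor gdim3 Co hCo h
    exact fin3 gen dim dlt comp tor Co hCo (fun I _ K _ i x => h2 Co h3 I K i x)
  · intro h k
    rw [surf_eq]
    exact h _ _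

end Pool.Agent.Helper9K9.ZY
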