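import Pool.Agent.Helper9K9.ZY.Rk
import Pool.Agent.Helper9K9.ZY.Jacg

/-!
[VEC] the vectors which respect the isogenies between the masked values.
-/

set_option autoImplicit false

open MvPolynomial

open Pool.Agent.Helper9K9.ZU (td)

namespace Pool.Agent.Helper9K9.ZY

namespace VecL

/-- the chain rule for an equation in two elements -/
theorem der_pair {K K₁ : Type} [Field K] [Field K₁] [Algebra K K₁] (D : Derivation K K₁ K₁)
    (i : ℂ →+* K) (x y : K₁) (P : MvPolynomial (Fin 2) ℂ)
    (h : eval₂ ((algebraMap K K₁).comp i) ![x, y] P = 0) :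
    eval₂ ((algebraMap K K₁).comp i) ![x, y] (pderiv 0 P) * D x +
      eval₂ ((algebraMap K K₁).comp i) ![x, y] (pderiv 1 P) * D y = 0 := by
  have hm : ∀ Q : MvPolynomial (Fin 2) ℂ, eval₂ ((algebraMap K K₁).comp i) ![x, y] Q =
      eval₂ (algebraMap K K₁) ![x, y] (map i Q) := by
    intro Q
    rw [eval₂_map]
  have h1 := JacgL.der_eval D ![x, y] (map i P)
  rw [← hm, h, map_zero, Fin.sum_univ_two, pderiv_map, pderiv_map, ← hm, ← hm] at h1
  simp only [Matrix.cons_val_zero, Matrix.cons_val_one] at h1
  rw [mul_comm _ (D x), mul_comm _ (D y)]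
  exact h1.symm

theorem exists_D {K K₁ : Type} [Field K] [Field K₁] [Algebra K K₁] [CharZero K] {t : K₁}
    (ht : Tr (algebraMap K K₁) t) : ∃ D : Derivation K K₁ K₁, D t = 1 := by
  have h1 : AlgebraicIndependent K (fun _ : Unit => t) := by
    rw [algebraicIndependent_iff]
    intro f hf
    let g := uniqueAlgEquiv K Unit f
    have h2 : g = 0 := by
      apply ht
      have h3 : f = (uniqueAlgEquiv K Unit).symm g :=
        ((uniqueAlgEquiv K Unit).symm_apply_apply f).symm
      rw [h3] at hf
      rw [← hf]
      have h4 : ∀ g : Polynomial K, Polynomial.eval₂ (algebraMap K K₁) t g =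
          aeval (fun _ : Unit => t) ((uniqueAlgEquiv K Unit).symm g) := by
        intro g
        induction g using Polynomial.induction_on with
        | C a => simp
        | add p q hp hq => rw [Polynomial.eval₂_add, hp, hq, map_add, map_add]
        | monomial n a h =>
          simp
      exact h4 g
    have h3 : uniqueAlgEquiv K Unit f = 0 := h2
    exact (map_eq_zero_iff _ (uniqueAlgEquiv K Unit).injective).1 h3
  obtain ⟨D, hD⟩ := Pool.Agent.H135R2.VS.exists_der h1 (fun _ => (1 : K₁))
  exact ⟨D, hD ()⟩

end VecL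

open VecL RkL in
theorem vec (hE : S_EQ) : S_VEC := by
  classical
  intro C K _ i I _ z N S τ hτ hS K₁ _ j t ht γ hγ
  letI : Algebra K K₁ := j.toAlgebra
  have hj : algebraMap K K₁ = j := rfl
  have : CharZero K := charZero_of_injective_ringHom i.injective
  have : CharZero K₁ := charZero_of_injective_ringHom j.injective
  obtain ⟨D, hD⟩ := exists_D (K := K) (K₁ := K₁) (t := t) ht
  have ht0 : t ≠ 0 := by
    intro h
    have h1 := ht Polynomial.X (by rw [Polynomial.eval₂_X, h])
    exact Polynomial.X_ne_zero h1
  -- the derivative of a masked value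
  have hDγ : ∀ n, n ∉ Set.range τ → D (γ n) ≠ 0 := by
    intro n hn
    obtain ⟨p, e, he, hSn, hp⟩ := hS n hn
    have h1 : γ n = algebraMap K K₁ (eval₂ (Int.castRingHom K) z p) * t ^ e := by
      rw [hγ, hSn, eval₂_mul, eval₂_pow, eval₂_X, eval₂_rename]
      congr 1
      have h2 := MvPolynomial.eval₂_comp_left j (Int.castRingHom K) z p
      rw [hj, h2]
      congr 1
      exact RingHom.ext_int _ _
    rw [h1, Derivation.leibniz, Derivation.map_algebraMap, smul_zero, add_zero,
      Derivation.leibniz_pow, hD]
    simp only [smul_eq_mul, nsmul_eq_mul, mul_one]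
    refine mul_ne_zero ?_ (mul_ne_zero (by exact_mod_cast he.ne') (pow_ne_zero _ ht0))
    exact (map_ne_zero _).2 hp
  obtain ⟨s, hs⟩ := exists_rk hE (C := C) (i := j.comp i) γ
  have hinj := fam_inj hE hs
  let v : Fin (rk C (j.comp i) γ) → (Fin N → K₁) := fun a n =>
    if s a ∈ Set.range τ then (if n = s a then 1 else 0)
    else (if n ∉ Set.range τ ∧ Iso C (j.comp i) (γ n) (γ (s a)) then D (γ n) else 0)
  have hv : LinearIndependent K₁ v := by
    rw [Fintype.linearIndependent_iff]
    intro c hc b
    have h1 := congrFun hc (s b)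
    rw [Finset.sum_apply, Finset.sum_eq_single b] at h1
    · rw [Pi.smul_apply, smul_eq_mul, Pi.zero_apply] at h1
      refine (mul_eq_zero.1 h1).resolve_right ?_
      by_cases hb : s b ∈ Set.range τ
      · simp only [v, if_pos hb, if_true]
        exact one_ne_zero
      · simp only [v, if_neg hb]
        rw [if_pos ⟨hb, (hE C K₁ (j.comp i)).1 _⟩]
        exact hDγ _ hb
    · intro a _ hab
      rw [Pi.smul_apply, smul_eq_mul]
      refine mul_eq_zero_of_right _ ?_
      by_cases ha : s a ∈ Set.range τ
      · simp only [v, if_pos ha]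
        rw [if_neg]
        exact fun h => hab (hinj h).symm
      · simp only [v, if_neg ha]
        rw [if_neg]
        rintro ⟨-, h2⟩
        exact hs.2 b a (Ne.symm hab) h2
    · intro h; exact absurd (Finset.mem_univ _) h
  refine ⟨Submodule.span K₁ (Set.range v), ?_, ?_⟩
  · rw [finrank_span_eq_card hv, Fintype.card_fin]
  · intro w hw n m hn hm hnm P hP
    induction hw using Submodule.span_induction with
    | mem x hx =>
      obtain ⟨a, rfl⟩ := hx
      by_cases ha : s a ∈ Set.range τ
      · have h1 : n ≠ s a := fun h => hn (h ▸ ha)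
        have h2 : m ≠ s a := fun h => hm (h ▸ ha)
        simp only [v, if_pos ha, if_neg h1, if_neg h2, mul_zero, add_zero]
      · by_cases h3 : Iso C (j.comp i) (γ n) (γ (s a))
        · have h4 : Iso C (j.comp i) (γ m) (γ (s a)) :=
            (hE C K₁ (j.comp i)).2.2.1 _ _ _ ((hE C K₁ (j.comp i)).2.1 _ _ hnm) h3
          simp only [v, if_neg ha]
          rw [if_pos ⟨hn, h3⟩, if_pos ⟨hm, h4⟩]
          exact der_pair D i (γ n) (γ m) P hP
        · have h4 : ¬ Iso C (j.comp i) (γ m) (γ (s a)) := fun h4 =>
            h3 ((hE C K₁ (j.comp i)).2.2.1 _ _ _ hnm h4)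
          simp only [v, if_neg ha]
          rw [if_neg (fun h => h3 h.2), if_neg (fun h => h4 h.2), mul_zero, mul_zero, add_zero]
    | zero => simp
    | add x y _ _ hx hy =>
      rw [Pi.add_apply, Pi.add_apply]
      linear_combination hx + hy
    | smul c x _ hx =>
      rw [Pi.smul_apply, Pi.smul_apply, smul_eq_mul, smul_eq_mul]
      linear_combination c * hx

end Pool.Agent.Helper9K9.ZY
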