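import Pool.Agent.Helper9K9.ZY.Vec
import Pool.Agent.Helper9K9.ZY.Spt
import Pool.Agent.Helper9K9.ZY.Stm2

/-!
[VEC2] the vectors which respect the isogenies between the masked values (repaired statement).
-/

set_option autoImplicit false

open MvPolynomial

open Pool.Agent.Helper9K9.ZU (td)

namespace Pool.Agent.Helper9K9.ZY

open VecL RkL in
theorem vec2 (hE : S_EQ) : S_VEC2 := by
  classical
  intro C K _ i I _ z N S τ hτ K₁ _ j t ht γ hγ hS
  letI : Algebra K K₁ := j.toAlgebra
  have hj : algebraMap K K₁ = j := rfl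
  have : CharZero K := charZero_of_injective_ringHom i.injective
  have : CharZero K₁ := charZero_of_injective_ringHom j.injective
  obtain ⟨D, hD⟩ := exists_D (K := K) (K₁ := K₁) (t := t) ht
  have ht0 : t ≠ 0 := by
    intro h
    have h1 := ht Polynomial.X (by rw [Polynomial.eval₂_X, h])
    exact Polynomial.X_ne_zero h1
  -- the derivative of a masked value
  have hDγ : ∀ n, n ∉ Set.range τ → D (γ n) ≠ 0 := by
    intro n hn
    have h1 := hS n hn
    obtain ⟨g, hg⟩ : ∃ g : Polynomial K, γ n = Polynomial.eval₂ j t g := by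
      refine ⟨(optionEquivLeft ℤ I (S n)).map (eval₂Hom (Int.castRingHom K) z), ?_⟩
      rw [hγ, ← SptL.eval_ext]
      congr 1
      exact RingHom.ext_int _ _
    have h2 : D (γ n) = Polynomial.eval₂ j t (Polynomial.derivative g) := by
      have h3 := D.map_aeval g t
      rw [hD, smul_eq_mul, mul_one, Polynomial.aeval_def, Polynomial.aeval_def, hj] at h3
      rw [hg, h3]
    rw [h2]
    intro h3
    have h4 := ht _ h3
    have h5 := Polynomial.eq_C_of_natDegree_eq_zero
      (Polynomial.natDegree_eq_zero_of_derivative_eq_zero h4)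
    rw [h5, Polynomial.eval₂_C] at hg
    have h6 := h1 (Polynomial.X - Polynomial.C (g.coeff 0)) (by
      rw [Polynomial.eval₂_sub, Polynomial.eval₂_X, Polynomial.eval₂_C, hg, sub_self])
    exact Polynomial.X_sub_C_ne_zero _ h6
  obtain ⟨s, hs⟩ := exists_rk hE (C := C) (i := j.comp i) γ
  have hinj := fam_inj hE hs
  let v : Fin (rk C (j.comp i) γ) → (Fin N → K₁) := fun a n =>
    if s a ∈ Set.range τ then (if n = s a then 1 else 0)
    else (if n ∉ Set.range τ ∧ Iso C (j.comp i) (γ n) (γ (s a)) then D (γ n) else 0)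
  have hv : LinearIndependent K₁ v := by
    rw [Fintype.linearIndependent_iff]
    intro c hc b
    have h1 := congrFun hc (s b)
    rw [Finset.sum_apply, Finset.sum_eq_single b] at h1
    · rw [Pi.smul_apply, smul_eq_mul, Pi.zero_apply] at h1
      refine (mul_eq_zero.1 h1).resolve_right ?_
      by_cases hb : s b ∈ Set.range τ
      · simp only [v, if_pos hb, if_true]
        exact one_ne_zero
      · simp only [v, if_neg hb]
        rw [if_pos ⟨hb, (hE C K₁ (j.comp i)).1 _⟩]
        exact hDγ _ hb
    · intro a _ hab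
      rw [Pi.smul_apply, smul_eq_mul]
      refine mul_eq_zero_of_right _ ?_
      by_cases ha : s a ∈ Set.range τ
      · simp only [v, if_pos ha]
        rw [if_neg]
        exact fun h => hab (hinj h).symm
      · simp only [v, if_neg ha]
        rw [if_neg]
        rintro ⟨-, h2⟩
        exact hs.2 b a (Ne.symm hab) h2
    · intro h; exact absurd (Finset.mem_univ _) h
  refine ⟨Submodule.span K₁ (Set.range v), ?_, ?_⟩
  · rw [finrank_span_eq_card hv, Fintype.card_fin]
  · intro w hw n m hn hm hnm P hP
    induction hw using Submodule.span_induction with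
    | mem x hx =>
      obtain ⟨a, rfl⟩ := hx
      by_cases ha : s a ∈ Set.range τ
      · have h1 : n ≠ s a := fun h => hn (h ▸ ha)
        have h2 : m ≠ s a := fun h => hm (h ▸ ha)
        simp only [v, if_pos ha, if_neg h1, if_neg h2, mul_zero, add_zero]
      · by_cases h3 : Iso C (j.comp i) (γ n) (γ (s a))
        · have h4 : Iso C (j.comp i) (γ m) (γ (s a)) :=
            (hE C K₁ (j.comp i)).2.2.1 _ _ _ ((hE C K₁ (j.comp i)).2.1 _ _ hnm) h3
          simp only [v, if_neg ha]
          rw [if_pos ⟨hn, h3⟩, if_pos ⟨hm, h4⟩]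
          exact der_pair D i (γ n) (γ m) P hP
        · have h4 : ¬ Iso C (j.comp i) (γ m) (γ (s a)) := fun h4 =>
            h3 ((hE C K₁ (j.comp i)).2.2.1 _ _ _ hnm h4)
          simp only [v, if_neg ha]
          rw [if_neg (fun h => h3 h.2), if_neg (fun h => h4 h.2), mul_zero, mul_zero, add_zero]
    | zero => simp
    | add x y _ _ hx hy =>
      rw [Pi.add_apply, Pi.add_apply]
      linear_combination hx + hy
    | smul c x _ hx =>
      rw [Pi.smul_apply, Pi.smul_apply, smul_eq_mul, smul_eq_mul]
      linear_combination c * hx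

end Pool.Agent.Helper9K9.ZY
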